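import Pool.Agent.Helper18.GP.Upper

/-!
The rate of the discrepancy.
-/

set_option autoImplicit false

namespace Pool.Agent.Helper18.GP

open Finset MeasureTheory Set Filter Topology Pool.Agent.Helper82.FK

/-- relative entropy of the Bernoulli laws with the parameters `p`, `q` -/
noncomputable def kl (p q : ℝ) : ℝ := p * Real.log (p / q) + (1 - p) * Real.log ((1 - p) / (1 - q))

/-- the rate of the discrepancy of independent uniform variables -/
noncomputable def rateD (δ : ℝ) : ℝ := sInf ((fun q => kl (q + δ) q) '' Ioo 0 (1 - δ))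

/-- functions with values in an interval of length one -/
theorem mgf_le_of_range {φ : ℝ → ℝ} (hφ : Continuous φ) (hm : ∫ t in (0 : ℝ)..1, φ t = 0) {q : ℝ}
    (hr : ∀ t, -q ≤ φ t ∧ φ t ≤ 1 - q) (θ : ℝ) :
    ∫ t in (0 : ℝ)..1, Real.exp (θ * φ t) ≤ Real.exp (-(θ * q)) * (1 + q * (Real.exp θ - 1)) := by
  have hc1 : Continuous fun t : ℝ => (φ t + q) * (Real.exp θ - 1) := (hφ.add continuous_const).mul continuous_const
  have hc2 : Continuous fun t : ℝ => Real.exp (-(θ * q)) * (1 + (φ t + q) * (Real.exp θ - 1)) :=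
    continuous_const.mul (continuous_const.add hc1)
  have hc3 : Continuous fun t : ℝ => Real.exp (θ * φ t) := Real.continuous_exp.comp (continuous_const.mul hφ)
  have h1 : ∫ t in (0 : ℝ)..1, Real.exp (-(θ * q)) * (1 + (φ t + q) * (Real.exp θ - 1)) =
      Real.exp (-(θ * q)) * (1 + q * (Real.exp θ - 1)) := by
    rw [intervalIntegral.integral_const_mul, intervalIntegral.integral_add ((continuous_const).intervalIntegrable _ _)
      (hc1.intervalIntegrable _ _), intervalIntegral.integral_mul_const,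
      intervalIntegral.integral_add (hφ.intervalIntegrable _ _) ((continuous_const).intervalIntegrable _ _), hm]
    simp
  rw [← h1]
  refine intervalIntegral.integral_mono_on (by norm_num) (hc3.intervalIntegrable _ _) (hc2.intervalIntegrable _ _) fun t _ => ?_
  obtain ⟨h2, h3⟩ := hr t
  have h4 : Real.exp (θ * φ t) = Real.exp (-(θ * q)) * Real.exp (θ * (φ t + q)) := by
    rw [← Real.exp_add]
    congr 1
    ring
  rw [h4]
  refine mul_le_mul_of_nonneg_left ?_ (Real.exp_pos _).le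
  -- convexity
  have h5 := convexOn_exp.2 (Set.mem_univ (0 : ℝ)) (Set.mem_univ θ) (show (0 : ℝ) ≤ 1 - (φ t + q) by linarith)
    (show (0 : ℝ) ≤ φ t + q by linarith) (by ring)
  simp only [smul_eq_mul, mul_zero, zero_add, Real.exp_zero, mul_one] at h5
  rw [mul_comm θ (φ t + q)]
  linarith

theorem lam_le_of_range {φ : ℝ → ℝ} (hφ : Continuous φ) (hm : ∫ t in (0 : ℝ)..1, φ t = 0) {q : ℝ} (hq0 : 0 ≤ q) (hq1 : q ≤ 1)
    (hr : ∀ t, -q ≤ φ t ∧ φ t ≤ 1 - q) (θ : ℝ) :
    lam φ θ ≤ Real.log (1 + q * (Real.exp θ - 1)) - θ * q := by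
  have h1 := mgf_le_of_range hφ hm hr θ
  have h2 := one_le_mgf hφ hm θ
  have h3 : 0 < 1 + q * (Real.exp θ - 1) := by
    have := Real.exp_pos θ
    rcases hq1.lt_or_eq with h | h
    · nlinarith
    · rw [h]; linarith
  unfold lam
  refine (Real.log_le_log (by linarith) h1).trans (le_of_eq ?_)
  rw [Real.log_mul (Real.exp_pos _).ne' h3.ne', Real.log_exp]
  ring

/-- the tangent inequality -/
theorem lam_sup {q v θ : ℝ} (hv : 0 < v) (hve : v * θ = Real.exp θ - 1) (hq : 0 < 1 + q * (Real.exp θ - 1)) :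
    Real.log (1 + q * (Real.exp θ - 1)) - θ * q ≤ Real.log v + 1 / v - 1 := by
  have h1 := Real.log_le_sub_one_of_pos (show 0 < (1 + q * (Real.exp θ - 1)) / v by positivity)
  rw [Real.log_div hq.ne' hv.ne'] at h1
  have h2 : (1 + q * (Real.exp θ - 1)) / v = 1 / v + q * θ := by
    rw [← hve]
    field_simp
  rw [h2] at h1
  linarith

/-- weighted arithmetic and geometric means -/
theorem kl_ge {p q : ℝ} (hp0 : 0 < p) (hp1 : p < 1) (hq0 : 0 < q) (hq1 : q < 1) (θ : ℝ) :
    p * θ - Real.log (1 + q * (Real.exp θ - 1)) ≤ kl p q := by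
  have h0 : 0 < 1 + q * (Real.exp θ - 1) := by
    have := Real.exp_pos θ
    nlinarith
  have hp1' : 0 < 1 - p := by linarith
  have hq1' : 0 < 1 - q := by linarith
  have hm1 : 0 < q / p * Real.exp θ := mul_pos (div_pos hq0 hp0) (Real.exp_pos θ)
  have hm2 : 0 < (1 - q) / (1 - p) := div_pos hq1' hp1'
  have h1 := strictConcaveOn_log_Ioi.concaveOn.2 (Set.mem_Ioi.2 hm1) (Set.mem_Ioi.2 hm2) hp0.le hp1'.le
    (show p + (1 - p) = 1 by ring)
  simp only [smul_eq_mul] at h1
  have hp' : 1 - p ≠ 0 := by linarith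
  have h2 : p * (q / p * Real.exp θ) + (1 - p) * ((1 - q) / (1 - p)) = 1 + q * (Real.exp θ - 1) := by
    field_simp
    ring
  rw [h2, Real.log_mul (by positivity) (Real.exp_pos θ).ne', Real.log_exp] at h1
  unfold kl
  have h3 : Real.log (q / p) = -Real.log (p / q) := by rw [← Real.log_inv, inv_div]
  have h4 : Real.log ((1 - q) / (1 - p)) = -Real.log ((1 - p) / (1 - q)) := by rw [← Real.log_inv, inv_div]
  rw [h3, h4] at h1
  linarith

/-- the stationary point -/
theorem exists_stat {δ : ℝ} (h0 : 0 < δ) (h1 : δ ≤ 1 / 40) : ∃ q : ℝ, 1 / 4 ≤ q ∧ q ≤ 3 / 4 ∧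
    Real.log (1 + δ / q) - Real.log (1 - δ / (1 - q)) = δ / (q * (1 - q)) := by
  set g : ℝ → ℝ := fun q => Real.log (1 + δ / q) - Real.log (1 - δ / (1 - q)) - δ / (q * (1 - q)) with hg
  have hest : ∀ q : ℝ, 1 / 4 ≤ q → q ≤ 3 / 4 →
      |g q - ((δ / (1 - q)) ^ 2 / 2 - (δ / q) ^ 2 / 2)| ≤ (δ / q) ^ 3 / (1 - δ / q) + (δ / (1 - q)) ^ 3 / (1 - δ / (1 - q)) := by
    intro q hq1 hq2
    have hq0 : 0 < q := by linarith
    have hq0' : 0 < 1 - q := by linarith
    have hx0 : 0 < δ / q := by positivity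
    have hy0 : 0 < δ / (1 - q) := by positivity
    have hx1 : δ / q < 1 := by rw [div_lt_one hq0]; linarith
    have hy1 : δ / (1 - q) < 1 := by rw [div_lt_one hq0']; linarith
    have h2 := Real.abs_log_sub_add_sum_range_le (x := -(δ / q)) (by rw [abs_neg, abs_of_pos hx0]; exact hx1) 2
    have h3 := Real.abs_log_sub_add_sum_range_le (x := δ / (1 - q)) (by rw [abs_of_pos hy0]; exact hy1) 2
    rw [abs_neg, abs_of_pos hx0] at h2
    rw [abs_of_pos hy0] at h3
    simp only [Finset.sum_range_succ, Finset.sum_range_zero] at h2 h3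
    norm_num at h2 h3
    have h4 : δ / (q * (1 - q)) = δ / q + δ / (1 - q) := by
      field_simp
      ring
    rw [hg]
    simp only
    rw [h4]
    have h5 := abs_le.1 h2
    have h6 := abs_le.1 h3
    rw [abs_le]
    constructor <;> [nlinarith [h5.1, h5.2, h6.1, h6.2]; nlinarith [h5.1, h5.2, h6.1, h6.2]]
  have hcont : ContinuousOn g (Icc (1 / 4) (3 / 4)) := by
    intro q hq
    have hq0 : q ≠ 0 := by linarith [hq.1]
    have hq0' : 1 - q ≠ 0 := by linarith [hq.2]
    have h2 : 1 + δ / q ≠ 0 := by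
      have : 0 < δ / q := div_pos h0 (by linarith [hq.1])
      linarith
    have h3 : 1 - δ / (1 - q) ≠ 0 := by
      have : δ / (1 - q) < 1 := by rw [div_lt_one (by linarith [hq.2])]; linarith [hq.2]
      linarith
    have h4 : ContinuousAt (fun q : ℝ => Real.log (1 + δ / q)) q :=
      (continuousAt_const.add (continuousAt_const.div continuousAt_id hq0)).log h2
    have h5 : ContinuousAt (fun q : ℝ => Real.log (1 - δ / (1 - q))) q :=
      (continuousAt_const.sub (continuousAt_const.div (continuousAt_const.sub continuousAt_id) hq0')).log h3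
    have h6 : ContinuousAt (fun q : ℝ => δ / (q * (1 - q))) q :=
      continuousAt_const.div (continuousAt_id.mul (continuousAt_const.sub continuousAt_id)) (mul_ne_zero hq0 hq0')
    exact ((h4.sub h5).sub h6).continuousWithinAt
  have herr : ∀ x : ℝ, 0 < x → x ≤ 1 / 2 → x ^ 3 / (1 - x) ≤ 2 * x ^ 3 := by
    intro x hx hx2
    rw [div_le_iff₀ (by linarith)]
    have : 0 < x ^ 3 := by positivity
    nlinarith
  have hlow : g (1 / 4) ≤ 0 := by
    have h2 := (abs_le.1 (hest (1 / 4) le_rfl (by norm_num))).2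
    have h3 : δ / (1 / 4) = 4 * δ := by ring
    have h4 : δ / (1 - 1 / 4) = 4 / 3 * δ := by ring
    rw [h3, h4] at h2
    have h5 := herr (4 * δ) (by positivity) (by linarith)
    have h6 := herr (4 / 3 * δ) (by positivity) (by linarith)
    have h7 : 0 < δ ^ 2 := by positivity
    have h8 : δ ^ 3 ≤ 1 / 40 * δ ^ 2 := by nlinarith
    nlinarith
  have hhigh : 0 ≤ g (3 / 4) := by
    have h2 := (abs_le.1 (hest (3 / 4) (by norm_num) le_rfl)).1
    have h3 : δ / (1 - 3 / 4) = 4 * δ := by ring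
    have h4 : δ / (3 / 4) = 4 / 3 * δ := by ring
    rw [h3, h4] at h2
    have h5 := herr (4 * δ) (by positivity) (by linarith)
    have h6 := herr (4 / 3 * δ) (by positivity) (by linarith)
    have h7 : 0 < δ ^ 2 := by positivity
    have h8 : δ ^ 3 ≤ 1 / 40 * δ ^ 2 := by nlinarith
    nlinarith
  obtain ⟨q, hq, hq0⟩ := intermediate_value_Icc (by norm_num : (1 / 4 : ℝ) ≤ 3 / 4) hcont ⟨hlow, hhigh⟩
  refine ⟨q, hq.1, hq.2, ?_⟩
  have : g q = 0 := hq0
  rw [hg] at this
  simp only at this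
  linarith

theorem bddBelow_rate {δ : ℝ} (h0 : 0 < δ) : ∀ q ∈ Ioo 0 (1 - δ), 0 ≤ kl (q + δ) q := by
  intro q hq
  have := kl_ge (p := q + δ) (q := q) (by linarith [hq.1]) (by linarith [hq.2]) hq.1 (by linarith [hq.2]) 0
  simpa using this

/-- **The saddle point.** -/
theorem saddle {δ : ℝ} (h0 : 0 < δ) (h1 : δ ≤ 1 / 40) : ∃ q θ : ℝ, 1 / 4 ≤ q ∧ q ≤ 3 / 4 ∧ 0 < θ ∧ θ ≤ 6 * δ ∧
    kl (q + δ) q = rateD δ ∧ ∀ q', 0 ≤ q' → q' ≤ 1 → Real.log (1 + q' * (Real.exp θ - 1)) - θ * q' ≤ θ * δ - rateD δ := by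
  obtain ⟨q, hq1, hq2, hst⟩ := exists_stat h0 h1
  have hq0 : 0 < q := by linarith
  have hq0' : 0 < 1 - q := by linarith
  set p : ℝ := q + δ with hp
  have hp0 : 0 < p := by linarith
  have hp1 : 0 < 1 - p := by linarith
  set θ : ℝ := δ / (q * (1 - q)) with hθ
  have hθ0 : 0 < θ := by positivity
  have e1 : 1 + δ / q = p / q := by rw [hp]; field_simp
  have e2 : 1 - δ / (1 - q) = (1 - p) / (1 - q) := by
    rw [hp]
    field_simp
    ring
  rw [e1, e2] at hst
  set v : ℝ := (1 - q) / (1 - p) with hv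
  have hv0 : 0 < v := by positivity
  have hlv : Real.log ((1 - p) / (1 - q)) = -Real.log v := by rw [hv, ← Real.log_inv, inv_div]
  have hexp : Real.exp θ = p / q * v := by
    have h2 : Real.log (p / q * v) = θ := by
      rw [Real.log_mul (by positivity) hv0.ne']
      rw [hlv] at hst
      linarith
    rw [← h2, Real.exp_log (by positivity)]
  have hve : v * θ = Real.exp θ - 1 := by
    rw [hexp, hv, hθ]
    have h3 : p = q + δ := hp
    field_simp
    rw [h3]
    ring
  have hinv : 1 / v - 1 = -(θ * q) := by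
    rw [hv, hθ, hp]
    field_simp
    ring
  -- the value
  have hD : kl p q = θ * δ - (Real.log v + 1 / v - 1) := by
    have h4 : Real.log (p / q) = θ - Real.log v := by
      rw [hlv] at hst
      linarith
    unfold kl
    rw [h4, hlv]
    have h5 : Real.log v + 1 / v - 1 = Real.log v - θ * q := by linarith
    rw [h5, hp]
    ring
  have hsup : ∀ q', 0 ≤ q' → q' ≤ 1 → Real.log (1 + q' * (Real.exp θ - 1)) - θ * q' ≤ Real.log v + 1 / v - 1 := by
    intro q' h2 h3
    refine lam_sup hv0 hve ?_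
    have := Real.add_one_le_exp θ
    nlinarith
  have hmin : ∀ q' ∈ Ioo 0 (1 - δ), kl p q ≤ kl (q' + δ) q' := by
    intro q' hq'
    have h2 := kl_ge (p := q' + δ) (q := q') (by linarith [hq'.1]) (by linarith [hq'.2]) hq'.1 (by linarith [hq'.2]) θ
    have h3 := hsup q' hq'.1.le (by linarith [hq'.2])
    rw [hD]
    linarith
  have hrate : kl p q = rateD δ := by
    refine le_antisymm ?_ ?_
    · refine le_csInf ⟨_, ⟨q, ⟨hq0, by linarith⟩, rfl⟩⟩ ?_
      rintro y ⟨q', hq', rfl⟩
      exact hmin q' hq'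
    · refine csInf_le ⟨0, ?_⟩ ⟨q, ⟨hq0, by linarith⟩, rfl⟩
      rintro y ⟨q', hq', rfl⟩
      exact bddBelow_rate h0 q' hq'
  refine ⟨q, θ, hq1, hq2, hθ0, ?_, hrate, fun q' h2 h3 => ?_⟩
  · rw [hθ, div_le_iff₀ (by positivity)]
    have h2 : 3 / 16 ≤ q * (1 - q) := by nlinarith
    nlinarith
  · have h4 := hsup q' h2 h3
    rw [← hrate, hD]
    linarith

end Pool.Agent.Helper18.GP
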