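import Pool.Agent.Helper18.GP.Cls

/-!
Algebra of trigonometric polynomials.
-/

set_option autoImplicit false

namespace Pool.Agent.Helper18.GP

open Finset MeasureTheory Set Filter Topology Pool.Agent.Helper82.FK

/-- trigonometric polynomials of degree at most `H` with norm at most `W` -/
def TP (H : ℕ) (W : ℝ) (f : ℝ → ℂ) : Prop := ∃ c : ℤ → ℂ, (∀ t, gp H c t = f t) ∧ nm H c ≤ W

theorem TP.mono_nm {H : ℕ} {W W' : ℝ} {f : ℝ → ℂ} (h : TP H W f) (hW : W ≤ W') : TP H W' f := by
  obtain ⟨c, h1, h2⟩ := h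
  exact ⟨c, h1, h2.trans hW⟩

theorem TP.mono_deg {H H' : ℕ} {W : ℝ} {f : ℝ → ℂ} (h : TP H W f) (hH : H ≤ H') : TP H' W f := by
  obtain ⟨c, h1, h2⟩ := h
  have hsub : Finset.Icc (-(H : ℤ)) H ⊆ Finset.Icc (-(H' : ℤ)) H' := Finset.Icc_subset_Icc (by omega) (by omega)
  refine ⟨fun k => if k ∈ Finset.Icc (-(H : ℤ)) H then c k else 0, fun t => ?_, ?_⟩
  · rw [← h1 t]
    unfold gp
    rw [← Finset.sum_subset hsub (f := fun k => (if k ∈ Finset.Icc (-(H : ℤ)) H then c k else 0) * e (k * t))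
      (fun k _ hk => by simp only [if_neg hk, zero_mul])]
    exact sum_congr rfl fun k hk => by rw [if_pos hk]
  · refine le_trans (le_of_eq ?_) h2
    unfold nm
    rw [← Finset.sum_subset hsub (f := fun k => ‖if k ∈ Finset.Icc (-(H : ℤ)) H then c k else 0‖)
      (fun k _ hk => by simp only [if_neg hk, norm_zero])]
    exact sum_congr rfl fun k hk => by rw [if_pos hk]

theorem TP.congr {H : ℕ} {W : ℝ} {f g : ℝ → ℂ} (h : TP H W f) (hfg : ∀ t, f t = g t) : TP H W g := by
  obtain ⟨c, h1, h2⟩ := h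
  exact ⟨c, fun t => (h1 t).trans (hfg t), h2⟩

theorem TP.const (H : ℕ) (z : ℂ) : TP H ‖z‖ (fun _ => z) := by
  refine TP.mono_deg (H := 0) ⟨fun k => z, fun t => ?_, ?_⟩ (Nat.zero_le H)
  · unfold gp
    simp [e_zero]
  · unfold nm
    simp

theorem TP.add {H : ℕ} {W W' : ℝ} {f g : ℝ → ℂ} (hf : TP H W f) (hg : TP H W' g) :
    TP H (W + W') (fun t => f t + g t) := by
  obtain ⟨c, h1, h2⟩ := hf
  obtain ⟨d, h3, h4⟩ := hg
  refine ⟨fun k => c k + d k, fun t => ?_, ?_⟩
  · show _ = f t + g t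
    rw [← h1, ← h3]
    unfold gp
    rw [← sum_add_distrib]
    exact sum_congr rfl fun k _ => by ring
  · refine le_trans ?_ (add_le_add h2 h4)
    unfold nm
    rw [← sum_add_distrib]
    exact sum_le_sum fun k _ => norm_add_le _ _

theorem TP.smul {H : ℕ} {W : ℝ} {f : ℝ → ℂ} (hf : TP H W f) (z : ℂ) : TP H (‖z‖ * W) (fun t => z * f t) := by
  obtain ⟨c, h1, h2⟩ := hf
  refine ⟨fun k => z * c k, fun t => ?_, ?_⟩
  · show _ = z * f t
    rw [← h1]
    unfold gp
    rw [mul_sum]
    exact sum_congr rfl fun k _ => by ring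
  · have h3 : nm H (fun k => z * c k) = ‖z‖ * nm H c := by
      unfold nm
      rw [mul_sum]
      exact sum_congr rfl fun k _ => norm_mul _ _
    rw [h3]
    exact mul_le_mul_of_nonneg_left h2 (norm_nonneg _)

/-- convolution of the coefficients -/
noncomputable def conv (H H' : ℕ) (c d : ℤ → ℂ) (k : ℤ) : ℂ :=
  ∑ i ∈ Finset.Icc (-(H : ℤ)) H, if k - i ∈ Finset.Icc (-(H' : ℤ)) H' then c i * d (k - i) else 0

theorem sum_conv {M : Type*} [AddCommMonoid M] (H H' : ℕ) (i : ℤ) (hi : i ∈ Finset.Icc (-(H : ℤ)) H) (F : ℤ → M) :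
    ∑ k ∈ Finset.Icc (-((H + H' : ℕ) : ℤ)) ((H + H' : ℕ) : ℤ), (if k - i ∈ Finset.Icc (-(H' : ℤ)) H' then F (k - i) else 0) =
      ∑ j ∈ Finset.Icc (-(H' : ℤ)) H', F j := by
  rw [← sum_filter]
  refine sum_nbij' (fun k => k - i) (fun j => j + i) (fun k hk => ?_) (fun j hj => ?_) (fun k _ => by ring)
    (fun j _ => by ring) (fun k _ => rfl)
  · exact (Finset.mem_filter.1 hk).2
  · rw [Finset.mem_filter]
    rw [Finset.mem_Icc] at hi hj ⊢
    refine ⟨?_, by rw [add_sub_cancel_right, Finset.mem_Icc]; exact hj⟩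
    push_cast
    omega

theorem TP.mul {H H' : ℕ} {W W' : ℝ} {f g : ℝ → ℂ} (hf : TP H W f) (hg : TP H' W' g) :
    TP (H + H') (W * W') (fun t => f t * g t) := by
  obtain ⟨c, h1, h2⟩ := hf
  obtain ⟨d, h3, h4⟩ := hg
  refine ⟨conv H H' c d, fun t => ?_, ?_⟩
  · show _ = f t * g t
    rw [← h1, ← h3]
    unfold gp conv
    simp_rw [sum_mul]
    rw [sum_comm]
    refine sum_congr rfl fun i hi => ?_
    rw [mul_sum, ← sum_conv H H' i hi (fun j => c i * e (i * t) * (d j * e (j * t)))]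
    refine sum_congr rfl fun k _ => ?_
    split_ifs with h
    · have h5 : e ((k : ℝ) * t) = e (i * t) * e (((k - i : ℤ) : ℝ) * t) := by
        rw [← e_add]
        congr 1
        push_cast
        ring
      rw [h5]
      ring
    · rw [zero_mul]
  · have h5 : nm (H + H') (conv H H' c d) ≤ nm H c * nm H' d := by
      unfold nm
      rw [sum_mul]
      calc ∑ k ∈ Finset.Icc (-((H + H' : ℕ) : ℤ)) ((H + H' : ℕ) : ℤ), ‖conv H H' c d k‖
          ≤ ∑ k ∈ Finset.Icc (-((H + H' : ℕ) : ℤ)) ((H + H' : ℕ) : ℤ), ∑ i ∈ Finset.Icc (-(H : ℤ)) H,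
              (if k - i ∈ Finset.Icc (-(H' : ℤ)) H' then ‖c i‖ * ‖d (k - i)‖ else 0) := by
            refine sum_le_sum fun k _ => ?_
            unfold conv
            refine (norm_sum_le _ _).trans (le_of_eq (sum_congr rfl fun i _ => ?_))
            split_ifs
            · rw [norm_mul]
            · rw [norm_zero]
        _ = ∑ i ∈ Finset.Icc (-(H : ℤ)) H, ‖c i‖ * ∑ j ∈ Finset.Icc (-(H' : ℤ)) H', ‖d j‖ := by
            rw [sum_comm]
            refine sum_congr rfl fun i hi => ?_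
            rw [mul_sum, ← sum_conv H H' i hi (fun j => ‖c i‖ * ‖d j‖)]
    exact h5.trans (mul_le_mul h2 h4 (nm_nonneg _ _) ((nm_nonneg _ _).trans h2))

theorem TP.pow {H : ℕ} {W : ℝ} {f : ℝ → ℂ} (hf : TP H W f) (n : ℕ) : TP (n * H) (W ^ n) (fun t => f t ^ n) := by
  induction n with
  | zero =>
    have := TP.const (0 * H) 1
    rw [norm_one] at this
    simpa using this
  | succ n ih =>
    have h1 := ih.mul hf
    rw [← pow_succ] at h1
    have h2 : (n + 1) * H = n * H + H := by ring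
    rw [h2]
    exact h1.congr fun t => (pow_succ _ _).symm

/-- Taylor polynomials of the exponential -/
theorem TP.exp {H : ℕ} {W : ℝ} {f : ℝ → ℂ} (hf : TP H W f) (hW : 0 ≤ W) (n : ℕ) :
    TP (n * H) (Real.exp W) (fun t => ∑ i ∈ range (n + 1), f t ^ i / (i.factorial : ℂ)) := by
  have h1 : ∀ m ≤ n, TP (n * H) (∑ i ∈ range (m + 1), W ^ i / (i.factorial : ℝ))
      (fun t => ∑ i ∈ range (m + 1), f t ^ i / (i.factorial : ℂ)) := by
    intro m
    induction m with
    | zero =>
      intro _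
      have := TP.const (n * H) 1
      rw [norm_one] at this
      simpa using this
    | succ m ih =>
      intro hm
      have h2 := ih (by omega)
      have h3 := ((hf.pow (m + 1)).smul (((m + 1).factorial : ℂ))⁻¹).mono_deg (Nat.mul_le_mul_right H hm)
      have h4 := h2.add h3
      have h5 : ‖(((m + 1).factorial : ℂ))⁻¹‖ = (((m + 1).factorial : ℝ))⁻¹ := by
        rw [norm_inv, Complex.norm_natCast]
      rw [h5] at h4
      have h6 := h4.congr (g := fun t => ∑ i ∈ range (m + 1 + 1), f t ^ i / (i.factorial : ℂ)) (fun t => by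
        rw [sum_range_succ _ (m + 1)]
        ring)
      refine h6.mono_nm (le_of_eq ?_)
      rw [sum_range_succ _ (m + 1)]
      ring
  exact (h1 n le_rfl).mono_nm (Real.sum_le_exp_of_nonneg hW _)

/-- the mean -/
theorem gp_int (H : ℕ) (c : ℤ → ℂ) : ∫ t in (0 : ℝ)..1, gp H c t = c 0 := by
  unfold gp
  have hcont : ∀ h : ℤ, Continuous fun t : ℝ => c h * e (h * t) := fun h =>
    continuous_const.mul (continuous_e.comp (continuous_const.mul continuous_id))
  rw [intervalIntegral.integral_finsetSum fun h _ => (hcont h).intervalIntegrable _ _]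
  rw [Finset.sum_eq_single (0 : ℤ)]
  · simp [e_zero]
  · intro h _ hh
    rw [intervalIntegral.integral_const_mul]
    have h1 : ∫ t in (0 : ℝ)..1, e (h * t) = 0 := by
      have hne : (2 * Real.pi * (h : ℂ) * Complex.I : ℂ) ≠ 0 := by
        simp [hh, Real.pi_ne_zero]
      have h2 : ∀ t ∈ uIcc (0 : ℝ) 1, HasDerivAt (fun t : ℝ => e (h * t) / (2 * Real.pi * (h : ℂ) * Complex.I)) (e (h * t)) t := by
        intro t _
        have h3 : HasDerivAt (fun t : ℝ => (h * t : ℝ)) (h : ℝ) t := by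
          simpa using (hasDerivAt_id t).const_mul (h : ℝ)
        have h4 := (hasDerivAt_e h3).div_const (2 * Real.pi * (h : ℂ) * Complex.I : ℂ)
        rw [show ((2 * Real.pi * (h : ℝ) : ℝ) : ℂ) * Complex.I * e (h * t) =
          e (h * t) * (2 * Real.pi * (h : ℂ) * Complex.I : ℂ) by push_cast; ring, mul_div_cancel_right₀ _ hne] at h4
        exact h4
      rw [intervalIntegral.integral_eq_sub_of_hasDerivAt h2
        ((continuous_e.comp (continuous_const.mul continuous_id)).intervalIntegrable _ _)]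
      have h5 : e ((h : ℝ) * 1) = 1 := by
        unfold e
        rw [mul_one]
        have : ((2 * Real.pi * (h : ℝ) : ℝ) : ℂ) * Complex.I = h * (2 * Real.pi * Complex.I) := by push_cast; ring
        rw [this, Complex.exp_int_mul_two_pi_mul_I]
      rw [h5, mul_zero, e_zero, sub_self]
    rw [h1, mul_zero]
  · intro h
    exact absurd (Finset.mem_Icc.2 ⟨by omega, by omega⟩) h

theorem coeff_zero {H : ℕ} {c : ℤ → ℂ} {g : ℝ → ℝ} (h : ∀ t, gp H c t = g t) : c 0 = ((∫ t in (0 : ℝ)..1, g t : ℝ) : ℂ) := by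
  rw [← gp_int H c, ← intervalIntegral.integral_ofReal]
  exact intervalIntegral.integral_congr fun t _ => h t

end Pool.Agent.Helper18.GP
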