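import Pool.Agent.Helper18.GP.DimU

/-!
Cumulant functions and the classes of trigonometric polynomials.
-/

set_option autoImplicit false

namespace Pool.Agent.Helper18.GP

open Finset MeasureTheory Set Filter Topology Pool.Agent.Helper82.FK

/-- the cumulant generating function of `p(U)`, `U` uniform on `[0,1]` -/
noncomputable def lam (p : ℝ → ℝ) (θ : ℝ) : ℝ := Real.log (∫ t in (0 : ℝ)..1, Real.exp (θ * p t))

/-- real trigonometric polynomials with mean zero, of degree at most `(1/δ)^A`, with the sum of the absolute values of the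
coefficients at most `A (1 + log (1/δ))`, bounded by `A` -/
structure TC (A : ℕ) (δ : ℝ) (H : ℕ) (c : ℤ → ℂ) (p : ℝ → ℝ) : Prop where
  eq : ∀ t, gp H c t = p t
  deg : (H : ℝ) ≤ (1 / δ) ^ A
  nm_le : nm H c ≤ A * (1 + Real.log (1 / δ))
  c0 : c 0 = 0
  bd : ∀ t, |p t| ≤ A

end Pool.Agent.Helper18.GP
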