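import Pool.Agent.Helper82.FK.VC

/-!
# Project GP: the powers on a whole interval

`u_n(x) = x^n + c_n` on `[a,b]`, `1 < a < b`.  Upper bound for the dimension of the `x` for which the mean of a
trigonometric polynomial over `u_1, ..., u_N` is large infinitely often, uniformly near all points (also near the
points `x` with `x^d` rational).

`F k c x` is the `k`-th derivative of `x ↦ ∑ c_j x^(-j)`.
-/

set_option autoImplicit false

namespace Pool.Agent.Helper18.GP

open Finset MeasureTheory Set

/-- rising factorial `j (j+1) ... (j+k-1)` -/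
def rf (j k : ℕ) : ℝ := ∏ i ∈ range k, ((j : ℝ) + i)

/-- the `k`-th derivative of `x ↦ ∑ c_j x^(-j)` -/
noncomputable def F (k : ℕ) (c : ℕ → ℝ) (x : ℝ) : ℝ := ∑' j : ℕ, c j * ((-1) ^ k * rf j k * (x⁻¹) ^ (j + k))

/-- coefficient sequences -/
def Cs (H : ℝ) : Set (ℕ → ℝ) := {c | 1 ≤ |c 0| ∧ ∀ j, |c j| ≤ H}

/-- bound for the orders of the zeros -/
noncomputable def KK (a H : ℝ) : ℕ := ⌊Real.log (H / (1 - (√a)⁻¹)) / Real.log (√a)⌋₊

/-- the exponent for coefficients bounded by `H` -/
noncomputable def kap (a H : ℝ) : ℝ := 1 / (2 * ((KK a H : ℝ) + 1))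

end Pool.Agent.Helper18.GP
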