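import Pool.Agent.Helper18.GP.Poly
import Pool.Agent.Helper82.FK.DimExp

/-!
Upper bound for the Hausdorff dimension of the set where sums over powers are large infinitely often.
-/

set_option autoImplicit false

namespace Pool.Agent.Helper18.GP

open Finset MeasureTheory Set Filter Topology Pool.Agent.Helper82.FK

theorem dim_of_vol {a b : ℝ} (ha : 1 < a) (hab : a < b) {S : ℕ → ℝ → ℝ} {K : ℝ} (hK : 0 < K)
    (hlip : ∀ N : ℕ, ∀ x ∈ Icc a b, ∀ y ∈ Icc a b, |S N x - S N y| ≤ N * (K * (N + 1) * b ^ N * |x - y|))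
    {h R : ℝ} (hvol : ∀ ε : ℝ, 0 < ε → ∃ C : ℝ, 0 < C ∧ ∀ N : ℕ,
      volume {x | x ∈ Icc a b ∧ (h - ε) * N ≤ S N x} ≤ ENNReal.ofReal (C * Real.exp (-((R - ε) * N)))) :
    dimH {x | x ∈ Icc a b ∧ ∃ᶠ N : ℕ in atTop, h * N ≤ S N x} ≤ ENNReal.ofReal (1 - R / Real.log b) := by
  have hb1 : 1 < b := ha.trans hab
  have hlb : 0 < Real.log b := Real.log_pos hb1
  have hba : 0 < b - a := by linarith
  set G : Set ℝ := {x | x ∈ Icc a b ∧ ∃ᶠ N : ℕ in atTop, h * N ≤ S N x} with hG
  have hmain : ∀ d : ℝ, 0 < d → 1 - R / Real.log b < d → dimH G ≤ ENNReal.ofReal d := by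
    intro d hd0 hd
    rcases le_or_gt 1 d with hd1 | hd1
    · refine (dimH_mono (subset_univ G)).trans ?_
      rw [Real.dimH_univ, ENNReal.one_le_ofReal]
      exact hd1
    set η : ℝ := R - (1 - d) * Real.log b with hη
    have hη0 : 0 < η := by
      have h1 : 1 - d < R / Real.log b := by linarith
      rw [lt_div_iff₀ hlb] at h1
      linarith
    set ε : ℝ := η / 2 with hε
    have hε0 : 0 < ε := by positivity
    obtain ⟨C, hC0, hC⟩ := hvol ε hε0
    set M₀ : ℝ := (b - a) * K / ε + 2 with hM₀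
    have hM₀0 : 0 < M₀ := by positivity
    set q : ℕ → ℕ := fun N => ⌈(b - a) * (K * (N + 1) * b ^ N) / ε⌉₊ + (N + 1) with hq
    have hq1 : ∀ N, N + 1 ≤ q N := fun N => Nat.le_add_left _ _
    have hqlow : ∀ N : ℕ, (b - a) * (K * ((N : ℝ) + 1) * b ^ N) / ε ≤ (q N : ℝ) := by
      intro N
      have h1 := Nat.le_ceil ((b - a) * (K * ((N : ℝ) + 1) * b ^ N) / ε)
      have h2 : ((⌈(b - a) * (K * ((N : ℝ) + 1) * b ^ N) / ε⌉₊ : ℕ) : ℝ) ≤ q N := Nat.cast_le.2 (Nat.le_add_right _ _)
      exact h1.trans h2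
    have hbA : ∀ N : ℕ, (1 : ℝ) ≤ b ^ N := fun N => one_le_pow₀ hb1.le
    have hqup : ∀ N : ℕ, (q N : ℝ) ≤ M₀ * ((N + 1) * b ^ N) := by
      intro N
      have h1 := (Nat.ceil_lt_add_one (show 0 ≤ (b - a) * (K * ((N : ℝ) + 1) * b ^ N) / ε by positivity)).le
      have h2 : (q N : ℝ) = (⌈(b - a) * (K * ((N : ℝ) + 1) * b ^ N) / ε⌉₊ : ℕ) + ((N : ℝ) + 1) := by
        rw [hq]
        push_cast
        ring
      rw [h2]
      have h3 : (1 : ℝ) ≤ (N + 1) * b ^ N := by
        have := hbA N
        have h4 : (0 : ℝ) ≤ N := by positivity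
        nlinarith
      have h4 : (N : ℝ) + 1 ≤ (N + 1) * b ^ N := by
        have := hbA N
        have h5 : (0 : ℝ) ≤ N := by positivity
        nlinarith
      have h5 : (b - a) * (K * ((N : ℝ) + 1) * b ^ N) / ε = (b - a) * K / ε * ((N + 1) * b ^ N) := by ring
      rw [h5] at h1 ⊢
      rw [hM₀]
      linarith
    have hqr : ∀ N, (0 : ℝ) < q N := fun N => by
      have := hq1 N
      have : 0 < q N := by omega
      exact_mod_cast this
    set E : ℕ → Set ℝ := fun N => {x | x ∈ Icc a b ∧ h * N ≤ S N x} with hE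
    set E' : ℕ → Set ℝ := fun N => {x | x ∈ Icc a b ∧ (h - ε) * N ≤ S N x} with hE'
    have hGE : G ⊆ {x | ∃ᶠ N in atTop, x ∈ E N} := by
      rintro x ⟨hx, hfr⟩
      exact hfr.mono fun N hN => ⟨hx, hN⟩
    have hnull := limsup_null hab (E := E) (E' := E') hq1 (fun N x hx => hx.1) (fun N x hx y hy hxy => ?_) hd0 ?_
    · have hd' : ((Real.toNNReal d : NNReal) : ℝ) = d := Real.coe_toNNReal d hd0.le
      have h0 : Measure.hausdorffMeasure ((Real.toNNReal d : NNReal) : ℝ) G = 0 := by
        rw [hd']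
        exact measure_mono_null hGE hnull
      exact dimH_le_of_hausdorffMeasure_ne_top (d := Real.toNNReal d) (s := G) (by rw [h0]; exact ENNReal.zero_ne_top)
    · -- cells
      refine ⟨hy, ?_⟩
      have h1 := hlip N x hx.1 y hy
      have h2 : K * ((N : ℝ) + 1) * b ^ N * |x - y| ≤ ε := by
        have h3 := hqlow N
        have h4 : |x - y| * q N ≤ b - a := by
          rwa [le_div_iff₀ (hqr N)] at hxy
        have h5 : (b - a) * (K * ((N : ℝ) + 1) * b ^ N) ≤ q N * ε := by
          rwa [div_le_iff₀ hε0] at h3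
        have h6 : |x - y| * ((b - a) * (K * ((N : ℝ) + 1) * b ^ N)) ≤ (b - a) * ε := by
          calc |x - y| * ((b - a) * (K * ((N : ℝ) + 1) * b ^ N)) ≤ |x - y| * (q N * ε) := by gcongr
            _ = (|x - y| * q N) * ε := by ring
            _ ≤ (b - a) * ε := by gcongr
        have h7 : (b - a) * (K * ((N : ℝ) + 1) * b ^ N * |x - y|) ≤ (b - a) * ε := by linarith
        exact le_of_mul_le_mul_left h7 hba
      have h3 : |S N x - S N y| ≤ N * ε := h1.trans (by gcongr)
      have h4 := abs_le.1 h3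
      have h5 := hx.2
      show (h - ε) * N ≤ S N y
      linarith
    · -- summability
      have hb : ∀ N, volume (E' N) * ENNReal.ofReal (((b - a) / q N) ^ (d - 1)) ≤
          ENNReal.ofReal (C * (M₀ / (b - a)) ^ (1 - d) * (((N : ℝ) + 1) * Real.exp (-(ε * N)))) := by
        intro N
        refine (mul_le_mul' (hC N) le_rfl).trans ?_
        rw [← ENNReal.ofReal_mul (by positivity)]
        apply ENNReal.ofReal_le_ofReal
        have h2 : ((b - a) / (q N : ℝ)) ^ (d - 1) = ((q N : ℝ) / (b - a)) ^ (1 - d) := by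
          rw [show d - 1 = -(1 - d) by ring, Real.rpow_neg (by positivity), ← Real.inv_rpow (by positivity), inv_div]
        have h3 : ((q N : ℝ) / (b - a)) ^ (1 - d) ≤ (M₀ / (b - a)) ^ (1 - d) * (((N : ℝ) + 1) * Real.exp ((1 - d) * Real.log b * N)) := by
          have h4 : (q N : ℝ) / (b - a) ≤ M₀ / (b - a) * ((N + 1) * b ^ N) := by
            rw [div_mul_eq_mul_div]
            apply div_le_div_of_nonneg_right (hqup N) hba.le
          have h5 : ((q N : ℝ) / (b - a)) ^ (1 - d) ≤ (M₀ / (b - a) * ((N + 1) * b ^ N)) ^ (1 - d) :=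
            Real.rpow_le_rpow (by positivity) h4 (by linarith)
          refine h5.trans ?_
          rw [Real.mul_rpow (by positivity) (by positivity), Real.mul_rpow (by positivity) (by positivity)]
          have h6 : ((N : ℝ) + 1) ^ (1 - d) ≤ (N : ℝ) + 1 := by
            have : ((N : ℝ) + 1) ^ (1 - d) ≤ ((N : ℝ) + 1) ^ (1 : ℝ) :=
              Real.rpow_le_rpow_of_exponent_le (by linarith [(Nat.cast_nonneg N : (0 : ℝ) ≤ N)]) (by linarith)
            rwa [Real.rpow_one] at this
          have h7 : (b ^ N) ^ (1 - d) = Real.exp ((1 - d) * Real.log b * N) := by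
            rw [← Real.rpow_natCast, ← Real.rpow_mul (by linarith), Real.rpow_def_of_pos (by linarith)]
            congr 1
            ring
          rw [h7]
          gcongr
        rw [h2]
        have h8 : Real.exp (-((R - ε) * N)) * Real.exp ((1 - d) * Real.log b * N) = Real.exp (-(ε * N)) := by
          rw [← Real.exp_add]
          congr 1
          rw [hε, hη]
          ring
        calc C * Real.exp (-((R - ε) * N)) * ((q N : ℝ) / (b - a)) ^ (1 - d) ≤
            C * Real.exp (-((R - ε) * N)) * ((M₀ / (b - a)) ^ (1 - d) * (((N : ℝ) + 1) * Real.exp ((1 - d) * Real.log b * N))) := by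
              gcongr
          _ = C * (M₀ / (b - a)) ^ (1 - d) * (((N : ℝ) + 1) * (Real.exp (-((R - ε) * N)) * Real.exp ((1 - d) * Real.log b * N))) := by ring
          _ = _ := by rw [h8]
      refine ne_top_of_le_ne_top ?_ (ENNReal.tsum_le_tsum hb)
      rw [← ENNReal.ofReal_tsum_of_nonneg (fun N => by positivity) ((summable_aux hε0).mul_left _)]
      exact ENNReal.ofReal_ne_top
  apply ENNReal.le_of_forall_pos_le_add
  intro ε hε _
  have hε' : (0 : ℝ) < ε := hε
  set D₀ : ℝ := 1 - R / Real.log b with hD₀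
  refine (hmain (max D₀ 0 + ε) (by positivity) (by linarith [le_max_left D₀ 0])).trans ?_
  rw [ENNReal.ofReal_add (le_max_right _ _) hε'.le]
  apply add_le_add
  · rcases le_total D₀ 0 with h | h
    · rw [max_eq_right h]
      simp
    · rw [max_eq_left h]
  · rw [ENNReal.ofReal_coe_nnreal]

/-- sums of a Lipschitz function over shifted powers -/
noncomputable def Sp (φ : ℝ → ℝ) (s : ℕ → ℝ) (N : ℕ) (x : ℝ) : ℝ := ∑ n ∈ range N, φ (x ^ (n + 1) + s n)

theorem Sp_lip {b : ℝ} (hb : 1 ≤ b) {φ : ℝ → ℝ} {K : ℝ} (hK : 0 ≤ K) (hφ : ∀ t u, |φ t - φ u| ≤ K * |t - u|) (s : ℕ → ℝ)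
    (N : ℕ) {x y : ℝ} (hx0 : 0 ≤ x) (hx : x ≤ b) (hy0 : 0 ≤ y) (hy : y ≤ b) :
    |Sp φ s N x - Sp φ s N y| ≤ N * (K * (N + 1) * b ^ N * |x - y|) := by
  unfold Sp
  rw [← sum_sub_distrib]
  refine (abs_sum_le_sum_abs _ _).trans ?_
  have h1 : ∀ n ∈ range N, |φ (x ^ (n + 1) + s n) - φ (y ^ (n + 1) + s n)| ≤ K * (N + 1) * b ^ N * |x - y| := by
    intro n hn
    have hn' : n + 1 ≤ N := Finset.mem_range.1 hn
    refine (hφ _ _).trans ?_
    rw [add_sub_add_right_eq_sub]
    have h2 : |x ^ (n + 1) - y ^ (n + 1)| ≤ (N + 1) * b ^ N * |x - y| := by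
      have h3 := (convex_Icc 0 b).norm_image_sub_le_of_norm_hasDerivWithin_le (f := fun z : ℝ => z ^ (n + 1))
        (f' := fun z => ((n + 1 : ℕ) : ℝ) * z ^ n) (C := (N + 1) * b ^ N)
        (fun z _ => (by simpa using (hasDerivAt_pow (n + 1) z).hasDerivWithinAt)) (fun z hz => by
          rw [Real.norm_eq_abs, abs_of_nonneg (mul_nonneg (by positivity) (pow_nonneg hz.1 _))]
          have h4 : z ^ n ≤ b ^ n := pow_le_pow_left₀ hz.1 hz.2 n
          have h5 : b ^ n ≤ b ^ N := pow_le_pow_right₀ hb (by omega)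
          have h6 : ((n + 1 : ℕ) : ℝ) ≤ N + 1 := by
            have : ((n + 1 : ℕ) : ℝ) ≤ N := by exact_mod_cast hn'
            linarith
          exact mul_le_mul h6 (h4.trans h5) (pow_nonneg hz.1 _) (by positivity)) (show y ∈ Icc 0 b from ⟨hy0, hy⟩)
          (show x ∈ Icc 0 b from ⟨hx0, hx⟩)
      simpa [Real.norm_eq_abs] using h3
    calc K * |x ^ (n + 1) - y ^ (n + 1)| ≤ K * ((N + 1) * b ^ N * |x - y|) := by gcongr
      _ = _ := by ring
  refine (sum_le_sum h1).trans (le_of_eq ?_)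
  rw [sum_const, card_range, nsmul_eq_mul]

/-- **Chernoff bound.** -/
theorem chernoff {a b : ℝ} (ha : 1 < a) (hab : a < b) (H : ℕ) (hH : 1 ≤ H)
    (c : ℤ → ℂ) (m : ℝ) (g φ : ℝ → ℝ) (K : ℝ) (hm : 0 < m) (hc0 : c 0 = m) (hnm : nm H c < m * a ^ (kap a H))
    (hg : ∀ t, gp H c t = g t) (hφg : ∀ t, Real.exp (φ t) ≤ g t) (hlip : ∀ t u, |φ t - φ u| ≤ K * |t - u|)
    (s : ℕ → ℝ) (h : ℝ) : dimH {x | x ∈ Icc a b ∧ ∃ᶠ N : ℕ in atTop, h * N ≤ Sp φ s N x} ≤
        ENNReal.ofReal (1 - (h - Real.log m) / Real.log b) := by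
  have hK0 : 0 ≤ K := by
    have h1 := hlip 1 0
    have := (abs_nonneg _).trans h1
    simpa using this
  -- normalization
  set c' : ℤ → ℂ := fun k => c k / m with hc'
  have hm' : (m : ℂ) ≠ 0 := by exact_mod_cast hm.ne'
  have h1 : c' 0 = 1 := by rw [hc']; simp only; rw [hc0, div_self hm']
  have h2 : nm H c' = nm H c / m := by
    unfold nm
    rw [sum_div]
    refine sum_congr rfl fun k _ => ?_
    rw [hc', norm_div, Complex.norm_real, Real.norm_eq_abs, abs_of_pos hm]
  have h3 : nm H c' < a ^ (kap a H) := by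
    rw [h2, div_lt_iff₀ hm, mul_comm]
    exact hnm
  obtain ⟨C, hC⟩ := mass ha hab.le H hH c' h1 h3
  have hgc : Continuous g := by
    have h4 : g = fun t => (gp H c t).re := by
      funext t
      rw [hg t, Complex.ofReal_re]
    rw [h4]
    exact Complex.continuous_re.comp (gp_cont H c)
  have hg0 : ∀ t, 0 < g t := fun t => (Real.exp_pos _).trans_le (hφg t)
  have hφc : Continuous φ := by
    have : LipschitzWith K.toNNReal φ := LipschitzWith.of_dist_le_mul fun x y => by
      rw [Real.dist_eq, Real.dist_eq, Real.coe_toNNReal K hK0]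
      exact hlip x y
    exact this.continuous
  -- the mass
  have hint : ∀ N : ℕ, ∫ x in a..b, ∏ n ∈ range N, g (x ^ (n + 1) + s n) ≤ |C| * m ^ N := by
    intro N
    have h5 := hC s N
    have h6 : ∫ x in a..b, ∏ n ∈ range N, gp H c' (x ^ (n + 1) + s n) =
        ((∫ x in a..b, ∏ n ∈ range N, g (x ^ (n + 1) + s n) : ℝ) : ℂ) / (m : ℂ) ^ N := by
      rw [← intervalIntegral.integral_ofReal, ← intervalIntegral.integral_div]
      refine intervalIntegral.integral_congr fun x _ => ?_
      show ∏ n ∈ range N, gp H c' (x ^ (n + 1) + s n) = ((∏ n ∈ range N, g (x ^ (n + 1) + s n) : ℝ) : ℂ) / (m : ℂ) ^ N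
      push_cast
      have h7 : ∀ t, gp H c' t = (g t : ℂ) / m := by
        intro t
        rw [← hg t]
        unfold gp
        rw [sum_div]
        refine sum_congr rfl fun k _ => ?_
        rw [hc']
        ring
      have h8 : (m : ℂ) ^ N = ∏ _n ∈ range N, (m : ℂ) := by rw [prod_const, card_range]
      rw [h8, ← prod_div_distrib]
      exact prod_congr rfl fun n _ => h7 _
    rw [h6, norm_div, norm_pow, Complex.norm_real, Complex.norm_real, Real.norm_eq_abs, Real.norm_eq_abs, abs_of_pos hm,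
      div_le_iff₀ (by positivity)] at h5
    refine (le_abs_self _).trans (h5.trans ?_)
    exact mul_le_mul_of_nonneg_right (le_abs_self C) (by positivity)
  refine dim_of_vol ha hab (K := K + 1) (by positivity) (fun N x hx y hy => ?_) (fun ε hε => ?_)
  · refine (Sp_lip (by linarith) hK0 hlip s N (by linarith [hx.1]) hx.2 (by linarith [hy.1]) hy.2).trans ?_
    have : (0 : ℝ) < b := by linarith
    gcongr
    linarith
  · refine ⟨|C| + 1, by positivity, fun N => ?_⟩
    -- Markov
    have hcont : Continuous fun x : ℝ => Real.exp (Sp φ s N x) := by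
      unfold Sp
      exact Real.continuous_exp.comp (continuous_finsetSum _ fun n _ => hφc.comp ((continuous_pow _).add continuous_const))
    have h8 : ∫ x in a..b, Real.exp (Sp φ s N x) ≤ |C| * m ^ N := by
      refine le_trans (intervalIntegral.integral_mono_on hab.le (hcont.intervalIntegrable _ _)
        ((continuous_finsetProd _ fun n _ => hgc.comp ((continuous_pow _).add continuous_const)).intervalIntegrable _ _) fun x _ => ?_) (hint N)
      unfold Sp
      rw [Real.exp_sum]
      exact prod_le_prod (fun _ _ => (Real.exp_pos _).le) fun n _ => hφg _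
    have hI : IntegrableOn (fun x => Real.exp (-((h - ε) * N)) * Real.exp (Sp φ s N x)) (Icc a b) volume :=
      (continuous_const.mul hcont).continuousOn.integrableOn_Icc
    have hnn : 0 ≤ᵐ[volume.restrict (Icc a b)] fun x => Real.exp (-((h - ε) * N)) * Real.exp (Sp φ s N x) :=
      Eventually.of_forall fun x => mul_nonneg (Real.exp_pos _).le (Real.exp_pos _).le
    have h9 : volume {x | x ∈ Icc a b ∧ (h - ε) * N ≤ Sp φ s N x} ≤
        ENNReal.ofReal (Real.exp (-((h - ε) * N)) * ∫ x in a..b, Real.exp (Sp φ s N x)) := by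
      rw [← intervalIntegral.integral_const_mul, intervalIntegral.integral_of_le hab.le, ← integral_Icc_eq_integral_Ioc,
        ofReal_integral_eq_lintegral_ofReal hI hnn]
      have h10 : {x | x ∈ Icc a b ∧ (h - ε) * N ≤ Sp φ s N x} ⊆
          {x | (1 : ENNReal) ≤ ENNReal.ofReal (Real.exp (-((h - ε) * N)) * Real.exp (Sp φ s N x))} ∩ Icc a b := by
        rintro x ⟨hx, hx2⟩
        refine ⟨?_, hx⟩
        show (1 : ENNReal) ≤ _
        rw [ENNReal.one_le_ofReal, ← Real.exp_add, Real.one_le_exp_iff]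
        linarith
      refine (measure_mono h10).trans ?_
      rw [← Measure.restrict_apply' measurableSet_Icc]
      have h11 := mul_meas_ge_le_lintegral₀ (μ := volume.restrict (Icc a b))
        (f := fun x => ENNReal.ofReal (Real.exp (-((h - ε) * N)) * Real.exp (Sp φ s N x)))
        ((continuous_const.mul hcont).measurable.ennreal_ofReal.aemeasurable) 1
      rwa [one_mul] at h11
    refine h9.trans (ENNReal.ofReal_le_ofReal ?_)
    have h12 : Real.exp (-((h - Real.log m - ε) * N)) = Real.exp (-((h - ε) * N)) * m ^ N := by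
      have h13 : m ^ N = Real.exp (Real.log m * N) := by
        rw [mul_comm, Real.exp_nat_mul, Real.exp_log hm]
      rw [h13, ← Real.exp_add]
      congr 1
      ring
    rw [h12]
    calc Real.exp (-((h - ε) * N)) * ∫ x in a..b, Real.exp (Sp φ s N x) ≤ Real.exp (-((h - ε) * N)) * (|C| * m ^ N) := by gcongr
      _ ≤ (|C| + 1) * (Real.exp (-((h - ε) * N)) * m ^ N) := by
        have : 0 ≤ Real.exp (-((h - ε) * N)) * m ^ N := by positivity
        nlinarith

end Pool.Agent.Helper18.GP
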