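import Pool.Agent.Helper18.GP.Rate
import Pool.Agent.Helper59.GP.Tr2
import Pool.Agent.Helper78.KD.Fin

/-!
The discrepancy of powers: upper bound to all orders.
-/

set_option autoImplicit false

namespace Pool.Agent.Helper18.GP

open Finset MeasureTheory Set Filter Topology Pool.Agent.Helper82.FK
open Pool.Agent.Helper78.KD (tr disc tr_cont tr_mean tr_range disc_grid disc_bdd freq_finset dimH_finset freq_of_limsup
  liminf_of_event)

/-- change of the parameter of the class -/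
theorem TC.scale {A : ℕ} {η δ : ℝ} {H : ℕ} {c : ℤ → ℂ} {p : ℝ → ℝ} (hp : TC A η H c p) {k : ℕ} (hη : η = δ ^ (k + 1))
    (hδ0 : 0 < δ) (hδ1 : δ ≤ 1) {B : ℕ} (hB : A * (k + 1) ≤ B) : TC B δ H c p := by
  have hℓ : 0 ≤ Real.log (1 / δ) := Real.log_nonneg (by rw [le_div_iff₀ hδ0]; linarith)
  have h1 : (1 / η) = (1 / δ) ^ (k + 1) := by rw [hη, one_div, one_div, inv_pow]
  have h2 : Real.log (1 / η) = (k + 1) * Real.log (1 / δ) := by
    rw [h1, Real.log_pow]
    push_cast
    rfl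
  have hd1 : (1 : ℝ) ≤ 1 / δ := by rw [le_div_iff₀ hδ0]; linarith
  have hBr : (A : ℝ) * (k + 1) ≤ B := by exact_mod_cast hB
  have hk : (0 : ℝ) ≤ k := Nat.cast_nonneg k
  have hA : (0 : ℝ) ≤ A := Nat.cast_nonneg A
  have hAB : (A : ℝ) ≤ B := by nlinarith
  refine ⟨hp.eq, ?_, ?_, hp.c0, fun t => (hp.bd t).trans hAB⟩
  · refine hp.deg.trans ?_
    rw [h1, ← pow_mul]
    exact pow_le_pow_right₀ hd1 (by rw [mul_comm]; exact hB)
  · refine hp.nm_le.trans ?_
    rw [h2]
    calc (A : ℝ) * (1 + (k + 1) * Real.log (1 / δ)) ≤ A * (k + 1) * (1 + Real.log (1 / δ)) := by nlinarith [mul_nonneg hA hk, mul_nonneg (mul_nonneg hA hk) hℓ]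
      _ ≤ B * (1 + Real.log (1 / δ)) := by gcongr

theorem TC.neg {A : ℕ} {δ : ℝ} {H : ℕ} {c : ℤ → ℂ} {p : ℝ → ℝ} (hp : TC A δ H c p) : TC A δ H (fun k => -c k) (fun t => -p t) := by
  refine ⟨fun t => ?_, hp.deg, ?_, ?_, fun t => ?_⟩
  · rw [Complex.ofReal_neg, ← hp.eq t]
    unfold gp
    rw [← sum_neg_distrib]
    exact sum_congr rfl fun k _ => by ring
  · have h : nm H (fun k => -c k) = nm H c := by
      unfold nm
      exact sum_congr rfl fun k _ => norm_neg _
    rw [h]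
    exact hp.nm_le
  · show -c 0 = 0
    rw [hp.c0, neg_zero]
  · rw [abs_neg]
    exact hp.bd t

/-- comparison of the cumulants -/
theorem lam_mono {p φ : ℝ → ℝ} (hp : Continuous p) (hφ : Continuous φ) {η : ℝ} (h : ∀ t, p t ≤ φ t + η) {θ : ℝ} (hθ : 0 ≤ θ) :
    lam p θ ≤ lam φ θ + θ * η := by
  have hc1 : Continuous fun t : ℝ => Real.exp (θ * p t) := Real.continuous_exp.comp (continuous_const.mul hp)
  have hc2 : Continuous fun t : ℝ => Real.exp (θ * φ t) := Real.continuous_exp.comp (continuous_const.mul hφ)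
  have hpos : ∀ f : ℝ → ℝ, Continuous f → 0 < ∫ t in (0 : ℝ)..1, Real.exp (θ * f t) := fun f hf =>
    intervalIntegral.intervalIntegral_pos_of_pos
      ((Real.continuous_exp.comp (continuous_const.mul hf)).intervalIntegrable _ _) (fun t => Real.exp_pos _) one_pos
  have h1 : ∫ t in (0 : ℝ)..1, Real.exp (θ * p t) ≤ Real.exp (θ * η) * ∫ t in (0 : ℝ)..1, Real.exp (θ * φ t) := by
    rw [← intervalIntegral.integral_const_mul]
    refine intervalIntegral.integral_mono_on (by norm_num) (hc1.intervalIntegrable _ _)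
      ((continuous_const.mul hc2).intervalIntegrable _ _) fun t _ => ?_
    rw [← Real.exp_add]
    refine Real.exp_le_exp.2 ?_
    have := mul_le_mul_of_nonneg_left (h t) hθ
    linarith
  unfold lam
  refine (Real.log_le_log (hpos p hp) h1).trans (le_of_eq ?_)
  rw [Real.log_mul (Real.exp_pos _).ne' (hpos φ hφ).ne', Real.log_exp]
  ring

/-- **Upper bound for the discrepancy.** -/
theorem disc_upper_all {a₀ : ℝ} (ha : 1 < a₀) (k : ℕ) : ∃ C δ₀ : ℝ, 0 < C ∧ 0 < δ₀ ∧ δ₀ ≤ 1 ∧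
    ∀ a b δ : ℝ, a₀ ≤ a → a < b → 0 < δ → δ ≤ δ₀ → ∀ s : ℕ → ℝ,
      dimH {x | x ∈ Ioo a b ∧ δ ≤ limsup (fun N => disc (fun n => x ^ (n + 1) + s n) N) atTop} ≤
        ENNReal.ofReal (1 - (rateD δ - C * δ ^ k) / Real.log b) := by
  obtain ⟨A', hA'⟩ := Pool.Agent.Helper59.GP.tr_approx
  set A : ℕ := A' * (k + 1) + 6 with hA
  obtain ⟨C, δ₀, hC, hδ₀, hδ₀1, hup⟩ := upper_all ha A k (by omega)
  refine ⟨C + 42, min δ₀ (1 / 40), by positivity, by positivity, (min_le_left _ _).trans hδ₀1, ?_⟩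
  intro a b δ haa hab hδ0 hδ s
  have hδ40 : δ ≤ 1 / 40 := hδ.trans (min_le_right _ _)
  have hδ1 : δ ≤ 1 := by linarith
  obtain ⟨q, θ, hq1, hq2, hθ0, hθ6, hkl, hsad⟩ := saddle hδ0 hδ40
  set η : ℝ := δ ^ (k + 1) with hη
  have hη0 : 0 < η := by positivity
  have hηδ : η ≤ δ := pow_le_of_le_one hδ0.le hδ1 (by omega)
  have hη2 : η ≤ 1 / 2 := by linarith
  have hη1 : η ≤ 1 := by linarith
  obtain ⟨F, hF⟩ := disc_grid hη0 hη1
  choose Hz cz pz hTC hpz using fun z : ℝ × ℝ => hA' η hη0 hη2 z.1 z.2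
  have hlb : 0 < Real.log b := Real.log_pos (by linarith)
  have hAθ : θ ≤ A * δ := by
    have : (6 : ℝ) ≤ A := by exact_mod_cast (by omega : 6 ≤ A)
    nlinarith
  -- the test functions
  set Φ : (ℝ × ℝ) × Bool → ℝ → ℝ := fun w t => if w.2 then pz w.1 t else -pz w.1 t with hΦ
  set Ψ : (ℝ × ℝ) × Bool → ℝ → ℝ := fun w t => if w.2 then tr η w.1.1 w.1.2 t else -tr η w.1.1 w.1.2 t with hΨ
  have hΦΨ : ∀ w t, |Φ w t - Ψ w t| ≤ η := by
    intro w t
    rcases w with ⟨z, b⟩
    cases b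
    · simp only [hΦ, hΨ, Bool.false_eq_true, if_false]
      rw [neg_sub_neg, abs_sub_comm]
      exact hpz z t
    · simp only [hΦ, hΨ, if_true]
      exact hpz z t
  refine dimH_finset (F ×ˢ Finset.univ) (fun w => {x | x ∈ Icc a b ∧ ∃ᶠ N : ℕ in atTop, (δ - 6 * η) * N ≤ Sp (Φ w) s N x})
    _ _ ?_ ?_
  · rintro x ⟨hxI, hx⟩
    have h1 := freq_of_limsup (δ' := δ - η) (fun N => disc_bdd (fun n => x ^ (n + 1) + s n) N) hx (by linarith)
    have h2 : ∃ᶠ N : ℕ in atTop, ∃ w ∈ F ×ˢ (Finset.univ : Finset Bool), (δ - 6 * η) * N ≤ Sp (Φ w) s N x := by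
      refine (h1.and_eventually (eventually_ge_atTop 1)).mono ?_
      rintro N ⟨hN, hN1⟩
      have h3 : ∃ w ∈ F ×ˢ (Finset.univ : Finset Bool), (δ - 5 * η) * N ≤ Sp (Ψ w) s N x := by
        obtain ⟨z, hz, hzz⟩ := hF (fun n => x ^ (n + 1) + s n) N (δ - η) hN1 hN
        rw [show δ - η - 4 * η = δ - 5 * η by ring] at hzz
        rcases hzz with hzz | hzz
        · exact ⟨(z, true), by simp [hz], by simpa [hΨ, Sp] using hzz⟩
        · exact ⟨(z, false), by simp [hz], by simpa [hΨ, Sp] using hzz⟩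
      obtain ⟨w, hw, h4⟩ := h3
      refine ⟨w, hw, ?_⟩
      have h5 : Sp (Ψ w) s N x - Sp (Φ w) s N x ≤ N * η := by
        unfold Sp
        rw [← sum_sub_distrib]
        refine (sum_le_sum (g := fun _ => η) fun n _ => ?_).trans (le_of_eq ?_)
        · have := (abs_le.1 (hΦΨ w (x ^ (n + 1) + s n))).1
          linarith
        · rw [sum_const, card_range, nsmul_eq_mul]
      have h6 : (δ - 6 * η) * N = (δ - 5 * η) * N - N * η := by ring
      rw [h6]
      linarith
    obtain ⟨w, hw, hfr⟩ := freq_finset _ _ h2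
    exact ⟨w, hw, ⟨hxI.1.le, hxI.2.le⟩, hfr⟩
  · intro w _
    have hTCw : ∃ (c : ℤ → ℂ), TC A δ (Hz w.1) c (Φ w) := by
      rcases w with ⟨z, b⟩
      have h1 := (hTC z).scale hη hδ0 hδ1 (B := A) (by omega)
      cases b
      · exact ⟨_, by simpa [hΦ] using h1.neg⟩
      · exact ⟨_, by simpa [hΦ] using h1⟩
    obtain ⟨c, hc⟩ := hTCw
    refine (hup a b δ haa hab hδ0 (hδ.trans (min_le_left _ _)) _ c (Φ w) hc θ hθ0.le hAθ s (δ - 6 * η)).trans
      (ENNReal.ofReal_le_ofReal ?_)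
    have hΨc : Continuous (Ψ w) := by
      rcases w with ⟨z, b⟩
      cases b
      · have h1 : Ψ (z, false) = fun t => -tr η z.1 z.2 t := by
          funext t
          simp [hΨ]
        rw [h1]
        exact (tr_cont hη0 hη1 z.1 z.2).neg
      · simpa [hΨ] using tr_cont hη0 hη1 z.1 z.2
    have hlam1 : lam (Φ w) θ ≤ lam (Ψ w) θ + θ * η :=
      lam_mono hc.cont hΨc (fun t => by have := (abs_le.1 (hΦΨ w t)).2; linarith) hθ0.le
    have hlam2 : lam (Ψ w) θ ≤ θ * δ - rateD δ := by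
      have hf0 := Int.fract_nonneg w.1.1
      have hf1 := (Int.fract_lt_one w.1.1).le
      have hfr : Int.fract w.1.1 = w.1.1 - ⌊w.1.1⌋ := rfl
      have hmean : ∫ t in (0 : ℝ)..1, tr η w.1.1 w.1.2 t = 0 := tr_mean hη0 hη1 _ _
      rcases w with ⟨z, b⟩
      cases b
      · have h2 := lam_le_of_range (φ := Ψ (z, false)) hΨc (by
          simp only [hΨ, Bool.false_eq_true, if_false]
          rw [intervalIntegral.integral_neg, hmean, neg_zero]) (q := 1 - Int.fract z.1) (by simp only at hf1; linarith)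
          (by simp only at hf0; linarith) (fun t => by
            have := tr_range hη0 z.1 z.2 t
            simp only at hfr
            simp only [hΨ, Bool.false_eq_true, if_false]
            rw [hfr]
            constructor <;> linarith [this.1, this.2]) θ
        refine h2.trans (hsad _ ?_ ?_)
        · simp only at hf1; linarith
        · simp only at hf0; linarith
      · have h2 := lam_le_of_range (φ := Ψ (z, true)) hΨc (by
          simp only [hΨ, if_true]
          exact hmean) (q := Int.fract z.1) hf0 hf1 (fun t => by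
            have := tr_range hη0 z.1 z.2 t
            simp only at hfr
            simp only [hΨ, if_true]
            rw [hfr]
            constructor <;> linarith [this.1, this.2]) θ
        exact h2.trans (hsad _ hf0 hf1)
    have h3 : θ * η ≤ 6 * δ ^ k := by
      have h4 : η ≤ δ ^ k := pow_le_pow_of_le_one hδ0.le hδ1 (by omega)
      have h5 : θ ≤ 6 := by linarith
      exact mul_le_mul h5 h4 hη0.le (by norm_num)
    have h4 : (rateD δ - (C + 42) * δ ^ k) / Real.log b ≤ (θ * (δ - 6 * η) - lam (Φ w) θ - C * δ ^ k) / Real.log b := by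
      refine div_le_div_of_nonneg_right ?_ hlb.le
      nlinarith
    linarith

end Pool.Agent.Helper18.GP
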