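import Pool.Agent.Helper18.GP.Disc
import Pool.Agent.Helper87.GP.LowerFin

/-!
The discrepancy of powers: lower bound to all orders.
-/

set_option autoImplicit false

namespace Pool.Agent.Helper18.GP

open Finset MeasureTheory Set Filter Topology Pool.Agent.Helper82.FK
open Pool.Agent.Helper78.KD (tz tr disc tr_cont tr_mean tr_range disc_grid disc_bdd freq_finset dimH_finset freq_of_limsup
  liminf_of_event tz_add_one tz_add_int)

theorem tz_one {η z : ℝ} (h0 : 0 < η) (hz : η ≤ z) (hz1 : z < 1) : tz η z = 1 := by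
  have hf : ⌊z⌋ = 0 := by
    rw [Int.floor_eq_iff]
    constructor
    · push_cast
      linarith
    · push_cast
      linarith
  have hfr : Int.fract z = z := by rw [Int.fract, hf]; simp
  unfold tz
  rw [hf, hfr, min_eq_left]
  · simp
  · rw [le_div_iff₀ h0]
    linarith

theorem tr_val {η q x : ℝ} (h0 : 0 < η) (hq : 0 < q) (hx : q + η ≤ x) (hx1 : x < 1) : tr η q (-q) x = -q := by
  unfold tr
  rw [show x + -q + q = x by ring, tz_one h0 (by linarith) hx1, tz_one h0 (by linarith) (by linarith)]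
  ring

theorem tr_val1 {η q x : ℝ} (h0 : 0 < η) (hq : q + η ≤ 1) (hx : η ≤ x) (hx1 : x < q) : tr η q (-q) x = 1 - q := by
  unfold tr
  have h1 := tz_add_one η (x + -q)
  rw [tz_one (z := x + -q + 1) h0 (by linarith) (by linarith)] at h1
  rw [show x + -q + q = x by ring, tz_one h0 hx (by linarith)]
  linarith

theorem tr_fract (η h y t : ℝ) : tr η h y t = tr η h y (Int.fract t) := by
  unfold tr
  have h1 : t = Int.fract t + ((⌊t⌋ : ℤ) : ℝ) := (Int.fract_add_floor t).symm
  have h2 := tz_add_int η (Int.fract t + y + h) ⌊t⌋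
  have h3 := tz_add_int η (Int.fract t + y) ⌊t⌋
  have h4 : t + y + h = Int.fract t + y + h + (⌊t⌋ : ℤ) := by linarith
  have h5 : t + y = Int.fract t + y + (⌊t⌋ : ℤ) := by linarith
  rw [h4, h5, h2, h3]
  ring

theorem disc_ge_gen {η q : ℝ} (h0 : 0 < η) (hq : 0 < q) (hq1 : q + η ≤ 1) (u : ℕ → ℝ) {N : ℕ} (hN : 1 ≤ N) :
    (∑ n ∈ range N, tr η q (-q) (u n)) / N - η ≤ disc u N := by
  classical
  have hNpos : (0 : ℝ) < N := by exact_mod_cast hN
  have hbdd : BddAbove {r : ℝ | ∃ α β : ℝ, 0 ≤ α ∧ α < β ∧ β ≤ 1 ∧ r =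
    |(((Finset.range N).filter (fun n => α ≤ Int.fract (u n) ∧ Int.fract (u n) < β)).card : ℝ) / N - (β - α)|} := by
    refine ⟨1, ?_⟩
    rintro _ ⟨α, β, hα, hαβ, hβ, rfl⟩
    have e1 : (((Finset.range N).filter (fun n => α ≤ Int.fract (u n) ∧ Int.fract (u n) < β)).card : ℝ) ≤ N := by
      have := Finset.card_filter_le (Finset.range N) (fun n => α ≤ Int.fract (u n) ∧ Int.fract (u n) < β)
      rw [Finset.card_range] at this
      exact_mod_cast this
    have e2 : (((Finset.range N).filter (fun n => α ≤ Int.fract (u n) ∧ Int.fract (u n) < β)).card : ℝ) / N ≤ 1 :=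
      (div_le_one hNpos).mpr e1
    have e3 : 0 ≤ (((Finset.range N).filter (fun n => α ≤ Int.fract (u n) ∧ Int.fract (u n) < β)).card : ℝ) / N :=
      div_nonneg (Nat.cast_nonneg _) hNpos.le
    rw [abs_le]
    constructor <;> linarith
  have hle := le_csSup hbdd ⟨0, q + η, le_refl _, by linarith, hq1, rfl⟩
  have hsum : ∑ n ∈ range N, tr η q (-q) (u n) ≤
      (((Finset.range N).filter (fun n => 0 ≤ Int.fract (u n) ∧ Int.fract (u n) < q + η)).card : ℝ) - q * N := by
    rw [Finset.card_filter]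
    push_cast
    have h1 : q * (N : ℝ) = ∑ _n ∈ range N, q := by rw [sum_const, card_range, nsmul_eq_mul]; ring
    rw [h1, ← sum_sub_distrib]
    refine sum_le_sum fun n _ => ?_
    have hf0 := Int.fract_nonneg (u n)
    by_cases h2 : Int.fract (u n) < q + η
    · rw [if_pos ⟨hf0, h2⟩]
      have h3 := (tr_range h0 q (-q) (u n)).2
      have h4 : ⌊q⌋ = 0 := by
        rw [Int.floor_eq_iff]
        constructor <;> push_cast <;> linarith
      rw [h4] at h3
      push_cast at h3
      linarith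
    · rw [if_neg (fun h => h2 h.2), tr_fract, tr_val h0 hq (not_lt.1 h2) (Int.fract_lt_one _)]
      linarith
  have h3 := (le_abs_self _).trans hle
  have h4 : (∑ n ∈ range N, tr η q (-q) (u n)) / N ≤
      (((Finset.range N).filter (fun n => 0 ≤ Int.fract (u n) ∧ Int.fract (u n) < q + η)).card : ℝ) / N - q := by
    have h5 := div_le_div_of_nonneg_right hsum hNpos.le
    rw [sub_div, mul_div_assoc, div_self hNpos.ne', mul_one] at h5
    exact h5
  have h5 : disc u N = sSup {r : ℝ | ∃ α β : ℝ, 0 ≤ α ∧ α < β ∧ β ≤ 1 ∧ r =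
    |(((Finset.range N).filter (fun n => α ≤ Int.fract (u n) ∧ Int.fract (u n) < β)).card : ℝ) / N - (β - α)|} := rfl
  rw [h5]
  linarith

/-- integrals of functions of the trapezoid -/
theorem tr_int_ge {η q : ℝ} (h0 : 0 < η) (hηq : η ≤ q) (hq : q + η ≤ 1) {f : ℝ → ℝ} (hf : Continuous f) (hf0 : ∀ x, 0 ≤ f x) :
    (q - η) * f (1 - q) + (1 - q - η) * f (-q) ≤ ∫ t in (0 : ℝ)..1, f (tr η q (-q) t) := by
  have hη1 : η ≤ 1 := by linarith
  have hc : Continuous fun t => f (tr η q (-q) t) := hf.comp (tr_cont h0 hη1 q (-q))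
  have hi : ∀ a b : ℝ, IntervalIntegrable (fun t => f (tr η q (-q) t)) volume a b := fun a b => hc.intervalIntegrable _ _
  have s1 : ∫ t in (0 : ℝ)..1, f (tr η q (-q) t) =
      (∫ t in (0 : ℝ)..η, f (tr η q (-q) t)) + (∫ t in η..q, f (tr η q (-q) t)) +
        (∫ t in q..(q + η), f (tr η q (-q) t)) + ∫ t in (q + η)..1, f (tr η q (-q) t) := by
    rw [intervalIntegral.integral_add_adjacent_intervals (hi _ _) (hi _ _),
      intervalIntegral.integral_add_adjacent_intervals (hi _ _) (hi _ _),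
      intervalIntegral.integral_add_adjacent_intervals (hi _ _) (hi _ _)]
  have g1 : 0 ≤ ∫ t in (0 : ℝ)..η, f (tr η q (-q) t) := intervalIntegral.integral_nonneg h0.le fun t _ => hf0 _
  have g2 : 0 ≤ ∫ t in q..(q + η), f (tr η q (-q) t) := intervalIntegral.integral_nonneg (by linarith) fun t _ => hf0 _
  have g3 : ∫ t in η..q, f (tr η q (-q) t) = (q - η) * f (1 - q) := by
    have : ∫ t in η..q, f (tr η q (-q) t) = ∫ t in η..q, f (1 - q) := by
      refine intervalIntegral.integral_congr_ae ?_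
      have : ∀ᵐ t : ℝ, t ≠ q := by
        rw [ae_iff]
        simp
      filter_upwards [this] with t ht hmem
      rw [uIoc_of_le hηq] at hmem
      rw [tr_val1 h0 hq hmem.1.le (lt_of_le_of_ne hmem.2 ht)]
    rw [this, intervalIntegral.integral_const]
    simp
  have g4 : ∫ t in (q + η)..1, f (tr η q (-q) t) = (1 - (q + η)) * f (-q) := by
    have : ∫ t in (q + η)..1, f (tr η q (-q) t) = ∫ t in (q + η)..1, f (-q) := by
      refine intervalIntegral.integral_congr_ae ?_
      have : ∀ᵐ t : ℝ, t ≠ 1 := by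
        rw [ae_iff]
        simp
      filter_upwards [this] with t ht hmem
      rw [uIoc_of_le hq] at hmem
      rw [tr_val h0 (by linarith) hmem.1.le (lt_of_le_of_ne hmem.2 ht)]
    rw [this, intervalIntegral.integral_const]
    simp
  rw [s1, g3, g4]
  have : (1 - (q + η)) * f (-q) = (1 - q - η) * f (-q) := by ring
  linarith

/-- **Lower bound for the discrepancy.** -/
theorem disc_lower_all {a₀ b₀ : ℝ} (ha : 1 < a₀) (hab : a₀ < b₀) (k : ℕ) : ∃ C δ₀ : ℝ, 0 < C ∧ 0 < δ₀ ∧ δ₀ ≤ 1 ∧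
    ∀ a b δ : ℝ, a₀ ≤ a → a < b → b ≤ b₀ → 0 < δ → δ ≤ δ₀ → ∀ s : ℕ → ℝ,
      ENNReal.ofReal (1 - (rateD δ + C * δ ^ k) / Real.log b) ≤
      dimH {x | x ∈ Ioo a b ∧ δ ≤ liminf (fun N => disc (fun n => x ^ (n + 1) + s n) N) atTop} := by
  obtain ⟨A', hA'⟩ := Pool.Agent.Helper59.GP.tr_approx
  obtain ⟨A, hA⟩ : ∃ A : ℕ, A = A' * (k + 1 + 1) + 128 := ⟨_, rfl⟩
  have hAr : (128 : ℝ) ≤ A := by exact_mod_cast (by omega : 128 ≤ A)
  obtain ⟨C, δ₀, hC, hδ₀, hδ₀1, hlow⟩ := Pool.Agent.Helper87.GP.lower_all ha hab A k (by omega)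
  refine ⟨C + 12, min δ₀ (1 / A), by positivity, by positivity, (min_le_left _ _).trans hδ₀1, ?_⟩
  intro a b δ haa hab' hbb hδ0 hδ s
  have hδA : A * δ ≤ 1 := by
    have := hδ.trans (min_le_right _ _)
    rwa [le_div_iff₀ (by positivity), mul_comm] at this
  have hδ40 : δ ≤ 1 / 128 := by
    rw [le_div_iff₀ (by norm_num)]
    nlinarith
  have hδ1 : δ ≤ 1 := by linarith
  obtain ⟨q, θ₀, hq1, hq2, -, -, hkl, -⟩ := saddle hδ0 (by linarith : δ ≤ 1 / 40)
  set η : ℝ := δ ^ (k + 1 + 1) with hη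
  have hη0 : 0 < η := by positivity
  have hηδ : 128 * η ≤ δ := by
    have h1 : δ ^ (k + 1 + 1) ≤ δ ^ 2 := pow_le_pow_of_le_one hδ0.le hδ1 (by omega)
    nlinarith
  have hη2 : η ≤ 1 / 2 := by linarith
  have hη1 : η ≤ 1 := by linarith
  obtain ⟨H, c, p, hTC, hp⟩ := hA' η hη0 hη2 q (-q)
  have hTC' : TC A δ H c p := hTC.scale (k := k + 1) (by rw [hη]) hδ0 hδ1 (by omega)
  have hlb : 0 < Real.log b := Real.log_pos (by linarith)
  have htc := tr_cont hη0 hη1 q (-q)
  have hpc := hTC'.cont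
  have hfl : ⌊q⌋ = 0 := by
    rw [Int.floor_eq_iff]
    constructor <;> push_cast <;> linarith
  have hrange : ∀ t, -q ≤ tr η q (-q) t ∧ tr η q (-q) t ≤ 1 - q := fun t => by
    have := tr_range hη0 q (-q) t
    rw [hfl] at this
    push_cast at this
    constructor <;> linarith [this.1, this.2]
  -- variance
  have hvar : 16 / (A : ℝ) ≤ ∫ t in (0 : ℝ)..1, (p t) ^ 2 := by
    have h1 := tr_int_ge hη0 (by linarith) (by linarith) (f := fun x => x ^ 2) (q := q) (continuous_pow 2) fun x => sq_nonneg x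
    have h2 : (∫ t in (0 : ℝ)..1, (tr η q (-q) t) ^ 2) - 3 * η ≤ ∫ t in (0 : ℝ)..1, (p t) ^ 2 := by
      have h3 : (∫ t in (0 : ℝ)..1, (tr η q (-q) t) ^ 2) - 3 * η = ∫ t in (0 : ℝ)..1, ((tr η q (-q) t) ^ 2 - 3 * η) := by
        have hcc : Continuous fun t : ℝ => (tr η q (-q) t) ^ 2 := htc.pow 2
        rw [intervalIntegral.integral_sub (hcc.intervalIntegrable _ _) ((continuous_const).intervalIntegrable _ _)]
        simp
      rw [h3]
      refine intervalIntegral.integral_mono_on (by norm_num) (((htc.pow 2).sub continuous_const).intervalIntegrable _ _)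
        ((hpc.pow 2).intervalIntegrable _ _) fun t _ => ?_
      have h4 := abs_le.1 (hp t)
      have h5 := hrange t
      have h6 : (tr η q (-q) t) ^ 2 - (p t) ^ 2 = (tr η q (-q) t - p t) * (2 * tr η q (-q) t - (tr η q (-q) t - p t)) := by ring
      have h7 : |(tr η q (-q) t - p t) * (2 * tr η q (-q) t - (tr η q (-q) t - p t))| ≤ η * 3 := by
        rw [abs_mul]
        refine mul_le_mul (by rw [abs_sub_comm]; exact hp t) ?_ (abs_nonneg _) hη0.le
        rw [abs_le]
        constructor <;> linarith [h4.1, h4.2, h5.1, h5.2]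
      have h8 := (abs_le.1 h7).2
      linarith
    have h9 : 16 / (A : ℝ) ≤ 1 / 8 := by
      rw [div_le_div_iff₀ (by linarith) (by norm_num)]
      linarith
    have h10 : 3 / 16 - η ≤ (q - η) * (1 - q) ^ 2 + (1 - q - η) * (-q) ^ 2 := by
      have h11 : (q - η) * (1 - q) ^ 2 + (1 - q - η) * (-q) ^ 2 = q * (1 - q) - η * ((1 - q) ^ 2 + q ^ 2) := by ring
      rw [h11]
      have h12 : 3 / 16 ≤ q * (1 - q) := by nlinarith
      have h13 : (1 - q) ^ 2 + q ^ 2 ≤ 1 := by nlinarith
      nlinarith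
    linarith
  -- the cumulant
  have hR : ∀ θ, 0 ≤ θ → θ ≤ A * δ → θ * (δ + 3 * η) - lam p θ ≤ rateD δ + 12 * η := by
    intro θ hθ0 hθ1
    have hθ1' : θ ≤ 1 := hθ1.trans hδA
    have h1 : lam (tr η q (-q)) θ ≤ lam p θ + θ * η :=
      lam_mono htc hpc (fun t => by have := (abs_le.1 (hp t)).1; linarith) hθ0
    have hE1 : 1 ≤ Real.exp θ := Real.one_le_exp hθ0
    have hE3 : Real.exp θ ≤ 3 := by
      have h2 : Real.exp θ ≤ Real.exp 1 := Real.exp_le_exp.2 hθ1'
      have h3 := Real.exp_one_lt_d9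
      linarith
    have h2 := tr_int_ge hη0 (by linarith) (by linarith) (f := fun x => Real.exp (θ * x)) (q := q)
      (Real.continuous_exp.comp (continuous_const.mul continuous_id)) fun x => (Real.exp_pos _).le
    set X : ℝ := 1 + q * (Real.exp θ - 1) with hX
    have hX1 : 1 ≤ X := by
      have : 0 ≤ q * (Real.exp θ - 1) := mul_nonneg (by linarith) (by linarith)
      linarith
    have h3 : Real.exp (-(θ * q)) * (X * (1 - 4 * η)) ≤ ∫ t in (0 : ℝ)..1, Real.exp (θ * tr η q (-q) t) := by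
      refine le_trans ?_ h2
      have h4 : Real.exp (θ * (1 - q)) = Real.exp (-(θ * q)) * Real.exp θ := by
        rw [← Real.exp_add]
        congr 1
        ring
      have h5 : Real.exp (θ * -q) = Real.exp (-(θ * q)) := by
        congr 1
        ring
      rw [h4, h5]
      have h6 : (q - η) * (Real.exp (-(θ * q)) * Real.exp θ) + (1 - q - η) * Real.exp (-(θ * q)) =
          Real.exp (-(θ * q)) * (X - η * (Real.exp θ + 1)) := by
        rw [hX]
        ring
      rw [h6]
      refine mul_le_mul_of_nonneg_left ?_ (Real.exp_pos _).le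
      nlinarith
    have h4 : -(θ * q) + Real.log X - 8 * η ≤ lam (tr η q (-q)) θ := by
      have h5 : Real.log (Real.exp (-(θ * q)) * (X * (1 - 4 * η))) ≤ lam (tr η q (-q)) θ :=
        Real.log_le_log (mul_pos (Real.exp_pos _) (mul_pos (by linarith) (by linarith))) h3
      rw [Real.log_mul (Real.exp_pos _).ne' (mul_pos (by linarith) (by linarith)).ne', Real.log_exp,
        Real.log_mul (by linarith) (by linarith)] at h5
      have h6 : -(8 * η) ≤ Real.log (1 - 4 * η) := by
        have h7 := Real.one_sub_inv_le_log_of_pos (show 0 < 1 - 4 * η by linarith)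
        have h8 : (1 - 4 * η)⁻¹ ≤ 1 + 8 * η := by
          rw [inv_le_iff_one_le_mul₀ (by linarith)]
          have h9 : 0 ≤ η * (1 - 8 * η) := mul_nonneg hη0.le (by linarith)
          have h10 : (1 + 8 * η) * (1 - 4 * η) = 1 + 4 * (η * (1 - 8 * η)) := by ring
          rw [h10]
          linarith
        linarith
      linarith
    have h5 := kl_ge (p := q + δ) (q := q) (by linarith) (by linarith) (by linarith) (by linarith) θ
    rw [hkl, ← hX] at h5
    have h6 : θ * η ≤ η := mul_le_of_le_one_left hη0.le hθ1'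
    have h7 : θ * (δ + 3 * η) = (q + δ) * θ - θ * q + 3 * (θ * η) := by ring
    rw [h7]
    linarith
  have hmain := hlow a b δ haa hab' hbb hδ0 (hδ.trans (min_le_left _ _)) H c p hTC' hvar s (δ + 3 * η) (by linarith) (by linarith)
    (rateD δ + 12 * η) hR
  refine (ENNReal.ofReal_le_ofReal ?_).trans (hmain.trans (dimH_mono ?_))
  · have h1 : η ≤ δ ^ k := pow_le_pow_of_le_one hδ0.le hδ1 (by omega)
    have h2 : (rateD δ + 12 * η + C * δ ^ k) / Real.log b ≤ (rateD δ + (C + 12) * δ ^ k) / Real.log b := by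
      refine div_le_div_of_nonneg_right ?_ hlb.le
      linarith
    linarith
  · rintro x ⟨hx, hev⟩
    refine ⟨hx, liminf_of_event (fun N => disc_bdd (fun n => x ^ (n + 1) + s n) N) ?_⟩
    filter_upwards [hev, eventually_ge_atTop 1] with N hN hN1
    have hNpos : (0 : ℝ) < N := by exact_mod_cast hN1
    have h1 := disc_ge_gen (q := q) hη0 (by linarith) (by linarith) (fun n => x ^ (n + 1) + s n) hN1
    have h2 : Sp p s N x - N * η ≤ ∑ n ∈ range N, tr η q (-q) (x ^ (n + 1) + s n) := by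
      unfold Sp
      have h3 : (N : ℝ) * η = ∑ _n ∈ range N, η := by rw [sum_const, card_range, nsmul_eq_mul]
      rw [h3, ← sum_sub_distrib]
      refine sum_le_sum fun n _ => ?_
      have := (abs_le.1 (hp (x ^ (n + 1) + s n))).2
      linarith
    have h4 : (δ + 2 * η) * N ≤ ∑ n ∈ range N, tr η q (-q) (x ^ (n + 1) + s n) := by
      have h6 : (δ + 2 * η) * N = (δ + 3 * η) * N - N * η := by ring
      rw [h6]
      linarith
    have h5 : δ + 2 * η ≤ (∑ n ∈ range N, tr η q (-q) (x ^ (n + 1) + s n)) / N := by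
      rwa [le_div_iff₀ hNpos]
    linarith

end Pool.Agent.Helper18.GP
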