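import Pool.Agent.Helper18.GP.ExpL
import Pool.Agent.Helper18.GP.DiscL

/-!
The discrepancy of powers with an exponentially small error.
-/

set_option autoImplicit false

namespace Pool.Agent.Helper18.GP

open Finset MeasureTheory Set Filter Topology Pool.Agent.Helper82.FK
open Pool.Agent.Helper78.KD (tz tr disc tr_cont tr_mean tr_range disc_grid disc_bdd freq_finset dimH_finset freq_of_limsup
  liminf_of_event tz_add_one tz_add_int)

/-- `1 - (r + ε) / log b ≤ dim {x ∈ (a, b) : δ ≤ liminf F x}` and `dim {x ∈ (a, b) : δ ≤ limsup F x} ≤ 1 - (r - ε) / log b` -/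
def DimNear (a b : ℝ) (F : ℝ → ℕ → ℝ) (δ r ε : ℝ) : Prop :=
  ENNReal.ofReal (1 - (r + ε) / Real.log b) ≤ dimH {x | x ∈ Ioo a b ∧ δ ≤ liminf (F x) atTop} ∧
  dimH {x | x ∈ Ioo a b ∧ δ ≤ limsup (F x) atTop} ≤ ENNReal.ofReal (1 - (r - ε) / Real.log b)

theorem DimNear.mono {a b : ℝ} {F : ℝ → ℕ → ℝ} {δ r ε ε' : ℝ} (h : DimNear a b F δ r ε) (hb : 1 < b) (hε : ε ≤ ε') :
    DimNear a b F δ r ε' := by
  have hlb : 0 < Real.log b := Real.log_pos hb
  refine ⟨(ENNReal.ofReal_le_ofReal ?_).trans h.1, h.2.trans (ENNReal.ofReal_le_ofReal ?_)⟩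
  · have := div_le_div_of_nonneg_right (show r + ε ≤ r + ε' by linarith) hlb.le
    linarith
  · have := div_le_div_of_nonneg_right (show r - ε' ≤ r - ε by linarith) hlb.le
    linarith

theorem TC.mono {A B : ℕ} {η : ℝ} {H : ℕ} {c : ℤ → ℂ} {p : ℝ → ℝ} (hp : TC A η H c p) (h0 : 0 < η) (h1 : η ≤ 1) (hAB : A ≤ B) :
    TC B η H c p := by
  have hℓ : 0 ≤ Real.log (1 / η) := Real.log_nonneg (by rw [le_div_iff₀ h0]; linarith)
  have hd1 : (1 : ℝ) ≤ 1 / η := by rw [le_div_iff₀ h0]; linarith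
  have hABr : (A : ℝ) ≤ B := by exact_mod_cast hAB
  refine ⟨hp.eq, hp.deg.trans (pow_le_pow_right₀ hd1 hAB), hp.nm_le.trans ?_, hp.c0, fun t => (hp.bd t).trans hABr⟩
  exact mul_le_mul_of_nonneg_right hABr (by linarith)

/-- small parameters -/
theorem exp_small {c C : ℝ} (hc : 0 < c) (hC : 1 ≤ C) : ∃ δ₀ : ℝ, 0 < δ₀ ∧ ∀ δ, 0 < δ → δ ≤ δ₀ →
    3 ≤ c / √δ ∧ C * δ ≤ 1 ∧ C * Real.exp (-(c / √δ)) ≤ δ ∧ C * Real.exp (-(c / √δ)) ≤ Real.exp (-((c / 2) / √δ)) := by
  refine ⟨min (min (c ^ 2 / 9) (1 / C)) (min (c ^ 4 / (24 * C)) (c ^ 4 / (400 * C))), by positivity, fun δ h0 hδ => ?_⟩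
  have h1 : δ ≤ c ^ 2 / 9 := hδ.trans ((min_le_left _ _).trans (min_le_left _ _))
  have h2 : δ ≤ 1 / C := hδ.trans ((min_le_left _ _).trans (min_le_right _ _))
  have h3 : δ ≤ c ^ 4 / (24 * C) := hδ.trans ((min_le_right _ _).trans (min_le_left _ _))
  have h4 : δ ≤ c ^ 4 / (400 * C) := hδ.trans ((min_le_right _ _).trans (min_le_right _ _))
  have hC0 : 0 < C := by linarith
  have hs : 0 < √δ := Real.sqrt_pos.2 h0
  have hsq : √δ ^ 2 = δ := Real.sq_sqrt h0.le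
  have h5 : C * δ ≤ 1 := by
    rw [le_div_iff₀ hC0] at h2
    linarith
  have hexp : ∀ x : ℝ, 0 < x → Real.exp (-x) ≤ 24 / x ^ 4 := by
    intro x hx
    have h6 := Real.pow_div_factorial_le_exp x hx.le 4
    have h7 : (Nat.factorial 4 : ℝ) = 24 := by norm_num [Nat.factorial]
    rw [h7] at h6
    rw [Real.exp_neg, ← one_div, div_le_div_iff₀ (Real.exp_pos _) (by positivity)]
    rw [div_le_iff₀ (by norm_num)] at h6
    linarith
  have h6 : Real.exp (-(c / √δ)) ≤ 24 * δ ^ 2 / c ^ 4 := by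
    refine (hexp _ (by positivity)).trans (le_of_eq ?_)
    have : √δ ^ 4 = δ ^ 2 := by rw [show √δ ^ 4 = (√δ ^ 2) ^ 2 by ring, hsq]
    rw [div_pow, this]
    field_simp
  have h7 : Real.exp (-((c / 2) / √δ)) ≤ 384 * δ ^ 2 / c ^ 4 := by
    refine (hexp _ (by positivity)).trans (le_of_eq ?_)
    have : √δ ^ 4 = δ ^ 2 := by rw [show √δ ^ 4 = (√δ ^ 2) ^ 2 by ring, hsq]
    rw [div_pow, this]
    field_simp
    norm_num
  refine ⟨?_, h5, ?_, ?_⟩
  · rw [le_div_iff₀ hs]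
    have h8 : (3 * √δ) ^ 2 ≤ c ^ 2 := by
      rw [mul_pow, hsq]
      linarith
    exact le_of_sq_le_sq h8 hc.le
  · rw [le_div_iff₀ (by positivity)] at h3
    calc C * Real.exp (-(c / √δ)) ≤ C * (24 * δ ^ 2 / c ^ 4) := by gcongr
      _ = (δ * (24 * C)) * δ / c ^ 4 := by ring
      _ ≤ c ^ 4 * δ / c ^ 4 := by gcongr
      _ = δ := by field_simp
  · have h8 : Real.exp (-(c / √δ)) = Real.exp (-((c / 2) / √δ)) * Real.exp (-((c / 2) / √δ)) := by
      rw [← Real.exp_add]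
      congr 1
      ring
    have h9 : C * Real.exp (-((c / 2) / √δ)) ≤ 1 := by
      rw [le_div_iff₀ (by positivity)] at h4
      have hδ1 : δ ≤ 1 := by nlinarith
      have hCδ : 0 < C * δ := by positivity
      calc C * Real.exp (-((c / 2) / √δ)) ≤ C * (384 * δ ^ 2 / c ^ 4) := by gcongr
        _ = (384 * C * δ) * δ / c ^ 4 := by ring
        _ ≤ c ^ 4 * 1 / c ^ 4 := by
          gcongr
          linarith
        _ = 1 := by field_simp
    rw [h8]
    have := Real.exp_pos (-((c / 2) / √δ))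
    nlinarith

/-- **The discrepancy, upper bound.** -/
theorem disc_upper_exp {a₀ : ℝ} (ha : 1 < a₀) : ∃ c₁ : ℝ, 0 < c₁ ∧ ∀ cc, 0 < cc → cc ≤ c₁ → ∃ δ₀ : ℝ, 0 < δ₀ ∧
    ∀ a b δ : ℝ, a₀ ≤ a → a < b → 0 < δ → δ ≤ δ₀ → ∀ s : ℕ → ℝ,
      dimH {x | x ∈ Ioo a b ∧ δ ≤ limsup (fun N => disc (fun n => x ^ (n + 1) + s n) N) atTop} ≤
        ENNReal.ofReal (1 - (rateD δ - 8 * Real.exp (-(cc / √δ))) / Real.log b) := by
  obtain ⟨A', hA'⟩ := Pool.Agent.Helper59.GP.tr_approx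
  obtain ⟨A, hA⟩ : ∃ A : ℕ, A = A' + 6 := ⟨_, rfl⟩
  have hA6 : (6 : ℝ) ≤ A := by exact_mod_cast (by omega : 6 ≤ A)
  obtain ⟨c₁, hc₁, hup⟩ := upper_exp ha A (by omega)
  refine ⟨c₁, hc₁, fun cc hcc hcc1 => ?_⟩
  obtain ⟨δ₀, hδ₀, hsm⟩ := exp_small (c := cc) (C := 100 * (A : ℝ) ^ 4) hcc (by
    have : (1 : ℝ) ≤ (A : ℝ) ^ 4 := one_le_pow₀ (by linarith)
    linarith)
  refine ⟨δ₀, hδ₀, ?_⟩
  intro a b δ haa hab hδ0 hδ s
  obtain ⟨e1, e2, e3, -⟩ := hsm δ hδ0 hδ
  have hA4 : (1 : ℝ) ≤ (A : ℝ) ^ 4 := one_le_pow₀ (by linarith)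
  have hδ40 : δ ≤ 1 / 40 := by nlinarith
  have hδ1 : δ ≤ 1 := by linarith
  obtain ⟨q, θ, hq1, hq2, hθ0, hθ6, hkl, hsad⟩ := saddle hδ0 hδ40
  obtain ⟨η, hη⟩ : ∃ η : ℝ, η = Real.exp (-(cc / √δ)) := ⟨_, rfl⟩
  rw [← hη] at e3 ⊢
  have hη0 : 0 < η := by rw [hη]; exact Real.exp_pos _
  have hηδ : 100 * η ≤ δ := by nlinarith
  have hη2 : η ≤ 1 / 2 := by linarith
  have hη1 : η ≤ 1 := by linarith
  obtain ⟨F, hF⟩ := disc_grid hη0 hη1
  choose Hz cz pz hTC hpz using fun z : ℝ × ℝ => hA' η hη0 hη2 z.1 z.2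
  have hlb : 0 < Real.log b := Real.log_pos (by linarith)
  have hAθ : θ ≤ A * δ := by nlinarith
  -- the test functions
  set Φ : (ℝ × ℝ) × Bool → ℝ → ℝ := fun w t => if w.2 then pz w.1 t else -pz w.1 t with hΦ
  set Ψ : (ℝ × ℝ) × Bool → ℝ → ℝ := fun w t => if w.2 then tr η w.1.1 w.1.2 t else -tr η w.1.1 w.1.2 t with hΨ
  have hΦΨ : ∀ w t, |Φ w t - Ψ w t| ≤ η := by
    intro w t
    rcases w with ⟨z, b⟩
    cases b
    · simp only [hΦ, hΨ, Bool.false_eq_true, if_false]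
      rw [neg_sub_neg, abs_sub_comm]
      exact hpz z t
    · simp only [hΦ, hΨ, if_true]
      exact hpz z t
  refine dimH_finset (F ×ˢ Finset.univ) (fun w => {x | x ∈ Icc a b ∧ ∃ᶠ N : ℕ in atTop, (δ - 6 * η) * N ≤ Sp (Φ w) s N x})
    _ _ ?_ ?_
  · rintro x ⟨hxI, hx⟩
    have h1 := freq_of_limsup (δ' := δ - η) (fun N => disc_bdd (fun n => x ^ (n + 1) + s n) N) hx (by linarith)
    have h2 : ∃ᶠ N : ℕ in atTop, ∃ w ∈ F ×ˢ (Finset.univ : Finset Bool), (δ - 6 * η) * N ≤ Sp (Φ w) s N x := by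
      refine (h1.and_eventually (eventually_ge_atTop 1)).mono ?_
      rintro N ⟨hN, hN1⟩
      have h3 : ∃ w ∈ F ×ˢ (Finset.univ : Finset Bool), (δ - 5 * η) * N ≤ Sp (Ψ w) s N x := by
        obtain ⟨z, hz, hzz⟩ := hF (fun n => x ^ (n + 1) + s n) N (δ - η) hN1 hN
        rw [show δ - η - 4 * η = δ - 5 * η by ring] at hzz
        rcases hzz with hzz | hzz
        · exact ⟨(z, true), by simp [hz], by simpa [hΨ, Sp] using hzz⟩
        · exact ⟨(z, false), by simp [hz], by simpa [hΨ, Sp] using hzz⟩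
      obtain ⟨w, hw, h4⟩ := h3
      refine ⟨w, hw, ?_⟩
      have h5 : Sp (Ψ w) s N x - Sp (Φ w) s N x ≤ N * η := by
        unfold Sp
        rw [← sum_sub_distrib]
        refine (sum_le_sum (g := fun _ => η) fun n _ => ?_).trans (le_of_eq ?_)
        · have := (abs_le.1 (hΦΨ w (x ^ (n + 1) + s n))).1
          linarith
        · rw [sum_const, card_range, nsmul_eq_mul]
      have h6 : (δ - 6 * η) * N = (δ - 5 * η) * N - N * η := by ring
      rw [h6]
      linarith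
    obtain ⟨w, hw, hfr⟩ := freq_finset _ _ h2
    exact ⟨w, hw, ⟨hxI.1.le, hxI.2.le⟩, hfr⟩
  · intro w _
    have hTCw : ∃ (c : ℤ → ℂ), TC A η (Hz w.1) c (Φ w) := by
      rcases w with ⟨z, b⟩
      have h1 := (hTC z).mono (B := A) hη0 hη1 (by omega)
      cases b
      · exact ⟨_, by simpa [hΦ] using h1.neg⟩
      · exact ⟨_, by simpa [hΦ] using h1⟩
    obtain ⟨c, hc⟩ := hTCw
    have hc' : TC A (Real.exp (-(cc / √δ))) (Hz w.1) c (Φ w) := by rw [← hη]; exact hc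
    have hup' := hup cc hcc hcc1 a b δ haa hab hδ0 (by linarith [mul_nonneg (by positivity : (0 : ℝ) ≤ 90 * (A : ℝ) ^ 4) hδ0.le])
      (by linarith) _ c (Φ w) hc' θ hθ0.le hAθ s (δ - 6 * η)
    rw [← hη] at hup'
    refine hup'.trans (ENNReal.ofReal_le_ofReal ?_)
    have hΨc : Continuous (Ψ w) := by
      rcases w with ⟨z, b⟩
      cases b
      · have h1 : Ψ (z, false) = fun t => -tr η z.1 z.2 t := by
          funext t
          simp [hΨ]
        rw [h1]
        exact (tr_cont hη0 hη1 z.1 z.2).neg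
      · simpa [hΨ] using tr_cont hη0 hη1 z.1 z.2
    have hlam1 : lam (Φ w) θ ≤ lam (Ψ w) θ + θ * η :=
      lam_mono hc.cont hΨc (fun t => by have := (abs_le.1 (hΦΨ w t)).2; linarith) hθ0.le
    have hlam2 : lam (Ψ w) θ ≤ θ * δ - rateD δ := by
      have hf0 := Int.fract_nonneg w.1.1
      have hf1 := (Int.fract_lt_one w.1.1).le
      have hfr : Int.fract w.1.1 = w.1.1 - ⌊w.1.1⌋ := rfl
      have hmean : ∫ t in (0 : ℝ)..1, tr η w.1.1 w.1.2 t = 0 := tr_mean hη0 hη1 _ _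
      rcases w with ⟨z, b⟩
      cases b
      · have h2 := lam_le_of_range (φ := Ψ (z, false)) hΨc (by
          simp only [hΨ, Bool.false_eq_true, if_false]
          rw [intervalIntegral.integral_neg, hmean, neg_zero]) (q := 1 - Int.fract z.1) (by simp only at hf1; linarith)
          (by simp only at hf0; linarith) (fun t => by
            have := tr_range hη0 z.1 z.2 t
            simp only at hfr
            simp only [hΨ, Bool.false_eq_true, if_false]
            rw [hfr]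
            constructor <;> linarith [this.1, this.2]) θ
        refine h2.trans (hsad _ ?_ ?_)
        · simp only at hf1; linarith
        · simp only at hf0; linarith
      · have h2 := lam_le_of_range (φ := Ψ (z, true)) hΨc (by
          simp only [hΨ, if_true]
          exact hmean) (q := Int.fract z.1) hf0 hf1 (fun t => by
            have := tr_range hη0 z.1 z.2 t
            simp only at hfr
            simp only [hΨ, if_true]
            rw [hfr]
            constructor <;> linarith [this.1, this.2]) θ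
        exact h2.trans (hsad _ hf0 hf1)
    have h3 : θ * η ≤ η := mul_le_of_le_one_left hη0.le (by linarith)
    have h4 : (rateD δ - 8 * η) / Real.log b ≤ (θ * (δ - 6 * η) - lam (Φ w) θ - η) / Real.log b := by
      refine div_le_div_of_nonneg_right ?_ hlb.le
      nlinarith
    linarith

/-- **The discrepancy, lower bound.** -/
theorem disc_lower_exp {a₀ b₀ : ℝ} (ha : 1 < a₀) (hab : a₀ < b₀) : ∃ c₁ : ℝ, 0 < c₁ ∧ ∀ cc, 0 < cc → cc ≤ c₁ →
    ∃ δ₀ : ℝ, 0 < δ₀ ∧ ∀ a b δ : ℝ, a₀ ≤ a → a < b → b ≤ b₀ → 0 < δ → δ ≤ δ₀ → ∀ s : ℕ → ℝ,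
      ENNReal.ofReal (1 - (rateD δ + 13 * Real.exp (-(cc / √δ))) / Real.log b) ≤
      dimH {x | x ∈ Ioo a b ∧ δ ≤ liminf (fun N => disc (fun n => x ^ (n + 1) + s n) N) atTop} := by
  obtain ⟨A', hA'⟩ := Pool.Agent.Helper59.GP.tr_approx
  obtain ⟨A, hA⟩ : ∃ A : ℕ, A = A' + 128 := ⟨_, rfl⟩
  have hAr : (128 : ℝ) ≤ A := by exact_mod_cast (by omega : 128 ≤ A)
  obtain ⟨c₁, hc₁, hlow⟩ := lower_exp ha hab A (by omega)
  refine ⟨c₁, hc₁, fun cc hcc hcc1 => ?_⟩
  have hA1 : (1 : ℝ) ≤ A := by linarith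
  obtain ⟨δ₀, hδ₀, hsm⟩ := exp_small (c := cc) (C := 200 * (A : ℝ) ^ 5) hcc (by
    have : (1 : ℝ) ≤ (A : ℝ) ^ 5 := one_le_pow₀ hA1
    linarith)
  refine ⟨δ₀, hδ₀, ?_⟩
  intro a b δ haa hab' hbb hδ0 hδ s
  obtain ⟨e1, e2, e3, -⟩ := hsm δ hδ0 hδ
  have hA5 : (1 : ℝ) ≤ (A : ℝ) ^ 5 := one_le_pow₀ hA1
  have hA25 : (A : ℝ) ^ 2 ≤ (A : ℝ) ^ 5 := pow_le_pow_right₀ hA1 (by norm_num)
  have hA15 : (A : ℝ) ≤ (A : ℝ) ^ 5 := le_self_pow₀ hA1 (by norm_num)
  have hδA : A * δ ≤ 1 := by nlinarith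
  have hδ40 : δ ≤ 1 / 128 := by
    rw [le_div_iff₀ (by norm_num)]
    nlinarith
  have hδ1 : δ ≤ 1 := by linarith
  obtain ⟨q, θ₀, hq1, hq2, -, -, hkl, -⟩ := saddle hδ0 (by linarith : δ ≤ 1 / 40)
  obtain ⟨η, hη⟩ : ∃ η : ℝ, η = Real.exp (-(cc / √δ)) := ⟨_, rfl⟩
  rw [← hη] at e3 ⊢
  have hη0 : 0 < η := by rw [hη]; exact Real.exp_pos _
  have hηA : 20 * (A : ℝ) ^ 2 * η ≤ δ := by nlinarith
  have hηδ : 128 * η ≤ δ := by nlinarith
  have hη2 : η ≤ 1 / 2 := by linarith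
  have hη1 : η ≤ 1 := by linarith
  obtain ⟨H, c, p, hTC, hp⟩ := hA' η hη0 hη2 q (-q)
  have hTC' : TC A η H c p := hTC.mono hη0 hη1 (by omega)
  have hlb : 0 < Real.log b := Real.log_pos (by linarith)
  have htc := tr_cont hη0 hη1 q (-q)
  have hpc := hTC'.cont
  have hfl : ⌊q⌋ = 0 := by
    rw [Int.floor_eq_iff]
    constructor <;> push_cast <;> linarith
  have hrange : ∀ t, -q ≤ tr η q (-q) t ∧ tr η q (-q) t ≤ 1 - q := fun t => by
    have := tr_range hη0 q (-q) t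
    rw [hfl] at this
    push_cast at this
    constructor <;> linarith [this.1, this.2]
  -- variance
  have hvar : 16 / (A : ℝ) ≤ ∫ t in (0 : ℝ)..1, (p t) ^ 2 := by
    have h1 := tr_int_ge hη0 (by linarith) (by linarith) (f := fun x => x ^ 2) (q := q) (continuous_pow 2) fun x => sq_nonneg x
    have h2 : (∫ t in (0 : ℝ)..1, (tr η q (-q) t) ^ 2) - 3 * η ≤ ∫ t in (0 : ℝ)..1, (p t) ^ 2 := by
      have h3 : (∫ t in (0 : ℝ)..1, (tr η q (-q) t) ^ 2) - 3 * η = ∫ t in (0 : ℝ)..1, ((tr η q (-q) t) ^ 2 - 3 * η) := by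
        have hcc : Continuous fun t : ℝ => (tr η q (-q) t) ^ 2 := htc.pow 2
        rw [intervalIntegral.integral_sub (hcc.intervalIntegrable _ _) ((continuous_const).intervalIntegrable _ _)]
        simp
      rw [h3]
      refine intervalIntegral.integral_mono_on (by norm_num) (((htc.pow 2).sub continuous_const).intervalIntegrable _ _)
        ((hpc.pow 2).intervalIntegrable _ _) fun t _ => ?_
      have h4 := abs_le.1 (hp t)
      have h5 := hrange t
      have h6 : (tr η q (-q) t) ^ 2 - (p t) ^ 2 = (tr η q (-q) t - p t) * (2 * tr η q (-q) t - (tr η q (-q) t - p t)) := by ring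
      have h7 : |(tr η q (-q) t - p t) * (2 * tr η q (-q) t - (tr η q (-q) t - p t))| ≤ η * 3 := by
        rw [abs_mul]
        refine mul_le_mul (by rw [abs_sub_comm]; exact hp t) ?_ (abs_nonneg _) hη0.le
        rw [abs_le]
        constructor <;> linarith [h4.1, h4.2, h5.1, h5.2]
      have h8 := (abs_le.1 h7).2
      linarith
    have h9 : 16 / (A : ℝ) ≤ 1 / 8 := by
      rw [div_le_div_iff₀ (by linarith) (by norm_num)]
      linarith
    have h10 : 3 / 16 - η ≤ (q - η) * (1 - q) ^ 2 + (1 - q - η) * (-q) ^ 2 := by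
      have h11 : (q - η) * (1 - q) ^ 2 + (1 - q - η) * (-q) ^ 2 = q * (1 - q) - η * ((1 - q) ^ 2 + q ^ 2) := by ring
      rw [h11]
      have h12 : 3 / 16 ≤ q * (1 - q) := by nlinarith
      have h13 : (1 - q) ^ 2 + q ^ 2 ≤ 1 := by nlinarith
      nlinarith
    linarith
  -- the cumulant
  have hR : ∀ θ, 0 ≤ θ → θ ≤ A * δ → θ * (δ + 3 * η) - lam p θ ≤ rateD δ + 12 * η := by
    intro θ hθ0 hθ1
    have hθ1' : θ ≤ 1 := hθ1.trans hδA
    have h1 : lam (tr η q (-q)) θ ≤ lam p θ + θ * η :=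
      lam_mono htc hpc (fun t => by have := (abs_le.1 (hp t)).1; linarith) hθ0
    have hE1 : 1 ≤ Real.exp θ := Real.one_le_exp hθ0
    have hE3 : Real.exp θ ≤ 3 := by
      have h2 : Real.exp θ ≤ Real.exp 1 := Real.exp_le_exp.2 hθ1'
      have h3 := Real.exp_one_lt_d9
      linarith
    have h2 := tr_int_ge hη0 (by linarith) (by linarith) (f := fun x => Real.exp (θ * x)) (q := q)
      (Real.continuous_exp.comp (continuous_const.mul continuous_id)) fun x => (Real.exp_pos _).le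
    set X : ℝ := 1 + q * (Real.exp θ - 1) with hX
    have hX1 : 1 ≤ X := by
      have : 0 ≤ q * (Real.exp θ - 1) := mul_nonneg (by linarith) (by linarith)
      linarith
    have h3 : Real.exp (-(θ * q)) * (X * (1 - 4 * η)) ≤ ∫ t in (0 : ℝ)..1, Real.exp (θ * tr η q (-q) t) := by
      refine le_trans ?_ h2
      have h4 : Real.exp (θ * (1 - q)) = Real.exp (-(θ * q)) * Real.exp θ := by
        rw [← Real.exp_add]
        congr 1
        ring
      have h5 : Real.exp (θ * -q) = Real.exp (-(θ * q)) := by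
        congr 1
        ring
      rw [h4, h5]
      have h6 : (q - η) * (Real.exp (-(θ * q)) * Real.exp θ) + (1 - q - η) * Real.exp (-(θ * q)) =
          Real.exp (-(θ * q)) * (X - η * (Real.exp θ + 1)) := by
        rw [hX]
        ring
      rw [h6]
      refine mul_le_mul_of_nonneg_left ?_ (Real.exp_pos _).le
      nlinarith
    have h4 : -(θ * q) + Real.log X - 8 * η ≤ lam (tr η q (-q)) θ := by
      have h5 : Real.log (Real.exp (-(θ * q)) * (X * (1 - 4 * η))) ≤ lam (tr η q (-q)) θ :=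
        Real.log_le_log (mul_pos (Real.exp_pos _) (mul_pos (by linarith) (by linarith))) h3
      rw [Real.log_mul (Real.exp_pos _).ne' (mul_pos (by linarith) (by linarith)).ne', Real.log_exp,
        Real.log_mul (by linarith) (by linarith)] at h5
      have h6 : -(8 * η) ≤ Real.log (1 - 4 * η) := by
        have h7 := Real.one_sub_inv_le_log_of_pos (show 0 < 1 - 4 * η by linarith)
        have h8 : (1 - 4 * η)⁻¹ ≤ 1 + 8 * η := by
          rw [inv_le_iff_one_le_mul₀ (by linarith)]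
          have h9 : 0 ≤ η * (1 - 8 * η) := mul_nonneg hη0.le (by linarith)
          have h10 : (1 + 8 * η) * (1 - 4 * η) = 1 + 4 * (η * (1 - 8 * η)) := by ring
          rw [h10]
          linarith
        linarith
      linarith
    have h5 := kl_ge (p := q + δ) (q := q) (by linarith) (by linarith) (by linarith) (by linarith) θ
    rw [hkl, ← hX] at h5
    have h6 : θ * η ≤ η := mul_le_of_le_one_left hη0.le hθ1'
    have h7 : θ * (δ + 3 * η) = (q + δ) * θ - θ * q + 3 * (θ * η) := by ring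
    rw [h7]
    linarith
  have hTC'' : TC A (Real.exp (-(cc / √δ))) H c p := by rw [← hη]; exact hTC'
  have hmain := hlow cc hcc hcc1 a b δ haa hab' hbb hδ0 e2 e1 (by rw [← hη]; exact hηA) H c p hTC'' hvar s (δ + 3 * η)
    (by linarith) (by linarith) (rateD δ + 12 * η) hR
  rw [← hη] at hmain
  refine (ENNReal.ofReal_le_ofReal ?_).trans (hmain.trans (dimH_mono ?_))
  · have h2 : (rateD δ + 12 * η + η) / Real.log b ≤ (rateD δ + 13 * η) / Real.log b := by
      refine div_le_div_of_nonneg_right ?_ hlb.le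
      linarith
    linarith
  · rintro x ⟨hx, hev⟩
    refine ⟨hx, liminf_of_event (fun N => disc_bdd (fun n => x ^ (n + 1) + s n) N) ?_⟩
    filter_upwards [hev, eventually_ge_atTop 1] with N hN hN1
    have hNpos : (0 : ℝ) < N := by exact_mod_cast hN1
    have h1 := disc_ge_gen (q := q) hη0 (by linarith) (by linarith) (fun n => x ^ (n + 1) + s n) hN1
    have h2 : Sp p s N x - N * η ≤ ∑ n ∈ range N, tr η q (-q) (x ^ (n + 1) + s n) := by
      unfold Sp
      have h3 : (N : ℝ) * η = ∑ _n ∈ range N, η := by rw [sum_const, card_range, nsmul_eq_mul]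
      rw [h3, ← sum_sub_distrib]
      refine sum_le_sum fun n _ => ?_
      have := (abs_le.1 (hp (x ^ (n + 1) + s n))).2
      linarith
    have h4 : (δ + 2 * η) * N ≤ ∑ n ∈ range N, tr η q (-q) (x ^ (n + 1) + s n) := by
      have h6 : (δ + 2 * η) * N = (δ + 3 * η) * N - N * η := by ring
      rw [h6]
      linarith
    have h5 : δ + 2 * η ≤ (∑ n ∈ range N, tr η q (-q) (x ^ (n + 1) + s n)) / N := by
      rwa [le_div_iff₀ hNpos]
    linarith

/-- **The discrepancy.** -/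
theorem disc_exp {a₀ b₀ : ℝ} (ha : 1 < a₀) (hab : a₀ < b₀) : ∃ c δ₀ : ℝ, 0 < c ∧ 0 < δ₀ ∧
    ∀ a b δ : ℝ, a₀ ≤ a → a < b → b ≤ b₀ → 0 < δ → δ ≤ δ₀ → ∀ s : ℕ → ℝ,
      DimNear a b (fun x N => disc (fun n => x ^ (n + 1) + s n) N) δ (rateD δ) (Real.exp (-(c / √δ))) := by
  obtain ⟨c₁, hc₁, hup⟩ := disc_upper_exp ha
  obtain ⟨c₂, hc₂, hlow⟩ := disc_lower_exp ha hab
  have hc : 0 < min c₁ c₂ := lt_min hc₁ hc₂
  obtain ⟨δ₁, hδ₁, hup'⟩ := hup (min c₁ c₂) hc (min_le_left _ _)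
  obtain ⟨δ₂, hδ₂, hlow'⟩ := hlow (min c₁ c₂) hc (min_le_right _ _)
  obtain ⟨δ₃, hδ₃, hsm⟩ := exp_small (c := min c₁ c₂) (C := 13) hc (by norm_num)
  refine ⟨min c₁ c₂ / 2, min (min δ₁ δ₂) δ₃, by positivity, by positivity, fun a b δ haa hab' hbb h0 hδ s => ?_⟩
  have h1 := hup' a b δ haa hab' h0 (hδ.trans ((min_le_left _ _).trans (min_le_left _ _))) s
  have h2 := hlow' a b δ haa hab' hbb h0 (hδ.trans ((min_le_left _ _).trans (min_le_right _ _))) s
  obtain ⟨-, -, -, h3⟩ := hsm δ h0 (hδ.trans (min_le_right _ _))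
  have hpos := Real.exp_pos (-(min c₁ c₂ / √δ))
  refine DimNear.mono (ε := 13 * Real.exp (-(min c₁ c₂ / √δ))) ⟨h2, h1.trans (ENNReal.ofReal_le_ofReal ?_)⟩ (by linarith) h3
  have hlb : 0 < Real.log b := Real.log_pos (by linarith)
  have := div_le_div_of_nonneg_right (show rateD δ - 13 * Real.exp (-(min c₁ c₂ / √δ)) ≤
    rateD δ - 8 * Real.exp (-(min c₁ c₂ / √δ)) by linarith) hlb.le
  linarith

end Pool.Agent.Helper18.GP
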