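import Pool.Agent.Helper18.GP.ExpU
import Pool.Agent.Helper87.GP.LowerAll

/-!
The uniform lower bound with an exponentially small error.
-/

set_option autoImplicit false

namespace Pool.Agent.Helper18.GP

open MeasureTheory Set Filter Topology
open Pool.Agent.Helper87.GP (lower_core approx near_mono Near mg)

/-- **Uniform lower bound.** -/
theorem lower_exp {a₀ b₀ : ℝ} (ha : 1 < a₀) (hab : a₀ < b₀) (A : ℕ) (hA : 1 ≤ A) : ∃ c₁ : ℝ, 0 < c₁ ∧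
    ∀ cc, 0 < cc → cc ≤ c₁ → ∀ a b δ : ℝ, a₀ ≤ a → a < b → b ≤ b₀ → 0 < δ → 200 * (A : ℝ) ^ 5 * δ ≤ 1 → 3 ≤ cc / √δ →
    20 * (A : ℝ) ^ 2 * Real.exp (-(cc / √δ)) ≤ δ →
    ∀ (H : ℕ) (c : ℤ → ℂ) (p : ℝ → ℝ), TC A (Real.exp (-(cc / √δ))) H c p →
    16 / (A : ℝ) ≤ ∫ t in (0 : ℝ)..1, (p t) ^ 2 → ∀ (s : ℕ → ℝ) (h : ℝ), δ ≤ h → h ≤ 2 * δ → ∀ R : ℝ,
    (∀ θ, 0 ≤ θ → θ ≤ A * δ → θ * h - lam p θ ≤ R) →
    ENNReal.ofReal (1 - (R + Real.exp (-(cc / √δ))) / Real.log b) ≤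
      dimH {x | x ∈ Set.Ioo a b ∧ ∀ᶠ N : ℕ in atTop, h * N ≤ Sp p s N x} := by
  have hAr : (1 : ℝ) ≤ A := by exact_mod_cast hA
  have hA0 : (0 : ℝ) < A := by linarith
  have ha0 : 0 < a₀ := by linarith
  obtain ⟨c₁, hc₁, hkap⟩ := kap_exp ha (A := A + 5) (C' := 4 * (A : ℝ) ^ 2 + 2) (by positivity) (by positivity)
  refine ⟨c₁, hc₁, ?_⟩
  intro cc hcc hcc1 a b δ haa hab' hbb hδ hδA hℓ3 hηδ H c p hTC hV s h hh hh' R hR
  obtain ⟨ℓ, hℓ⟩ : ∃ ℓ : ℝ, ℓ = cc / √δ := ⟨_, rfl⟩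
  rw [← hℓ] at hℓ3 hηδ hTC ⊢
  have hℓ1 : 1 ≤ ℓ := by linarith
  obtain ⟨η, hη⟩ : ∃ η : ℝ, η = Real.exp (-ℓ) := ⟨_, rfl⟩
  rw [← hη] at hηδ hTC ⊢
  have hη0 : 0 < η := by rw [hη]; exact Real.exp_pos _
  have hA5 : (1 : ℝ) ≤ (A : ℝ) ^ 5 := one_le_pow₀ hAr
  have hA2 : (1 : ℝ) ≤ (A : ℝ) ^ 2 := one_le_pow₀ hAr
  have hA25 : (A : ℝ) ^ 2 ≤ (A : ℝ) ^ 5 := pow_le_pow_right₀ hAr (by norm_num)
  have hδ1 : δ ≤ 1 := by nlinarith
  have hinv : 1 / η = Real.exp ℓ := by rw [hη, one_div, Real.exp_neg, inv_inv]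
  have hlog : Real.log (1 / η) = ℓ := by rw [hinv, Real.log_exp]
  have hpc : Continuous p := hTC.cont
  have hmean := hTC.mean
  have hlip := gp_lip hTC.eq
  have hK : 0 ≤ 2 * Real.pi * H * nm H c := by
    have := nm_nonneg H c
    have := Real.pi_pos
    positivity
  obtain ⟨n, hn⟩ : ∃ n : ℕ, n = ⌈ℓ⌉₊ := ⟨_, rfl⟩
  have hn1 : ℓ ≤ n := by rw [hn]; exact Nat.le_ceil ℓ
  have hn2 : (n : ℝ) ≤ ℓ + 1 := by rw [hn]; exact (Nat.ceil_lt_add_one (by linarith)).le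
  have hnpos : 1 ≤ n := by
    have : (0 : ℝ) < n := by linarith
    exact_mod_cast this
  obtain ⟨y, hy⟩ : ∃ y : ℝ, y = 2 * (A : ℝ) ^ 2 * δ := ⟨_, rfl⟩
  have hy0 : 0 < y := by rw [hy]; positivity
  have hy100 : y ≤ 1 / 100 := by
    rw [hy]
    nlinarith
  have hy1 : y ≤ 1 := by linarith
  -- the size of the error: `y ^ (n + 1) ≤ η ^ 2 / 100`
  have hsq : Real.exp (-2) ≥ 1 / 10 := by
    have h4 := Real.exp_one_lt_d9
    have h5 : Real.exp (-2) = ((Real.exp 1) ^ 2)⁻¹ := by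
      rw [← Real.exp_nat_mul, ← Real.exp_neg]
      norm_num
    rw [h5, ge_iff_le, ← one_div]
    refine one_div_le_one_div_of_le (by positivity) ?_
    have : 0 < Real.exp 1 := Real.exp_pos 1
    nlinarith
  have hyn : y ^ (n + 1) ≤ η ^ 2 / 100 := by
    have h1 : y ^ (n + 1) ≤ (Real.exp (-2) / 10) ^ (n + 1) := pow_le_pow_left₀ hy0.le (by linarith) _
    have h2 : (Real.exp (-2) / 10) ^ (n + 1) ≤ η ^ 2 / 100 := by
      rw [div_pow, ← Real.exp_nat_mul]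
      have h4 : Real.exp (((n + 1 : ℕ) : ℝ) * -2) ≤ η ^ 2 := by
        rw [hη, ← Real.exp_nat_mul]
        refine Real.exp_le_exp.2 ?_
        push_cast
        linarith
      have h5 : (100 : ℝ) ≤ 10 ^ (n + 1) := by
        have h6 : (10 : ℝ) ^ 2 ≤ 10 ^ (n + 1) := pow_le_pow_right₀ (by norm_num) (by omega)
        norm_num at h6
        exact h6
      exact div_le_div₀ (by positivity) h4 (by norm_num) h5
    exact h1.trans h2
  have hη1 : η ≤ 1 := by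
    rw [hη]
    exact Real.exp_le_one_iff.2 (by linarith)
  have hη2 : η ^ 2 ≤ η := by nlinarith
  have hyn8 : y ^ (n + 1) ≤ 1 / 8 := by linarith
  have hyn0 : 0 < y ^ (n + 1) := by positivity
  have hηδ' : η ≤ δ := by nlinarith
  have hyδ : 2 * y ^ (n + 1) ≤ δ / 2 := by linarith
  -- the norm
  have hdeg : ∀ X : ℝ, X = max ((n * H : ℕ) : ℝ) 1 → 1 ≤ X ∧ X ≤ Real.exp ((A + 5) * ℓ) := by
    intro X hX
    refine ⟨by rw [hX]; exact le_max_right _ _, ?_⟩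
    have h6 := hTC.deg
    rw [hinv, ← Real.exp_nat_mul] at h6
    have h8 : ℓ + 1 ≤ Real.exp ℓ := Real.add_one_le_exp ℓ
    have h11 : (n : ℝ) ≤ Real.exp ℓ := by linarith
    rw [hX]
    refine max_le ?_ (Real.one_le_exp (by positivity))
    push_cast
    calc (n : ℝ) * H ≤ Real.exp ℓ * Real.exp (A * ℓ) := mul_le_mul h11 h6 (by positivity) (Real.exp_pos _).le
      _ = Real.exp ((A + 1) * ℓ) := by rw [← Real.exp_add]; congr 1; ring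
      _ ≤ Real.exp ((A + 5) * ℓ) := Real.exp_le_exp.2 (by nlinarith)
  have hW : Real.exp (2 * A * δ * nm H c) + y ^ (n + 1) < (1 - 2 * y ^ (n + 1)) * a₀ ^ (kap a₀ (max ((n * H : ℕ) : ℝ) 1)) := by
    obtain ⟨hX1, hX2⟩ := hdeg _ rfl
    have h1 : 2 * A * δ * nm H c ≤ 4 * (A : ℝ) ^ 2 * δ * ℓ := by
      have h2 : 2 * A * δ * nm H c ≤ 2 * A * δ * (A * (1 + ℓ)) := by
        refine mul_le_mul_of_nonneg_left ?_ (by positivity)
        rw [← hlog]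
        exact hTC.nm_le
      have h3 : 2 * A * δ * (A * (1 + ℓ)) ≤ 2 * A * δ * (A * (2 * ℓ)) := by
        refine mul_le_mul_of_nonneg_left (mul_le_mul_of_nonneg_left (by linarith) hA0.le) (by positivity)
      linarith [h2, h3, (by ring : 2 * (A : ℝ) * δ * (A * (2 * ℓ)) = 4 * (A : ℝ) ^ 2 * δ * ℓ)]
    have h2 : Real.exp (2 * A * δ * nm H c) + y ^ (n + 1) ≤ Real.exp (4 * (A : ℝ) ^ 2 * δ * ℓ + δ) := by
      have h3 := Real.exp_le_exp.2 h1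
      have h4 : Real.exp (4 * (A : ℝ) ^ 2 * δ * ℓ) + δ ≤ Real.exp (4 * (A : ℝ) ^ 2 * δ * ℓ + δ) := by
        rw [Real.exp_add]
        have h5 := Real.add_one_le_exp δ
        have h6 : 1 ≤ Real.exp (4 * (A : ℝ) ^ 2 * δ * ℓ) := Real.one_le_exp (by positivity)
        nlinarith
      linarith
    have h3 : Real.exp (-δ) ≤ 1 - 2 * y ^ (n + 1) := by
      have h4 : Real.exp (-δ) ≤ 1 / (1 + δ) := by
        rw [Real.exp_neg, ← one_div]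
        exact one_div_le_one_div_of_le (by linarith) (by linarith [Real.add_one_le_exp δ])
      refine h4.trans ?_
      rw [div_le_iff₀ (by linarith)]
      nlinarith
    have h5 := hkap cc hcc hcc1 δ hδ (by rw [← hℓ]; exact hℓ1) _ hX1 (by rw [← hℓ]; exact hX2)
    rw [← hℓ] at h5
    have h6 : Real.exp (4 * (A : ℝ) ^ 2 * δ * ℓ + δ) < Real.exp (-δ) * a₀ ^ (kap a₀ (max ((n * H : ℕ) : ℝ) 1)) := by
      rw [Real.rpow_def_of_pos ha0, ← Real.exp_add]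
      refine Real.exp_lt_exp.2 ?_
      have h7 : δ ≤ δ * ℓ := le_mul_of_one_le_right hδ.le hℓ1
      linarith
    refine lt_of_le_of_lt h2 (lt_of_lt_of_le h6 ?_)
    exact mul_le_mul_of_nonneg_right h3 (Real.rpow_pos_of_pos ha0 _).le
  -- apply the core
  obtain ⟨σ, hσ⟩ : ∃ σ : ℝ, σ = η := ⟨_, rfl⟩
  have hE : 4 * (2 * y ^ (n + 1)) ≤ (A : ℝ) ^ 2 * σ ^ 2 := by
    rw [hσ]
    have h1 : (1 : ℝ) * η ^ 2 ≤ (A : ℝ) ^ 2 * η ^ 2 := mul_le_mul_of_nonneg_right hA2 (sq_nonneg η)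
    linarith
  have hmain := lower_core (lt_of_lt_of_le ha haa) hab' hK hlip hAr hTC.bd hmean hV (h := h) (σ := σ)
    (E := 2 * y ^ (n + 1)) hδ (by linarith [mul_pos (lt_of_lt_of_le one_pos hA5) hδ]) (by rw [hσ]; exact hη0)
    (by rw [hσ]; exact hηδ) hh hh' (by positivity) hE
    (fun θ hθ hθΘ => by
      obtain ⟨gl, gu, ml, mu, q1, q2, q3, q4, q5, q6, q7, q8, q9, q10, q11, q12⟩ :=
        approx ha hab.le hTC.eq hTC.c0 hA0.le hTC.bd (n := n) hnpos (Θ := 2 * A * δ) (y := y) (by rw [hy]; exact le_of_eq (by ring))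
          hy0.le hy1 hyn8 hW hθ hθΘ
      exact ⟨gl, gu, ml, mu, q1, q2, q3, q4, q5, q6, q7, q8, q9, q10, near_mono q11 haa hbb, near_mono q12 haa hbb⟩)
    hR s
  refine le_trans (ENNReal.ofReal_le_ofReal ?_) hmain
  have hlogb : 0 < Real.log b := Real.log_pos ((lt_of_lt_of_le ha haa).trans hab')
  have h1 : R + 6 * (A : ℝ) ^ 3 * δ * σ + 2 * (2 * y ^ (n + 1)) ≤ R + η := by
    rw [hσ]
    have h2 : 6 * (A : ℝ) ^ 3 * δ ≤ 1 / 2 := by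
      have hA35 : (A : ℝ) ^ 3 ≤ (A : ℝ) ^ 5 := pow_le_pow_right₀ hAr (by norm_num)
      nlinarith
    have h3 : 6 * (A : ℝ) ^ 3 * δ * η ≤ 1 / 2 * η := mul_le_mul_of_nonneg_right h2 hη0.le
    linarith
  have h2 := div_le_div_of_nonneg_right h1 hlogb.le
  linarith

end Pool.Agent.Helper18.GP
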