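import Pool.Agent.Helper18.GP.ExpDisc
import Pool.Agent.Helper59.GP.Exp

/-!
The means of a Lipschitz function and the Weyl sums with an exponentially small error.
-/

set_option autoImplicit false

namespace Pool.Agent.Helper18.GP

open Finset Filter Topology MeasureTheory
open Pool.Agent.Helper82.FK (e)
open Pool.Agent.Helper59.GP (rateL rate_attained lip_K lip_cont phi_bd lip_approx sp_sub_le cs cs_cont cs_per cs_lip cs_mean cs_sq
  cs_rate cs_eq_re cs_abs_le exists_dir exp_eq_e)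
open Pool.Agent.Helper78.KD (freq_of_limsup liminf_of_event dimH_finset freq_finset)

/-- **The means of a Lipschitz function.** -/
theorem mean_exp {φ : ℝ → ℝ} {K : ℝ} (hper : ∀ t, φ (t + 1) = φ t)
    (hlip : ∀ s t, |φ s - φ t| ≤ K * |s - t|) (hmean : ∫ t in (0:ℝ)..1, φ t = 0)
    (hne : ∃ t, φ t ≠ 0) {a₀ b₀ : ℝ} (ha : 1 < a₀) (hab : a₀ < b₀) :
    ∃ c δ₀ : ℝ, 0 < c ∧ 0 < δ₀ ∧ ∀ a b δ : ℝ, a₀ ≤ a → a < b → b ≤ b₀ → 0 < δ → δ ≤ δ₀ →
      ∀ s : ℕ → ℝ, DimNear a b (fun x N => (∑ n ∈ Finset.range N, φ (x ^ (n + 1) + s n)) / N) δ (rateL φ δ)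
        (Real.exp (-(c / √δ))) := by
  have hK := lip_K hlip
  have hφ := lip_cont hlip
  obtain ⟨M, hMdef⟩ : ∃ M : ℝ, M = |φ 0| + K + 1 := ⟨_, rfl⟩
  have hM : 1 ≤ M := by
    have := abs_nonneg (φ 0)
    linarith
  have hb : ∀ t, |φ t| ≤ M := fun t => by
    have := phi_bd hper hlip hK t
    linarith
  obtain ⟨V, hVdef⟩ : ∃ V : ℝ, V = ∫ t in (0:ℝ)..1, φ t ^ 2 := ⟨_, rfl⟩
  have hV0 : 0 < V := by
    rw [hVdef]
    obtain ⟨t, ht⟩ := hne
    have h1 : Function.Periodic φ 1 := hper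
    have h2 : φ (Int.fract t) = φ t := by
      have h3 := h1.sub_zsmul_eq (x := t) ⌊t⌋
      rw [zsmul_eq_mul, mul_one] at h3
      exact h3
    refine intervalIntegral.integral_pos (by norm_num) (by fun_prop) (fun x _ => sq_nonneg _)
      ⟨Int.fract t, ⟨Int.fract_nonneg t, (Int.fract_lt_one t).le⟩, ?_⟩
    rw [h2]
    positivity
  have hVM : V ≤ M ^ 2 := by
    rw [hVdef]
    have h1 : ∫ t in (0:ℝ)..1, φ t ^ 2 ≤ ∫ _ in (0:ℝ)..1, M ^ 2 :=
      intervalIntegral.integral_mono_on (by norm_num) (Continuous.intervalIntegrable (by fun_prop) _ _)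
        (by simp) fun t _ => by
          rw [← sq_abs (φ t)]
          exact pow_le_pow_left₀ (abs_nonneg _) (hb t) 2
    simpa using h1
  obtain ⟨A', hA'1, hA'⟩ := lip_approx hper hlip hmean
  obtain ⟨B, hB⟩ : ∃ B : ℕ, 32 / V ≤ B := exists_nat_ge _
  obtain ⟨A, hAdef⟩ : ∃ A : ℕ, A = A' + B + 1 := ⟨_, rfl⟩
  have hA1 : 1 ≤ A := by omega
  have hA32 : 32 / V ≤ A := hB.trans (by
    rw [hAdef]
    push_cast
    have : (0:ℝ) ≤ A' := by positivity
    linarith)
  have hA0 : (0:ℝ) < A := by exact_mod_cast hA1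
  have hA1r : (1:ℝ) ≤ A := by exact_mod_cast hA1
  have hAV : 32 ≤ A * V := by
    rwa [div_le_iff₀ hV0] at hA32
  obtain ⟨c₁, hc₁, hup⟩ := upper_exp ha A hA1
  obtain ⟨c₂, hc₂, hlow⟩ := lower_exp ha hab A hA1
  obtain ⟨cc, hccd⟩ : ∃ cc : ℝ, cc = min c₁ c₂ := ⟨_, rfl⟩
  have hcc : 0 < cc := by rw [hccd]; exact lt_min hc₁ hc₂
  have hcc1 : cc ≤ c₁ := by rw [hccd]; exact min_le_left _ _
  have hcc2 : cc ≤ c₂ := by rw [hccd]; exact min_le_right _ _
  obtain ⟨δ₃, hδ₃⟩ : ∃ δ₃ : ℝ, δ₃ = V ^ 2 / (32 * M ^ 3) := ⟨_, rfl⟩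
  have hδ₃0 : 0 < δ₃ := by
    rw [hδ₃]
    positivity
  obtain ⟨δ₄, hδ₄⟩ : ∃ δ₄ : ℝ, δ₄ = V / (4 * M) := ⟨_, rfl⟩
  have hδ₄0 : 0 < δ₄ := by
    rw [hδ₄]
    positivity
  have hA5 : (1 : ℝ) ≤ (A : ℝ) ^ 5 := one_le_pow₀ hA1r
  obtain ⟨δ₅, hδ₅0, hsm⟩ := exp_small (c := cc) (C := 200 * (A : ℝ) ^ 5) hcc (by linarith)
  refine ⟨cc / 2, min δ₅ (min δ₃ δ₄), by positivity, by positivity, ?_⟩
  intro a b δ haa hab' hbb h0 hδ s
  have d1 : δ ≤ δ₅ := hδ.trans (min_le_left _ _)
  have d3 : δ ≤ δ₃ := hδ.trans ((min_le_right _ _).trans (min_le_left _ _))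
  have d4 : δ ≤ δ₄ := hδ.trans ((min_le_right _ _).trans (min_le_right _ _))
  obtain ⟨e1, e2, e3, e4⟩ := hsm δ h0 d1
  obtain ⟨η, hη⟩ : ∃ η : ℝ, η = Real.exp (-(cc / √δ)) := ⟨_, rfl⟩
  rw [← hη] at e3 e4
  have hη0 : 0 < η := by rw [hη]; exact Real.exp_pos _
  have hA25 : (A : ℝ) ^ 2 ≤ (A : ℝ) ^ 5 := pow_le_pow_right₀ hA1r (by norm_num)
  have hA45 : (A : ℝ) ^ 4 ≤ (A : ℝ) ^ 5 := pow_le_pow_right₀ hA1r (by norm_num)
  have hA15 : (A : ℝ) ≤ (A : ℝ) ^ 5 := le_self_pow₀ hA1r (by norm_num)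
  have hη5 := mul_le_mul_of_nonneg_right hA5 hη0.le
  have hδ5 := mul_le_mul_of_nonneg_right hA5 h0.le
  have hη200 : 200 * η ≤ δ := by linarith
  have hδ200 : 200 * δ ≤ 1 := by linarith
  have hηA : 20 * (A : ℝ) ^ 2 * η ≤ δ := by
    have := mul_le_mul_of_nonneg_right hA25 hη0.le
    linarith
  have hAδ1 : A * δ ≤ 1 := by
    have := mul_le_mul_of_nonneg_right hA15 h0.le
    linarith
  have hA4δ : 10 * (A : ℝ) ^ 4 * δ ≤ 1 := by
    have := mul_le_mul_of_nonneg_right hA45 h0.le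
    linarith
  have hδ1 : δ ≤ 1 := by linarith
  have hlb : 0 < Real.log b := Real.log_pos (by linarith)
  have hη2 : 2 * η ≤ δ := by linarith
  have hη12 : η ≤ 1 / 2 := by linarith
  obtain ⟨H, c, p, hTC0, hpφ⟩ := hA' η hη0 hη12
  have hTC : TC A η H c p := hTC0.mono hη0 (by linarith) (by omega)
  have hTCe : TC A (Real.exp (-(cc / √δ))) H c p := by rw [← hη]; exact hTC
  have hpc := hTC.cont
  have hd3 : δ * (32 * M ^ 3) ≤ V ^ 2 := by
    have h1 := mul_le_mul_of_nonneg_right d3 (show 0 ≤ 32 * M ^ 3 by positivity)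
    have h2 : δ₃ * (32 * M ^ 3) = V ^ 2 := by
      rw [hδ₃]
      field_simp
    linarith
  obtain ⟨⟨θ, hθ0, hθA, hθ⟩, hrate⟩ := rate_attained hφ hb hM hmean hV0 hVM hVdef.le (A := A) (by linarith)
    hA0.le h0 hd3
  have hAη : ∀ θ' : ℝ, θ' ≤ A * δ → 3 * (θ' * η) ≤ 3 * η := by
    intro θ' h1
    have h2 := mul_le_mul_of_nonneg_right (h1.trans hAδ1) hη0.le
    linarith
  have hfb : ∀ x : ℝ, ∀ N : ℕ, |(∑ n ∈ Finset.range N, φ (x ^ (n + 1) + s n)) / (N : ℝ)| ≤ M := by
    intro x N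
    rcases Nat.eq_zero_or_pos N with h | h
    · subst h
      simp
      linarith
    · have hN : (0:ℝ) < N := by exact_mod_cast h
      rw [abs_div, abs_of_pos hN, div_le_iff₀ hN]
      refine (Finset.abs_sum_le_sum_abs _ _).trans ((Finset.sum_le_sum fun n _ => hb _).trans (le_of_eq ?_))
      rw [Finset.sum_const, Finset.card_range, nsmul_eq_mul]
      ring
  have he4 : 4 * η ≤ Real.exp (-((cc / 2) / √δ)) := by linarith
  refine DimNear.mono (ε := 4 * η) ⟨?_, ?_⟩ (by linarith) he4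
  · -- lower bound
    have hp2 : 16 / (A : ℝ) ≤ ∫ t in (0:ℝ)..1, (p t) ^ 2 := by
      have h1 : ∀ t, φ t ^ 2 - 2 * M * η ≤ p t ^ 2 := by
        intro t
        have h2 := abs_le.1 (hpφ t)
        have h3 := abs_le.1 (hb t)
        have h4 : p t ^ 2 = φ t ^ 2 + 2 * φ t * (p t - φ t) + (p t - φ t) ^ 2 := by ring
        have h5 : |φ t * (p t - φ t)| ≤ M * η := by
          rw [abs_mul]
          exact mul_le_mul (hb t) (hpφ t) (abs_nonneg _) (by linarith)
        have h6 := (abs_le.1 h5).1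
        linarith [sq_nonneg (p t - φ t)]
      have h2 : ∫ t in (0:ℝ)..1, (φ t ^ 2 - 2 * M * η) ≤ ∫ t in (0:ℝ)..1, p t ^ 2 :=
        intervalIntegral.integral_mono_on (by norm_num) (Continuous.intervalIntegrable (by fun_prop) _ _)
          (Continuous.intervalIntegrable (by fun_prop) _ _) fun t _ => h1 t
      rw [intervalIntegral.integral_sub (Continuous.intervalIntegrable (by fun_prop) _ _) (by simp),
        ← hVdef] at h2
      simp only [intervalIntegral.integral_const, sub_zero, smul_eq_mul, one_mul] at h2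
      have h3 : 2 * M * η ≤ V / 4 := by
        have h4 : M * (4 * δ) ≤ V := by
          have h5 := mul_le_mul_of_nonneg_right d4 (show 0 ≤ 4 * M by positivity)
          have h6 : δ₄ * (4 * M) = V := by
            rw [hδ₄]
            field_simp
          linarith
        have h7 := mul_le_mul_of_nonneg_left hη200 (show 0 ≤ M by linarith)
        linarith
      have h4 : 16 / (A : ℝ) ≤ V / 2 := by
        rw [div_le_div_iff₀ hA0 (by norm_num)]
        linarith
      linarith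
    have h1 := hlow cc hcc hcc2 a b δ haa hab' hbb h0 e2 e1 (by rw [← hη]; exact hηA) H c p hTCe hp2 s (δ + 2 * η)
      (by linarith) (by linarith) (rateL φ δ + 3 * η) (by
        intro θ' h2 h3
        have h4 := lam_mono hφ hpc (η := η) (fun t => by
          have := (abs_le.1 (hpφ t)).1
          linarith) h2
        have h5 := hrate θ'
        have h6 := hAη θ' h3
        linarith)
    rw [← hη] at h1
    refine (ENNReal.ofReal_le_ofReal ?_).trans (h1.trans (dimH_mono ?_))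
    · have h2 : (rateL φ δ + 3 * η + η) / Real.log b ≤
          (rateL φ δ + 4 * η) / Real.log b := by
        apply div_le_div_of_nonneg_right _ hlb.le
        linarith
      linarith
    · rintro x ⟨hx, hN⟩
      refine ⟨hx, liminf_of_event (hfb x) ?_⟩
      filter_upwards [hN, eventually_ge_atTop 1] with N h2 h3
      have hNr : (0:ℝ) < N := by
        have : 0 < N := by omega
        exact_mod_cast this
      rw [le_div_iff₀ hNr]
      have h4 := (abs_le.1 (sp_sub_le hpφ s N x)).2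
      have h5 : Sp φ s N x = ∑ n ∈ Finset.range N, φ (x ^ (n + 1) + s n) := rfl
      rw [← h5]
      have h6 : 0 ≤ N * η := by positivity
      linarith
  · -- upper bound
    have h1 := hup cc hcc hcc1 a b δ haa hab' h0 hA4δ (by linarith) H c p hTCe θ hθ0 hθA s (δ - 2 * η)
    rw [← hη] at h1
    refine (dimH_mono ?_).trans (h1.trans (ENNReal.ofReal_le_ofReal ?_))
    · rintro x ⟨hx, hls⟩
      refine ⟨⟨hx.1.le, hx.2.le⟩, ?_⟩
      have h2 := freq_of_limsup (δ' := δ - η) (hfb x) hls (by linarith)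
      refine (h2.and_eventually (eventually_ge_atTop 1)).mono ?_
      rintro N ⟨h3, h4⟩
      have hNr : (0:ℝ) < N := by
        have : 0 < N := by omega
        exact_mod_cast this
      rw [lt_div_iff₀ hNr] at h3
      have h5 := (abs_le.1 (sp_sub_le hpφ s N x)).1
      have h6 : Sp φ s N x = ∑ n ∈ Finset.range N, φ (x ^ (n + 1) + s n) := rfl
      rw [← h6] at h3
      have h7 : 0 ≤ N * η := by positivity
      linarith
    · have h2 : (rateL φ δ - 4 * η) / Real.log b ≤
          (θ * (δ - 2 * η) - lam p θ - η) / Real.log b := by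
        apply div_le_div_of_nonneg_right _ hlb.le
        have h3 := lam_mono hpc hφ (η := η) (fun t => by
          have := (abs_le.1 (hpφ t)).2
          linarith) hθ0
        have h4 := hAη θ hθA
        rw [hθ]
        linarith
      linarith

/-- **Weyl sums.** -/
theorem weyl_exp (m : ℕ) (hm : 1 ≤ m) {a₀ b₀ : ℝ} (ha : 1 < a₀) (hab : a₀ < b₀) :
    ∃ c δ₀ : ℝ, 0 < c ∧ 0 < δ₀ ∧ ∀ a b δ : ℝ, a₀ ≤ a → a < b → b ≤ b₀ → 0 < δ → δ ≤ δ₀ →
      ∀ s : ℕ → ℝ, DimNear a b (fun x N => ‖∑ n ∈ Finset.range N, Complex.exp (2 * Real.pi * Complex.I *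
            ((m * (x ^ (n + 1) + s n) : ℝ) : ℂ))‖ / N) δ (rateL (fun t => Real.cos (2 * Real.pi * t)) δ)
        (Real.exp (-(c / √δ))) := by
  have hpi := Real.pi_pos
  have hmr : (0:ℝ) < m := by
    have : 0 < m := by omega
    exact_mod_cast this
  have hne : ∃ t, cs m t ≠ 0 := ⟨0, by
    unfold cs
    simp⟩
  have e_norm : ∀ y : ℝ, ‖e y‖ = 1 := Pool.Agent.Helper82.FK.norm_e
  have e_add := Pool.Agent.Helper82.FK.e_add
  obtain ⟨c, δ₁, hc, hδ₁, hall⟩ := mean_exp (cs_per m) (cs_lip m) (cs_mean hm) hne ha hab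
  obtain ⟨δ₂, hδ₂, hsm⟩ := exp_small (c := c) (C := 17) hc (by norm_num)
  refine ⟨c / 2, min (min δ₁ δ₂) (1 / 128), by positivity, by positivity, ?_⟩
  intro a b δ haa hab' hbb h0 hδ s
  have d1 : δ ≤ δ₁ := hδ.trans ((min_le_left _ _).trans (min_le_left _ _))
  have d3 : δ ≤ δ₂ := hδ.trans ((min_le_left _ _).trans (min_le_right _ _))
  have d2 : δ ≤ 1 / 128 := hδ.trans (min_le_right _ _)
  obtain ⟨f1, f2, f3, f4⟩ := hsm δ h0 d3
  have hδ1 : δ ≤ 1 := by linarith
  have hlb : 0 < Real.log b := Real.log_pos (by linarith)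
  rw [← cs_rate hm]
  simp_rw [exp_eq_e]
  obtain ⟨η, hη⟩ : ∃ η : ℝ, η = Real.exp (-(c / √δ)) := ⟨_, rfl⟩
  rw [← hη] at f3 f4
  have hη0 : 0 < η := by rw [hη]; exact Real.exp_pos _
  have hηδ : η ≤ δ := by linarith
  -- the norm of the sum
  have hnb : ∀ x : ℝ, ∀ N : ℕ, |‖∑ n ∈ Finset.range N, e (m * (x ^ (n + 1) + s n))‖ / (N : ℝ)| ≤ 1 := by
    intro x N
    rcases Nat.eq_zero_or_pos N with h | h
    · subst h
      simp
    · have hN : (0:ℝ) < N := by exact_mod_cast h
      rw [abs_div, abs_of_pos hN, abs_of_nonneg (norm_nonneg _), div_le_iff₀ hN, one_mul]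
      refine (norm_sum_le _ _).trans (le_of_eq ?_)
      simp [e_norm]
  have hfb : ∀ (s : ℕ → ℝ) (x : ℝ) (N : ℕ), |(∑ n ∈ Finset.range N, cs m (x ^ (n + 1) + s n)) / (N : ℝ)| ≤ 1 := by
    intro s x N
    rcases Nat.eq_zero_or_pos N with h | h
    · subst h
      simp
    · have hN : (0:ℝ) < N := by exact_mod_cast h
      rw [abs_div, abs_of_pos hN, div_le_iff₀ hN]
      refine (Finset.abs_sum_le_sum_abs _ _).trans ((Finset.sum_le_sum fun n _ => cs_abs_le m _).trans (le_of_eq ?_))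
      simp
  refine DimNear.mono (ε := 17 * η) ⟨?_, ?_⟩ (by linarith) f4
  · -- lower bound
    have hall1 := (hall a b δ haa hab' hbb h0 d1 s).1
    rw [← hη] at hall1
    refine (ENNReal.ofReal_le_ofReal ?_).trans (hall1.trans (dimH_mono ?_))
    · have h2 : (rateL (cs m) δ + η) / Real.log b ≤
          (rateL (cs m) δ + 17 * η) / Real.log b := by
        apply div_le_div_of_nonneg_right _ hlb.le
        linarith
      linarith
    · rintro x ⟨hx, hls⟩
      refine ⟨hx, hls.trans (liminf_le_liminf (Eventually.of_forall fun N => ?_) ?_ ?_)⟩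
      · apply div_le_div_of_nonneg_right _ (Nat.cast_nonneg N)
        have h1 : ∑ n ∈ Finset.range N, cs m (x ^ (n + 1) + s n) =
            (∑ n ∈ Finset.range N, e (m * (x ^ (n + 1) + s n))).re := by
          rw [Complex.re_sum]
          exact Finset.sum_congr rfl fun n _ => cs_eq_re m _
        rw [h1]
        exact Complex.re_le_norm _
      · exact ⟨-1, by
          rw [eventually_map]
          exact Eventually.of_forall fun N => (abs_le.1 (hfb s x N)).1⟩
      · exact IsBoundedUnder.isCoboundedUnder_ge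
          ⟨1, by
            rw [eventually_map]
            exact Eventually.of_forall fun N => (abs_le.1 (hnb x N)).2⟩
  · -- upper bound
    obtain ⟨δ', hδ'⟩ : ∃ δ' : ℝ, δ' = δ * (1 - η) := ⟨_, rfl⟩
    have hδ'0 : 0 < δ' := by
      rw [hδ']
      apply mul_pos h0
      linarith
    have hδ'δ : δ' ≤ δ := by
      rw [hδ']
      linarith [mul_pos h0 hη0]
    -- comparison of the rates
    have hcmp : rateL (cs m) δ ≤ rateL (cs m) δ' + 16 * η := by
      obtain ⟨⟨θ, hθ0, hθA, hθ⟩, -⟩ := rate_attained (cs_cont m) (cs_abs_le m) le_rfl (cs_mean hm)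
        (V := 1 / 2) (by norm_num) (by norm_num) (cs_sq hm).ge (A := 16) (by norm_num) (by norm_num) h0
        (by norm_num; linarith)
      obtain ⟨-, h2⟩ := rate_attained (cs_cont m) (cs_abs_le m) le_rfl (cs_mean hm)
        (V := 1 / 2) (by norm_num) (by norm_num) (cs_sq hm).ge (A := 16) (by norm_num) (by norm_num) hδ'0
        (by norm_num; linarith)
      have h3 := h2 θ
      have h4 : θ * (δ - δ') ≤ 16 * η := by
        have h5 : δ - δ' = δ * η := by
          rw [hδ']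
          ring
        rw [h5]
        have h6 : θ * (δ * η) ≤ 16 * δ * (δ * η) := mul_le_mul_of_nonneg_right hθA (by positivity)
        have h7 : δ * (δ * η) ≤ η := by
          have h8 : δ * δ ≤ 1 * 1 := mul_le_mul hδ1 hδ1 h0.le zero_le_one
          have h9 := mul_le_mul_of_nonneg_right h8 hη0.le
          linarith
        linarith
      rw [hθ]
      linarith
    -- the grid
    obtain ⟨M, hM⟩ : ∃ M : ℕ, 4 * Real.pi / η ≤ M := exists_nat_ge _
    have hMr : (0:ℝ) < M := lt_of_lt_of_le (by positivity) hM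
    have hM1 : 1 ≤ M := by
      have : 0 < M := by exact_mod_cast hMr
      omega
    have hMη : 2 * Real.pi / M ≤ η / 2 := by
      rw [div_le_iff₀ hη0] at hM
      rw [div_le_iff₀ hMr]
      linarith
    refine dimH_finset (Finset.range M) (fun j => {x | x ∈ Set.Ioo a b ∧ δ' ≤ limsup (fun N : ℕ =>
      (∑ n ∈ Finset.range N, cs m (x ^ (n + 1) + (fun n => s n + j / (M * m)) n)) / N) atTop}) _ _ ?_ ?_
    · rintro x ⟨hx, hls⟩
      have h1 := freq_of_limsup (δ' := δ * (1 - η / 2)) (hnb x) hls (by linarith [mul_pos h0 hη0])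
      have h2 : ∃ᶠ N : ℕ in atTop, ∃ j ∈ Finset.range M, δ' ≤
          (∑ n ∈ Finset.range N, cs m (x ^ (n + 1) + (fun n => s n + j / (M * m)) n)) / N := by
        refine (h1.and_eventually (eventually_ge_atTop 1)).mono ?_
        rintro N ⟨h3, h4⟩
        have hNr : (0:ℝ) < N := by
          have : 0 < N := by omega
          exact_mod_cast this
        rw [lt_div_iff₀ hNr] at h3
        obtain ⟨j, hj, hjz⟩ := exists_dir (∑ n ∈ Finset.range N, e (m * (x ^ (n + 1) + s n))) hM1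
        refine ⟨j, hj, ?_⟩
        rw [le_div_iff₀ hNr]
        have h5 : (e (j / M) * ∑ n ∈ Finset.range N, e (m * (x ^ (n + 1) + s n))).re =
            ∑ n ∈ Finset.range N, cs m (x ^ (n + 1) + (fun n => s n + j / (M * m)) n) := by
          rw [Finset.mul_sum, Complex.re_sum]
          refine Finset.sum_congr rfl fun n _ => ?_
          rw [cs_eq_re, ← e_add]
          congr 2
          field_simp
          ring
        rw [← h5]
        refine le_trans ?_ hjz
        have h6 : δ * (1 - η / 2) * N * (1 - 2 * Real.pi / M) ≤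
            ‖∑ n ∈ Finset.range N, e (m * (x ^ (n + 1) + s n))‖ * (1 - 2 * Real.pi / M) :=
          mul_le_mul_of_nonneg_right h3.le (by linarith)
        refine le_trans ?_ h6
        rw [hδ']
        have h7 : 1 - η ≤ (1 - η / 2) * (1 - 2 * Real.pi / M) := by
          have h8 : (1 - η / 2) * (1 - η / 2) ≤ (1 - η / 2) * (1 - 2 * Real.pi / M) :=
            mul_le_mul_of_nonneg_left (by linarith) (by linarith)
          linarith [sq_nonneg (η / 2)]
        have h9 : 0 ≤ δ * N := by positivity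
        calc δ * (1 - η) * N = δ * N * (1 - η) := by ring
          _ ≤ δ * N * ((1 - η / 2) * (1 - 2 * Real.pi / M)) := mul_le_mul_of_nonneg_left h7 h9
          _ = _ := by ring
      obtain ⟨j, hj, hf⟩ := freq_finset _ _ h2
      refine ⟨j, hj, hx, ?_⟩
      refine le_limsup_of_frequently_le hf ?_
      exact ⟨1, by
        rw [eventually_map]
        exact Eventually.of_forall fun N => (abs_le.1 (hfb _ x N)).2⟩
    · intro j _
      refine ((hall a b δ' haa hab' hbb hδ'0 (hδ'δ.trans d1) (fun n => s n + j / (M * m))).2).trans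
        (ENNReal.ofReal_le_ofReal ?_)
      have h2 : (rateL (cs m) δ - 17 * η) / Real.log b ≤
          (rateL (cs m) δ' - Real.exp (-(c / √δ'))) / Real.log b := by
        apply div_le_div_of_nonneg_right _ hlb.le
        have h3 : Real.exp (-(c / √δ')) ≤ η := by
          rw [hη]
          refine Real.exp_le_exp.2 (neg_le_neg ?_)
          exact div_le_div_of_nonneg_left hc.le (Real.sqrt_pos.2 hδ'0) (Real.sqrt_le_sqrt hδ'δ)
        linarith
      linarith

end Pool.Agent.Helper18.GP
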