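import Pool.Agent.Helper18.GP.Upper

/-!
The uniform upper bound with an exponentially small error.
-/

set_option autoImplicit false

namespace Pool.Agent.Helper18.GP

open Finset MeasureTheory Set Filter Topology Pool.Agent.Helper82.FK

/-- lower bound for the exponent -/
theorem kap_ge {a : ℝ} (ha : 1 < a) : ∃ M : ℝ, 1 ≤ M ∧ ∀ X : ℝ, 1 ≤ X → 1 / (M * (1 + Real.log X)) ≤ kap a X := by
  have ha0 : 0 < a := by linarith
  have hs1 : 1 < √a := by
    rw [Real.lt_sqrt (by norm_num)]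
    simpa using ha
  have hls : 0 < Real.log (√a) := Real.log_pos hs1
  have hR1 : (√a)⁻¹ < 1 := inv_lt_one_of_one_lt₀ hs1
  set G : ℝ := 1 - (√a)⁻¹ with hG
  have hG0 : 0 < G := by rw [hG]; linarith
  have hG1 : G ≤ 1 := by
    have : 0 < (√a)⁻¹ := by positivity
    rw [hG]; linarith
  have hlG : 0 ≤ -Real.log G := by
    have := Real.log_nonpos hG0.le hG1
    linarith
  refine ⟨2 * ((-Real.log G + 1) / Real.log (√a) + 1), ?_, fun X hX => ?_⟩
  · have : 0 ≤ (-Real.log G + 1) / Real.log (√a) := by positivity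
    linarith
  have hlX : 0 ≤ Real.log X := Real.log_nonneg hX
  have h1 : ((KK a X : ℕ) : ℝ) ≤ (-Real.log G + Real.log X) / Real.log (√a) := by
    unfold KK
    have h2 : Real.log (X / (1 - (√a)⁻¹)) = -Real.log G + Real.log X := by
      rw [Real.log_div (by linarith) hG0.ne']
      ring
    rw [h2]
    exact Nat.floor_le (by positivity)
  have h2 : (-Real.log G + Real.log X) / Real.log (√a) ≤ (-Real.log G + 1) / Real.log (√a) * (1 + Real.log X) := by
    rw [div_mul_eq_mul_div]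
    refine div_le_div_of_nonneg_right ?_ hls.le
    nlinarith
  unfold kap
  refine div_le_div_of_nonneg_left (by norm_num) (by positivity) ?_
  nlinarith

theorem kap_exp {a : ℝ} (ha : 1 < a) {A C' : ℝ} (hA : 0 ≤ A) (hC' : 0 < C') : ∃ c₁ : ℝ, 0 < c₁ ∧ ∀ c, 0 < c → c ≤ c₁ →
    ∀ δ, 0 < δ → 1 ≤ c / √δ → ∀ X : ℝ, 1 ≤ X → X ≤ Real.exp (A * (c / √δ)) →
      C' * δ * (c / √δ) < Real.log a * kap a X := by
  obtain ⟨M, hM, hkap⟩ := kap_ge ha
  have hla : 0 < Real.log a := Real.log_pos ha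
  have hM0 : 0 < M := by linarith
  refine ⟨√(Real.log a / (2 * C' * M * (1 + A))), Real.sqrt_pos.2 (by positivity), fun c hc hc1 δ hδ hℓ X hX hXA => ?_⟩
  set ℓ : ℝ := c / √δ with hℓd
  have hs : 0 < √δ := Real.sqrt_pos.2 hδ
  have hlX : Real.log X ≤ A * ℓ := by
    have := Real.log_le_log (by linarith) hXA
    rwa [Real.log_exp] at this
  have h1 := hkap X hX
  have h2 : 1 + Real.log X ≤ (1 + A) * ℓ := by nlinarith
  have h3 : 0 < 1 + Real.log X := by
    have := Real.log_nonneg hX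
    linarith
  have h4 : 1 / (M * ((1 + A) * ℓ)) ≤ kap a X := by
    refine le_trans ?_ h1
    refine div_le_div_of_nonneg_left (by norm_num) (by positivity) ?_
    exact mul_le_mul_of_nonneg_left h2 hM0.le
  have hℓδ : ℓ ^ 2 * δ = c ^ 2 := by
    rw [hℓd, div_pow, Real.sq_sqrt hδ.le]
    field_simp
  have hc2 : c ^ 2 ≤ Real.log a / (2 * C' * M * (1 + A)) := by
    have := pow_le_pow_left₀ hc.le hc1 2
    rwa [Real.sq_sqrt (by positivity)] at this
  have h5 : C' * δ * ℓ < Real.log a * (1 / (M * ((1 + A) * ℓ))) := by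
    rw [mul_one_div, lt_div_iff₀ (by positivity)]
    calc C' * δ * ℓ * (M * ((1 + A) * ℓ)) = C' * M * (1 + A) * (ℓ ^ 2 * δ) := by ring
      _ = C' * M * (1 + A) * c ^ 2 := by rw [hℓδ]
      _ ≤ C' * M * (1 + A) * (Real.log a / (2 * C' * M * (1 + A))) := by gcongr
      _ = Real.log a / 2 := by field_simp
      _ < Real.log a := by linarith
  exact h5.trans_le (mul_le_mul_of_nonneg_left h4 hla.le)

/-- **Uniform upper bound.** -/
theorem upper_exp {a₀ : ℝ} (ha : 1 < a₀) (A : ℕ) (hA : 1 ≤ A) : ∃ c₁ : ℝ, 0 < c₁ ∧ ∀ cc, 0 < cc → cc ≤ c₁ →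
    ∀ a b δ : ℝ, a₀ ≤ a → a < b → 0 < δ → 10 * (A : ℝ) ^ 4 * δ ≤ 1 → 1 ≤ cc / √δ →
      ∀ (H : ℕ) (c : ℤ → ℂ) (p : ℝ → ℝ), TC A (Real.exp (-(cc / √δ))) H c p →
      ∀ θ, 0 ≤ θ → θ ≤ A * δ → ∀ (s : ℕ → ℝ) (h : ℝ),
      dimH {x | x ∈ Icc a b ∧ ∃ᶠ N : ℕ in atTop, h * N ≤ Sp p s N x} ≤
        ENNReal.ofReal (1 - (θ * h - lam p θ - Real.exp (-(cc / √δ))) / Real.log b) := by
  have hAr : (1 : ℝ) ≤ A := by exact_mod_cast hA
  set M : ℝ := (A : ℝ) ^ 2 with hM
  have hM1 : 1 ≤ M := one_le_pow₀ hAr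
  obtain ⟨c₁, hc₁, hkap⟩ := kap_exp ha (A := A + 5) (C' := 2 * M + 1) (by positivity) (by positivity)
  refine ⟨c₁, hc₁, ?_⟩
  intro cc hcc hcc1 a b δ haa hab hδ0 hMδ4 hℓ1 H c p hp θ hθ0 hθ s h
  have hM2 : (A : ℝ) ^ 4 = M ^ 2 := by rw [hM]; ring
  rw [hM2] at hMδ4
  have hMδ10 : 10 * M * δ ≤ 1 := by
    have : M * δ ≤ M ^ 2 * δ := by
      have : M ≤ M ^ 2 := by nlinarith
      exact mul_le_mul_of_nonneg_right this hδ0.le
    linarith
  set ℓ : ℝ := cc / √δ with hℓ
  set η : ℝ := Real.exp (-ℓ) with hη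
  have hη0 : 0 < η := Real.exp_pos _
  have hMδ : M * δ ≤ 1 := by nlinarith
  have hδ1 : δ ≤ 1 := by nlinarith
  have hinv : 1 / η = Real.exp ℓ := by rw [hη, one_div, Real.exp_neg, inv_inv]
  have hlog : Real.log (1 / η) = ℓ := by rw [hinv, Real.log_exp]
  set n : ℕ := ⌈ℓ⌉₊ with hn
  have hn1 : ℓ ≤ n := Nat.le_ceil ℓ
  have hn2 : (n : ℝ) ≤ ℓ + 1 := (Nat.ceil_lt_add_one (by linarith)).le
  set E : ℝ := 2 * (M * δ) ^ (n + 1) with hE
  have hE0 : 0 < E := by positivity
  have hMδ0 : 0 < M * δ := by positivity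
  -- the size of the error
  have hE1 : 2 * E ≤ η := by
    have h1 : M * δ ≤ Real.exp (-1) / 3 := by
      have h2 : (M * δ) ≤ 1 / 10 := by linarith
      have h3 : (1 : ℝ) / 10 ≤ Real.exp (-1) / 3 := by
        rw [Real.exp_neg, div_le_div_iff₀ (by norm_num) (by norm_num)]
        have h4 := Real.exp_one_lt_d9
        have h5 : (1 : ℝ) / 2.7182818286 < (Real.exp 1)⁻¹ := by
          rw [← one_div]
          exact one_div_lt_one_div_of_lt (Real.exp_pos 1) h4
        norm_num at h5 ⊢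
        linarith
      linarith
    have h2 : (M * δ) ^ (n + 1) ≤ (Real.exp (-1) / 3) ^ (n + 1) := pow_le_pow_left₀ hMδ0.le h1 _
    have h3 : (Real.exp (-1) / 3) ^ (n + 1) ≤ Real.exp (-ℓ) / 4 := by
      rw [div_pow, ← Real.exp_nat_mul]
      have h4 : Real.exp (((n + 1 : ℕ) : ℝ) * -1) ≤ Real.exp (-ℓ) := by
        refine Real.exp_le_exp.2 ?_
        push_cast
        linarith
      have hn3 : 1 ≤ n := by
        have : (0 : ℝ) < n := by linarith
        exact_mod_cast this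
      have h5 : (4 : ℝ) ≤ 3 ^ (n + 1) := by
        have h6 : (3 : ℝ) ^ 2 ≤ 3 ^ (n + 1) := pow_le_pow_right₀ (by norm_num) (by omega)
        linarith
      exact div_le_div₀ (Real.exp_pos _).le h4 (by norm_num) h5
    rw [hE]
    linarith
  have hEδ : E ≤ δ := by
    have h1 : (M * δ) ^ (n + 1) ≤ (M * δ) ^ 2 := pow_le_pow_of_le_one hMδ0.le hMδ (by
      have : (0 : ℝ) < n := by linarith
      have : 0 < n := by exact_mod_cast this
      omega)
    rw [hE]
    nlinarith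
  have hq : ∀ t, |θ * p t| ≤ M * δ := fun t => by
    rw [abs_mul, abs_of_nonneg hθ0]
    calc θ * |p t| ≤ (A * δ) * A := mul_le_mul hθ (hp.bd t) (abs_nonneg _) (by positivity)
      _ = M * δ := by rw [hM]; ring
  have hpc := hp.cont
  have hpm := hp.mean
  -- the majorant
  set T : ℝ → ℝ := fun t => ∑ i ∈ range (n + 1), (θ * p t) ^ i / (i.factorial : ℝ) with hT
  have hTc : Continuous T := by
    rw [hT]
    exact continuous_finsetSum _ fun i _ => ((continuous_const.mul hpc).pow i).div_const _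
  have hrem : ∀ t, |Real.exp (θ * p t) - T t| ≤ E := fun t => exp_rem (hq t) hMδ n
  set g : ℝ → ℝ := fun t => T t + E with hg
  have hexpg : ∀ t, Real.exp (θ * p t) ≤ g t := fun t => by
    have := (abs_le.1 (hrem t)).2
    show _ ≤ T t + E
    linarith
  set W : ℝ := θ * nm H c with hW
  have hW0 : 0 ≤ W := mul_nonneg hθ0 (nm_nonneg _ _)
  have hTP : TP (n * (H + 1) + 1) (Real.exp W + E) (fun t => (g t : ℂ)) := by
    have h1 : TP H (nm H c) (fun t => (p t : ℂ)) := ⟨c, hp.eq, le_rfl⟩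
    have h2 := h1.smul (θ : ℂ)
    rw [Complex.norm_real, Real.norm_eq_abs, abs_of_nonneg hθ0] at h2
    have h3 := (h2.exp hW0 n).mono_deg (H' := n * (H + 1) + 1) ((Nat.mul_le_mul_left n (Nat.le_succ H)).trans (Nat.le_succ _))
    have h4 := h3.add (TP.const (n * (H + 1) + 1) (E : ℂ))
    rw [Complex.norm_real, Real.norm_eq_abs, abs_of_pos hE0] at h4
    refine h4.congr fun t => ?_
    rw [hg, hT]
    push_cast
    rfl
  obtain ⟨d, hd1, hd2⟩ := hTP
  have hgc : Continuous g := hTc.add continuous_const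
  set m : ℝ := ∫ t in (0 : ℝ)..1, g t with hm
  have hd0 : d 0 = m := coeff_zero hd1
  have hmgf := one_le_mgf hpc hpm θ
  set X : ℝ := ∫ t in (0 : ℝ)..1, Real.exp (θ * p t) with hX
  have hec : Continuous fun t => Real.exp (θ * p t) := Real.continuous_exp.comp (continuous_const.mul hpc)
  have hm1 : X ≤ m := intervalIntegral.integral_mono_on (by norm_num) (hec.intervalIntegrable _ _) (hgc.intervalIntegrable _ _)
    fun t _ => hexpg t
  have hm2 : m ≤ X + 2 * E := by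
    have h1 : X + 2 * E = ∫ t in (0 : ℝ)..1, (Real.exp (θ * p t) + 2 * E) := by
      rw [intervalIntegral.integral_add (hec.intervalIntegrable _ _) (by simp), ← hX]
      simp
    rw [h1]
    refine intervalIntegral.integral_mono_on (by norm_num) (hgc.intervalIntegrable _ _)
      ((hec.add continuous_const).intervalIntegrable _ _) fun t _ => ?_
    have := (abs_le.1 (hrem t)).1
    show T t + E ≤ _
    linarith
  have hlogm : Real.log m ≤ lam p θ + 2 * E := by
    have h1 : Real.log m ≤ Real.log (X * (1 + 2 * E)) := Real.log_le_log (by linarith) (by nlinarith)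
    rw [Real.log_mul (by linarith) (by positivity)] at h1
    have h2 : Real.log (1 + 2 * E) ≤ 2 * E := by
      have := Real.log_le_sub_one_of_pos (show 0 < 1 + 2 * E by positivity)
      linarith
    show Real.log m ≤ Real.log X + 2 * E
    linarith
  -- the norm
  have hdeg : ((n * (H + 1) + 1 : ℕ) : ℝ) ≤ Real.exp ((A + 5) * ℓ) := by
    have h6 := hp.deg
    rw [hinv, ← Real.exp_nat_mul] at h6
    have h7 : (1 : ℝ) ≤ Real.exp (A * ℓ) := Real.one_le_exp (by positivity)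
    have h8 : ℓ + 1 ≤ Real.exp ℓ := Real.add_one_le_exp ℓ
    have h9 : (2 : ℝ) ≤ Real.exp ℓ := by linarith
    have h10 : Real.exp ((A + 5) * ℓ) = Real.exp (A * ℓ) * (Real.exp ℓ) ^ 5 := by
      rw [← Real.exp_nat_mul, ← Real.exp_add]
      congr 1
      push_cast
      ring
    rw [h10]
    push_cast
    have h11 : (n : ℝ) ≤ Real.exp ℓ := by linarith
    have h12 : (n : ℝ) * (H + 1) + 1 ≤ Real.exp ℓ * (2 * Real.exp (A * ℓ)) + 1 := by
      have : (H : ℝ) + 1 ≤ 2 * Real.exp (A * ℓ) := by linarith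
      have h13 : (n : ℝ) * (H + 1) ≤ Real.exp ℓ * (2 * Real.exp (A * ℓ)) := mul_le_mul h11 this (by positivity) (by positivity)
      linarith
    refine h12.trans ?_
    have h14 : (2 : ℝ) ^ 4 ≤ (Real.exp ℓ) ^ 4 := pow_le_pow_left₀ (by norm_num) h9 4
    have h15 : 0 < Real.exp (A * ℓ) := Real.exp_pos _
    have h16 : Real.exp (A * ℓ) * (Real.exp ℓ) ^ 5 = Real.exp ℓ * Real.exp (A * ℓ) * (Real.exp ℓ) ^ 4 := by ring
    rw [h16]
    have h17 : 1 ≤ Real.exp ℓ * Real.exp (A * ℓ) := by nlinarith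
    nlinarith
  have hnm : nm (n * (H + 1) + 1) d < m * a₀ ^ (kap a₀ ((n * (H + 1) + 1 : ℕ) : ℝ)) := by
    have h1 : W ≤ 2 * M * δ * ℓ := by
      calc W ≤ (A * δ) * (A * (1 + ℓ)) := mul_le_mul hθ (by rw [← hlog]; exact hp.nm_le) (nm_nonneg _ _) (by positivity)
        _ = M * δ * (1 + ℓ) := by rw [hM]; ring
        _ ≤ M * δ * (2 * ℓ) := by
          refine mul_le_mul_of_nonneg_left (by linarith) (by positivity)
        _ = _ := by ring
    have h3 : Real.exp W + E ≤ Real.exp ((2 * M + 1) * δ * ℓ) := by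
      have h4 : Real.exp W + E ≤ Real.exp (W + E) := by
        rw [Real.exp_add]
        have h5 := Real.add_one_le_exp E
        have h6 : 1 ≤ Real.exp W := Real.one_le_exp hW0
        nlinarith
      refine h4.trans (Real.exp_le_exp.2 ?_)
      have h5 : δ ≤ δ * ℓ := le_mul_of_one_le_right hδ0.le hℓ1
      nlinarith
    have h5 := hkap cc hcc hcc1 δ hδ0 hℓ1 ((n * (H + 1) + 1 : ℕ) : ℝ) (by
      push_cast
      have : (0 : ℝ) ≤ (n : ℝ) * (H + 1) := by positivity
      linarith) hdeg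
    have h6 : Real.exp ((2 * M + 1) * δ * ℓ) < a₀ ^ (kap a₀ ((n * (H + 1) + 1 : ℕ) : ℝ)) := by
      rw [Real.rpow_def_of_pos (by linarith)]
      exact Real.exp_lt_exp.2 h5
    have h7 : 0 < a₀ ^ (kap a₀ ((n * (H + 1) + 1 : ℕ) : ℝ)) := Real.rpow_pos_of_pos (by linarith) _
    calc nm (n * (H + 1) + 1) d ≤ Real.exp W + E := hd2
      _ ≤ Real.exp ((2 * M + 1) * δ * ℓ) := h3
      _ < a₀ ^ (kap a₀ ((n * (H + 1) + 1 : ℕ) : ℝ)) := h6
      _ ≤ m * a₀ ^ (kap a₀ ((n * (H + 1) + 1 : ℕ) : ℝ)) := le_mul_of_one_le_left h7.le (by linarith)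
  have hlip : ∀ t u, |θ * p t - θ * p u| ≤ (θ * (2 * Real.pi * H * nm H c)) * |t - u| := fun t u => by
    rw [← mul_sub, abs_mul, abs_of_nonneg hθ0, mul_assoc]
    exact mul_le_mul_of_nonneg_left (gp_lip hp.eq t u) hθ0
  have hch := chernoff ha (lt_of_le_of_lt haa hab) (n * (H + 1) + 1) (by omega) d m g (fun t => θ * p t) _ (by linarith) hd0
    hnm hd1 hexpg hlip s (θ * h)
  refine (dimH_mono ?_).trans (hch.trans (ENNReal.ofReal_le_ofReal ?_))
  · rintro x ⟨hx, hfr⟩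
    refine ⟨⟨haa.trans hx.1, hx.2⟩, hfr.mono fun N hN => ?_⟩
    have h1 : Sp (fun t => θ * p t) s N x = θ * Sp p s N x := by
      unfold Sp
      rw [mul_sum]
    rw [h1, mul_assoc]
    exact mul_le_mul_of_nonneg_left hN hθ0
  · have hlb : 0 < Real.log b := Real.log_pos (by linarith)
    have h2 : (θ * h - lam p θ - η) / Real.log b ≤ (θ * h - Real.log m) / Real.log b := by
      refine div_le_div_of_nonneg_right ?_ hlb.le
      linarith
    linarith

end Pool.Agent.Helper18.GP
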