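import Pool.Agent.Helper18.GP.Defs

/-!
The order of the zeros of a power series with bounded coefficients and `|c_0| ≥ 1`, by Jensen's inequality.
-/

set_option autoImplicit false

namespace Pool.Agent.Helper18.GP

open Finset MeasureTheory Set Filter Topology

/-- the power series as a function on the complex numbers -/
noncomputable def fc (c : ℕ → ℝ) : ℂ → ℂ := (FormalMultilinearSeries.ofScalars ℂ fun j => (c j : ℂ)).sum

theorem fc_eq (c : ℕ → ℝ) (z : ℂ) : fc c z = ∑' j : ℕ, (c j : ℂ) * z ^ j := by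
  have h : (FormalMultilinearSeries.ofScalars ℂ fun j => (c j : ℂ)).sum z = ∑' j : ℕ, (c j : ℂ) • z ^ j :=
    FormalMultilinearSeries.ofScalars_sum_eq (fun j => (c j : ℂ)) z
  unfold fc
  rw [h]
  simp only [smul_eq_mul]

theorem fc_zero (c : ℕ → ℝ) : fc c 0 = c 0 := by
  rw [fc_eq, tsum_eq_single 0 fun j hj => by rw [zero_pow hj, mul_zero], pow_zero, mul_one]

theorem fc_analytic {H : ℝ} {c : ℕ → ℝ} (hc : ∀ j, |c j| ≤ H) : AnalyticOnNhd ℂ (fc c) (Metric.ball 0 1) := by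
  set p := FormalMultilinearSeries.ofScalars ℂ fun j => (c j : ℂ) with hp
  have hr : ((1 : NNReal) : ENNReal) ≤ p.radius := by
    refine p.le_radius_of_bound H fun n => ?_
    rw [hp, FormalMultilinearSeries.ofScalars_norm, NNReal.coe_one, one_pow, mul_one, Complex.norm_real, Real.norm_eq_abs]
    exact hc n
  have hpos : 0 < p.radius := lt_of_lt_of_le (by simp) hr
  intro z hz
  have h1 := p.hasFPowerSeriesOnBall hpos
  refine h1.analyticAt_of_mem ?_
  rw [Metric.mem_eball, edist_zero_right]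
  refine lt_of_lt_of_le ?_ hr
  rw [enorm_eq_nnnorm, ENNReal.coe_lt_coe, ← NNReal.coe_lt_coe, coe_nnnorm]
  simpa using hz

theorem fc_bound {H r : ℝ} {c : ℕ → ℝ} (hc : ∀ j, |c j| ≤ H) (hr : r < 1) {z : ℂ} (hz : ‖z‖ ≤ r) :
    ‖fc c z‖ ≤ H / (1 - r) := by
  have hr0 : 0 ≤ r := (norm_nonneg z).trans hz
  have hH : 0 ≤ H := (abs_nonneg _).trans (hc 0)
  rw [fc_eq]
  have hg := (hasSum_geometric_of_lt_one hr0 hr).mul_left H
  rw [← div_eq_mul_inv] at hg
  refine tsum_of_norm_bounded hg fun j => ?_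
  rw [norm_mul, norm_pow, Complex.norm_real, Real.norm_eq_abs]
  exact mul_le_mul (hc j) (pow_le_pow_left₀ (norm_nonneg _) hz j) (by positivity) hH

theorem fc_real {c : ℕ → ℝ} (y : ℝ) : fc c ((y⁻¹ : ℝ) : ℂ) = (F 0 c y : ℂ) := by
  rw [fc_eq]
  unfold F
  rw [Complex.ofReal_tsum]
  refine tsum_congr fun j => ?_
  simp [rf]

/-- the order of the complex function is at least the order of the real function -/
theorem order_ge {H : ℝ} {c : ℕ → ℝ} (hc : ∀ j, |c j| ≤ H) {x : ℝ} (hx : 1 < x) {n : ℕ}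
    (hn : (n : ℕ∞) ≤ analyticOrderAt (F 0 c) x) (hG : AnalyticAt ℝ (F 0 c) x) :
    (n : ℕ∞) ≤ analyticOrderAt (fc c) ((x⁻¹ : ℝ) : ℂ) := by
  have hx0 : 0 < x := by linarith
  have hxb : ((x⁻¹ : ℝ) : ℂ) ∈ Metric.ball (0 : ℂ) 1 := by
    rw [mem_ball_zero_iff, Complex.norm_real, Real.norm_eq_abs, abs_of_pos (by positivity)]
    exact inv_lt_one_of_one_lt₀ hx
  have hA := fc_analytic hc _ hxb
  by_contra hcon
  push Not at hcon
  obtain ⟨m, hm⟩ := ENat.ne_top_iff_exists.1 hcon.ne_top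
  rw [← hm, Nat.cast_lt] at hcon
  obtain ⟨g₂, hg₂, hg₂0, hg₂e⟩ := (hA.analyticOrderAt_eq_natCast).1 hm.symm
  obtain ⟨g, hg, hge⟩ := (natCast_le_analyticOrderAt hG).1 hn
  -- pull back
  have hcont : Tendsto (fun y : ℝ => ((y⁻¹ : ℝ) : ℂ)) (𝓝 x) (𝓝 ((x⁻¹ : ℝ) : ℂ)) :=
    (Complex.continuous_ofReal.tendsto _).comp (tendsto_inv₀ hx0.ne')
  have h1 := hcont.eventually hg₂e
  have h2 : ∀ᶠ y in 𝓝[≠] x, (((y - x) ^ (n - m) * g y : ℝ) : ℂ) = (((-(x * y)⁻¹ : ℝ) : ℂ)) ^ m * g₂ ((y⁻¹ : ℝ) : ℂ) := by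
    have h3 : ∀ᶠ y in 𝓝[≠] x, 0 < y := (lt_mem_nhds hx0).filter_mono nhdsWithin_le_nhds
    filter_upwards [h1.filter_mono nhdsWithin_le_nhds, hge.filter_mono nhdsWithin_le_nhds, self_mem_nhdsWithin, h3] with y h4 h5 h6 h7
    rw [fc_real, h5] at h4
    have hyx : y - x ≠ 0 := sub_ne_zero.2 h6
    have hyx' : ((y - x : ℝ) : ℂ) ^ m ≠ 0 := pow_ne_zero _ (by exact_mod_cast hyx)
    have h8 : ((y⁻¹ : ℝ) : ℂ) - ((x⁻¹ : ℝ) : ℂ) = ((y - x : ℝ) : ℂ) * ((-(x * y)⁻¹ : ℝ) : ℂ) := by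
      rw [← Complex.ofReal_sub, ← Complex.ofReal_mul]
      congr 1
      field_simp
      ring
    rw [h8, mul_pow, smul_eq_mul, smul_eq_mul] at h4
    apply mul_left_cancel₀ hyx'
    rw [← mul_assoc, ← h4]
    have h9 : (y - x) ^ n = (y - x) ^ m * (y - x) ^ (n - m) := by
      rw [← pow_add]
      congr 1
      omega
    rw [h9]
    push_cast
    ring
  have h3 : Tendsto (fun y : ℝ => (((y - x) ^ (n - m) * g y : ℝ) : ℂ)) (𝓝[≠] x) (𝓝 0) := by
    have h4 : Tendsto (fun y : ℝ => (y - x) ^ (n - m) * g y) (𝓝 x) (𝓝 ((x - x) ^ (n - m) * g x)) :=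
      (((continuous_id.sub continuous_const).pow _).tendsto x).mul hg.continuousAt
    rw [sub_self, zero_pow (by omega), zero_mul] at h4
    have h5 := (Complex.continuous_ofReal.tendsto 0).comp h4
    rw [Complex.ofReal_zero] at h5
    exact h5.mono_left nhdsWithin_le_nhds
  have h4 : Tendsto (fun y : ℝ => (((-(x * y)⁻¹ : ℝ) : ℂ)) ^ m * g₂ ((y⁻¹ : ℝ) : ℂ)) (𝓝[≠] x)
      (𝓝 ((((-(x * x)⁻¹ : ℝ) : ℂ)) ^ m * g₂ ((x⁻¹ : ℝ) : ℂ))) := by
    refine Tendsto.mono_left ?_ nhdsWithin_le_nhds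
    refine Tendsto.mul (((Complex.continuous_ofReal.tendsto _).comp ?_).pow m) (hg₂.continuousAt.tendsto.comp hcont)
    have : ContinuousAt (fun y : ℝ => -(x * y)⁻¹) x :=
      ((continuousAt_const.mul continuousAt_id).inv₀ (by simp [hx0.ne'])).neg
    exact this
  have h5 := tendsto_nhds_unique (h3.congr' h2) h4
  have h6 : (((-(x * x)⁻¹ : ℝ) : ℂ)) ^ m * g₂ ((x⁻¹ : ℝ) : ℂ) ≠ 0 := by
    refine mul_ne_zero (pow_ne_zero _ ?_) hg₂0
    have : -(x * x)⁻¹ ≠ 0 := by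
      have : (x * x)⁻¹ ≠ 0 := by positivity
      exact neg_ne_zero.2 this
    exact_mod_cast this
  exact h6 h5.symm

/-- **The order of the zeros.** -/
theorem jensen {a H : ℝ} (ha : 1 < a) {c : ℕ → ℝ} (hc : c ∈ Cs H) {x : ℝ} (hx : a ≤ x) {n : ℕ}
    (hn : (n : ℕ∞) ≤ analyticOrderAt (fc c) ((x⁻¹ : ℝ) : ℂ)) : n ≤ KK a H := by
  have ha0 : 0 < a := by linarith
  have hs1 : 1 < √a := by
    rw [Real.lt_sqrt (by norm_num)]
    simpa using ha
  have hs0 : 0 < √a := by linarith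
  set R : ℝ := (√a)⁻¹ with hR
  have hR0 : 0 < R := by positivity
  have hR1 : R < 1 := inv_lt_one_of_one_lt₀ hs1
  have hrR : a⁻¹ < R := by
    rw [hR]
    refine inv_strictAnti₀ hs0 ?_
    nlinarith [Real.mul_self_sqrt ha0.le]
  have hH1 : 1 ≤ H := hc.1.trans (hc.2 0)
  have hM : 1 ≤ H / (1 - R) := by
    rw [le_div_iff₀ (by linarith)]
    linarith
  have hsub : Metric.closedBall (0 : ℂ) |R| ⊆ Metric.ball 0 1 := by
    rw [abs_of_pos hR0]
    exact Metric.closedBall_subset_ball hR1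
  have hAn := (fc_analytic hc.2).mono hsub
  have h0 : fc c 0 ≠ 0 := by
    rw [fc_zero]
    have : c 0 ≠ 0 := fun h => by
      have := hc.1
      rw [h, abs_zero] at this
      linarith
    exact_mod_cast this
  have h1 := AnalyticOnNhd.sum_divisor_le (c := (0 : ℂ)) (r := a⁻¹) (R := R) (M := H / (1 - R)) (f := fc c)
    (abs_pos.2 (by positivity)) (by rw [abs_of_pos (by positivity), abs_of_pos hR0]; exact hrR) hM hAn h0 (fun z hz => by
      refine fc_bound hc.2 hR1 ?_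
      rw [mem_sphere_zero_iff_norm, abs_of_pos hR0] at hz
      exact hz.le)
  have h2 : R / a⁻¹ = √a := by
    rw [hR, div_inv_eq_mul]
    rw [inv_mul_eq_iff_eq_mul₀ hs0.ne', Real.mul_self_sqrt ha0.le]
  rw [h2] at h1
  have hlog : 0 < Real.log (√a) := Real.log_pos hs1
  have h3 : Real.log (H / (1 - R) / ‖fc c 0‖) ≤ Real.log (H / (1 - R)) := by
    have h4 : 1 ≤ ‖fc c 0‖ := by
      rw [fc_zero, Complex.norm_real, Real.norm_eq_abs]
      exact hc.1
    exact Real.log_le_log (by positivity) (div_le_self (by positivity) h4)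
  have hxc : ((x⁻¹ : ℝ) : ℂ) ∈ Metric.closedBall (0 : ℂ) |a⁻¹| := by
    have hx0 : 0 < x := by linarith
    rw [mem_closedBall_zero_iff, Complex.norm_real, Real.norm_eq_abs, abs_of_pos (inv_pos.2 hx0), abs_of_pos (inv_pos.2 ha0)]
    exact inv_anti₀ ha0 hx
  have hsub2 : Metric.closedBall (0 : ℂ) |a⁻¹| ⊆ Metric.closedBall (0 : ℂ) |R| := by
    rw [abs_of_pos (by positivity), abs_of_pos hR0]
    exact Metric.closedBall_subset_closedBall hrR.le
  have hAn2 := hAn.mono hsub2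
  have hmero := hAn2.meromorphicOn
  set D := MeromorphicOn.divisor (fc c) (Metric.closedBall (0 : ℂ) |a⁻¹|) with hD
  have hpos : ∀ u, 0 ≤ D u := fun u => by
    have := MeromorphicOn.AnalyticOnNhd.divisor_nonneg hAn2
    exact this u
  have hfin : (Function.support D).Finite := D.finiteSupport (isCompact_closedBall _ _)
  have h5 : D ((x⁻¹ : ℝ) : ℂ) ≤ ∑ᶠ u, D u := single_le_finsum _ hfin hpos
  have h6 : (n : ℤ) ≤ D ((x⁻¹ : ℝ) : ℂ) := by
    rw [hD, MeromorphicOn.AnalyticOnNhd.divisor_apply hAn2 hxc]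
    have htop : analyticOrderAt (fc c) ((x⁻¹ : ℝ) : ℂ) ≠ ⊤ := by
      intro htop
      have h7 := (fc_analytic hc.2).eqOn_zero_of_preconnected_of_eventuallyEq_zero
        (convex_ball (0 : ℂ) 1).isPreconnected (hsub (hsub2 hxc)) (analyticOrderAt_eq_top.1 htop)
      exact h0 (h7 (Metric.mem_ball_self one_pos))
    obtain ⟨m, hm⟩ := ENat.ne_top_iff_exists.1 htop
    rw [← hm] at hn ⊢
    have h8 : n ≤ m := by exact_mod_cast hn
    have h9 : (((m : ℕ∞).map (fun k : ℕ => (k : ℤ))) : WithTop ℤ).untop₀ = (m : ℤ) := by simp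
    rw [h9]
    exact_mod_cast h8
  have h7 : ((n : ℤ) : ℝ) ≤ Real.log (H / (1 - R)) / Real.log (√a) := by
    have h8 : ((n : ℤ) : ℝ) ≤ ((∑ᶠ u, D u : ℤ) : ℝ) := by exact_mod_cast h6.trans h5
    refine h8.trans (h1.trans ?_)
    exact div_le_div_of_nonneg_right h3 hlog.le
  unfold KK
  exact Nat.le_floor (by simpa using h7)

end Pool.Agent.Helper18.GP
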