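import Pool.Agent.Helper59.GP.Lip

/-!
The Fourier coefficients of a Lipschitz function are absolutely summable.
-/

set_option autoImplicit false

namespace Pool.Agent.Helper18.GPW

open Finset Filter Topology MeasureTheory
open Pool.Agent.Helper82.FK (e)
open Pool.Agent.Helper59.GP (fc fc_shift e_cont fourier_hasSum sum_sym fc_conj fc_lip)
open Pool.Agent.Helper18.GP (gp nm)

private theorem lip_K {φ : ℝ → ℝ} {K : ℝ} (hlip : ∀ s t, |φ s - φ t| ≤ K * |s - t|) : 0 ≤ K := by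
  have h1 := hlip 0 1
  have h2 := abs_nonneg (φ 0 - φ 1)
  have h3 : |(0:ℝ) - 1| = 1 := by norm_num
  rw [h3, mul_one] at h1
  linarith

private theorem lip_cont {φ : ℝ → ℝ} {K : ℝ} (hlip : ∀ s t, |φ s - φ t| ≤ K * |s - t|) : Continuous φ := by
  have hK := lip_K hlip
  have : LipschitzWith (Real.toNNReal K) φ := LipschitzWith.of_dist_le_mul fun s t => by
    rw [Real.dist_eq, Real.dist_eq, Real.coe_toNNReal K hK]
    exact hlip s t
  exact this.continuous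

private theorem le_of_sq_le_sq {a b : ℝ} (h : a ^ 2 ≤ b ^ 2) (hb : 0 ≤ b) : a ≤ b := by
  have := sq_le_sq.1 h
  rw [abs_of_nonneg hb] at this
  exact (le_abs_self a).trans this

/-- Bessel's inequality -/
theorem bessel_sup {f : ℝ → ℝ} (hc : Continuous f) {B : ℝ} (hB : ∀ t, |f t| ≤ B) (S : Finset ℤ) :
    ∑ n ∈ S, ‖fc f n‖ ^ 2 ≤ B ^ 2 := by
  have hgc : Continuous (fun t => (f t : ℂ)) := Complex.continuous_ofReal.comp hc
  have hL2 : MemLp (fun t => (f t : ℂ)) 2 (volume.restrict (Set.Ioc (0 : ℝ) 1)) := by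
    refine MemLp.of_bound hgc.aestronglyMeasurable B (Filter.Eventually.of_forall fun t => ?_)
    rw [Complex.norm_real, Real.norm_eq_abs]
    exact hB t
  have h1 := hasSum_sq_fourierCoeffOn (zero_lt_one (α := ℝ)) hL2
  have h2 : ∀ n : ℤ, fourierCoeffOn (zero_lt_one (α := ℝ)) (fun t => (f t : ℂ)) n = fc f n := by
    intro n
    rw [fourierCoeffOn_eq_integral]
    unfold fc
    rw [sub_zero, div_one, one_smul]
    apply intervalIntegral.integral_congr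
    intro x _
    simp only [smul_eq_mul]
    rw [mul_comm, fourier_coe_apply]
    congr 1
    unfold Pool.Agent.Helper82.FK.e
    congr 1
    push_cast
    ring
  simp only [h2] at h1
  refine (sum_le_hasSum S (fun n _ => sq_nonneg _) h1).trans ?_
  rw [sub_zero, inv_one, one_smul]
  have h3 : ∫ t in (0:ℝ)..1, ‖(f t : ℂ)‖ ^ 2 ≤ ∫ _ in (0:ℝ)..1, B ^ 2 :=
    intervalIntegral.integral_mono_on (by norm_num) (Continuous.intervalIntegrable (by fun_prop) _ _)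
      (by simp) fun t _ => by
        rw [Complex.norm_real, Real.norm_eq_abs]
        exact pow_le_pow_left₀ (abs_nonneg _) (hB t) 2
  simpa using h3

theorem norm_e_sub_one {y : ℝ} (hy : |y| ≤ 1 / 2) : 4 * |y| ≤ ‖e y - 1‖ := by
  have h1 : ‖e y - 1‖ = 2 * |Real.sin (Real.pi * y)| := by
    have h2 : e y = Complex.exp (Complex.I * ((2 * Real.pi * y : ℝ) : ℂ)) := by
      unfold Pool.Agent.Helper82.FK.e
      rw [mul_comm]
    rw [h2, Complex.norm_exp_I_mul_ofReal_sub_one, norm_mul, Real.norm_eq_abs, Real.norm_eq_abs,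
      show 2 * Real.pi * y / 2 = Real.pi * y by ring]
    norm_num
  have h3 : |Real.sin (Real.pi * y)| = Real.sin (Real.pi * |y|) := by
    rcases abs_cases y with ⟨h, h0⟩ | ⟨h, h0⟩
    · rw [h, abs_of_nonneg]
      refine Real.sin_nonneg_of_nonneg_of_le_pi (by positivity) ?_
      have : y ≤ 1 / 2 := by rwa [h] at hy
      nlinarith [Real.pi_pos]
    · rw [h, mul_neg, Real.sin_neg, abs_of_nonpos]
      have h4 : 0 ≤ Real.sin (Real.pi * -y) := by
        refine Real.sin_nonneg_of_nonneg_of_le_pi (mul_nonneg Real.pi_pos.le (by linarith)) ?_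
        have : -y ≤ 1 / 2 := by rwa [h] at hy
        nlinarith [Real.pi_pos]
      rw [mul_neg, Real.sin_neg] at h4
      linarith
  rw [h1, h3]
  have h5 := Real.mul_le_sin (x := Real.pi * |y|) (mul_nonneg Real.pi_pos.le (abs_nonneg y)) (by nlinarith [Real.pi_pos])
  have h6 : 2 / Real.pi * (Real.pi * |y|) = 2 * |y| := by
    have := Real.pi_pos.ne'
    field_simp
  linarith

/-- the sum of `n ^ 2 |c n| ^ 2` -/
theorem fc_sq {φ : ℝ → ℝ} {K : ℝ} (hper : ∀ t, φ (t + 1) = φ t) (hc : Continuous φ)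
    (hlip : ∀ s t, |φ s - φ t| ≤ K * |s - t|) (M : ℕ) :
    ∑ n ∈ Finset.Icc (-(M : ℤ)) M, (|(n : ℝ)| * ‖fc φ n‖) ^ 2 ≤ K ^ 2 / 16 := by
  rcases Nat.eq_zero_or_pos M with h0 | h0
  · subst h0
    simp
    positivity
  have hM : (0 : ℝ) < M := by exact_mod_cast h0
  obtain ⟨h, hh⟩ : ∃ h : ℝ, h = 1 / (2 * M) := ⟨_, rfl⟩
  have hh0 : 0 < h := by rw [hh]; positivity
  have h1 := bessel_sup (f := fun t => φ (t + h) - φ t) (by fun_prop) (B := K * h) (fun t => by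
    have := hlip (t + h) t
    rwa [add_sub_cancel_left, abs_of_pos hh0] at this) (Finset.Icc (-(M : ℤ)) M)
  have h2 : ∀ n : ℤ, fc (fun t => φ (t + h) - φ t) n = (e (n * h) - 1) * fc φ n := by
    intro n
    have h3 := fc_shift hper h n
    have ce := e_cont
    have h4 : fc (fun t => φ (t + h) - φ t) n = fc (fun t => φ (t + h)) n - fc φ n := by
      unfold fc
      rw [← intervalIntegral.integral_sub (Continuous.intervalIntegrable (by fun_prop) _ _)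
        (Continuous.intervalIntegrable (by fun_prop) _ _)]
      apply intervalIntegral.integral_congr
      intro t _
      simp only
      push_cast
      ring
    rw [h4, h3]
    ring
  simp only [h2] at h1
  have h3 : ∀ n ∈ Finset.Icc (-(M : ℤ)) M, 16 * h ^ 2 * (|(n : ℝ)| * ‖fc φ n‖) ^ 2 ≤ ‖(e (n * h) - 1) * fc φ n‖ ^ 2 := by
    intro n hn
    rw [Finset.mem_Icc] at hn
    have h4 : |(n : ℝ)| ≤ M := by
      rw [abs_le]
      constructor
      · have := hn.1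
        have h5 : ((-(M : ℤ) : ℤ) : ℝ) ≤ (n : ℝ) := by exact_mod_cast this
        push_cast at h5
        exact h5
      · have := hn.2
        exact_mod_cast this
    have h5 : |(n : ℝ) * h| ≤ 1 / 2 := by
      rw [abs_mul, abs_of_pos hh0]
      calc |(n : ℝ)| * h ≤ M * h := mul_le_mul_of_nonneg_right h4 hh0.le
        _ = 1 / 2 := by
          rw [hh]
          field_simp
    have h6 := norm_e_sub_one h5
    rw [abs_mul, abs_of_pos hh0] at h6
    rw [norm_mul]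
    have h7 : 4 * (|(n : ℝ)| * h) * ‖fc φ n‖ ≤ ‖e (n * h) - 1‖ * ‖fc φ n‖ :=
      mul_le_mul_of_nonneg_right h6 (norm_nonneg _)
    calc 16 * h ^ 2 * (|(n : ℝ)| * ‖fc φ n‖) ^ 2 = (4 * (|(n : ℝ)| * h) * ‖fc φ n‖) ^ 2 := by ring
      _ ≤ _ := pow_le_pow_left₀ (by positivity) h7 2
  have h8 := (Finset.sum_le_sum h3).trans h1
  rw [← Finset.mul_sum] at h8
  have h9 : 0 < 16 * h ^ 2 := by positivity
  rw [le_div_iff₀ (by norm_num)]
  have h10 : h ^ 2 * (16 * ∑ n ∈ Finset.Icc (-(M : ℤ)) M, (|(n : ℝ)| * ‖fc φ n‖) ^ 2) ≤ h ^ 2 * K ^ 2 := by linarith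
  have h11 := le_of_mul_le_mul_left h10 (by positivity)
  linarith

theorem sum_inv_sq (M N : ℕ) (hM : 1 ≤ M) : ∑ n ∈ Finset.Ico (M + 1) (N + 1), 1 / (n : ℝ) ^ 2 ≤ 1 / (M : ℝ) := by
  have hM0 : (0 : ℝ) < M := by exact_mod_cast hM
  rcases le_total N M with h | h
  · rw [Finset.Ico_eq_empty (by omega)]
    simp
  · have key : ∀ N, M ≤ N → ∑ n ∈ Finset.Ico (M + 1) (N + 1), 1 / (n : ℝ) ^ 2 ≤ 1 / (M : ℝ) - 1 / (N : ℝ) := by
      intro N hN
      induction N, hN using Nat.le_induction with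
      | base => simp
      | succ N hN ih =>
        rw [Finset.sum_Ico_succ_top (by omega)]
        have hN0 : (0 : ℝ) < N := lt_of_lt_of_le hM0 (by exact_mod_cast hN)
        have h1 : 1 / ((N + 1 : ℕ) : ℝ) ^ 2 ≤ 1 / N - 1 / ((N + 1 : ℕ) : ℝ) := by
          push_cast
          rw [div_sub_div _ _ hN0.ne' (by positivity), div_le_div_iff₀ (by positivity) (by positivity)]
          nlinarith
        linarith
    have := key N h
    have hN0 : 0 ≤ 1 / (N : ℝ) := by positivity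
    linarith

/-- a tail of the Fourier series -/
theorem fc_tail {φ : ℝ → ℝ} {K : ℝ} (hper : ∀ t, φ (t + 1) = φ t) (hc : Continuous φ)
    (hlip : ∀ s t, |φ s - φ t| ≤ K * |s - t|) (M N : ℕ) (hM : 1 ≤ M) :
    (∑ n ∈ Finset.Ico (M + 1) (N + 1), (‖fc φ (n : ℤ)‖ + ‖fc φ (-(n : ℤ))‖)) ^ 2 ≤ K ^ 2 / (8 * M) := by
  have hM0 : (0 : ℝ) < M := by exact_mod_cast hM
  have h1 : ∀ n ∈ Finset.Ico (M + 1) (N + 1), (‖fc φ (n : ℤ)‖ + ‖fc φ (-(n : ℤ))‖) =
      ((n : ℝ) * (‖fc φ (n : ℤ)‖ + ‖fc φ (-(n : ℤ))‖)) * (1 / (n : ℝ)) := by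
    intro n hn
    rw [Finset.mem_Ico] at hn
    have : (n : ℝ) ≠ 0 := by
      have : 0 < n := by omega
      exact_mod_cast this.ne'
    field_simp
  rw [Finset.sum_congr rfl h1]
  refine (Finset.sum_mul_sq_le_sq_mul_sq _ _ _).trans ?_
  have h2 : ∑ n ∈ Finset.Ico (M + 1) (N + 1), ((n : ℝ) * (‖fc φ (n : ℤ)‖ + ‖fc φ (-(n : ℤ))‖)) ^ 2 ≤ K ^ 2 / 8 := by
    have h3 : ∀ n ∈ Finset.Ico (M + 1) (N + 1), ((n : ℝ) * (‖fc φ (n : ℤ)‖ + ‖fc φ (-(n : ℤ))‖)) ^ 2 ≤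
        2 * ((|((n : ℤ) : ℝ)| * ‖fc φ (n : ℤ)‖) ^ 2 + (|((-(n : ℤ) : ℤ) : ℝ)| * ‖fc φ (-(n : ℤ))‖) ^ 2) := by
      intro n _
      push_cast
      rw [abs_neg, Nat.abs_cast]
      nlinarith [sq_nonneg ((n : ℝ) * ‖fc φ (n : ℤ)‖ - (n : ℝ) * ‖fc φ (-(n : ℤ))‖)]
    refine (Finset.sum_le_sum h3).trans ?_
    rw [← Finset.mul_sum]
    have h4 := fc_sq hper hc hlip N
    rw [sum_sym (fun n : ℤ => (|(n : ℝ)| * ‖fc φ n‖) ^ 2) (by simp)] at h4
    have h5 : ∑ n ∈ Finset.Ico (M + 1) (N + 1), ((|((n : ℤ) : ℝ)| * ‖fc φ (n : ℤ)‖) ^ 2 + (|((-(n : ℤ) : ℤ) : ℝ)| * ‖fc φ (-(n : ℤ))‖) ^ 2) ≤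
        ∑ n ∈ Finset.range (N + 1), (if n = 0 then 0 else ((|((n : ℤ) : ℝ)| * ‖fc φ (n : ℤ)‖) ^ 2 +
          (|((-(n : ℤ) : ℤ) : ℝ)| * ‖fc φ (-(n : ℤ))‖) ^ 2)) := by
      refine (Finset.sum_congr rfl fun n hn => ?_).trans_le (Finset.sum_le_sum_of_subset_of_nonneg
        (f := fun n : ℕ => (if n = 0 then 0 else ((|((n : ℤ) : ℝ)| * ‖fc φ (n : ℤ)‖) ^ 2 +
          (|((-(n : ℤ) : ℤ) : ℝ)| * ‖fc φ (-(n : ℤ))‖) ^ 2))) ?_ ?_)
      · rw [Finset.mem_Ico] at hn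
        rw [if_neg (by omega)]
      · intro n hn
        rw [Finset.mem_Ico] at hn
        rw [Finset.mem_range]
        exact hn.2
      · intro n _ _
        split_ifs
        · exact le_rfl
        · positivity
    linarith
  have h3 := sum_inv_sq M N hM
  have h4 : ∑ n ∈ Finset.Ico (M + 1) (N + 1), (1 / (n : ℝ)) ^ 2 ≤ 1 / (M : ℝ) := by
    refine le_trans (le_of_eq (Finset.sum_congr rfl fun n _ => ?_)) h3
    rw [div_pow, one_pow]
  calc _ ≤ K ^ 2 / 8 * (1 / (M : ℝ)) := mul_le_mul h2 h4 (Finset.sum_nonneg fun n _ => sq_nonneg _) (by positivity)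
    _ = K ^ 2 / (8 * M) := by
      field_simp

theorem fc_all {φ : ℝ → ℝ} {K : ℝ} (hK : 0 ≤ K) (hper : ∀ t, φ (t + 1) = φ t) (hc : Continuous φ)
    (hlip : ∀ s t, |φ s - φ t| ≤ K * |s - t|) (N : ℕ) :
    ∑ n ∈ Finset.Ico 1 (N + 1), (‖fc φ (n : ℤ)‖ + ‖fc φ (-(n : ℤ))‖) ≤ K := by
  rcases Nat.eq_zero_or_pos N with h0 | h0
  · subst h0
    simpa using hK
  · rw [Finset.sum_eq_sum_Ico_succ_bot (by omega)]
    have h1 := fc_lip hper hc hlip 1 (by norm_num)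
    have h2 := fc_lip hper hc hlip (-1) (by norm_num)
    have h3 := fc_tail hper hc hlip 1 N le_rfl
    have h4 : ∑ n ∈ Finset.Ico (1 + 1) (N + 1), (‖fc φ (n : ℤ)‖ + ‖fc φ (-(n : ℤ))‖) ≤ K / 2 := by
      refine le_of_sq_le_sq (h3.trans ?_) (by positivity)
      push_cast
      have := sq_nonneg K
      linarith
    push_cast at h1 h2 h4 ⊢
    rw [abs_neg, abs_one] at h2
    rw [abs_one] at h1
    linarith

theorem nm_all {φ : ℝ → ℝ} {K : ℝ} (hK : 0 ≤ K) (hper : ∀ t, φ (t + 1) = φ t) (hc : Continuous φ)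
    (hlip : ∀ s t, |φ s - φ t| ≤ K * |s - t|) (h0 : fc φ 0 = 0) (N : ℕ) : nm N (fc φ) ≤ K := by
  unfold nm
  rw [sum_sym (fun n : ℤ => ‖fc φ n‖) (by simp [h0])]
  refine le_trans (le_of_eq ?_) (fc_all hK hper hc hlip N)
  rw [Finset.range_eq_Ico, Finset.sum_eq_sum_Ico_succ_bot (by omega)]
  rw [if_pos rfl, zero_add]
  refine Finset.sum_congr rfl fun n hn => ?_
  rw [Finset.mem_Ico] at hn
  rw [if_neg (by omega)]

theorem fc_summable {φ : ℝ → ℝ} {K : ℝ} (hK : 0 ≤ K) (hper : ∀ t, φ (t + 1) = φ t) (hc : Continuous φ)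
    (hlip : ∀ s t, |φ s - φ t| ≤ K * |s - t|) (h0 : fc φ 0 = 0) : Summable (fc φ) := by
  refine Summable.of_norm (summable_of_sum_le (c := K) (fun n => norm_nonneg _) fun u => ?_)
  refine le_trans ?_ (nm_all hK hper hc hlip h0 (u.sup Int.natAbs))
  unfold nm
  refine Finset.sum_le_sum_of_subset_of_nonneg (fun n hn => ?_) fun _ _ _ => norm_nonneg _
  have h1 : n.natAbs ≤ u.sup Int.natAbs := Finset.le_sup hn
  rw [Finset.mem_Icc]
  omega

/-- **A Lipschitz function is close to trigonometric polynomials with bounded sums of the coefficients.** -/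
theorem lip_wien {φ : ℝ → ℝ} {K : ℝ} (hper : ∀ t, φ (t + 1) = φ t)
    (hlip : ∀ s t, |φ s - φ t| ≤ K * |s - t|) (hmean : ∫ t in (0:ℝ)..1, φ t = 0) : ∃ A : ℕ, 1 ≤ A ∧
    ∀ η : ℝ, 0 < η → η ≤ 1 / 2 → ∃ (H : ℕ) (c : ℤ → ℂ) (p : ℝ → ℝ), (∀ t, gp H c t = p t) ∧ c 0 = 0 ∧
      (H : ℝ) ≤ (1 / η) ^ A ∧ nm H c ≤ A ∧ ∀ t, |p t - φ t| ≤ η := by
  have hK := lip_K hlip
  have hc := lip_cont hlip
  have h0 : fc φ 0 = 0 := by
    have h1 : fc φ 0 = ((∫ t in (0:ℝ)..1, φ t : ℝ) : ℂ) := by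
      unfold fc
      rw [← intervalIntegral.integral_ofReal]
      apply intervalIntegral.integral_congr
      intro t _
      simp only
      have h2 : -(((0 : ℤ) : ℝ) * t) = ((0 : ℤ) : ℝ) := by
        push_cast
        ring
      rw [h2, Pool.Agent.Helper59.GP.e_int, mul_one]
    rw [h1, hmean]
    simp
  have hs := fc_summable hK hper hc hlip h0
  obtain ⟨A₁, hA₁⟩ := pow_unbounded_of_one_lt ((K + 1) ^ 2 + 1) (show (1:ℝ) < 2 by norm_num)
  obtain ⟨A₂, hA₂⟩ : ∃ n : ℕ, K ≤ n := exists_nat_ge K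
  refine ⟨A₁ + A₂ + 2, by omega, fun η hη hη2 => ?_⟩
  obtain ⟨M, hM⟩ : ∃ M : ℕ, M = ⌈(K + 1) ^ 2 / η ^ 2⌉₊ := ⟨_, rfl⟩
  have hKη : 0 < (K + 1) ^ 2 / η ^ 2 := by positivity
  have hM1 : (K + 1) ^ 2 / η ^ 2 ≤ M := by rw [hM]; exact Nat.le_ceil _
  have hM2 : (M : ℝ) ≤ (K + 1) ^ 2 / η ^ 2 + 1 := by rw [hM]; exact (Nat.ceil_lt_add_one hKη.le).le
  have hM0 : (0 : ℝ) < M := lt_of_lt_of_le hKη hM1
  have hMn : 1 ≤ M := by
    have : 0 < M := by exact_mod_cast hM0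
    omega
  have hreal : ∀ t, (starRingEnd ℂ) (gp M (fc φ) t) = gp M (fc φ) t := by
    intro t
    unfold gp
    rw [map_sum]
    refine Finset.sum_equiv (Equiv.neg ℤ) ?_ ?_
    · intro i
      simp only [Finset.mem_Icc, Equiv.neg_apply]
      omega
    · intro i _
      rw [map_mul, fc_conj, Pool.Agent.Helper59.GP.e_conj]
      simp only [Equiv.neg_apply]
      congr 2
      push_cast
      ring
  have heq : ∀ t, gp M (fc φ) t = (((gp M (fc φ) t).re : ℝ) : ℂ) := fun t =>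
    (Complex.conj_eq_iff_re.mp (hreal t)).symm
  refine ⟨M, fc φ, fun t => (gp M (fc φ) t).re, heq, h0, ?_, ?_, fun t => ?_⟩
  · -- degree
    have h1 : (2 : ℝ) ≤ 1 / η := by
      rw [le_div_iff₀ hη]
      linarith
    have h2 : (1 / η) ^ (A₁ + A₂ + 2) = (1 / η) ^ 2 * (1 / η) ^ A₁ * (1 / η) ^ A₂ := by
      rw [← pow_add, ← pow_add]
      congr 1
      omega
    have h3 : (K + 1) ^ 2 + 1 ≤ (1 / η) ^ A₁ := hA₁.le.trans (pow_le_pow_left₀ (by norm_num) h1 _)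
    have h4 : (1 : ℝ) ≤ (1 / η) ^ A₂ := one_le_pow₀ (by linarith)
    have h5 : (1 : ℝ) ≤ (1 / η) ^ 2 := one_le_pow₀ (by linarith)
    have h6 : (K + 1) ^ 2 / η ^ 2 = (1 / η) ^ 2 * (K + 1) ^ 2 := by
      field_simp
    rw [h2]
    calc (M : ℝ) ≤ (1 / η) ^ 2 * (K + 1) ^ 2 + 1 := by rw [← h6]; exact hM2
      _ ≤ (1 / η) ^ 2 * ((K + 1) ^ 2 + 1) := by
        rw [mul_add, mul_one]
        linarith
      _ ≤ (1 / η) ^ 2 * (1 / η) ^ A₁ := mul_le_mul_of_nonneg_left h3 (by positivity)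
      _ ≤ _ := le_mul_of_one_le_right (by positivity) h4
  · refine (nm_all hK hper hc hlip h0 M).trans (hA₂.trans ?_)
    push_cast
    have : (0 : ℝ) ≤ A₁ := by positivity
    linarith
  · have h1 := (fourier_hasSum hc hper hs t).nat_add_neg
    have hz : fc φ 0 * e (((0 : ℤ) : ℝ) * t) = 0 := by rw [h0, zero_mul]
    rw [hz, add_zero] at h1
    have hg0 : gp M (fc φ) t = ∑ n ∈ Finset.range (M + 1), (fc φ (n : ℤ) * e (((n : ℤ) : ℝ) * t) +
        fc φ (-(n : ℤ)) * e (((-(n : ℤ) : ℤ) : ℝ) * t)) := by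
      unfold gp
      rw [sum_sym (fun n : ℤ => fc φ n * e ((n : ℝ) * t)) hz]
      refine Finset.sum_congr rfl fun n _ => ?_
      by_cases hn : n = 0
      · rw [if_pos hn]
        subst hn
        simp [h0]
      · rw [if_neg hn]
    have h2 := h1.tendsto_sum_nat
    have h3 : Tendsto (fun N => ‖(∑ n ∈ Finset.range N, (fc φ (n : ℤ) * e (((n : ℤ) : ℝ) * t) +
        fc φ (-(n : ℤ)) * e (((-(n : ℤ) : ℤ) : ℝ) * t))) - gp M (fc φ) t‖) atTop
        (𝓝 ‖(φ t : ℂ) - gp M (fc φ) t‖) := (h2.sub_const _).norm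
    have h4 : ‖(φ t : ℂ) - gp M (fc φ) t‖ ≤ η := by
      refine le_of_tendsto h3 ?_
      filter_upwards [eventually_ge_atTop (M + 1)] with N hN
      obtain ⟨N', rfl⟩ : ∃ N', N = N' + 1 := ⟨N - 1, by omega⟩
      have h5 : (∑ n ∈ Finset.range (N' + 1), (fc φ (n : ℤ) * e (((n : ℤ) : ℝ) * t) +
          fc φ (-(n : ℤ)) * e (((-(n : ℤ) : ℤ) : ℝ) * t))) - gp M (fc φ) t =
          ∑ n ∈ Finset.Ico (M + 1) (N' + 1), (fc φ (n : ℤ) * e (((n : ℤ) : ℝ) * t) +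
            fc φ (-(n : ℤ)) * e (((-(n : ℤ) : ℤ) : ℝ) * t)) := by
        rw [hg0, Finset.sum_Ico_eq_sub _ hN]
      rw [h5]
      refine (norm_sum_le _ _).trans ?_
      have h6 : ∑ n ∈ Finset.Ico (M + 1) (N' + 1), ‖fc φ (n : ℤ) * e (((n : ℤ) : ℝ) * t) +
            fc φ (-(n : ℤ)) * e (((-(n : ℤ) : ℤ) : ℝ) * t)‖ ≤
          ∑ n ∈ Finset.Ico (M + 1) (N' + 1), (‖fc φ (n : ℤ)‖ + ‖fc φ (-(n : ℤ))‖) := by
        refine Finset.sum_le_sum fun n _ => (norm_add_le _ _).trans (le_of_eq ?_)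
        rw [norm_mul, norm_mul, Pool.Agent.Helper82.FK.norm_e, Pool.Agent.Helper82.FK.norm_e, mul_one, mul_one]
      refine h6.trans (le_of_sq_le_sq ((fc_tail hper hc hlip M N' hMn).trans ?_) hη.le)
      rw [div_le_iff₀ (by positivity)]
      rw [div_le_iff₀ (by positivity)] at hM1
      have h7 : K ^ 2 ≤ (K + 1) ^ 2 := pow_le_pow_left₀ hK (by linarith) 2
      have h8 : 0 ≤ M * η ^ 2 := by positivity
      linarith
    have h5 : (gp M (fc φ) t).re - φ t = -(((φ t : ℂ) - gp M (fc φ) t).re) := by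
      rw [Complex.sub_re, Complex.ofReal_re]
      ring
    rw [h5, abs_neg]
    exact (Complex.abs_re_le_norm _).trans h4

end Pool.Agent.Helper18.GPW
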