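import Pool.Agent.Helper18.GP.TrigU
import Pool.Agent.Helper18.GP.Wien
import Pool.Agent.Helper18.GP.ExpDisc
import Pool.Agent.Helper59.GP.Mean

/-!
The means of a Lipschitz function: error `exp (-c / δ)`.
-/

set_option autoImplicit false

namespace Pool.Agent.Helper18.GPW

open Finset Filter Topology MeasureTheory
open Pool.Agent.Helper59.GP (rateL rate_attained lip_K lip_cont phi_bd sp_sub_le)
open Pool.Agent.Helper78.KD (freq_of_limsup liminf_of_event)
open Pool.Agent.Helper87.GP (lower_core approx near_mono Near mg)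
open Pool.Agent.Helper18.GP (gp nm gp_cont gp_lip coeff_zero nm_nonneg kap kap_inv lam lam_mono upper_tp DimNear DimNear.mono Sp)

/-- small parameters -/
theorem lin_small {c C : ℝ} (hc : 0 < c) (hC : 3 ≤ C) : ∃ δ₀ : ℝ, 0 < δ₀ ∧ ∀ δ, 0 < δ → δ ≤ δ₀ →
    C * δ ≤ 1 ∧ C ≤ c / δ ∧ C * Real.exp (-(c / δ)) ≤ δ ∧
    C * Real.exp (-(c / δ)) ≤ Real.exp (-((c / 2) / δ)) := by
  refine ⟨min (min (1 / C) (c / (2 * C))) (c ^ 2 / (4 * C)), by positivity, fun δ h0 hδ => ?_⟩
  have hC0 : 0 < C := by linarith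
  have h1 : δ ≤ 1 / C := hδ.trans ((min_le_left _ _).trans (min_le_left _ _))
  have h2 : δ ≤ c / (2 * C) := hδ.trans ((min_le_left _ _).trans (min_le_right _ _))
  have h3 : δ ≤ c ^ 2 / (4 * C) := hδ.trans (min_le_right _ _)
  obtain ⟨v, hv⟩ : ∃ v : ℝ, v = (c / 2) / δ := ⟨_, rfl⟩
  have hv2 : c / δ = 2 * v := by rw [hv]; ring
  have hCv : C ≤ v := by
    rw [hv, le_div_iff₀ h0]
    rw [le_div_iff₀ (by positivity)] at h2
    linarith
  have hv0 : 0 < v := by linarith
  rw [hv2, ← hv]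
  refine ⟨?_, by linarith, ?_, ?_⟩
  · rw [le_div_iff₀ hC0] at h1
    linarith
  · have h4 : Real.exp (-(2 * v)) ≤ 1 / v ^ 2 := by
      have h5 : Real.exp (-v) ≤ 1 / v := by
        rw [Real.exp_neg, ← one_div]
        exact one_div_le_one_div_of_le hv0 (by linarith [Real.add_one_le_exp v])
      have h6 : Real.exp (-(2 * v)) = Real.exp (-v) ^ 2 := by
        rw [← Real.exp_nat_mul]
        congr 1
        push_cast
        ring
      rw [h6]
      refine (pow_le_pow_left₀ (Real.exp_pos _).le h5 2).trans (le_of_eq ?_)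
      rw [div_pow, one_pow]
    have h6 : 1 / v ^ 2 = 4 * δ ^ 2 / c ^ 2 := by
      rw [hv]
      field_simp
      norm_num
    have h7 : C * (4 * δ ^ 2 / c ^ 2) ≤ δ := by
      rw [mul_div_assoc', div_le_iff₀ (by positivity)]
      rw [le_div_iff₀ (by positivity)] at h3
      have h8 := mul_le_mul_of_nonneg_left h3 h0.le
      linarith
    have h8 : C * Real.exp (-(2 * v)) ≤ C * (4 * δ ^ 2 / c ^ 2) := mul_le_mul_of_nonneg_left (h4.trans h6.le) hC0.le
    linarith
  · have h4 : C ≤ Real.exp v := by linarith [Real.add_one_le_exp v]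
    calc C * Real.exp (-(2 * v)) ≤ Real.exp v * Real.exp (-(2 * v)) :=
          mul_le_mul_of_nonneg_right h4 (Real.exp_pos _).le
      _ = Real.exp (-v) := by
        rw [← Real.exp_add]
        congr 1
        ring

/-- **The means of a Lipschitz function.** -/
theorem mean_lip {φ : ℝ → ℝ} {K : ℝ} (hper : ∀ t, φ (t + 1) = φ t)
    (hlip : ∀ s t, |φ s - φ t| ≤ K * |s - t|) (hmean : ∫ t in (0:ℝ)..1, φ t = 0)
    (hne : ∃ t, φ t ≠ 0) {a₀ b₀ : ℝ} (ha : 1 < a₀) (hab : a₀ < b₀) :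
    ∃ k δ₀ : ℝ, 0 < k ∧ 0 < δ₀ ∧ ∀ a b δ : ℝ, a₀ ≤ a → a < b → b ≤ b₀ → 0 < δ → δ ≤ δ₀ →
      ∀ s : ℕ → ℝ, DimNear a b (fun x N => (∑ n ∈ Finset.range N, φ (x ^ (n + 1) + s n)) / N) δ (rateL φ δ)
        (Real.exp (-(k / δ))) := by
  have hK := lip_K hlip
  have hφ := lip_cont hlip
  obtain ⟨M, hMdef⟩ : ∃ M : ℝ, M = |φ 0| + K + 1 := ⟨_, rfl⟩
  have hM : 1 ≤ M := by
    have := abs_nonneg (φ 0)
    linarith
  have hb : ∀ t, |φ t| ≤ M := fun t => by
    have := phi_bd hper hlip hK t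
    linarith
  obtain ⟨V, hVdef⟩ : ∃ V : ℝ, V = ∫ t in (0:ℝ)..1, φ t ^ 2 := ⟨_, rfl⟩
  have hV0 : 0 < V := by
    rw [hVdef]
    obtain ⟨t, ht⟩ := hne
    have h1 : Function.Periodic φ 1 := hper
    have h2 : φ (Int.fract t) = φ t := by
      have h3 := h1.sub_zsmul_eq (x := t) ⌊t⌋
      rw [zsmul_eq_mul, mul_one] at h3
      exact h3
    refine intervalIntegral.integral_pos (by norm_num) (by fun_prop) (fun x _ => sq_nonneg _)
      ⟨Int.fract t, ⟨Int.fract_nonneg t, (Int.fract_lt_one t).le⟩, ?_⟩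
    rw [h2]
    positivity
  have hVM : V ≤ M ^ 2 := by
    rw [hVdef]
    have h1 : ∫ t in (0:ℝ)..1, φ t ^ 2 ≤ ∫ _ in (0:ℝ)..1, M ^ 2 :=
      intervalIntegral.integral_mono_on (by norm_num) (Continuous.intervalIntegrable (by fun_prop) _ _)
        (by simp) fun t _ => by
          rw [← sq_abs (φ t)]
          exact pow_le_pow_left₀ (abs_nonneg _) (hb t) 2
    simpa using h1
  obtain ⟨A', hA'1, hA'⟩ := lip_wien hper hlip hmean
  have hA'0 : (1 : ℝ) ≤ A' := by exact_mod_cast hA'1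
  obtain ⟨A, hAdef⟩ : ∃ A : ℝ, A = M + 1 + 32 / V + A' := ⟨_, rfl⟩
  have hAV0 : 0 < 32 / V := by positivity
  have hA1 : 1 ≤ A := by linarith
  have hA0 : 0 < A := by linarith
  have hAM : M + 1 ≤ A := by linarith
  have hAA' : (A' : ℝ) ≤ A := by linarith
  have hAV : 32 ≤ A * V := by
    have : 32 / V ≤ A := by linarith
    rwa [div_le_iff₀ hV0] at this
  -- the constant
  obtain ⟨C', hC'⟩ : ∃ C' : ℝ, C' = 2 * A * A + 2 := ⟨_, rfl⟩
  have hC'0 : 0 < C' := by
    rw [hC']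
    positivity
  obtain ⟨c₁, hc₁, hkap⟩ := kap_inv ha hC'0
  obtain ⟨k, hk⟩ : ∃ k : ℝ, k = c₁ / (A' + 3) := ⟨_, rfl⟩
  have hk0 : 0 < k := by rw [hk]; positivity
  obtain ⟨C, hC⟩ : ∃ C : ℝ, C = 200 * A ^ 5 + 3 + 32 * M ^ 3 / V ^ 2 + 1 / c₁ + 8 * M / V := ⟨_, rfl⟩
  have hA5 : (1 : ℝ) ≤ A ^ 5 := one_le_pow₀ hA1
  have hMV : 0 < 32 * M ^ 3 / V ^ 2 := by positivity
  have hMV2 : 0 < 8 * M / V := by positivity
  have hic : 0 < 1 / c₁ := by positivity
  have hC3 : 3 ≤ C := by linarith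
  obtain ⟨δ₀, hδ₀, hsm⟩ := lin_small (c := k) (C := C) hk0 hC3
  refine ⟨k / 2, δ₀, by positivity, hδ₀, ?_⟩
  intro a b δ haa hab' hbb h0 hδ s
  obtain ⟨e1, e2, e3, e4⟩ := hsm δ h0 hδ
  obtain ⟨L, hL⟩ : ∃ L : ℝ, L = k / δ := ⟨_, rfl⟩
  obtain ⟨η, hη⟩ : ∃ η : ℝ, η = Real.exp (-L) := ⟨_, rfl⟩
  rw [← hL] at e2
  rw [← hL, ← hη] at e3 e4
  have hη0 : 0 < η := by rw [hη]; exact Real.exp_pos _
  have hCA : 200 * A ^ 5 ≤ C := by linarith
  have hCM : 32 * M ^ 3 / V ^ 2 ≤ C := by linarith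
  have hCMV : 8 * M / V ≤ C := by linarith
  have hCc : 1 / c₁ ≤ C := by linarith
  have hL3 : 3 ≤ L := hC3.trans e2
  have hδA : 200 * A ^ 5 * δ ≤ 1 := (mul_le_mul_of_nonneg_right hCA h0.le).trans e1
  have hηA : 200 * A ^ 5 * η ≤ δ := (mul_le_mul_of_nonneg_right hCA hη0.le).trans e3
  have hA25 : A ^ 2 ≤ A ^ 5 := pow_le_pow_right₀ hA1 (by norm_num)
  have hA35 : A ^ 3 ≤ A ^ 5 := pow_le_pow_right₀ hA1 (by norm_num)
  have hA15 : A ≤ A ^ 5 := le_self_pow₀ hA1 (by norm_num)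
  have hA2 : (1 : ℝ) ≤ A ^ 2 := one_le_pow₀ hA1
  have hδ5 := mul_le_mul_of_nonneg_right hA5 h0.le
  have hη5 := mul_le_mul_of_nonneg_right hA5 hη0.le
  have hδ200 : 200 * δ ≤ 1 := by linarith
  have hη200 : 200 * η ≤ δ := by linarith
  have hAδ1 : A * δ ≤ 1 := by
    have := mul_le_mul_of_nonneg_right hA15 h0.le
    linarith
  have hδc : δ ≤ c₁ := by
    have h1 := (mul_le_mul_of_nonneg_right hCc h0.le).trans e1
    rw [one_div, inv_mul_le_iff₀ hc₁] at h1
    linarith
  have hd3 : δ * (32 * M ^ 3) ≤ V ^ 2 := by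
    have h1 := (mul_le_mul_of_nonneg_right hCM h0.le).trans e1
    rw [div_mul_eq_mul_div, div_le_iff₀ (by positivity)] at h1
    linarith
  have hd4 : 8 * M * δ ≤ V := by
    have h1 := (mul_le_mul_of_nonneg_right hCMV h0.le).trans e1
    rw [div_mul_eq_mul_div, div_le_iff₀ hV0] at h1
    linarith
  have hlb : 0 < Real.log b := Real.log_pos (by linarith)
  have hη12 : η ≤ 1 / 2 := by linarith
  obtain ⟨H, c, p, hp, hc0, hHη, hnmA, hpφ⟩ := hA' η hη0 hη12
  have hnm0 := nm_nonneg H c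
  have hpc : Continuous p := by
    have h4 : p = fun t => (gp H c t).re := by
      funext t
      rw [hp t, Complex.ofReal_re]
    rw [h4]
    exact Complex.continuous_re.comp (gp_cont H c)
  have hpm : ∫ t in (0 : ℝ)..1, p t = 0 := by
    have := coeff_zero hp
    rw [hc0] at this
    exact_mod_cast this.symm
  have hplip := gp_lip hp
  have hpK : 0 ≤ 2 * Real.pi * H * nm H c := by
    have := Real.pi_pos
    positivity
  have hbA : ∀ t, |p t| ≤ A := fun t => by
    have h1 := hb t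
    have h2 := hpφ t
    have h3 : |p t| ≤ |φ t| + |p t - φ t| := by
      have h4 : p t = φ t + (p t - φ t) := by ring
      calc |p t| = |φ t + (p t - φ t)| := by rw [← h4]
        _ ≤ _ := abs_add_le _ _
    linarith
  obtain ⟨⟨θ, hθ0, hθA, hθ⟩, hrate⟩ := rate_attained hφ hb hM hmean hV0 hVM hVdef.le (A := A) (by linarith)
    hA0.le h0 hd3
  have hAη : ∀ θ' : ℝ, θ' ≤ A * δ → 3 * (θ' * η) ≤ 3 * η := by
    intro θ' h1
    have h2 := mul_le_mul_of_nonneg_right (h1.trans hAδ1) hη0.le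
    linarith
  have hV16 : 16 / A ≤ ∫ t in (0:ℝ)..1, (p t) ^ 2 := by
    have h1 : ∀ t, φ t ^ 2 - 2 * M * η ≤ p t ^ 2 := by
      intro t
      have h4 : p t ^ 2 = φ t ^ 2 + 2 * φ t * (p t - φ t) + (p t - φ t) ^ 2 := by ring
      have h5 : |φ t * (p t - φ t)| ≤ M * η := by
        rw [abs_mul]
        exact mul_le_mul (hb t) (hpφ t) (abs_nonneg _) (by linarith)
      have h6 := (abs_le.1 h5).1
      linarith [sq_nonneg (p t - φ t)]
    have h2 : ∫ t in (0:ℝ)..1, (φ t ^ 2 - 2 * M * η) ≤ ∫ t in (0:ℝ)..1, p t ^ 2 :=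
      intervalIntegral.integral_mono_on (by norm_num) (Continuous.intervalIntegrable (by fun_prop) _ _)
        (Continuous.intervalIntegrable (by fun_prop) _ _) fun t _ => h1 t
    rw [intervalIntegral.integral_sub (Continuous.intervalIntegrable (by fun_prop) _ _) (by simp),
      ← hVdef] at h2
    simp only [intervalIntegral.integral_const, sub_zero, smul_eq_mul, one_mul] at h2
    have h3 : 2 * M * η ≤ V / 4 := by
      have h4 := mul_le_mul_of_nonneg_left hη200 (show 0 ≤ M by linarith)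
      linarith
    have h4 : 16 / A ≤ V / 2 := by
      rw [div_le_div_iff₀ hA0 (by norm_num)]
      linarith
    linarith
  -- the degree of the Taylor polynomial
  obtain ⟨n, hn⟩ : ∃ n : ℕ, n = ⌈L⌉₊ := ⟨_, rfl⟩
  have hn1 : L ≤ n := by rw [hn]; exact Nat.le_ceil L
  have hn2 : (n : ℝ) ≤ L + 1 := by rw [hn]; exact (Nat.ceil_lt_add_one (by linarith)).le
  have hnpos : 1 ≤ n := by
    have : (0 : ℝ) < n := by linarith
    exact_mod_cast this
  have hHL : (H : ℝ) ≤ Real.exp (A' * L) := by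
    refine hHη.trans (le_of_eq ?_)
    rw [hη, one_div, ← Real.exp_neg, neg_neg, ← Real.exp_nat_mul]
  have hLL : Real.exp (c₁ / δ) = Real.exp (A' * L) * Real.exp L ^ 3 := by
    rw [← Real.exp_nat_mul, ← Real.exp_add]
    congr 1
    rw [hL, hk]
    push_cast
    field_simp
  have heL := Real.add_one_le_exp L
  have heA : 1 ≤ Real.exp (A' * L) := Real.one_le_exp (by positivity)
  have hD1 : (1 : ℝ) ≤ ((n * (H + 1) + 1 : ℕ) : ℝ) := by
    push_cast
    have : (0 : ℝ) ≤ (n : ℝ) * (H + 1) := by positivity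
    linarith
  have hD2 : ((n * (H + 1) + 1 : ℕ) : ℝ) ≤ Real.exp (c₁ / δ) := by
    rw [hLL]
    push_cast
    have h1 : (n : ℝ) * (H + 1) ≤ Real.exp L * (2 * Real.exp (A' * L)) :=
      mul_le_mul (by linarith) (by linarith) (by positivity) (Real.exp_pos _).le
    have h2 : (1 : ℝ) * 1 ≤ Real.exp L * Real.exp (A' * L) := mul_le_mul (by linarith) heA (by norm_num) (Real.exp_pos _).le
    have h3 : (3 : ℝ) ≤ Real.exp L ^ 2 := by
      have h4 : (4 : ℝ) ≤ Real.exp L := by linarith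
      have h5 := pow_le_pow_left₀ (by norm_num) h4 2
      linarith
    have h4 : Real.exp L * Real.exp (A' * L) * 3 ≤ Real.exp L * Real.exp (A' * L) * Real.exp L ^ 2 :=
      mul_le_mul_of_nonneg_left h3 (by positivity)
    have h5 : Real.exp L * Real.exp (A' * L) * Real.exp L ^ 2 = Real.exp (A' * L) * Real.exp L ^ 3 := by ring
    linarith
  have hX1 : (1 : ℝ) ≤ max ((n * H : ℕ) : ℝ) 1 := le_max_right _ _
  have hX2 : max ((n * H : ℕ) : ℝ) 1 ≤ Real.exp (c₁ / δ) := by
    refine le_trans ?_ hD2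
    refine max_le ?_ hD1
    have : n * H ≤ n * (H + 1) + 1 := (Nat.mul_le_mul_left n (Nat.le_succ H)).trans (Nat.le_succ _)
    exact_mod_cast this
  have hkU := hkap c₁ δ hc₁ le_rfl h0 hδc _ hD1 hD2
  have hkL := hkap c₁ δ hc₁ le_rfl h0 hδc _ hX1 hX2
  -- the size of the error
  obtain ⟨y, hy⟩ : ∃ y : ℝ, y = 2 * A ^ 2 * δ := ⟨_, rfl⟩
  have hy0 : 0 < y := by rw [hy]; positivity
  have hy100 : y ≤ 1 / 100 := by
    rw [hy]
    have := mul_le_mul_of_nonneg_right hA25 h0.le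
    linarith
  have hy1 : y ≤ 1 := by linarith
  have hsq : Real.exp (-2) ≥ 1 / 10 := by
    have h4 := Real.exp_one_lt_d9
    have h5 : Real.exp (-2) = ((Real.exp 1) ^ 2)⁻¹ := by
      rw [← Real.exp_nat_mul, ← Real.exp_neg]
      norm_num
    rw [h5, ge_iff_le, ← one_div]
    refine one_div_le_one_div_of_le (by positivity) ?_
    have h6 : Real.exp 1 ≤ 3 := by linarith
    have h7 := pow_le_pow_left₀ (Real.exp_pos 1).le h6 2
    linarith
  have hyn : y ^ (n + 1) ≤ η ^ 2 / 100 := by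
    have h1 : y ^ (n + 1) ≤ (Real.exp (-2) / 10) ^ (n + 1) := pow_le_pow_left₀ hy0.le (by linarith) _
    have h2 : (Real.exp (-2) / 10) ^ (n + 1) ≤ η ^ 2 / 100 := by
      rw [div_pow, ← Real.exp_nat_mul]
      have h4 : Real.exp (((n + 1 : ℕ) : ℝ) * -2) ≤ η ^ 2 := by
        rw [hη, ← Real.exp_nat_mul]
        refine Real.exp_le_exp.2 ?_
        push_cast
        linarith
      have h5 : (100 : ℝ) ≤ 10 ^ (n + 1) := by
        have h6 : (10 : ℝ) ^ 2 ≤ 10 ^ (n + 1) := pow_le_pow_right₀ (by norm_num) (by omega)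
        norm_num at h6
        exact h6
      exact div_le_div₀ (by positivity) h4 (by norm_num) h5
    exact h1.trans h2
  have hyn0 : 0 < y ^ (n + 1) := by positivity
  have hη1 : η ≤ 1 := by linarith
  have hη2 : η ^ 2 ≤ η := by
    have := mul_le_mul_of_nonneg_right hη1 hη0.le
    linarith
  have hyn8 : y ^ (n + 1) ≤ 1 / 8 := by linarith
  have hyδ : 4 * y ^ (n + 1) ≤ δ := by linarith
  have hfb : ∀ x : ℝ, ∀ N : ℕ, |(∑ n ∈ Finset.range N, φ (x ^ (n + 1) + s n)) / (N : ℝ)| ≤ M := by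
    intro x N
    rcases Nat.eq_zero_or_pos N with h | h
    · subst h
      simp
      linarith
    · have hN : (0:ℝ) < N := by exact_mod_cast h
      rw [abs_div, abs_of_pos hN, div_le_iff₀ hN]
      refine (Finset.abs_sum_le_sum_abs _ _).trans ((Finset.sum_le_sum fun n _ => hb _).trans (le_of_eq ?_))
      rw [Finset.sum_const, Finset.card_range, nsmul_eq_mul]
      ring
  have h5η : 5 * η ≤ Real.exp (-((k / 2) / δ)) := by
    have h2 := mul_le_mul_of_nonneg_right hCA hη0.le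
    linarith
  have haexp : ∀ X : ℝ, a₀ ^ (kap a₀ X) = Real.exp (Real.log a₀ * kap a₀ X) := fun X =>
    Real.rpow_def_of_pos (by linarith) _
  have hWA : 2 * A * δ * nm H c ≤ 2 * A * δ * A := mul_le_mul_of_nonneg_left (hnmA.trans hAA') (by positivity)
  refine DimNear.mono (ε := 5 * η) ⟨?_, ?_⟩ (by linarith) h5η
  · -- lower bound
    have hW : Real.exp (2 * A * δ * nm H c) + y ^ (n + 1) < (1 - 2 * y ^ (n + 1)) * a₀ ^ (kap a₀ (max ((n * H : ℕ) : ℝ) 1)) := by
      have h2 : Real.exp (2 * A * δ * nm H c) + y ^ (n + 1) ≤ Real.exp (2 * A * δ * A + δ) := by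
        rw [Real.exp_add]
        have h4 := Real.exp_le_exp.2 hWA
        have h5 := Real.add_one_le_exp δ
        have h6 : 1 ≤ Real.exp (2 * A * δ * A) := Real.one_le_exp (by positivity)
        have h7 := mul_le_mul h6 (le_refl (Real.exp δ - 1)) (by linarith) (by linarith)
        linarith
      have h3 : Real.exp (-δ) ≤ 1 - 2 * y ^ (n + 1) := by
        have h4 : Real.exp (-δ) ≤ 1 / (1 + δ) := by
          rw [Real.exp_neg, ← one_div]
          exact one_div_le_one_div_of_le (by linarith) (by linarith [Real.add_one_le_exp δ])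
        refine h4.trans ?_
        rw [div_le_iff₀ (by linarith)]
        have h5 : y ^ (n + 1) * δ ≤ y ^ (n + 1) * 1 := mul_le_mul_of_nonneg_left (by linarith) hyn0.le
        linarith
      have h6 : Real.exp (2 * A * δ * A + δ) < Real.exp (-δ) * a₀ ^ (kap a₀ (max ((n * H : ℕ) : ℝ) 1)) := by
        rw [haexp, ← Real.exp_add]
        refine Real.exp_lt_exp.2 ?_
        rw [hC'] at hkL
        linarith
      refine lt_of_le_of_lt h2 (lt_of_lt_of_le h6 ?_)
      exact mul_le_mul_of_nonneg_right h3 (Real.rpow_pos_of_pos (by linarith) _).le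
    have hE : 4 * (2 * y ^ (n + 1)) ≤ A ^ 2 * η ^ 2 := by
      have h1 : (1 : ℝ) * η ^ 2 ≤ A ^ 2 * η ^ 2 := mul_le_mul_of_nonneg_right hA2 (sq_nonneg η)
      linarith [sq_nonneg η]
    have hηA2 : 20 * A ^ 2 * η ≤ δ := by
      have := mul_le_mul_of_nonneg_right hA25 hη0.le
      linarith
    have hmain := lower_core (lt_of_lt_of_le ha haa) hab' hpK hplip hA1 hbA hpm hV16 (h := δ + 2 * η) (σ := η)
      (E := 2 * y ^ (n + 1)) h0 (by linarith [mul_pos (lt_of_lt_of_le one_pos hA5) h0]) hη0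
      hηA2 (by linarith) (by linarith) (by positivity) hE
      (fun θ' hθ' hθΘ => by
        obtain ⟨gl, gu, ml, mu, q1, q2, q3, q4, q5, q6, q7, q8, q9, q10, q11, q12⟩ :=
          approx ha hab.le hp hc0 hA0.le hbA (n := n) hnpos (Θ := 2 * A * δ) (y := y) (by rw [hy]; exact le_of_eq (by ring))
            hy0.le hy1 hyn8 hW hθ' hθΘ
        exact ⟨gl, gu, ml, mu, q1, q2, q3, q4, q5, q6, q7, q8, q9, q10, near_mono q11 haa hbb, near_mono q12 haa hbb⟩)
      (R := rateL φ δ + 3 * η) (fun θ' h2 h3 => by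
        have h4 := lam_mono hφ hpc (η := η) (fun t => by
          have := (abs_le.1 (hpφ t)).1
          linarith) h2
        have h5 := hrate θ'
        have h6 := hAη θ' h3
        have h7 : Real.log (mg p θ') = lam p θ' := rfl
        rw [h7]
        linarith) s
    refine (ENNReal.ofReal_le_ofReal ?_).trans (hmain.trans (dimH_mono ?_))
    · have h1 : rateL φ δ + 3 * η + 6 * A ^ 3 * δ * η + 2 * (2 * y ^ (n + 1)) ≤ rateL φ δ + 5 * η := by
        have h2 : 6 * A ^ 3 * δ ≤ 1 := by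
          have := mul_le_mul_of_nonneg_right hA35 h0.le
          linarith
        have h3 : 6 * A ^ 3 * δ * η ≤ 1 * η := mul_le_mul_of_nonneg_right h2 hη0.le
        linarith
      have h2 := div_le_div_of_nonneg_right h1 hlb.le
      linarith
    · rintro x ⟨hx, hN⟩
      refine ⟨hx, liminf_of_event (hfb x) ?_⟩
      filter_upwards [hN, eventually_ge_atTop 1] with N h2 h3
      have hNr : (0:ℝ) < N := by
        have : 0 < N := by omega
        exact_mod_cast this
      rw [le_div_iff₀ hNr]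
      have h4 := (abs_le.1 (sp_sub_le hpφ s N x)).2
      have h5 : Sp φ s N x = ∑ n ∈ Finset.range N, φ (x ^ (n + 1) + s n) := rfl
      have h6 : Sp p s N x = ∑ n ∈ Finset.range N, p (x ^ (n + 1) + s n) := rfl
      rw [← h5]
      rw [← h6] at h2
      have h7 : 0 ≤ N * η := by positivity
      linarith
  · -- upper bound
    have hq : ∀ t, |θ * p t| ≤ y := fun t => by
      rw [abs_mul, abs_of_nonneg hθ0]
      calc θ * |p t| ≤ (A * δ) * A := mul_le_mul hθA (hbA t) (abs_nonneg _) (by positivity)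
        _ ≤ y := by
          rw [hy]
          have : 0 ≤ A ^ 2 * δ := by positivity
          linarith
    have hW : Real.exp (θ * nm H c) + 2 * y ^ (n + 1) < a₀ ^ (kap a₀ ((n * (H + 1) + 1 : ℕ) : ℝ)) := by
      have h1 : θ * nm H c ≤ 2 * A * δ * nm H c := by
        refine mul_le_mul_of_nonneg_right ?_ hnm0
        have : 0 ≤ A * δ := by positivity
        linarith
      have h2 : Real.exp (θ * nm H c) + 2 * y ^ (n + 1) ≤ Real.exp (2 * A * δ * A + δ) := by
        rw [Real.exp_add]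
        have h3 := Real.exp_le_exp.2 (h1.trans hWA)
        have h5 := Real.add_one_le_exp δ
        have h6 : 1 ≤ Real.exp (2 * A * δ * A) := Real.one_le_exp (by positivity)
        have h7 := mul_le_mul h6 (le_refl (Real.exp δ - 1)) (by linarith) (by linarith)
        linarith
      refine lt_of_le_of_lt h2 ?_
      rw [haexp]
      refine Real.exp_lt_exp.2 ?_
      rw [hC'] at hkU
      linarith
    have h1 := upper_tp ha haa hab' hp hc0 hθ0 hq hy0 hy1 n hW s (δ - 2 * η)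
    refine (dimH_mono ?_).trans (h1.trans (ENNReal.ofReal_le_ofReal ?_))
    · rintro x ⟨hx, hls⟩
      refine ⟨⟨hx.1.le, hx.2.le⟩, ?_⟩
      have h2 := freq_of_limsup (δ' := δ - η) (hfb x) hls (by linarith)
      refine (h2.and_eventually (eventually_ge_atTop 1)).mono ?_
      rintro N ⟨h3, h4⟩
      have hNr : (0:ℝ) < N := by
        have : 0 < N := by omega
        exact_mod_cast this
      rw [lt_div_iff₀ hNr] at h3
      have h5 := (abs_le.1 (sp_sub_le hpφ s N x)).1
      have h6 : Sp φ s N x = ∑ n ∈ Finset.range N, φ (x ^ (n + 1) + s n) := rfl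
      rw [← h6] at h3
      have h7 : 0 ≤ N * η := by positivity
      linarith
    · have h2 : (rateL φ δ - 5 * η) / Real.log b ≤
          (θ * (δ - 2 * η) - lam p θ - 4 * y ^ (n + 1)) / Real.log b := by
        apply div_le_div_of_nonneg_right _ hlb.le
        have h3 := lam_mono hpc hφ (η := η) (fun t => by
          have := (abs_le.1 (hpφ t)).2
          linarith) hθ0
        have h4 := hAη θ hθA
        rw [hθ]
        linarith
      linarith

end Pool.Agent.Helper18.GPW
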