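import Pool.Agent.Helper18.GP.ExpMean

/-!
Powers of a real number on every interval: the exact dimension spectrum of large deviations.
-/

set_option autoImplicit false

namespace Pool.Agent.Helper18.GP

open Finset MeasureTheory Set Filter Topology
open Pool.Agent.Helper78.KD (disc)
open Pool.Agent.Helper59.GP (rateL rateD_exp)

/-- discrepancy, means and exponential sums of `x ^ n` on all subintervals of `[a₀, b₀]`, `1 < a₀ < b₀` -/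
theorem main :
    (∀ a₀ b₀ : ℝ, 1 < a₀ → a₀ < b₀ →
      (∃ c δ₀ : ℝ, 0 < c ∧ 0 < δ₀ ∧ ∀ a b δ : ℝ, a₀ ≤ a → a < b → b ≤ b₀ → 0 < δ → δ ≤ δ₀ → ∀ s : ℕ → ℝ,
        DimNear a b (fun x N => disc (fun n => x ^ (n + 1) + s n) N) δ (rateD δ) (Real.exp (-(c / √δ)))) ∧
      (∀ (φ : ℝ → ℝ) (K : ℝ), (∀ t, φ (t + 1) = φ t) → (∀ s t, |φ s - φ t| ≤ K * |s - t|) →
        ∫ t in (0:ℝ)..1, φ t = 0 → (∃ t, φ t ≠ 0) →
        ∃ c δ₀ : ℝ, 0 < c ∧ 0 < δ₀ ∧ ∀ a b δ : ℝ, a₀ ≤ a → a < b → b ≤ b₀ → 0 < δ → δ ≤ δ₀ → ∀ s : ℕ → ℝ,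
          DimNear a b (fun x N => (∑ n ∈ Finset.range N, φ (x ^ (n + 1) + s n)) / N) δ (rateL φ δ)
            (Real.exp (-(c / √δ)))) ∧
      (∀ m : ℕ, 1 ≤ m →
        ∃ c δ₀ : ℝ, 0 < c ∧ 0 < δ₀ ∧ ∀ a b δ : ℝ, a₀ ≤ a → a < b → b ≤ b₀ → 0 < δ → δ ≤ δ₀ → ∀ s : ℕ → ℝ,
          DimNear a b (fun x N => ‖∑ n ∈ Finset.range N, Complex.exp (2 * Real.pi * Complex.I *
            ((m * (x ^ (n + 1) + s n) : ℝ) : ℂ))‖ / N) δ (rateL (fun t => Real.cos (2 * Real.pi * t)) δ)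
            (Real.exp (-(c / √δ))))) ∧
    (∀ δ : ℝ, 0 < δ → δ ≤ 1 / 8 → |rateD δ - (2 * δ ^ 2 + 4 / 9 * δ ^ 4)| ≤ 16384 * δ ^ 6) := by
  refine ⟨fun a₀ b₀ ha hab => ⟨disc_exp ha hab, fun φ K hper hlip hmean hne => ?_, fun m hm => ?_⟩,
    fun δ h0 h1 => rateD_exp h0 h1⟩
  · obtain ⟨c, δ₀, hc, hδ₀, h⟩ := mean_exp hper hlip hmean hne ha hab
    exact ⟨c, δ₀, hc, hδ₀, h⟩
  · obtain ⟨c, δ₀, hc, hδ₀, h⟩ := weyl_exp m hm ha hab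
    exact ⟨c, δ₀, hc, hδ₀, h⟩

end Pool.Agent.Helper18.GP
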