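import Pool.Agent.Helper18.GP.Trig
import Pool.Agent.Helper59.GP.Weyl

/-!
Weyl sums: doubly exponentially small error.
-/

set_option autoImplicit false

namespace Pool.Agent.Helper18.GP

open Finset Filter Topology MeasureTheory
open Pool.Agent.Helper82.FK (e)
open Pool.Agent.Helper59.GP (rateL rate_attained cs cs_cont cs_per cs_lip cs_mean cs_sq
  cs_rate cs_eq_re cs_abs_le exists_dir exp_eq_e)
open Pool.Agent.Helper78.KD (freq_of_limsup liminf_of_event dimH_finset freq_finset)

theorem gp_cs {m : ℕ} (hm : 1 ≤ m) (t : ℝ) :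
    gp m (fun k => if k = (m : ℤ) then 1 / 2 else if k = -(m : ℤ) then 1 / 2 else 0) t = cs m t := by
  have hne : (m : ℤ) ≠ -(m : ℤ) := by omega
  have h1 : gp m (fun k => if k = (m : ℤ) then 1 / 2 else if k = -(m : ℤ) then 1 / 2 else 0) t =
      1 / 2 * e (m * t) + 1 / 2 * e (-(m * t)) := by
    unfold gp
    rw [← Finset.sum_subset (s₁ := {(m : ℤ), -(m : ℤ)}), Finset.sum_pair hne]
    · simp only [if_pos, hne.symm, if_false]
      push_cast
      rw [neg_mul]
    · intro k hk
      simp only [Finset.mem_insert, Finset.mem_singleton] at hk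
      rw [Finset.mem_Icc]
      omega
    · intro k _ hk
      simp only [Finset.mem_insert, Finset.mem_singleton, not_or] at hk
      simp [hk.1, hk.2]
  rw [h1, cs_eq_re]
  have h2 : e (-(m * t)) = (starRingEnd ℂ) (e (m * t)) := by
    unfold Pool.Agent.Helper82.FK.e
    rw [← Complex.exp_conj]
    congr 1
    simp only [map_mul, Complex.conj_I, Complex.conj_ofReal]
    push_cast
    ring
  rw [h2]
  have h3 := Complex.add_conj (e (m * t))
  push_cast at h3
  linear_combination (1 / 2) * h3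

/-- **Weyl sums.** -/
theorem weyl_dexp (m : ℕ) (hm : 1 ≤ m) {a₀ b₀ : ℝ} (ha : 1 < a₀) (hab : a₀ < b₀) :
    ∃ c δ₀ : ℝ, 0 < c ∧ 0 < δ₀ ∧ ∀ a b δ : ℝ, a₀ ≤ a → a < b → b ≤ b₀ → 0 < δ → δ ≤ δ₀ →
      ∀ s : ℕ → ℝ, DimNear a b (fun x N => ‖∑ n ∈ Finset.range N, Complex.exp (2 * Real.pi * Complex.I *
            ((m * (x ^ (n + 1) + s n) : ℝ) : ℂ))‖ / N) δ (rateL (fun t => Real.cos (2 * Real.pi * t)) δ)
        (Real.exp (-Real.exp (c / δ))) := by
  have hpi := Real.pi_pos
  have hmr : (0:ℝ) < m := by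
    have : 0 < m := by omega
    exact_mod_cast this
  have hne : ∃ t, cs m t ≠ 0 := ⟨0, by
    unfold cs
    simp⟩
  have e_norm : ∀ y : ℝ, ‖e y‖ = 1 := Pool.Agent.Helper82.FK.norm_e
  have e_add := Pool.Agent.Helper82.FK.e_add
  have hc0 : (fun k : ℤ => if k = (m : ℤ) then (1 / 2 : ℂ) else if k = -(m : ℤ) then 1 / 2 else 0) 0 = 0 := by
    have h1 : (0 : ℤ) ≠ m := by omega
    have h2 : (0 : ℤ) ≠ -(m : ℤ) := by omega
    simp only [h1, h2, if_false]
  obtain ⟨c, δ₁, hc, hδ₁, hall⟩ := mean_trig (gp_cs hm) hc0 hne ha hab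
  obtain ⟨δ₂, hδ₂, hsm⟩ := dexp_small (c := c) (C := 17) hc (by norm_num)
  refine ⟨c / 2, min (min δ₁ δ₂) (1 / 128), by positivity, by positivity, ?_⟩
  intro a b δ haa hab' hbb h0 hδ s
  have d1 : δ ≤ δ₁ := hδ.trans ((min_le_left _ _).trans (min_le_left _ _))
  have d3 : δ ≤ δ₂ := hδ.trans ((min_le_left _ _).trans (min_le_right _ _))
  have d2 : δ ≤ 1 / 128 := hδ.trans (min_le_right _ _)
  obtain ⟨f1, f2, f3, f4⟩ := hsm δ h0 d3
  have hδ1 : δ ≤ 1 := by linarith
  have hlb : 0 < Real.log b := Real.log_pos (by linarith)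
  rw [← cs_rate hm]
  simp_rw [exp_eq_e]
  obtain ⟨η, hη⟩ : ∃ η : ℝ, η = Real.exp (-Real.exp (c / δ)) := ⟨_, rfl⟩
  rw [← hη] at f3 f4
  have hη0 : 0 < η := by rw [hη]; exact Real.exp_pos _
  have hηδ : η ≤ δ := by linarith
  -- the norm of the sum
  have hnb : ∀ x : ℝ, ∀ N : ℕ, |‖∑ n ∈ Finset.range N, e (m * (x ^ (n + 1) + s n))‖ / (N : ℝ)| ≤ 1 := by
    intro x N
    rcases Nat.eq_zero_or_pos N with h | h
    · subst h
      simp
    · have hN : (0:ℝ) < N := by exact_mod_cast h
      rw [abs_div, abs_of_pos hN, abs_of_nonneg (norm_nonneg _), div_le_iff₀ hN, one_mul]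
      refine (norm_sum_le _ _).trans (le_of_eq ?_)
      simp [e_norm]
  have hfb : ∀ (s : ℕ → ℝ) (x : ℝ) (N : ℕ), |(∑ n ∈ Finset.range N, cs m (x ^ (n + 1) + s n)) / (N : ℝ)| ≤ 1 := by
    intro s x N
    rcases Nat.eq_zero_or_pos N with h | h
    · subst h
      simp
    · have hN : (0:ℝ) < N := by exact_mod_cast h
      rw [abs_div, abs_of_pos hN, div_le_iff₀ hN]
      refine (Finset.abs_sum_le_sum_abs _ _).trans ((Finset.sum_le_sum fun n _ => cs_abs_le m _).trans (le_of_eq ?_))
      simp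
  refine DimNear.mono (ε := 17 * η) ⟨?_, ?_⟩ (by linarith) f4
  · -- lower bound
    have hall1 := (hall a b δ haa hab' hbb h0 d1 s).1
    rw [← hη] at hall1
    refine (ENNReal.ofReal_le_ofReal ?_).trans (hall1.trans (dimH_mono ?_))
    · have h2 : (rateL (cs m) δ + η) / Real.log b ≤
          (rateL (cs m) δ + 17 * η) / Real.log b := by
        apply div_le_div_of_nonneg_right _ hlb.le
        linarith
      linarith
    · rintro x ⟨hx, hls⟩
      refine ⟨hx, hls.trans (liminf_le_liminf (Eventually.of_forall fun N => ?_) ?_ ?_)⟩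
      · apply div_le_div_of_nonneg_right _ (Nat.cast_nonneg N)
        have h1 : ∑ n ∈ Finset.range N, cs m (x ^ (n + 1) + s n) =
            (∑ n ∈ Finset.range N, e (m * (x ^ (n + 1) + s n))).re := by
          rw [Complex.re_sum]
          exact Finset.sum_congr rfl fun n _ => cs_eq_re m _
        rw [h1]
        exact Complex.re_le_norm _
      · exact ⟨-1, by
          rw [eventually_map]
          exact Eventually.of_forall fun N => (abs_le.1 (hfb s x N)).1⟩
      · exact IsBoundedUnder.isCoboundedUnder_ge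
          ⟨1, by
            rw [eventually_map]
            exact Eventually.of_forall fun N => (abs_le.1 (hnb x N)).2⟩
  · -- upper bound
    obtain ⟨δ', hδ'⟩ : ∃ δ' : ℝ, δ' = δ * (1 - η) := ⟨_, rfl⟩
    have hδ'0 : 0 < δ' := by
      rw [hδ']
      apply mul_pos h0
      linarith
    have hδ'δ : δ' ≤ δ := by
      rw [hδ']
      linarith [mul_pos h0 hη0]
    -- comparison of the rates
    have hcmp : rateL (cs m) δ ≤ rateL (cs m) δ' + 16 * η := by
      obtain ⟨⟨θ, hθ0, hθA, hθ⟩, -⟩ := rate_attained (cs_cont m) (cs_abs_le m) le_rfl (cs_mean hm)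
        (V := 1 / 2) (by norm_num) (by norm_num) (cs_sq hm).ge (A := 16) (by norm_num) (by norm_num) h0
        (by norm_num; linarith)
      obtain ⟨-, h2⟩ := rate_attained (cs_cont m) (cs_abs_le m) le_rfl (cs_mean hm)
        (V := 1 / 2) (by norm_num) (by norm_num) (cs_sq hm).ge (A := 16) (by norm_num) (by norm_num) hδ'0
        (by norm_num; linarith)
      have h3 := h2 θ
      have h4 : θ * (δ - δ') ≤ 16 * η := by
        have h5 : δ - δ' = δ * η := by
          rw [hδ']
          ring
        rw [h5]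
        have h6 : θ * (δ * η) ≤ 16 * δ * (δ * η) := mul_le_mul_of_nonneg_right hθA (by positivity)
        have h7 : δ * (δ * η) ≤ η := by
          have h8 : δ * δ ≤ 1 * 1 := mul_le_mul hδ1 hδ1 h0.le zero_le_one
          have h9 := mul_le_mul_of_nonneg_right h8 hη0.le
          linarith
        linarith
      rw [hθ]
      linarith
    -- the grid
    obtain ⟨M, hM⟩ : ∃ M : ℕ, 4 * Real.pi / η ≤ M := exists_nat_ge _
    have hMr : (0:ℝ) < M := lt_of_lt_of_le (by positivity) hM
    have hM1 : 1 ≤ M := by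
      have : 0 < M := by exact_mod_cast hMr
      omega
    have hMη : 2 * Real.pi / M ≤ η / 2 := by
      rw [div_le_iff₀ hη0] at hM
      rw [div_le_iff₀ hMr]
      linarith
    refine dimH_finset (Finset.range M) (fun j => {x | x ∈ Set.Ioo a b ∧ δ' ≤ limsup (fun N : ℕ =>
      (∑ n ∈ Finset.range N, cs m (x ^ (n + 1) + (fun n => s n + j / (M * m)) n)) / N) atTop}) _ _ ?_ ?_
    · rintro x ⟨hx, hls⟩
      have h1 := freq_of_limsup (δ' := δ * (1 - η / 2)) (hnb x) hls (by linarith [mul_pos h0 hη0])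
      have h2 : ∃ᶠ N : ℕ in atTop, ∃ j ∈ Finset.range M, δ' ≤
          (∑ n ∈ Finset.range N, cs m (x ^ (n + 1) + (fun n => s n + j / (M * m)) n)) / N := by
        refine (h1.and_eventually (eventually_ge_atTop 1)).mono ?_
        rintro N ⟨h3, h4⟩
        have hNr : (0:ℝ) < N := by
          have : 0 < N := by omega
          exact_mod_cast this
        rw [lt_div_iff₀ hNr] at h3
        obtain ⟨j, hj, hjz⟩ := exists_dir (∑ n ∈ Finset.range N, e (m * (x ^ (n + 1) + s n))) hM1
        refine ⟨j, hj, ?_⟩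
        rw [le_div_iff₀ hNr]
        have h5 : (e (j / M) * ∑ n ∈ Finset.range N, e (m * (x ^ (n + 1) + s n))).re =
            ∑ n ∈ Finset.range N, cs m (x ^ (n + 1) + (fun n => s n + j / (M * m)) n) := by
          rw [Finset.mul_sum, Complex.re_sum]
          refine Finset.sum_congr rfl fun n _ => ?_
          rw [cs_eq_re, ← e_add]
          congr 2
          field_simp
          ring
        rw [← h5]
        refine le_trans ?_ hjz
        have h6 : δ * (1 - η / 2) * N * (1 - 2 * Real.pi / M) ≤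
            ‖∑ n ∈ Finset.range N, e (m * (x ^ (n + 1) + s n))‖ * (1 - 2 * Real.pi / M) :=
          mul_le_mul_of_nonneg_right h3.le (by linarith)
        refine le_trans ?_ h6
        rw [hδ']
        have h7 : 1 - η ≤ (1 - η / 2) * (1 - 2 * Real.pi / M) := by
          have h8 : (1 - η / 2) * (1 - η / 2) ≤ (1 - η / 2) * (1 - 2 * Real.pi / M) :=
            mul_le_mul_of_nonneg_left (by linarith) (by linarith)
          linarith [sq_nonneg (η / 2)]
        have h9 : 0 ≤ δ * N := by positivity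
        calc δ * (1 - η) * N = δ * N * (1 - η) := by ring
          _ ≤ δ * N * ((1 - η / 2) * (1 - 2 * Real.pi / M)) := mul_le_mul_of_nonneg_left h7 h9
          _ = _ := by ring
      obtain ⟨j, hj, hf⟩ := freq_finset _ _ h2
      refine ⟨j, hj, hx, ?_⟩
      refine le_limsup_of_frequently_le hf ?_
      exact ⟨1, by
        rw [eventually_map]
        exact Eventually.of_forall fun N => (abs_le.1 (hfb _ x N)).2⟩
    · intro j _
      refine ((hall a b δ' haa hab' hbb hδ'0 (hδ'δ.trans d1) (fun n => s n + j / (M * m))).2).trans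
        (ENNReal.ofReal_le_ofReal ?_)
      have h2 : (rateL (cs m) δ - 17 * η) / Real.log b ≤
          (rateL (cs m) δ' - Real.exp (-Real.exp (c / δ'))) / Real.log b := by
        apply div_le_div_of_nonneg_right _ hlb.le
        have h3 : Real.exp (-Real.exp (c / δ')) ≤ η := by
          rw [hη]
          refine Real.exp_le_exp.2 (neg_le_neg (Real.exp_le_exp.2 ?_))
          exact div_le_div_of_nonneg_left hc.le hδ'0 hδ'δ
        linarith
      linarith

end Pool.Agent.Helper18.GP
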