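import Pool.Agent.Helper18.GP.LipExp
import Pool.Agent.Helper18.GP.TrigW
import Pool.Agent.Helper59.GP.Exp

/-!
Powers of a real number on every interval: the dimension spectrum of large deviations with small errors.
-/

set_option autoImplicit false

namespace Pool.Agent.Helper18.GP

open Finset MeasureTheory Set Filter Topology
open Pool.Agent.Helper78.KD (disc)
open Pool.Agent.Helper59.GP (rateL rateD_exp)

/-- a trigonometric polynomial given by a finite set of frequencies -/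
theorem gp_of_sum {S : Finset ℤ} {z : ℤ → ℂ} {φ : ℝ → ℝ} (hS : 0 ∉ S)
    (hφ : ∀ t : ℝ, (φ t : ℂ) = ∑ h ∈ S, z h * Complex.exp (2 * Real.pi * Complex.I * (h * t : ℝ))) :
    ∃ (H : ℕ) (c : ℤ → ℂ), (∀ t, gp H c t = φ t) ∧ c 0 = 0 := by
  refine ⟨S.sup Int.natAbs, fun k => if k ∈ S then z k else 0, fun t => ?_, by simp [hS]⟩
  rw [hφ t]
  unfold gp
  rw [← Finset.sum_subset (s₁ := S)]
  · refine Finset.sum_congr rfl fun k hk => ?_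
    simp only [if_pos hk]
    congr 1
    unfold Pool.Agent.Helper82.FK.e
    congr 1
    push_cast
    ring
  · intro k hk
    have h1 : k.natAbs ≤ S.sup Int.natAbs := Finset.le_sup hk
    rw [Finset.mem_Icc]
    omega
  · intro k _ hk
    simp only [if_neg hk, zero_mul]

/-- discrepancy, means and exponential sums of `x ^ n` on all subintervals of `[a₀, b₀]`, `1 < a₀ < b₀` -/
theorem main2 :
    (∀ a₀ b₀ : ℝ, 1 < a₀ → a₀ < b₀ →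
      (∃ c δ₀ : ℝ, 0 < c ∧ 0 < δ₀ ∧ ∀ a b δ : ℝ, a₀ ≤ a → a < b → b ≤ b₀ → 0 < δ → δ ≤ δ₀ → ∀ s : ℕ → ℝ,
        DimNear a b (fun x N => disc (fun n => x ^ (n + 1) + s n) N) δ (rateD δ) (Real.exp (-(c / √δ)))) ∧
      (∀ (φ : ℝ → ℝ) (K : ℝ), (∀ t, φ (t + 1) = φ t) → (∀ s t, |φ s - φ t| ≤ K * |s - t|) →
        ∫ t in (0:ℝ)..1, φ t = 0 → (∃ t, φ t ≠ 0) →
        ∃ c δ₀ : ℝ, 0 < c ∧ 0 < δ₀ ∧ ∀ a b δ : ℝ, a₀ ≤ a → a < b → b ≤ b₀ → 0 < δ → δ ≤ δ₀ → ∀ s : ℕ → ℝ,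
          DimNear a b (fun x N => (∑ n ∈ Finset.range N, φ (x ^ (n + 1) + s n)) / N) δ (rateL φ δ)
            (Real.exp (-(c / δ)))) ∧
      (∀ (φ : ℝ → ℝ) (S : Finset ℤ) (z : ℤ → ℂ), 0 ∉ S →
        (∀ t : ℝ, (φ t : ℂ) = ∑ h ∈ S, z h * Complex.exp (2 * Real.pi * Complex.I * (h * t : ℝ))) → (∃ t, φ t ≠ 0) →
        ∃ c δ₀ : ℝ, 0 < c ∧ 0 < δ₀ ∧ ∀ a b δ : ℝ, a₀ ≤ a → a < b → b ≤ b₀ → 0 < δ → δ ≤ δ₀ → ∀ s : ℕ → ℝ,
          DimNear a b (fun x N => (∑ n ∈ Finset.range N, φ (x ^ (n + 1) + s n)) / N) δ (rateL φ δ)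
            (Real.exp (-Real.exp (c / δ)))) ∧
      (∀ m : ℕ, 1 ≤ m →
        ∃ c δ₀ : ℝ, 0 < c ∧ 0 < δ₀ ∧ ∀ a b δ : ℝ, a₀ ≤ a → a < b → b ≤ b₀ → 0 < δ → δ ≤ δ₀ → ∀ s : ℕ → ℝ,
          DimNear a b (fun x N => ‖∑ n ∈ Finset.range N, Complex.exp (2 * Real.pi * Complex.I *
            ((m * (x ^ (n + 1) + s n) : ℝ) : ℂ))‖ / N) δ (rateL (fun t => Real.cos (2 * Real.pi * t)) δ)
            (Real.exp (-Real.exp (c / δ))))) ∧
    (∀ δ : ℝ, 0 < δ → δ ≤ 1 / 8 → |rateD δ - (2 * δ ^ 2 + 4 / 9 * δ ^ 4)| ≤ 16384 * δ ^ 6) := by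
  refine ⟨fun a₀ b₀ ha hab => ⟨disc_exp ha hab, fun φ K hper hlip hmean hne => ?_,
    fun φ S z hS hφ hne => ?_, fun m hm => weyl_dexp m hm ha hab⟩, fun δ h0 h1 => rateD_exp h0 h1⟩
  · exact Pool.Agent.Helper18.GPW.mean_lip hper hlip hmean hne ha hab
  · obtain ⟨H, c, hp, hc0⟩ := gp_of_sum hS hφ
    exact mean_trig hp hc0 hne ha hab

end Pool.Agent.Helper18.GP
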