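import Pool.Agent.Helper18.GP.Sub

/-!
Oscillatory integrals and sublevel sets of polynomials with bounded coefficients on intervals `[a,b]`, `1 < a`.
-/

set_option autoImplicit false

namespace Pool.Agent.Helper18.GP

open Finset MeasureTheory Set Filter Topology Pool.Agent.Helper82.FK

/-- reversed coefficients -/
def cf (M : ℕ) (d : ℕ → ℝ) (j : ℕ) : ℝ := if j ≤ M then d (M - j) else 0

theorem F_cf {x : ℝ} (hx : x ≠ 0) (M : ℕ) (d : ℕ → ℝ) :
    x ^ M * F 0 (cf M d) x = ∑ i ∈ range (M + 1), d i * x ^ i := by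
  unfold F
  rw [tsum_eq_sum (s := range (M + 1)) (fun j hj => by
    have : ¬ j ≤ M := by have := mem_range.not.1 hj; omega
    simp [cf, this])]
  rw [mul_sum, ← sum_range_reflect]
  refine sum_congr rfl fun i hi => ?_
  have hi' : i ≤ M := by have := mem_range.1 hi; omega
  have h1 : M + 1 - 1 - i = M - i := by omega
  rw [h1]
  have h2 : M - i ≤ M := by omega
  have h3 : M - (M - i) = i := by omega
  simp only [cf, if_pos h2, h3, rf, range_zero, Finset.prod_empty, pow_zero, one_mul, add_zero, inv_pow]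
  have h4 : x ^ M = x ^ i * x ^ (M - i) := by rw [← pow_add]; congr 1; omega
  have h5 : x ^ (M - i) ≠ 0 := pow_ne_zero _ hx
  rw [h4]
  field_simp

/-- constants of the class -/
theorem short {a : ℝ} (b : ℝ) (ha : 1 < a) {H : ℝ} (hH : 1 ≤ H) :
    ∃ (μ η B : ℝ), 0 < μ ∧ μ ≤ 1 ∧ 0 < η ∧ 0 < B ∧
      (∀ c ∈ Cs H, ∀ x ∈ Icc a b, |F 0 c x| ≤ B ∧ |F 1 c x| ≤ B) ∧
      ∀ c ∈ Cs H, ∀ p q, a ≤ p → p ≤ q → q ≤ b → q - p ≤ η → ∃ k ≤ KK a H, ∀ x ∈ Icc p q, μ ≤ |F k c x| := by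
  obtain ⟨c₀, hc₀, htr⟩ := transv b ha H
  set K : ℕ := KK a H with hK
  set B : ℝ := ∑ k ∈ range (K + 2), H * ∑' j, bd k a j with hB
  have hnn : ∀ k, 0 ≤ H * ∑' j, bd k a j := fun k =>
    mul_nonneg (by linarith) (tsum_nonneg fun j => bd_nonneg (by linarith) k j)
  have hle : ∀ k, k ≤ K + 1 → H * ∑' j, bd k a j ≤ B := fun k hk =>
    single_le_sum (f := fun k => H * ∑' j, bd k a j) (fun k _ => hnn k) (mem_range.2 (by omega))
  have hB0 : 0 ≤ B := (hnn 0).trans (hle 0 (by omega))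
  have hFB : ∀ k, k ≤ K + 1 → ∀ c ∈ Cs H, ∀ x ∈ Icc a b, |F k c x| ≤ B := fun k hk c hc x hx =>
    (F_le ha hx.1 hc.2 k).trans (hle k hk)
  refine ⟨min 1 (c₀ / 2), c₀ / (2 * (B + 1)), B + 1, by positivity, min_le_left _ _, by positivity, by positivity,
    fun c hc x hx => ⟨(hFB 0 (by omega) c hc x hx).trans (by linarith), (hFB 1 (by omega) c hc x hx).trans (by linarith)⟩, ?_⟩
  intro c hc p q hp hpq hq hs
  obtain ⟨k, hk, hk2⟩ := htr c hc p ⟨hp, hpq.trans hq⟩
  refine ⟨k, hk, fun x hx => (min_le_right _ _).trans ?_⟩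
  have hsub : Icc p q ⊆ Icc a b := Icc_subset_Icc hp hq
  have h1 := Convex.norm_image_sub_le_of_norm_hasDerivWithin_le (f := F k c) (f' := F (k + 1) c)
    (C := B) (s := Icc p q) (fun z hz => (hasDerivAt_F (lt_of_lt_of_le ha (hsub hz).1) hc.2 k).hasDerivWithinAt)
    (fun z hz => by rw [Real.norm_eq_abs]; exact hFB (k + 1) (by omega) c hc z (hsub hz)) (convex_Icc p q)
    (show p ∈ Icc p q from ⟨le_rfl, hpq⟩) hx
  rw [Real.norm_eq_abs, Real.norm_eq_abs, abs_of_nonneg (by linarith [hx.1] : 0 ≤ x - p)] at h1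
  have h2 : B * (x - p) ≤ c₀ / 2 := by
    have h3 : x - p ≤ c₀ / (2 * (B + 1)) := by linarith [hx.2]
    calc B * (x - p) ≤ (B + 1) * (c₀ / (2 * (B + 1))) := by
          refine mul_le_mul (by linarith) h3 (by linarith [hx.1]) (by linarith)
      _ = c₀ / 2 := by field_simp
  have h4 : |F k c p| - |F k c x - F k c p| ≤ |F k c x| := by
    have := abs_sub_abs_le_abs_sub (F k c p) (F k c p - F k c x)
    rw [show F k c p - (F k c p - F k c x) = F k c x by ring, abs_sub_comm (F k c p) (F k c x)] at this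
    linarith
  linarith

/-- chopping an interval -/
theorem chop {a b : ℝ} {G : ℝ → ℝ} (hG : ContinuousOn G (Icc a b)) {η X : ℝ} (hη : 0 < η)
    (h : ∀ p q, a ≤ p → p ≤ q → q ≤ b → q - p ≤ η → ‖∫ x in p..q, e (G x)‖ ≤ X) (n : ℕ) :
    ∀ p q, a ≤ p → p ≤ q → q ≤ b → q - p ≤ n * η → ‖∫ x in p..q, e (G x)‖ ≤ n * X := by
  induction n with
  | zero =>
    intro p q hp hpq hq hs
    have : p = q := by
      push_cast at hs
      linarith
    rw [this, intervalIntegral.integral_same]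
    simp
  | succ n ih =>
    intro p q hp hpq hq hs
    set m := min (p + η) q with hm
    have h1 : p ≤ m := le_min (by linarith) hpq
    have h2 : m ≤ q := min_le_right _ _
    have hint : ∀ u v, u ∈ Icc p q → v ∈ Icc p q → IntervalIntegrable (fun x => e (G x)) volume u v := by
      intro u v hu hv
      refine ContinuousOn.intervalIntegrable ?_
      refine continuous_e.comp_continuousOn (hG.mono ?_)
      exact (Set.uIcc_subset_Icc hu hv).trans (Icc_subset_Icc hp hq)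
    rw [← intervalIntegral.integral_add_adjacent_intervals (hint p m ⟨le_rfl, hpq⟩ ⟨h1, h2⟩)
      (hint m q ⟨h1, h2⟩ ⟨hpq, le_rfl⟩)]
    refine (norm_add_le _ _).trans ?_
    have h3 := h p m hp h1 (h2.trans hq) (by have := min_le_left (p + η) q; linarith)
    have h4 : q - m ≤ n * η := by
      push_cast at hs
      rcases min_choice (p + η) q with h5 | h5
      · rw [hm, h5]; linarith
      · rw [hm, h5, sub_self]; positivity
    have h5 := ih m q (hp.trans h1) h2 hq h4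
    push_cast
    linarith

theorem chop_meas {a b : ℝ} {S : Set ℝ} {η X : ℝ} (hη : 0 < η) (hX : 0 ≤ X)
    (h : ∀ p q, a ≤ p → p ≤ q → q ≤ b → q - p ≤ η → volume (Icc p q ∩ S) ≤ ENNReal.ofReal X) (n : ℕ) :
    ∀ p q, a ≤ p → p ≤ q → q ≤ b → q - p ≤ (n + 1 : ℕ) * η → volume (Icc p q ∩ S) ≤ ENNReal.ofReal ((n + 1 : ℕ) * X) := by
  induction n with
  | zero =>
    intro p q hp hpq hq hs
    have := h p q hp hpq hq (by simpa using hs)
    simpa using this
  | succ n ih =>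
    intro p q hp hpq hq hs
    set m := min (p + η) q with hm
    have h1 : p ≤ m := le_min (by linarith) hpq
    have h2 : m ≤ q := min_le_right _ _
    have hcov : Icc p q ∩ S ⊆ (Icc p m ∩ S) ∪ (Icc m q ∩ S) := by
      rintro x ⟨hx, hxS⟩
      rcases le_total x m with h3 | h3
      · exact Or.inl ⟨⟨hx.1, h3⟩, hxS⟩
      · exact Or.inr ⟨⟨h3, hx.2⟩, hxS⟩
    have h3 := h p m hp h1 (h2.trans hq) (by have := min_le_left (p + η) q; linarith)
    have h4 : q - m ≤ (n + 1 : ℕ) * η := by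
      push_cast at hs ⊢
      rcases min_choice (p + η) q with h5 | h5
      · rw [hm, h5]; linarith
      · rw [hm, h5, sub_self]; positivity
    have h5 := ih m q (hp.trans h1) h2 hq h4
    refine (measure_mono hcov).trans ((measure_union_le _ _).trans ((add_le_add h3 h5).trans (le_of_eq ?_)))
    rw [← ENNReal.ofReal_add hX (by positivity)]
    congr 1
    push_cast
    ring

theorem cf_mem {H : ℝ} {M : ℕ} {d : ℕ → ℝ} (hM : 1 ≤ |d M|) (hd : ∀ i ≤ M, |d i| ≤ H) : cf M d ∈ Cs H := by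
  refine ⟨by simpa [cf] using hM, fun j => ?_⟩
  unfold cf
  split_ifs with h
  · exact hd _ (by omega)
  · rw [abs_zero]
    exact (abs_nonneg _).trans (hd M le_rfl)

/-- **Sublevel sets.** -/
theorem sublevelK {a b : ℝ} (ha : 1 < a) (hab : a ≤ b) (H : ℝ) : ∃ C : ℝ, 0 < C ∧
    ∀ (s : ℕ) (c : ℕ → ℝ), 1 ≤ |c s| → (∀ i ≤ s, |c i| ≤ H) → ∀ ρ : ℝ, 0 < ρ →
      volume {x : ℝ | x ∈ Icc a b ∧ |∑ i ∈ range (s + 1), c i * x ^ i| ≤ ρ} ≤
        ENNReal.ofReal (C * (ρ * a ^ (-(s : ℝ))) ^ (1 / ((KK a (max H 1) : ℝ) + 1))) := by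
  have hH1 : 1 ≤ max H 1 := le_max_right _ _
  obtain ⟨μ, η, B, hμ, hμ1, hη, hB, hFB, hsh⟩ := short b ha hH1
  set K : ℕ := KK a (max H 1) with hK
  have ha0 : 0 < a := by linarith
  set n : ℕ := ⌈(b - a) / η⌉₊ with hn
  set κ : ℝ := 1 / ((K : ℝ) + 1) with hκ
  have hκ0 : 0 < κ := by positivity
  -- the constant
  set C : ℝ := (((n : ℝ) + 1) * (2 ^ K * 2) + (b - a) + 1) * (2 / μ) ^ κ with hC
  have hn0 : (0 : ℝ) ≤ ((n : ℝ) + 1) * (2 ^ K * 2) := by positivity
  have hμκ : 0 < (2 / μ) ^ κ := Real.rpow_pos_of_pos (by positivity) _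
  have hC0 : 0 < C := mul_pos (by linarith) hμκ
  refine ⟨C, hC0, fun s c hcs hc ρ hρ => ?_⟩
  have hcf : cf s c ∈ Cs (max H 1) := cf_mem hcs fun i hi => (hc i hi).trans (le_max_left _ _)
  set r : ℝ := ρ * a ^ (-(s : ℝ)) with hr
  have hr0 : 0 < r := by positivity
  have hrκ : (2 / μ) ^ κ * r ^ κ = (2 * r / μ) ^ κ := by
    rw [← Real.mul_rpow (by positivity) hr0.le]
    congr 1
    ring
  rcases le_or_gt 1 (2 * r / μ) with hbig | hsmall
  · -- trivial bound
    have h1 : volume {x : ℝ | x ∈ Icc a b ∧ |∑ i ∈ range (s + 1), c i * x ^ i| ≤ ρ} ≤ ENNReal.ofReal (b - a) := by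
      rw [← Real.volume_Icc]
      exact measure_mono fun x hx => hx.1
    refine h1.trans (ENNReal.ofReal_le_ofReal ?_)
    have h3 : (1 : ℝ) ≤ (2 * r / μ) ^ κ := Real.one_le_rpow hbig hκ0.le
    rw [hC, mul_assoc, hrκ]
    nlinarith
  · set τ : ℝ := (2 * r / μ) ^ κ with hτ
    have hτ0 : 0 < τ := Real.rpow_pos_of_pos (by positivity) _
    have hτ1 : τ ≤ 1 := Real.rpow_le_one (by positivity) hsmall.le hκ0.le
    have hτK : τ ^ (K + 1) = 2 * r / μ := by
      rw [hτ, ← Real.rpow_natCast, ← Real.rpow_mul (by positivity), hκ]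
      have : (1 / ((K : ℝ) + 1) * ((K + 1 : ℕ) : ℝ)) = 1 := by
        push_cast
        field_simp
      rw [this, Real.rpow_one]
    have hF : ∀ x ∈ Icc a b, |∑ i ∈ range (s + 1), c i * x ^ i| ≤ ρ → |F 0 (cf s c) x| ≤ r := by
      intro x hx hxρ
      have hx0 : 0 < x := by linarith [hx.1]
      rw [← F_cf hx0.ne', abs_mul, abs_of_pos (by positivity)] at hxρ
      have h4 : a ^ s ≤ x ^ s := pow_le_pow_left₀ ha0.le hx.1 s
      have h5 : a ^ s * |F 0 (cf s c) x| ≤ ρ := (mul_le_mul_of_nonneg_right h4 (abs_nonneg _)).trans hxρ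
      rw [hr, Real.rpow_neg ha0.le, Real.rpow_natCast, ← div_eq_mul_inv, le_div_iff₀ (by positivity), mul_comm]
      exact h5
    have hshort : ∀ p q, a ≤ p → p ≤ q → q ≤ b → q - p ≤ η →
        volume (Icc p q ∩ {x : ℝ | x ∈ Icc a b ∧ |∑ i ∈ range (s + 1), c i * x ^ i| ≤ ρ}) ≤
          ENNReal.ofReal (2 ^ K * (2 * τ)) := by
      intro p q hp hpq hq hs
      obtain ⟨k, hk, hk2⟩ := hsh (cf s c) hcf p q hp hpq hq hs
      have h6 := meas_ind (a := a) (b := b) (h := fun k => F k (cf s c))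
        (fun k x hx => hasDerivAt_F (lt_of_lt_of_le ha hx.1) hcf.2 k) hτ0 k μ hμ p q hp hpq hq hk2
      refine (measure_mono ?_).trans (h6.trans (ENNReal.ofReal_le_ofReal ?_))
      · rintro x ⟨hx, hxI, hxρ⟩
        refine ⟨hx, (hF x hxI hxρ).trans_lt ?_⟩
        have h7 : τ ^ (K + 1) ≤ τ ^ k := pow_le_pow_of_le_one hτ0.le hτ1 (by omega)
        have h8 : μ * τ ^ (K + 1) = 2 * r := by
          rw [hτK]
          field_simp
        have h9 := mul_le_mul_of_nonneg_left h7 hμ.le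
        show r < μ * τ ^ k
        linarith
      · have h7 : (2 : ℝ) ^ k ≤ 2 ^ K := pow_le_pow_right₀ (by norm_num) hk
        have h8 : (0 : ℝ) ≤ 2 * τ := by positivity
        nlinarith
    have h10 := chop_meas (S := {x : ℝ | x ∈ Icc a b ∧ |∑ i ∈ range (s + 1), c i * x ^ i| ≤ ρ}) hη
      (by positivity) hshort n a b le_rfl hab le_rfl (by
        have h11 := Nat.le_ceil ((b - a) / η)
        rw [← hn, div_le_iff₀ hη] at h11
        push_cast
        linarith)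
    rw [Set.inter_eq_right.2 fun x hx => hx.1] at h10
    refine h10.trans (ENNReal.ofReal_le_ofReal ?_)
    rw [hC, mul_assoc, hrκ]
    push_cast
    have h12 : 0 ≤ b - a := by linarith
    nlinarith

theorem sublevel {a b : ℝ} (ha : 1 < a) (hab : a ≤ b) (H : ℝ) : ∃ κ C : ℝ, 0 < κ ∧ 0 < C ∧
    ∀ (s : ℕ) (c : ℕ → ℝ), 1 ≤ |c s| → (∀ i ≤ s, |c i| ≤ H) → ∀ ρ : ℝ, 0 < ρ →
      volume {x : ℝ | x ∈ Icc a b ∧ |∑ i ∈ range (s + 1), c i * x ^ i| ≤ ρ} ≤
        ENNReal.ofReal (C * (ρ * a ^ (-(s : ℝ))) ^ κ) := by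
  obtain ⟨C, hC, h⟩ := sublevelK ha hab H
  exact ⟨_, C, by positivity, hC, h⟩

end Pool.Agent.Helper18.GP
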