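import Pool.Agent.Helper18.GP.Osc

/-!
Oscillatory integrals of polynomials with bounded coefficients on intervals `[a,b]`, `1 < a`.
-/

set_option autoImplicit false

namespace Pool.Agent.Helper18.GP

open Finset MeasureTheory Set Filter Topology Pool.Agent.Helper82.FK

/-- the derivative of the polynomial -/
theorem deriv_poly {x : ℝ} (hx : 0 < x) {M : ℕ} (hM : 1 ≤ M) (d : ℕ → ℝ) (γ : ℝ) :
    HasDerivAt (fun x => γ + ∑ i ∈ range (M + 1), d i * x ^ i)
      (M * (x ^ (M - 1) * F 0 (cf M fun i => (i : ℝ) / M * d i) x)) x := by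
  have h1 : HasDerivAt (fun x => γ + ∑ i ∈ range (M + 1), d i * x ^ i)
      (∑ i ∈ range (M + 1), d i * (i * x ^ (i - 1))) x := by
    have h2 := HasDerivAt.fun_sum (u := range (M + 1)) (A := fun i x => d i * x ^ i)
      (A' := fun i => d i * (i * x ^ (i - 1))) (x := x) fun i _ => (hasDerivAt_pow i x).const_mul (d i)
    exact h2.const_add γ
  have h3 := F_cf hx.ne' M fun i => (i : ℝ) / M * d i
  have hM0 : (M : ℝ) ≠ 0 := by positivity
  have h4 : x * ∑ i ∈ range (M + 1), d i * (i * x ^ (i - 1)) =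
      x * (M * (x ^ (M - 1) * F 0 (cf M fun i => (i : ℝ) / M * d i) x)) := by
    have h5 : x * (M * (x ^ (M - 1) * F 0 (cf M fun i => (i : ℝ) / M * d i) x)) =
        M * (x ^ M * F 0 (cf M fun i => (i : ℝ) / M * d i) x) := by
      obtain ⟨m, rfl⟩ : ∃ m, M = m + 1 := ⟨M - 1, by omega⟩
      rw [Nat.add_sub_cancel, pow_succ]
      ring
    rw [h5, h3, mul_sum, mul_sum]
    refine sum_congr rfl fun i _ => ?_
    rcases Nat.eq_zero_or_pos i with h0 | h0
    · subst h0
      simp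
    · obtain ⟨j, rfl⟩ : ∃ j, i = j + 1 := ⟨i - 1, by omega⟩
      rw [Nat.add_sub_cancel, pow_succ]
      field_simp
  have h6 := mul_left_cancel₀ hx.ne' h4
  rw [h6] at h1
  exact h1

/-- **Oscillatory integrals.** -/
theorem osc {a b : ℝ} (ha : 1 < a) (hab : a ≤ b) (H : ℝ) : ∃ C : ℝ, 0 < C ∧
    ∀ (M : ℕ) (d : ℕ → ℝ), 1 ≤ M → 1 ≤ |d M| → (∀ i ≤ M, |d i| ≤ H) → ∀ p q γ : ℝ, a ≤ p → p ≤ q → q ≤ b →
      ‖∫ x in p..q, e (γ + ∑ i ∈ range (M + 1), d i * x ^ i)‖ ≤ C * a ^ (-(kap a (max H 1) * M)) := by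
  have hH1 : 1 ≤ max H 1 := le_max_right _ _
  obtain ⟨μ, η, B, hμ, hμ1, hη, hB, hFB, hsh⟩ := short b ha hH1
  set K : ℕ := KK a (max H 1) with hK
  have ha0 : 0 < a := by linarith
  have hba : 0 ≤ b - a := by linarith
  set n : ℕ := ⌈(b - a) / η⌉₊ with hn
  set κ : ℝ := 1 / (2 * (K : ℝ) + 1) with hκ
  have hκ0 : 0 < κ := by positivity
  set C₁ : ℝ := (2 + 2 * B * (b - a)) * a / μ ^ 2 with hC₁
  have hC₁0 : 0 < C₁ := by positivity
  refine ⟨n * (2 ^ K * (2 + C₁)) + 1, by positivity, fun M d hM hdM hd p q γ hp hpq hq => ?_⟩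
  have hkap : a ^ (-(κ * M)) ≤ a ^ (-(kap a (max H 1) * M)) := by
    refine Real.rpow_le_rpow_of_exponent_le ha.le ?_
    have h1 : kap a (max H 1) ≤ κ := by
      rw [kap, hκ]
      exact div_le_div_of_nonneg_left (by norm_num) (by positivity) (by linarith)
    have h2 : (0 : ℝ) ≤ M := Nat.cast_nonneg M
    have := mul_le_mul_of_nonneg_right h1 h2
    linarith
  refine le_trans ?_ (mul_le_mul_of_nonneg_left hkap (by positivity))
  set c := cf M fun i => (i : ℝ) / M * d i with hc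
  have hMr : (1 : ℝ) ≤ M := by exact_mod_cast hM
  have hcmem : c ∈ Cs (max H 1) := by
    refine cf_mem ?_ fun i hi => ?_
    · rw [div_self (by positivity), one_mul]
      exact hdM
    · have h1 : |(i : ℝ) / M| ≤ 1 := by
        rw [abs_of_nonneg (by positivity), div_le_one (by positivity)]
        exact_mod_cast hi
      rw [abs_mul]
      calc |(i : ℝ) / M| * |d i| ≤ 1 * |d i| := by gcongr
        _ ≤ max H 1 := by rw [one_mul]; exact (hd i hi).trans (le_max_left _ _)
  set τ : ℝ := a ^ (-(κ * M)) with hτ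
  have hτ0 : 0 < τ := Real.rpow_pos_of_pos ha0 _
  have hτ1 : τ ≤ 1 := Real.rpow_le_one_of_one_le_of_nonpos ha.le (by
    have : 0 ≤ κ * M := by positivity
    linarith)
  have hτK : τ ^ (2 * K + 1) = (a ^ M)⁻¹ := by
    rw [hτ, ← Real.rpow_natCast, ← Real.rpow_mul ha0.le, ← Real.rpow_natCast a M, ← Real.rpow_neg ha0.le]
    congr 1
    rw [hκ]
    push_cast
    field_simp
  -- the functions
  set G : ℝ → ℝ := fun x => γ + ∑ i ∈ range (M + 1), d i * x ^ i with hG
  set G' : ℝ → ℝ := fun x => M * (x ^ (M - 1) * F 0 c x) with hG'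
  set G'' : ℝ → ℝ := fun x => M * (((M - 1 : ℕ) : ℝ) * x ^ (M - 1 - 1) * F 0 c x + x ^ (M - 1) * F 1 c x) with hG''
  have hd1 : ∀ x ∈ Icc a b, HasDerivAt G (G' x) x := fun x hx => deriv_poly (by linarith [hx.1]) hM d γ
  have hd2 : ∀ x ∈ Icc a b, HasDerivAt G' (G'' x) x := fun x hx =>
    ((hasDerivAt_pow (M - 1) x).mul (hasDerivAt_F (lt_of_lt_of_le ha hx.1) hcmem.2 0)).const_mul (M : ℝ)
  have hFc : ∀ k, ContinuousOn (F k c) (Icc a b) := fun k x hx =>
    (hasDerivAt_F (lt_of_lt_of_le ha hx.1) hcmem.2 k).continuousAt.continuousWithinAt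
  have hc2 : ContinuousOn G'' (Icc a b) := by
    refine continuousOn_const.mul (((continuousOn_const.mul (continuousOn_id.pow _)).mul (hFc 0)).add
      ((continuousOn_id.pow _).mul (hFc 1)))
  have hGc : ContinuousOn G (Icc a b) := fun x hx => (hd1 x hx).continuousAt.continuousWithinAt
  -- first derivative test
  set Tb : ℝ := C₁ * τ with hTb
  have hTb0 : 0 < Tb := by positivity
  have htest : ∀ p q, a ≤ p → p ≤ q → q ≤ b → (∀ x ∈ Icc p q, μ * τ ^ K ≤ |F 0 c x|) →
      ‖∫ x in p..q, e (G x)‖ ≤ Tb := by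
    intro p q hp hpq hq hb
    have hsub : Icc p q ⊆ Icc a b := Icc_subset_Icc hp hq
    set lam : ℝ := μ * τ ^ K with hlam
    have hlam0 : 0 < lam := by positivity
    have hlam1 : lam ≤ 1 := by
      calc lam ≤ 1 * 1 := mul_le_mul hμ1 (pow_le_one₀ hτ0.le hτ1) (by positivity) (by norm_num)
        _ = 1 := one_mul 1
    set m : ℝ := a ^ (M - 1) * lam with hm
    have hm0 : 0 < m := by positivity
    set V : ℝ := 2 * B / (a ^ (M - 1) * lam ^ 2) with hV
    have hV0 : 0 < V := by positivity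
    have h1 := vc1 hpq (G := G) (G' := G') (G'' := G'') (fun x hx => hd1 x (hsub hx)) (fun x hx => hd2 x (hsub hx))
      (hc2.mono hsub) (m := m) (V := V) hm0 (fun x hx => ?_) (fun x hx => ?_)
    · refine h1.trans ?_
      have hpi : (1 : ℝ) ≤ 2 * Real.pi := by linarith [Real.pi_gt_three]
      have h2 : (2 / m + V * (q - p)) / (2 * Real.pi) ≤ 2 / m + V * (q - p) :=
        div_le_self (add_nonneg (by positivity) (mul_nonneg hV0.le (by linarith))) hpi
      refine h2.trans ?_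
      have h3 : 2 / m ≤ 2 / (a ^ (M - 1) * lam ^ 2) := by
        refine div_le_div_of_nonneg_left (by norm_num) (by positivity) ?_
        rw [hm]
        refine mul_le_mul_of_nonneg_left ?_ (by positivity)
        nlinarith
      have h4 : V * (q - p) ≤ V * (b - a) := mul_le_mul_of_nonneg_left (by linarith) hV0.le
      have h5 : 2 / (a ^ (M - 1) * lam ^ 2) + V * (b - a) = Tb := by
        have h6 : a ^ M = a ^ (M - 1) * a := by
          rw [← pow_succ]
          congr 1
          omega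
        have h7 : τ ^ (2 * K + 1) = τ ^ K * τ ^ K * τ := by ring
        rw [hTb, hC₁, hV, hlam]
        have h8 : τ = (a ^ (M - 1) * a)⁻¹ / (τ ^ K * τ ^ K) := by
          rw [← h6, ← hτK, h7]
          field_simp
        have h9 : (2 + 2 * B * (b - a)) * a / μ ^ 2 * τ = (2 + 2 * B * (b - a)) * a / μ ^ 2 * ((a ^ (M - 1) * a)⁻¹ / (τ ^ K * τ ^ K)) := by
          rw [← h8]
        rw [h9]
        field_simp
      linarith
    · -- lower bound for the derivative
      have hx := hsub hx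
      rename_i hx'
      have hx0 : 0 < x := by linarith [hx.1]
      have h2 : |G' x| = M * (x ^ (M - 1) * |F 0 c x|) := by
        rw [hG']
        simp only
        rw [abs_mul, abs_mul, abs_of_pos (by positivity : (0 : ℝ) < M), abs_of_pos (by positivity : 0 < x ^ (M - 1))]
      rw [h2, hm]
      have h3 := hb x hx'
      have h4 : a ^ (M - 1) ≤ x ^ (M - 1) := pow_le_pow_left₀ ha0.le hx.1 _
      calc a ^ (M - 1) * lam ≤ x ^ (M - 1) * |F 0 c x| := mul_le_mul h4 h3 hlam0.le (by positivity)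
        _ ≤ M * (x ^ (M - 1) * |F 0 c x|) := le_mul_of_one_le_left (by positivity) hMr
    · -- second derivative
      have hx1 := hsub hx
      have hx0 : 0 < x := by linarith [hx1.1]
      have hx2 : 1 ≤ x := by linarith [hx1.1]
      obtain ⟨hF0, hF1⟩ := hFB c hcmem x hx1
      have h3 := hb x hx
      have h4 : a ^ (M - 1) ≤ x ^ (M - 1) := pow_le_pow_left₀ ha0.le hx1.1 _
      have h5 : x ^ (M - 1 - 1) ≤ x ^ (M - 1) := pow_le_pow_right₀ hx2 (by omega)
      have h6 : ((M - 1 : ℕ) : ℝ) ≤ M := by exact_mod_cast Nat.sub_le M 1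
      have h7 : |G'' x| ≤ M * (M * x ^ (M - 1) * B + M * x ^ (M - 1) * B) := by
        rw [hG'']
        simp only
        rw [abs_mul, abs_of_pos (by positivity : (0 : ℝ) < M)]
        refine mul_le_mul_of_nonneg_left ((abs_add_le _ _).trans (add_le_add ?_ ?_)) (by positivity)
        · rw [abs_mul, abs_of_nonneg (by positivity : (0 : ℝ) ≤ ((M - 1 : ℕ) : ℝ) * x ^ (M - 1 - 1))]
          exact mul_le_mul (mul_le_mul h6 h5 (by positivity) (by positivity)) hF0 (abs_nonneg _) (by positivity)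
        · rw [abs_mul, abs_of_pos (by positivity : (0 : ℝ) < x ^ (M - 1))]
          calc x ^ (M - 1) * |F 1 c x| ≤ x ^ (M - 1) * B := by gcongr
            _ ≤ M * (x ^ (M - 1) * B) := le_mul_of_one_le_left (by positivity) hMr
            _ = M * x ^ (M - 1) * B := by ring
      refine h7.trans ?_
      have h8 : (G' x) ^ 2 = M ^ 2 * (x ^ (M - 1)) ^ 2 * |F 0 c x| ^ 2 := by
        rw [hG', sq_abs]
        ring
      rw [h8, hV]
      have h9 : lam ^ 2 ≤ |F 0 c x| ^ 2 := pow_le_pow_left₀ hlam0.le h3 2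
      have h10 : 0 < a ^ (M - 1) * lam ^ 2 := by positivity
      rw [div_mul_eq_mul_div, le_div_iff₀ h10]
      calc M * (M * x ^ (M - 1) * B + M * x ^ (M - 1) * B) * (a ^ (M - 1) * lam ^ 2)
          = 2 * B * (M ^ 2 * x ^ (M - 1)) * (a ^ (M - 1) * lam ^ 2) := by ring
        _ ≤ 2 * B * (M ^ 2 * x ^ (M - 1)) * (x ^ (M - 1) * |F 0 c x| ^ 2) := by gcongr
        _ = 2 * B * (M ^ 2 * (x ^ (M - 1)) ^ 2 * |F 0 c x| ^ 2) := by ring
  -- short intervals
  have hshort : ∀ p q, a ≤ p → p ≤ q → q ≤ b → q - p ≤ η → ‖∫ x in p..q, e (G x)‖ ≤ 2 ^ K * (2 * τ + Tb) := by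
    intro p q hp hpq hq hs
    obtain ⟨k, hk, hk2⟩ := hsh c hcmem p q hp hpq hq hs
    have h1 := vdc_ind (a := a) (b := b) hGc (h := fun k => F k c)
      (fun k x hx => hasDerivAt_F (lt_of_lt_of_le ha hx.1) hcmem.2 k) hτ0 hTb0.le k μ hμ
      (fun p q hp hpq hq hb => htest p q hp hpq hq fun x hx => by
        refine le_trans ?_ (hb x hx)
        exact mul_le_mul_of_nonneg_left (pow_le_pow_of_le_one hτ0.le hτ1 hk) hμ.le) p q hp hpq hq hk2
    refine h1.trans ?_
    have h7 : (2 : ℝ) ^ k ≤ 2 ^ K := pow_le_pow_right₀ (by norm_num) hk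
    have h8 : (0 : ℝ) ≤ 2 * τ := by positivity
    nlinarith
  have h10 := chop hGc hη hshort n p q hp hpq hq (by
    have h11 := Nat.le_ceil ((b - a) / η)
    rw [← hn, div_le_iff₀ hη] at h11
    linarith)
  refine h10.trans ?_
  rw [hTb]
  have h12 : (n : ℝ) * (2 ^ K * (2 * τ + C₁ * τ)) = n * (2 ^ K * (2 + C₁)) * τ := by ring
  rw [h12]
  nlinarith

end Pool.Agent.Helper18.GP
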