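import Pool.Agent.Helper18.GP.Osc2

/-!
Trigonometric polynomials and the mass bound for products over powers.
-/

set_option autoImplicit false

namespace Pool.Agent.Helper18.GP

open Finset MeasureTheory Set Filter Topology Pool.Agent.Helper82.FK

/-- trigonometric polynomials -/
noncomputable def gp (H : ℕ) (c : ℤ → ℂ) (t : ℝ) : ℂ := ∑ h ∈ Finset.Icc (-(H : ℤ)) H, c h * e (h * t)

/-- sum of the absolute values of the coefficients -/
noncomputable def nm (H : ℕ) (c : ℤ → ℂ) : ℝ := ∑ h ∈ Finset.Icc (-(H : ℤ)) H, ‖c h‖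

theorem nm_nonneg (H : ℕ) (c : ℤ → ℂ) : 0 ≤ nm H c := sum_nonneg fun _ _ => norm_nonneg _

theorem gp_cont (H : ℕ) (c : ℤ → ℂ) : Continuous (gp H c) := by
  unfold gp
  exact continuous_finsetSum _ fun h _ => continuous_const.mul (continuous_e.comp (continuous_const.mul continuous_id))

theorem norm_gp_le (H : ℕ) (c : ℤ → ℂ) (t : ℝ) : ‖gp H c t‖ ≤ nm H c := by
  unfold gp nm
  refine (norm_sum_le _ _).trans (sum_le_sum fun h _ => ?_)
  rw [norm_mul, norm_e, mul_one]

/-- expanding the product -/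
theorem expand {H : ℕ} (c : ℤ → ℂ) (s : ℕ → ℝ) (N : ℕ) {X : ℝ} {p q : ℝ}
    (hX : ∀ (d : ℕ → ℝ) (γ : ℝ), 1 ≤ |d (N + 1)| → (∀ i ≤ N + 1, |d i| ≤ H) →
      ‖∫ x in p..q, e (γ + ∑ i ∈ range (N + 1 + 1), d i * x ^ i)‖ ≤ X) (m : ℕ) :
    m ≤ N → ∀ (d : ℕ → ℝ) (γ : ℝ), 1 ≤ |d (N + 1)| → (∀ i ≤ N + 1, |d i| ≤ H) → (∀ i, 1 ≤ i → i ≤ m → d i = 0) →
      ‖∫ x in p..q, e (γ + ∑ i ∈ range (N + 1 + 1), d i * x ^ i) * ∏ n ∈ range m, gp H c (x ^ (n + 1) + s n)‖ ≤
        nm H c ^ m * X := by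
  induction m with
  | zero =>
    intro _ d γ h1 h2 _
    simpa using hX d γ h1 h2
  | succ m ih =>
    intro hm d γ h1 h2 h3
    have hterm : ∀ x : ℝ, e (γ + ∑ i ∈ range (N + 1 + 1), d i * x ^ i) * ∏ n ∈ range (m + 1), gp H c (x ^ (n + 1) + s n) =
        ∑ h ∈ Finset.Icc (-(H : ℤ)) H, c h * (e ((γ + h * s m) +
          ∑ i ∈ range (N + 1 + 1), Function.update d (m + 1) (h : ℝ) i * x ^ i) * ∏ n ∈ range m, gp H c (x ^ (n + 1) + s n)) := by
      intro x
      rw [prod_range_succ]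
      have h4 : gp H c (x ^ (m + 1) + s m) = ∑ h ∈ Finset.Icc (-(H : ℤ)) H, c h * e (h * (x ^ (m + 1) + s m)) := rfl
      rw [h4, ← mul_assoc, mul_sum]
      refine sum_congr rfl fun h _ => ?_
      have h5 : ∑ i ∈ range (N + 1 + 1), Function.update d (m + 1) (h : ℝ) i * x ^ i =
          ∑ i ∈ range (N + 1 + 1), d i * x ^ i + h * x ^ (m + 1) := by
        have h6 : m + 1 ∈ range (N + 1 + 1) := mem_range.2 (by omega)
        rw [← add_sum_erase _ _ h6, ← add_sum_erase _ (fun i => d i * x ^ i) h6, Function.update_self,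
          h3 (m + 1) (by omega) le_rfl, zero_mul, zero_add, add_comm]
        congr 1
        refine sum_congr rfl fun i hi => ?_
        rw [Function.update_of_ne (Finset.ne_of_mem_erase hi)]
      rw [h5]
      have h7 : (γ + h * s m) + (∑ i ∈ range (N + 1 + 1), d i * x ^ i + h * x ^ (m + 1)) =
          (γ + ∑ i ∈ range (N + 1 + 1), d i * x ^ i) + h * (x ^ (m + 1) + s m) := by ring
      rw [h7, e_add (γ + ∑ i ∈ range (N + 1 + 1), d i * x ^ i)]
      ring
    simp_rw [hterm]
    have hcont : ∀ h : ℤ, Continuous fun x : ℝ => c h * (e ((γ + h * s m) +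
          ∑ i ∈ range (N + 1 + 1), Function.update d (m + 1) (h : ℝ) i * x ^ i) * ∏ n ∈ range m, gp H c (x ^ (n + 1) + s n)) := by
      intro h
      refine continuous_const.mul ((continuous_e.comp (continuous_const.add (continuous_finsetSum _ fun i _ =>
        continuous_const.mul (continuous_pow i)))).mul (continuous_finsetProd _ fun n _ =>
          (gp_cont H c).comp ((continuous_pow (n + 1)).add continuous_const)))
    rw [intervalIntegral.integral_finsetSum fun h _ => (hcont h).intervalIntegrable _ _]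
    refine (norm_sum_le _ _).trans ?_
    have h8 : ∀ h ∈ Finset.Icc (-(H : ℤ)) H, ‖∫ x in p..q, c h * (e ((γ + h * s m) +
          ∑ i ∈ range (N + 1 + 1), Function.update d (m + 1) (h : ℝ) i * x ^ i) * ∏ n ∈ range m, gp H c (x ^ (n + 1) + s n))‖ ≤
        ‖c h‖ * (nm H c ^ m * X) := by
      intro h hh
      rw [Finset.mem_Icc] at hh
      rw [intervalIntegral.integral_const_mul, norm_mul]
      refine mul_le_mul_of_nonneg_left ?_ (norm_nonneg _)
      refine ih (by omega) (Function.update d (m + 1) (h : ℝ)) (γ + h * s m) ?_ (fun i hi => ?_) (fun i hi1 hi2 => ?_)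
      · rw [Function.update_of_ne (by omega)]
        exact h1
      · by_cases hi' : i = m + 1
        · subst hi'
          rw [Function.update_self]
          have h9 : (-(H : ℝ)) ≤ (h : ℝ) := by exact_mod_cast hh.1
          have h10 : (h : ℝ) ≤ H := by exact_mod_cast hh.2
          exact abs_le.2 ⟨h9, h10⟩
        · rw [Function.update_of_ne hi']
          exact h2 i hi
      · rw [Function.update_of_ne (by omega)]
        exact h3 i hi1 (by omega)
    refine (sum_le_sum h8).trans (le_of_eq ?_)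
    rw [← sum_mul, pow_succ]
    unfold nm
    ring

/-- **Mass bound.** -/
theorem mass {a b : ℝ} (ha : 1 < a) (hab : a ≤ b) (H : ℕ) (hH : 1 ≤ H) (c : ℤ → ℂ) (hc0 : c 0 = 1)
    (hc : nm H c < a ^ (kap a H)) :
    ∃ C : ℝ, ∀ (s : ℕ → ℝ) (N : ℕ), ‖∫ x in a..b, ∏ n ∈ range N, gp H c (x ^ (n + 1) + s n)‖ ≤ C := by
  obtain ⟨C, hC, hosc⟩ := osc ha hab (H : ℝ)
  have hH1 : (1 : ℝ) ≤ H := by exact_mod_cast hH
  rw [max_eq_left hH1] at hosc
  set κ : ℝ := kap a H with hκd
  have ha0 : 0 < a := by linarith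
  set W := nm H c with hW
  have hW0 : 0 ≤ W := nm_nonneg H c
  set r : ℝ := W * a ^ (-κ) with hr
  have hr0 : 0 ≤ r := by positivity
  have hr1 : r < 1 := by
    rw [hr, Real.rpow_neg ha0.le, ← div_eq_mul_inv, div_lt_one (by positivity)]
    exact hc
  refine ⟨(b - a) + W * (C * a ^ (-κ)) * (1 - r)⁻¹, fun s N => ?_⟩
  have hcont : ∀ m, Continuous fun x : ℝ => ∏ n ∈ range m, gp H c (x ^ (n + 1) + s n) := fun m =>
    continuous_finsetProd _ fun n _ => (gp_cont H c).comp ((continuous_pow (n + 1)).add continuous_const)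
  -- increments
  have hinc : ∀ m : ℕ, ‖(∫ x in a..b, ∏ n ∈ range (m + 1), gp H c (x ^ (n + 1) + s n)) -
      ∫ x in a..b, ∏ n ∈ range m, gp H c (x ^ (n + 1) + s n)‖ ≤ W * (C * a ^ (-κ)) * r ^ m := by
    intro m
    rw [← intervalIntegral.integral_sub ((hcont (m + 1)).intervalIntegrable _ _) ((hcont m).intervalIntegrable _ _)]
    have h0 : (0 : ℤ) ∈ Finset.Icc (-(H : ℤ)) H := by rw [Finset.mem_Icc]; constructor <;> omega
    have hterm : ∀ x : ℝ, (∏ n ∈ range (m + 1), gp H c (x ^ (n + 1) + s n)) - ∏ n ∈ range m, gp H c (x ^ (n + 1) + s n) =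
        ∑ h ∈ (Finset.Icc (-(H : ℤ)) H).erase 0, c h * (e (h * s m +
          ∑ i ∈ range (m + 1 + 1), (if i = m + 1 then (h : ℝ) else 0) * x ^ i) * ∏ n ∈ range m, gp H c (x ^ (n + 1) + s n)) := by
      intro x
      rw [prod_range_succ]
      have h4 : gp H c (x ^ (m + 1) + s m) = 1 + ∑ h ∈ (Finset.Icc (-(H : ℤ)) H).erase 0, c h * e (h * (x ^ (m + 1) + s m)) := by
        unfold gp
        rw [← add_sum_erase _ _ h0, hc0]
        have : e (((0 : ℤ) : ℝ) * (x ^ (m + 1) + s m)) = 1 := by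
          unfold e
          simp
        rw [this, mul_one]
      rw [h4, mul_add, mul_one, add_sub_cancel_left, mul_sum]
      refine sum_congr rfl fun h _ => ?_
      have h5 : ∑ i ∈ range (m + 1 + 1), (if i = m + 1 then (h : ℝ) else 0) * x ^ i = h * x ^ (m + 1) := by
        rw [sum_eq_single (m + 1)]
        · rw [if_pos rfl]
        · intro i _ hi
          rw [if_neg hi, zero_mul]
        · intro hi
          exact absurd (Finset.mem_range.2 (by omega)) hi
      rw [h5, show h * s m + h * x ^ (m + 1) = (h : ℝ) * (x ^ (m + 1) + s m) by ring]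
      ring
    simp_rw [hterm]
    have hcont2 : ∀ h : ℤ, Continuous fun x : ℝ => c h * (e (h * s m +
          ∑ i ∈ range (m + 1 + 1), (if i = m + 1 then (h : ℝ) else 0) * x ^ i) * ∏ n ∈ range m, gp H c (x ^ (n + 1) + s n)) := by
      intro h
      exact continuous_const.mul ((continuous_e.comp (continuous_const.add (continuous_finsetSum _ fun i _ =>
        continuous_const.mul (continuous_pow i)))).mul (hcont m))
    rw [intervalIntegral.integral_finsetSum fun h _ => (hcont2 h).intervalIntegrable _ _]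
    refine (norm_sum_le _ _).trans ?_
    have h8 : ∀ h ∈ (Finset.Icc (-(H : ℤ)) H).erase 0, ‖∫ x in a..b, c h * (e (h * s m +
          ∑ i ∈ range (m + 1 + 1), (if i = m + 1 then (h : ℝ) else 0) * x ^ i) * ∏ n ∈ range m, gp H c (x ^ (n + 1) + s n))‖ ≤
        ‖c h‖ * (W ^ m * (C * a ^ (-(κ * ((m + 1 : ℕ) : ℝ))))) := by
      intro h hh
      have hh0 : h ≠ 0 := (Finset.mem_erase.1 hh).1
      have hhI := Finset.mem_Icc.1 (Finset.mem_erase.1 hh).2
      rw [intervalIntegral.integral_const_mul, norm_mul]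
      refine mul_le_mul_of_nonneg_left ?_ (norm_nonneg _)
      have h1h : (1 : ℝ) ≤ |(h : ℝ)| := by
        have : (1 : ℤ) ≤ |h| := Int.one_le_abs hh0
        exact_mod_cast this
      have hhH : |(h : ℝ)| ≤ H := by
        have h9 : (-(H : ℝ)) ≤ (h : ℝ) := by exact_mod_cast hhI.1
        have h10 : (h : ℝ) ≤ H := by exact_mod_cast hhI.2
        exact abs_le.2 ⟨h9, h10⟩
      refine expand c s m (fun d γ h1 h2 => hosc (m + 1) d (by omega) h1 h2 a b γ le_rfl hab le_rfl)
        m le_rfl (fun i => if i = m + 1 then (h : ℝ) else 0) (h * s m) (by simpa using h1h) (fun i _ => ?_) (fun i _ hi => ?_)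
      · split_ifs
        · exact hhH
        · rw [abs_zero]; positivity
      · rw [if_neg (by omega)]
    refine (sum_le_sum h8).trans ?_
    rw [← sum_mul]
    have h9 : ∑ h ∈ (Finset.Icc (-(H : ℤ)) H).erase 0, ‖c h‖ ≤ W :=
      sum_le_sum_of_subset_of_nonneg (Finset.erase_subset _ _) fun _ _ _ => norm_nonneg _
    have h10 : W ^ m * (C * a ^ (-(κ * ((m + 1 : ℕ) : ℝ)))) = C * a ^ (-κ) * r ^ m := by
      rw [hr, mul_pow, ← Real.rpow_natCast (a ^ (-κ)), ← Real.rpow_mul ha0.le]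
      have : (-(κ * ((m + 1 : ℕ) : ℝ))) = -κ + -κ * (m : ℝ) := by push_cast; ring
      rw [this, Real.rpow_add ha0]
      ring
    rw [h10]
    calc (∑ h ∈ (Finset.Icc (-(H : ℤ)) H).erase 0, ‖c h‖) * (C * a ^ (-κ) * r ^ m) ≤ W * (C * a ^ (-κ) * r ^ m) := by gcongr
      _ = _ := by ring
  -- summation
  have hsum : ∀ m : ℕ, ‖∫ x in a..b, ∏ n ∈ range m, gp H c (x ^ (n + 1) + s n)‖ ≤
      (b - a) + W * (C * a ^ (-κ)) * ∑ j ∈ range m, r ^ j := by
    intro m
    induction m with
    | zero =>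
      simp only [Finset.range_zero, Finset.prod_empty, Finset.sum_empty, mul_zero, add_zero]
      rw [intervalIntegral.integral_const, norm_smul, norm_one, mul_one, Real.norm_eq_abs,
        abs_of_nonneg (by linarith)]
    | succ m ih =>
      have h1 := hinc m
      rw [sum_range_succ]
      have h2 := norm_sub_norm_le (∫ x in a..b, ∏ n ∈ range (m + 1), gp H c (x ^ (n + 1) + s n))
        (∫ x in a..b, ∏ n ∈ range m, gp H c (x ^ (n + 1) + s n))
      linarith
  refine (hsum N).trans ?_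
  have h1 : ∑ j ∈ range N, r ^ j ≤ (1 - r)⁻¹ := by
    rw [← tsum_geometric_of_lt_one hr0 hr1]
    exact (summable_geometric_of_lt_one hr0 hr1).sum_le_tsum _ fun j _ => by positivity
  have h2 : 0 ≤ W * (C * a ^ (-κ)) := by positivity
  have := mul_le_mul_of_nonneg_left h1 h2
  linarith

end Pool.Agent.Helper18.GP
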