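import Pool.Agent.Helper18.GP.Trans

/-!
Sublevel sets and oscillatory integrals for functions with a large derivative.
-/

set_option autoImplicit false

namespace Pool.Agent.Helper18.GP

open Finset MeasureTheory Set Filter Topology Pool.Agent.Helper82.FK

/-- the set where a function with large derivative is small is contained in a short interval -/
theorem sub_step_pos {p q : ℝ} (hpq : p ≤ q) {h h' : ℝ → ℝ} (hd : ∀ x ∈ Icc p q, HasDerivAt h (h' x) x)
    {μ τ : ℝ} (hμ : 0 < μ) (hτ : 0 < τ) (hb : ∀ x ∈ Icc p q, μ ≤ h' x) :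
    ∃ s t, p ≤ s ∧ s ≤ t ∧ t ≤ q ∧ t - s ≤ 2 * τ / μ ∧ (s = p ∨ ∀ x ∈ Icc p s, τ ≤ |h x|) ∧
      (t = q ∨ ∀ x ∈ Icc t q, τ ≤ |h x|) := by
  have hcont : ∀ x ∈ Icc p q, ContinuousAt h x := fun x hx => (hd x hx).continuousAt
  have hgrow : ∀ x ∈ Icc p q, ∀ y ∈ Icc p q, x ≤ y → μ * (y - x) ≤ h y - h x := by
    intro x hx y hy hxy
    rcases hxy.eq_or_lt with rfl | hlt
    · simp
    obtain ⟨z, hz, hz2⟩ := exists_hasDerivAt_eq_slope h h' hlt
      (fun z hz => (hcont z ⟨hx.1.trans hz.1, hz.2.trans hy.2⟩).continuousWithinAt)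
      (fun z hz => hd z ⟨hx.1.trans hz.1.le, hz.2.le.trans hy.2⟩)
    have h3 := hb z ⟨hx.1.trans hz.1.le, hz.2.le.trans hy.2⟩
    rw [hz2, le_div_iff₀ (by linarith)] at h3
    exact h3
  set A : Set ℝ := {x | x ∈ Icc p q ∧ |h x| < τ} with hA
  rcases A.eq_empty_or_nonempty with he | hne
  · have h1 : ∀ x ∈ Icc p q, τ ≤ |h x| := by
      intro x hx
      by_contra hcon
      push Not at hcon
      have : x ∈ A := ⟨hx, hcon⟩
      rw [he] at this
      exact this
    exact ⟨q, q, hpq, le_rfl, le_rfl, by rw [sub_self]; positivity, Or.inr h1, Or.inl rfl⟩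
  have hbb : BddBelow A := ⟨p, fun x hx => hx.1.1⟩
  have hba : BddAbove A := ⟨q, fun x hx => hx.1.2⟩
  have hs1 : p ≤ sInf A := le_csInf hne fun x hx => hx.1.1
  have ht1 : sSup A ≤ q := csSup_le hne fun x hx => hx.1.2
  have hst : sInf A ≤ sSup A := by
    obtain ⟨x, hx⟩ := hne
    exact (csInf_le hbb hx).trans (le_csSup hba hx)
  refine ⟨sInf A, sSup A, hs1, hst, ht1, ?_, ?_, ?_⟩
  · have h1 : ∀ x ∈ A, ∀ y ∈ A, y ≤ x + 2 * τ / μ := by
      intro x hx y hy
      rcases le_total x y with hxy | hxy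
      · have h2 := hgrow x hx.1 y hy.1 hxy
        have h3 := abs_lt.1 hx.2
        have h4 := abs_lt.1 hy.2
        have h5 : y - x ≤ 2 * τ / μ := by
          rw [le_div_iff₀ hμ]
          linarith
        linarith
      · have : 0 ≤ 2 * τ / μ := by positivity
        linarith
    have h2 : ∀ x ∈ A, sSup A - 2 * τ / μ ≤ x := fun x hx => by
      have := csSup_le hne (h1 x hx)
      linarith
    have h3 := le_csInf hne h2
    linarith
  · rcases hs1.eq_or_lt with h1 | h1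
    · exact Or.inl h1.symm
    · right
      intro x hx
      by_contra hcon
      push Not at hcon
      have hxI : x ∈ Icc p q := ⟨hx.1, hx.2.trans (hst.trans ht1)⟩
      have h2 : sInf A ≤ x := csInf_le hbb ⟨hxI, hcon⟩
      have h3 : x = sInf A := le_antisymm hx.2 h2
      have h4 : ∀ᶠ y in 𝓝[<] x, |h y| < τ :=
        ((hcont x hxI).abs.eventually (gt_mem_nhds hcon)).filter_mono nhdsWithin_le_nhds
      have h5 : ∀ᶠ y in 𝓝[<] x, y ∈ Ioo p x := Ioo_mem_nhdsLT (by rw [h3]; exact h1)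
      obtain ⟨y, hy1, hy2⟩ := (h4.and h5).exists
      have h6 : sInf A ≤ y := csInf_le hbb ⟨⟨hy2.1.le, hy2.2.le.trans hxI.2⟩, hy1⟩
      rw [← h3] at h6
      exact absurd hy2.2 (not_lt.2 h6)
  · rcases ht1.eq_or_lt with h1 | h1
    · exact Or.inl h1
    · right
      intro x hx
      by_contra hcon
      push Not at hcon
      have hxI : x ∈ Icc p q := ⟨(hs1.trans hst).trans hx.1, hx.2⟩
      have h2 : x ≤ sSup A := le_csSup hba ⟨hxI, hcon⟩
      have h3 : x = sSup A := le_antisymm h2 hx.1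
      have h4 : ∀ᶠ y in 𝓝[>] x, |h y| < τ :=
        ((hcont x hxI).abs.eventually (gt_mem_nhds hcon)).filter_mono nhdsWithin_le_nhds
      have h5 : ∀ᶠ y in 𝓝[>] x, y ∈ Ioo x q := Ioo_mem_nhdsGT (by rw [h3]; exact h1)
      obtain ⟨y, hy1, hy2⟩ := (h4.and h5).exists
      have h6 : y ≤ sSup A := le_csSup hba ⟨⟨hxI.1.trans hy2.1.le, hy2.2.le⟩, hy1⟩
      rw [← h3] at h6
      exact absurd hy2.1 (not_lt.2 h6)

theorem sub_step {p q : ℝ} (hpq : p ≤ q) {h h' : ℝ → ℝ} (hd : ∀ x ∈ Icc p q, HasDerivAt h (h' x) x)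
    (hc : ContinuousOn h' (Icc p q)) {μ τ : ℝ} (hμ : 0 < μ) (hτ : 0 < τ) (hb : ∀ x ∈ Icc p q, μ ≤ |h' x|) :
    ∃ s t, p ≤ s ∧ s ≤ t ∧ t ≤ q ∧ t - s ≤ 2 * τ / μ ∧ (s = p ∨ ∀ x ∈ Icc p s, τ ≤ |h x|) ∧
      (t = q ∨ ∀ x ∈ Icc t q, τ ≤ |h x|) := by
  have hne : ∀ x ∈ Icc p q, h' x ≠ 0 := fun x hx h0 => by
    have := hb x hx
    rw [h0, abs_zero] at this
    linarith
  have hsign : (∀ x ∈ Icc p q, 0 < h' x) ∨ (∀ x ∈ Icc p q, h' x < 0) := by
    by_contra hcon
    push Not at hcon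
    obtain ⟨⟨x, hx, hx0⟩, ⟨y, hy, hy0⟩⟩ := hcon
    have h1 : h' '' Icc p q = h' '' Icc p q := rfl
    have h2 := (isPreconnected_Icc (a := p) (b := q)).intermediate_value hx hy hc
    obtain ⟨z, hz, hz0⟩ := h2 (show (0 : ℝ) ∈ Icc (h' x) (h' y) from ⟨hx0, hy0⟩)
    exact hne z hz hz0
  rcases hsign with hs | hs
  · exact sub_step_pos hpq hd hμ hτ fun x hx => by
      have := hb x hx
      rwa [abs_of_pos (hs x hx)] at this
  · have h1 := sub_step_pos (h := fun x => -h x) (h' := fun x => -h' x) hpq (fun x hx => (hd x hx).neg) hμ hτ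
      fun x hx => by
        have := hb x hx
        rwa [abs_of_neg (hs x hx)] at this
    simpa only [abs_neg] using h1

/-- van der Corput by induction on the order of the derivative -/
theorem vdc_ind {a b : ℝ} {G : ℝ → ℝ} (hG : ContinuousOn G (Icc a b)) {h : ℕ → ℝ → ℝ}
    (hd : ∀ k, ∀ x ∈ Icc a b, HasDerivAt (h k) (h (k + 1) x) x) {τ Tb : ℝ} (hτ : 0 < τ) (hTb : 0 ≤ Tb) (k : ℕ) :
    ∀ μ : ℝ, 0 < μ → (∀ p q, a ≤ p → p ≤ q → q ≤ b → (∀ x ∈ Icc p q, μ * τ ^ k ≤ |h 0 x|) →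
      ‖∫ x in p..q, e (G x)‖ ≤ Tb) →
    ∀ p q, a ≤ p → p ≤ q → q ≤ b → (∀ x ∈ Icc p q, μ ≤ |h k x|) →
      ‖∫ x in p..q, e (G x)‖ ≤ (2 ^ k - 1) * (2 * τ) + 2 ^ k * Tb := by
  induction k with
  | zero =>
    intro μ hμ hT p q hp hpq hq hb
    have h1 := hT p q hp hpq hq (by simpa using hb)
    simpa using h1
  | succ k ih =>
    intro μ hμ hT p q hp hpq hq hb
    have hsub : Icc p q ⊆ Icc a b := Icc_subset_Icc hp hq
    obtain ⟨s, t, h1, h2, h3, h4, h5, h6⟩ := sub_step (h := h k) (h' := h (k + 1)) (τ := μ * τ) hpq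
      (fun x hx => hd k x (hsub hx)) (fun x hx => (hd (k + 1) x (hsub hx)).continuousAt.continuousWithinAt) hμ
      (by positivity) hb
    set X : ℝ := (2 ^ k - 1) * (2 * τ) + 2 ^ k * Tb with hX
    have hX0 : 0 ≤ X := by
      have : (1 : ℝ) ≤ 2 ^ k := one_le_pow₀ (by norm_num)
      rw [hX]
      have h7 : (0 : ℝ) ≤ 2 ^ k - 1 := by linarith
      positivity
    have hT' : ∀ p q, a ≤ p → p ≤ q → q ≤ b → (∀ x ∈ Icc p q, μ * τ * τ ^ k ≤ |h 0 x|) →
        ‖∫ x in p..q, e (G x)‖ ≤ Tb := by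
      intro p q hp hpq hq hb
      refine hT p q hp hpq hq fun x hx => ?_
      have := hb x hx
      rwa [show μ * τ ^ (k + 1) = μ * τ * τ ^ k by ring]
    have h7 : ‖∫ x in p..s, e (G x)‖ ≤ X := by
      rcases h5 with h5 | h5
      · rw [h5, intervalIntegral.integral_same, norm_zero]
        exact hX0
      · exact ih (μ * τ) (by positivity) hT' p s hp h1 ((h2.trans h3).trans hq) h5
    have h8 : ‖∫ x in t..q, e (G x)‖ ≤ X := by
      rcases h6 with h6 | h6
      · rw [h6, intervalIntegral.integral_same, norm_zero]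
        exact hX0
      · exact ih (μ * τ) (by positivity) hT' t q (hp.trans (h1.trans h2)) h3 hq h6
    have h9 : ‖∫ x in s..t, e (G x)‖ ≤ 2 * τ := by
      have h10 := intervalIntegral.norm_integral_le_of_norm_le_const (a := s) (b := t) (C := 1)
        (f := fun x => e (G x)) (fun y _ => (norm_e _).le)
      rw [one_mul, abs_of_nonneg (by linarith)] at h10
      refine h10.trans (h4.trans (le_of_eq ?_))
      field_simp
    have hint : ∀ u v, u ∈ Icc p q → v ∈ Icc p q → IntervalIntegrable (fun x => e (G x)) volume u v := by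
      intro u v hu hv
      refine ContinuousOn.intervalIntegrable ?_
      refine continuous_e.comp_continuousOn (hG.mono ?_)
      exact (Set.uIcc_subset_Icc hu hv).trans hsub
    have hs : s ∈ Icc p q := ⟨h1, h2.trans h3⟩
    have ht : t ∈ Icc p q := ⟨h1.trans h2, h3⟩
    have h11 : ∫ x in p..q, e (G x) = (∫ x in p..s, e (G x)) + (∫ x in s..t, e (G x)) + ∫ x in t..q, e (G x) := by
      rw [intervalIntegral.integral_add_adjacent_intervals (hint _ _ ⟨le_rfl, hpq⟩ hs) (hint _ _ hs ht),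
        intervalIntegral.integral_add_adjacent_intervals (hint _ _ ⟨le_rfl, hpq⟩ ht) (hint _ _ ht ⟨hpq, le_rfl⟩)]
    rw [h11]
    refine (norm_add₃_le).trans ?_
    have h12 : (2 ^ (k + 1) - 1) * (2 * τ) + 2 ^ (k + 1) * Tb = X + 2 * τ + X := by
      rw [hX]
      ring
    rw [h12]
    exact add_le_add (add_le_add h7 h9) h8

/-- measure of sublevel sets -/
theorem meas_ind {a b : ℝ} {h : ℕ → ℝ → ℝ}
    (hd : ∀ k, ∀ x ∈ Icc a b, HasDerivAt (h k) (h (k + 1) x) x) {τ : ℝ} (hτ : 0 < τ) (k : ℕ) :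
    ∀ μ : ℝ, 0 < μ → ∀ p q, a ≤ p → p ≤ q → q ≤ b → (∀ x ∈ Icc p q, μ ≤ |h k x|) →
      volume {x | x ∈ Icc p q ∧ |h 0 x| < μ * τ ^ k} ≤ ENNReal.ofReal ((2 ^ k - 1) * (2 * τ)) := by
  induction k with
  | zero =>
    intro μ hμ p q hp hpq hq hb
    have h1 : {x | x ∈ Icc p q ∧ |h 0 x| < μ * τ ^ 0} = ∅ := by
      ext x
      simp only [Set.mem_ofPred_eq, pow_zero, mul_one, Set.mem_empty_iff_false, iff_false, not_and, not_lt]
      exact hb x
    rw [h1, measure_empty]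
    exact zero_le
  | succ k ih =>
    intro μ hμ p q hp hpq hq hb
    have hsub : Icc p q ⊆ Icc a b := Icc_subset_Icc hp hq
    obtain ⟨s, t, h1, h2, h3, h4, h5, h6⟩ := sub_step (h := h k) (h' := h (k + 1)) (τ := μ * τ) hpq
      (fun x hx => hd k x (hsub hx)) (fun x hx => (hd (k + 1) x (hsub hx)).continuousAt.continuousWithinAt) hμ
      (by positivity) hb
    have hX0 : (0 : ℝ) ≤ (2 ^ k - 1) * (2 * τ) := by
      have : (1 : ℝ) ≤ 2 ^ k := one_le_pow₀ (by norm_num)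
      have h7 : (0 : ℝ) ≤ 2 ^ k - 1 := by linarith
      positivity
    have he : μ * τ ^ (k + 1) = μ * τ * τ ^ k := by ring
    have h7 : volume {x | x ∈ Icc p s ∧ x < s ∧ |h 0 x| < μ * τ ^ (k + 1)} ≤ ENNReal.ofReal ((2 ^ k - 1) * (2 * τ)) := by
      rcases h5 with h5 | h5
      · have : {x | x ∈ Icc p s ∧ x < s ∧ |h 0 x| < μ * τ ^ (k + 1)} = ∅ := by
          ext x
          simp only [Set.mem_ofPred_eq, Set.mem_empty_iff_false, iff_false, not_and]
          intro hx hx2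
          rw [h5] at hx2
          exact absurd hx2 (not_lt.2 hx.1)
        rw [this, measure_empty]
        exact zero_le
      · have hs5 : {x | x ∈ Icc p s ∧ x < s ∧ |h 0 x| < μ * τ ^ (k + 1)} ⊆
            {x | x ∈ Icc p s ∧ |h 0 x| < μ * τ * τ ^ k} := fun x hx => ⟨hx.1, he ▸ hx.2.2⟩
        exact (measure_mono hs5).trans (ih (μ * τ) (by positivity) p s hp h1 ((h2.trans h3).trans hq) h5)
    have h8 : volume {x | x ∈ Icc t q ∧ t < x ∧ |h 0 x| < μ * τ ^ (k + 1)} ≤ ENNReal.ofReal ((2 ^ k - 1) * (2 * τ)) := by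
      rcases h6 with h6 | h6
      · have : {x | x ∈ Icc t q ∧ t < x ∧ |h 0 x| < μ * τ ^ (k + 1)} = ∅ := by
          ext x
          simp only [Set.mem_ofPred_eq, Set.mem_empty_iff_false, iff_false, not_and]
          intro hx hx2
          rw [h6] at hx2
          exact absurd hx2 (not_lt.2 hx.2)
        rw [this, measure_empty]
        exact zero_le
      · have hs6 : {x | x ∈ Icc t q ∧ t < x ∧ |h 0 x| < μ * τ ^ (k + 1)} ⊆
            {x | x ∈ Icc t q ∧ |h 0 x| < μ * τ * τ ^ k} := fun x hx => ⟨hx.1, he ▸ hx.2.2⟩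
        exact (measure_mono hs6).trans (ih (μ * τ) (by positivity) t q (hp.trans (h1.trans h2)) h3 hq h6)
    have hcov : {x | x ∈ Icc p q ∧ |h 0 x| < μ * τ ^ (k + 1)} ⊆
        ({x | x ∈ Icc p s ∧ x < s ∧ |h 0 x| < μ * τ ^ (k + 1)} ∪ Icc s t) ∪
          {x | x ∈ Icc t q ∧ t < x ∧ |h 0 x| < μ * τ ^ (k + 1)} := by
      intro x hx
      rcases lt_or_ge x s with hxs | hxs
      · exact Or.inl (Or.inl ⟨⟨hx.1.1, hxs.le⟩, hxs, hx.2⟩)
      · rcases le_or_gt x t with hxt | hxt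
        · exact Or.inl (Or.inr ⟨hxs, hxt⟩)
        · exact Or.inr ⟨⟨hxt.le, hx.1.2⟩, hxt, hx.2⟩
    have h9 : t - s ≤ 2 * τ := by
      refine h4.trans (le_of_eq ?_)
      field_simp
    calc volume {x | x ∈ Icc p q ∧ |h 0 x| < μ * τ ^ (k + 1)}
        ≤ (ENNReal.ofReal ((2 ^ k - 1) * (2 * τ)) + ENNReal.ofReal (2 * τ)) + ENNReal.ofReal ((2 ^ k - 1) * (2 * τ)) := by
          refine (measure_mono hcov).trans ((measure_union_le _ _).trans (add_le_add ((measure_union_le _ _).trans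
            (add_le_add h7 ?_)) h8))
          rw [Real.volume_Icc]
          exact ENNReal.ofReal_le_ofReal h9
      _ = ENNReal.ofReal ((2 ^ (k + 1) - 1) * (2 * τ)) := by
          rw [← ENNReal.ofReal_add hX0 (by positivity), ← ENNReal.ofReal_add (by positivity) hX0]
          congr 1
          ring

end Pool.Agent.Helper18.GP
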