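import Pool.Agent.Helper18.GP.Jensen

/-!
Transversality: power series with bounded coefficients and `|c_0| ≥ 1` have zeros of bounded order.
-/

set_option autoImplicit false

namespace Pool.Agent.Helper18.GP

open Finset MeasureTheory Set Filter Topology

variable {H : ℝ} {c : ℕ → ℝ}

theorem rf_nonneg (j k : ℕ) : 0 ≤ rf j k := prod_nonneg fun i _ => by positivity

theorem rf_succ (j k : ℕ) : rf j (k + 1) = rf j k * (j + k) := by
  unfold rf
  rw [prod_range_succ]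

theorem rf_le (j k : ℕ) : rf j k ≤ (((j + k : ℕ)) : ℝ) ^ k := by
  unfold rf
  calc ∏ i ∈ range k, ((j : ℝ) + i) ≤ ∏ i ∈ range k, (((j + k : ℕ)) : ℝ) := by
        refine prod_le_prod (fun i _ => by positivity) fun i hi => ?_
        have := mem_range.1 hi
        push_cast
        have h : (i : ℝ) ≤ k := by exact_mod_cast this.le
        linarith
    _ = _ := by rw [prod_const, card_range]

/-- the bound for the terms -/
noncomputable def bd (k : ℕ) (a : ℝ) (j : ℕ) : ℝ := rf j k * (a⁻¹) ^ (j + k)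

theorem bd_nonneg {a : ℝ} (ha : 0 < a) (k j : ℕ) : 0 ≤ bd k a j :=
  mul_nonneg (rf_nonneg _ _) (by positivity)

theorem summable_bd {a : ℝ} (ha : 1 < a) (k : ℕ) : Summable (bd k a) := by
  have h0 : 0 < a := by linarith
  have hr : ‖a⁻¹‖ < 1 := by
    rw [Real.norm_eq_abs, abs_of_pos (by positivity)]
    exact inv_lt_one_of_one_lt₀ ha
  have h1 := summable_pow_mul_geometric_of_norm_lt_one k hr
  have h2 := (summable_nat_add_iff (f := fun n : ℕ => (n : ℝ) ^ k * (a⁻¹) ^ n) k).2 h1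
  refine Summable.of_nonneg_of_le (fun j => bd_nonneg h0 k j) (fun j => ?_) h2
  exact mul_le_mul_of_nonneg_right (rf_le j k) (by positivity)

theorem term_le {a x : ℝ} (ha : 1 < a) (hx : a ≤ x) (hc : ∀ j, |c j| ≤ H) (k j : ℕ) :
    ‖c j * ((-1) ^ k * rf j k * (x⁻¹) ^ (j + k))‖ ≤ H * bd k a j := by
  have h0 : 0 < a := by linarith
  have hx0 : 0 < x := by linarith
  rw [Real.norm_eq_abs, abs_mul, abs_mul, abs_mul, abs_pow, abs_neg, abs_one, one_pow, one_mul,
    abs_of_nonneg (rf_nonneg _ _), abs_of_nonneg (by positivity : (0 : ℝ) ≤ (x⁻¹) ^ (j + k))]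
  unfold bd
  have h1 : x⁻¹ ≤ a⁻¹ := inv_anti₀ h0 hx
  have h2 : (x⁻¹) ^ (j + k) ≤ (a⁻¹) ^ (j + k) := pow_le_pow_left₀ (by positivity) h1 _
  have hH : 0 ≤ H := (abs_nonneg _).trans (hc 0)
  exact mul_le_mul (hc j) (mul_le_mul_of_nonneg_left h2 (rf_nonneg _ _))
    (mul_nonneg (rf_nonneg _ _) (by positivity)) hH

theorem summable_term {x : ℝ} (hx : 1 < x) (hc : ∀ j, |c j| ≤ H) (k : ℕ) :
    Summable fun j => c j * ((-1) ^ k * rf j k * (x⁻¹) ^ (j + k)) :=
  Summable.of_norm_bounded ((summable_bd hx k).mul_left H) fun j => term_le hx le_rfl hc k j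

theorem F_le {a x : ℝ} (ha : 1 < a) (hx : a ≤ x) (hc : ∀ j, |c j| ≤ H) (k : ℕ) :
    |F k c x| ≤ H * ∑' j, bd k a j := by
  unfold F
  rw [← Real.norm_eq_abs, ← tsum_mul_left]
  exact tsum_of_norm_bounded ((summable_bd ha k).mul_left H).hasSum fun j => term_le ha hx hc k j

theorem hasDerivAt_F {x : ℝ} (hx : 1 < x) (hc : ∀ j, |c j| ≤ H) (k : ℕ) :
    HasDerivAt (F k c) (F (k + 1) c x) x := by
  obtain ⟨a, ha1, hax⟩ := exists_between hx
  have h := hasDerivAt_tsum_of_isPreconnected (𝕜 := ℝ) (t := Ioi a) (y₀ := x) (y := x)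
    (g := fun j y => c j * ((-1) ^ k * rf j k * (y⁻¹) ^ (j + k)))
    (g' := fun j y => c j * ((-1) ^ (k + 1) * rf j (k + 1) * (y⁻¹) ^ (j + (k + 1))))
    (u := fun j => H * bd (k + 1) a j) ((summable_bd ha1 (k + 1)).mul_left H) isOpen_Ioi
    isPreconnected_Ioi (fun j y hy => ?_) (fun j y hy => term_le ha1 (le_of_lt hy) hc (k + 1) j) hax
    (summable_term hx hc k) hax
  · exact h
  · have hy0 : y ≠ 0 := by
      have : a < y := hy
      have : 0 < y := by linarith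
      exact this.ne'
    have h1 := ((hasDerivAt_inv hy0).pow (j + k)).const_mul (c j * ((-1) ^ k * rf j k))
    convert! h1 using 1
    · funext z
      simp only [Pi.pow_apply]
      ring
    · rw [rf_succ]
      rcases Nat.eq_zero_or_pos (j + k) with h0 | h0
      · have hj : j = 0 := by omega
        have hk : k = 0 := by omega
        subst hj hk
        simp
      · obtain ⟨m, hm⟩ : ∃ m, j + k = m + 1 := ⟨j + k - 1, by omega⟩
        rw [show j + (k + 1) = m + 2 by omega, hm, Nat.add_sub_cancel]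
        have h3 : ((j : ℝ) + k) = (m : ℝ) + 1 := by exact_mod_cast hm
        rw [h3, ← inv_pow]
        push_cast
        ring

theorem iteratedDeriv_F {x : ℝ} (hx : 1 < x) (hc : ∀ j, |c j| ≤ H) (k : ℕ) :
    iteratedDeriv k (F 0 c) x = F k c x := by
  induction k generalizing x with
  | zero => rw [iteratedDeriv_zero]
  | succ k ih =>
    rw [iteratedDeriv_succ]
    have h1 : iteratedDeriv k (F 0 c) =ᶠ[𝓝 x] F k c := by
      filter_upwards [isOpen_Ioi.mem_nhds (show x ∈ Set.Ioi (1 : ℝ) from hx)] with y hy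
      exact ih hy
    rw [h1.deriv_eq]
    exact (hasDerivAt_F hx hc k).deriv

theorem analytic_F (hc : ∀ j, |c j| ≤ H) : AnalyticOnNhd ℝ (F 0 c) (Ioi 1) := by
  intro x hx
  have hx1 : 1 < x := hx
  set p := FormalMultilinearSeries.ofScalars ℝ c with hp
  have hr : ((1 : NNReal) : ENNReal) ≤ p.radius := by
    refine p.le_radius_of_bound H fun n => ?_
    rw [hp, FormalMultilinearSeries.ofScalars_norm, NNReal.coe_one, one_pow, mul_one, Real.norm_eq_abs]
    exact hc n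
  have hpos : 0 < p.radius := lt_of_lt_of_le (by simp) hr
  have h1 := p.hasFPowerSeriesOnBall hpos
  have h2 : AnalyticAt ℝ p.sum x⁻¹ := by
    refine h1.analyticAt_of_mem ?_
    rw [Metric.mem_eball, edist_zero_right]
    refine lt_of_lt_of_le ?_ hr
    rw [enorm_eq_nnnorm, ENNReal.coe_lt_coe, ← NNReal.coe_lt_coe, coe_nnnorm, Real.norm_eq_abs,
      abs_of_pos (by positivity), NNReal.coe_one]
    exact inv_lt_one_of_one_lt₀ hx1
  have h3 : AnalyticAt ℝ (fun y : ℝ => p.sum y⁻¹) x :=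
    AnalyticAt.fun_comp (g := p.sum) (f := fun y : ℝ => y⁻¹) h2 (analyticAt_inv (by linarith : x ≠ 0))
  refine h3.congr (Eventually.of_forall fun y => ?_)
  have h4 : p.sum y⁻¹ = ∑' n, c n • (y⁻¹) ^ n := FormalMultilinearSeries.ofScalars_sum_eq c y⁻¹
  simp only [h4]
  unfold F
  refine tsum_congr fun j => ?_
  simp [rf]

/-- not all derivatives of bounded order vanish -/
theorem exists_ne {a : ℝ} (ha : 1 < a) (hc : c ∈ Cs H) {x : ℝ} (hx : a ≤ x) : ∃ k, k ≤ KK a H ∧ F k c x ≠ 0 := by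
  by_contra hcon
  push Not at hcon
  have hx1 : 1 < x := lt_of_lt_of_le ha hx
  have hG := analytic_F hc.2 x hx1
  have h1 : ((KK a H + 1 : ℕ) : ℕ∞) ≤ analyticOrderAt (F 0 c) x := by
    rw [natCast_le_analyticOrderAt_iff_iteratedDeriv_eq_zero hG]
    intro i hi
    rw [iteratedDeriv_F hx1 hc.2]
    exact hcon i (by omega)
  have h2 := jensen ha hc hx (order_ge hc.2 hx1 h1 hG)
  omega

theorem compact_Cs (H : ℝ) : IsCompact (Cs H) := by
  have h1 : IsCompact (Set.pi univ (fun _ : ℕ => Icc (-H) H)) := isCompact_univ_pi fun _ => isCompact_Icc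
  have h2 : IsClosed {c : ℕ → ℝ | 1 ≤ |c 0|} :=
    isClosed_le continuous_const (continuous_abs.comp (continuous_apply 0))
  have h3 : Cs H = Set.pi univ (fun _ : ℕ => Icc (-H) H) ∩ {c : ℕ → ℝ | 1 ≤ |c 0|} := by
    ext c
    simp only [Cs, Set.mem_ofPred_eq, Set.mem_inter_iff, Set.mem_pi, Set.mem_univ, forall_const, Set.mem_Icc, ← abs_le]
    exact and_comm
  rw [h3]
  exact h1.inter_right h2

theorem cont_F {a : ℝ} (b : ℝ) (ha : 1 < a) (H : ℝ) (k : ℕ) :
    ContinuousOn (fun p : (ℕ → ℝ) × ℝ => F k p.1 p.2) (Cs H ×ˢ Icc a b) := by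
  refine continuousOn_tsum (u := fun j => H * bd k a j) (fun j => ?_) ((summable_bd ha k).mul_left H) fun j p hp => ?_
  · refine ((continuous_apply j).comp continuous_fst).continuousOn.mul
      (continuousOn_const.mul ((continuousOn_snd.inv₀ fun p hp => ?_).pow _))
    have : a ≤ p.2 := hp.2.1
    linarith
  · exact term_le ha hp.2.1 hp.1.2 k j

/-- Transversality. -/
theorem transv {a : ℝ} (b : ℝ) (ha : 1 < a) (H : ℝ) :
    ∃ c₀ : ℝ, 0 < c₀ ∧ ∀ c ∈ Cs H, ∀ x ∈ Icc a b, ∃ k, k ≤ KK a H ∧ c₀ ≤ |F k c x| := by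
  have hcomp : IsCompact (Cs H ×ˢ Icc a b) := (compact_Cs H).prod isCompact_Icc
  have key := hcomp.induction_on (p := fun s => ∃ c₀ : ℝ, 0 < c₀ ∧ ∀ q ∈ s, q ∈ Cs H ×ˢ Icc a b →
      ∃ k, k ≤ KK a H ∧ c₀ ≤ |F k q.1 q.2|) ⟨1, one_pos, fun q hq => absurd hq (Set.notMem_empty q)⟩
    (fun s t hst ⟨c₀, h0, h⟩ => ⟨c₀, h0, fun q hq => h q (hst hq)⟩)
    (fun s t ⟨c₀, h0, h⟩ ⟨c₀', h0', h'⟩ => ⟨min c₀ c₀', lt_min h0 h0', fun q hq hqX => ?_⟩)
    (fun q hq => ?_)
  · obtain ⟨c₀, h0, h⟩ := key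
    exact ⟨c₀, h0, fun c hc x hx => h (c, x) ⟨hc, hx⟩ ⟨hc, hx⟩⟩
  · rcases hq with hq | hq
    · obtain ⟨k, h1, h2⟩ := h q hq hqX
      exact ⟨k, h1, (min_le_left _ _).trans h2⟩
    · obtain ⟨k, h1, h2⟩ := h' q hq hqX
      exact ⟨k, h1, (min_le_right _ _).trans h2⟩
  · obtain ⟨k, hkK, hk⟩ := exists_ne ha hq.1 hq.2.1
    have hpos : 0 < |F k q.1 q.2| := abs_pos.2 hk
    have h1 := (cont_F b ha H k).abs q hq
    have h2 := h1.eventually (lt_mem_nhds (show |F k q.1 q.2| / 2 < |F k q.1 q.2| by linarith))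
    refine ⟨_, h2, |F k q.1 q.2| / 2, by positivity, fun q' hq' _ => ⟨k, hkK, le_of_lt hq'⟩⟩

end Pool.Agent.Helper18.GP
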