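import Pool.Agent.Helper18.GP.TrigU
import Pool.Agent.Helper18.GP.ExpDisc
import Pool.Agent.Helper59.GP.Mean

/-!
The means of a trigonometric polynomial: doubly exponentially small error.
-/

set_option autoImplicit false

namespace Pool.Agent.Helper18.GP

open Finset Filter Topology MeasureTheory
open Pool.Agent.Helper59.GP (rateL rate_attained)
open Pool.Agent.Helper78.KD (freq_of_limsup liminf_of_event)
open Pool.Agent.Helper87.GP (lower_core approx near_mono Near mg)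

/-- **The means of a trigonometric polynomial.** -/
theorem mean_trig {H : ℕ} {c : ℤ → ℂ} {φ : ℝ → ℝ} (hp : ∀ t, gp H c t = φ t) (hc0 : c 0 = 0)
    (hne : ∃ t, φ t ≠ 0) {a₀ b₀ : ℝ} (ha : 1 < a₀) (hab : a₀ < b₀) :
    ∃ k δ₀ : ℝ, 0 < k ∧ 0 < δ₀ ∧ ∀ a b δ : ℝ, a₀ ≤ a → a < b → b ≤ b₀ → 0 < δ → δ ≤ δ₀ →
      ∀ s : ℕ → ℝ, DimNear a b (fun x N => (∑ n ∈ Finset.range N, φ (x ^ (n + 1) + s n)) / N) δ (rateL φ δ)
        (Real.exp (-Real.exp (k / δ))) := by
  have hφ : Continuous φ := by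
    have h4 : φ = fun t => (gp H c t).re := by
      funext t
      rw [hp t, Complex.ofReal_re]
    rw [h4]
    exact Complex.continuous_re.comp (gp_cont H c)
  have hmean : ∫ t in (0 : ℝ)..1, φ t = 0 := by
    have := coeff_zero hp
    rw [hc0] at this
    exact_mod_cast this.symm
  have hlip := gp_lip hp
  have hnm0 := nm_nonneg H c
  have hK : 0 ≤ 2 * Real.pi * H * nm H c := by
    have := Real.pi_pos
    positivity
  have hbd : ∀ t, |φ t| ≤ nm H c := by
    intro t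
    rw [← Real.norm_eq_abs, ← Complex.norm_real, ← hp t]
    unfold gp nm
    refine (norm_sum_le _ _).trans (Finset.sum_le_sum fun k _ => ?_)
    rw [norm_mul, Pool.Agent.Helper82.FK.norm_e, mul_one]
  obtain ⟨M, hMdef⟩ : ∃ M : ℝ, M = nm H c + 1 := ⟨_, rfl⟩
  have hM : 1 ≤ M := by linarith
  have hb : ∀ t, |φ t| ≤ M := fun t => (hbd t).trans (by linarith)
  obtain ⟨V, hVdef⟩ : ∃ V : ℝ, V = ∫ t in (0:ℝ)..1, φ t ^ 2 := ⟨_, rfl⟩
  have hper : Function.Periodic φ 1 := by
    intro t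
    have h1 : ((φ (t + 1) : ℝ) : ℂ) = φ t := by
      rw [← hp, ← hp]
      unfold gp
      refine Finset.sum_congr rfl fun k _ => ?_
      congr 1
      unfold Pool.Agent.Helper82.FK.e
      rw [show ((2 * Real.pi * (k * (t + 1)) : ℝ) : ℂ) * Complex.I =
        ((2 * Real.pi * (k * t) : ℝ) : ℂ) * Complex.I + k * (2 * Real.pi * Complex.I) by push_cast; ring]
      rw [Complex.exp_add, Complex.exp_int_mul_two_pi_mul_I, mul_one]
    exact_mod_cast h1
  have hV0 : 0 < V := by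
    rw [hVdef]
    obtain ⟨t, ht⟩ := hne
    have h2 : φ (Int.fract t) = φ t := by
      have h3 := hper.sub_zsmul_eq (x := t) ⌊t⌋
      rw [zsmul_eq_mul, mul_one] at h3
      exact h3
    refine intervalIntegral.integral_pos (by norm_num) (by fun_prop) (fun x _ => sq_nonneg _)
      ⟨Int.fract t, ⟨Int.fract_nonneg t, (Int.fract_lt_one t).le⟩, ?_⟩
    rw [h2]
    positivity
  have hVM : V ≤ M ^ 2 := by
    rw [hVdef]
    have h1 : ∫ t in (0:ℝ)..1, φ t ^ 2 ≤ ∫ _ in (0:ℝ)..1, M ^ 2 :=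
      intervalIntegral.integral_mono_on (by norm_num) (Continuous.intervalIntegrable (by fun_prop) _ _)
        (by simp) fun t _ => by
          rw [← sq_abs (φ t)]
          exact pow_le_pow_left₀ (abs_nonneg _) (hb t) 2
    simpa using h1
  obtain ⟨A, hAdef⟩ : ∃ A : ℝ, A = M + 16 / V := ⟨_, rfl⟩
  have hAV0 : 0 < 16 / V := by positivity
  have hA1 : 1 ≤ A := by linarith
  have hA0 : 0 < A := by linarith
  have hAM : M ≤ A := by linarith
  have hAV : 16 ≤ A * V := by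
    have : 16 / V ≤ A := by linarith
    rwa [div_le_iff₀ hV0] at this
  have hV16 : 16 / A ≤ ∫ t in (0:ℝ)..1, φ t ^ 2 := by
    rw [← hVdef, div_le_iff₀ hA0]
    linarith
  have hbA : ∀ t, |φ t| ≤ A := fun t => (hb t).trans hAM
  -- the constant
  obtain ⟨C', hC'⟩ : ∃ C' : ℝ, C' = 2 * A * nm H c + 2 := ⟨_, rfl⟩
  have hC'0 : 0 < C' := by
    rw [hC']
    positivity
  obtain ⟨c₁, hc₁, hkap⟩ := kap_inv ha hC'0
  obtain ⟨k, hk⟩ : ∃ k : ℝ, k = c₁ / 2 := ⟨_, rfl⟩
  have hk0 : 0 < k := by rw [hk]; positivity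
  obtain ⟨C, hC⟩ : ∃ C : ℝ, C = 200 * A ^ 5 + 2 * H + 3 + 32 * M ^ 3 / V ^ 2 + 1 / c₁ := ⟨_, rfl⟩
  have hA5 : (1 : ℝ) ≤ A ^ 5 := one_le_pow₀ hA1
  have hH0 : (0 : ℝ) ≤ H := Nat.cast_nonneg H
  have hMV : 0 < 32 * M ^ 3 / V ^ 2 := by positivity
  have hic : 0 < 1 / c₁ := by positivity
  have hC3 : 3 ≤ C := by linarith
  obtain ⟨δ₀, hδ₀, hsm⟩ := dexp_small (c := k) (C := C) hk0 hC3
  refine ⟨k / 2, δ₀, by positivity, hδ₀, ?_⟩
  intro a b δ haa hab' hbb h0 hδ s
  obtain ⟨e1, e2, e3, e4⟩ := hsm δ h0 hδ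
  obtain ⟨L, hL⟩ : ∃ L : ℝ, L = Real.exp (k / δ) := ⟨_, rfl⟩
  obtain ⟨η, hη⟩ : ∃ η : ℝ, η = Real.exp (-L) := ⟨_, rfl⟩
  rw [← hL, ← hη] at e3 e4
  have hη0 : 0 < η := by rw [hη]; exact Real.exp_pos _
  have hLC : C ≤ L := by
    refine e2.trans ?_
    rw [hL]
    refine Real.exp_le_exp.2 ?_
    refine div_le_div_of_nonneg_right ?_ h0.le
    linarith
  have hCA : 200 * A ^ 5 ≤ C := by linarith
  have hCH : 2 * (H : ℝ) + 3 ≤ C := by linarith
  have hCM : 32 * M ^ 3 / V ^ 2 ≤ C := by linarith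
  have hCc : 1 / c₁ ≤ C := by linarith
  have hL3 : 3 ≤ L := hC3.trans hLC
  have hLH : 2 * (H : ℝ) + 3 ≤ L := hCH.trans hLC
  have hδA : 200 * A ^ 5 * δ ≤ 1 := (mul_le_mul_of_nonneg_right hCA h0.le).trans e1
  have hηA : 200 * A ^ 5 * η ≤ δ := (mul_le_mul_of_nonneg_right hCA hη0.le).trans e3
  have hA25 : A ^ 2 ≤ A ^ 5 := pow_le_pow_right₀ hA1 (by norm_num)
  have hA35 : A ^ 3 ≤ A ^ 5 := pow_le_pow_right₀ hA1 (by norm_num)
  have hA15 : A ≤ A ^ 5 := le_self_pow₀ hA1 (by norm_num)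
  have hA2 : (1 : ℝ) ≤ A ^ 2 := one_le_pow₀ hA1
  have hδ5 := mul_le_mul_of_nonneg_right hA5 h0.le
  have hη5 := mul_le_mul_of_nonneg_right hA5 hη0.le
  have hδ200 : 200 * δ ≤ 1 := by linarith
  have hη200 : 200 * η ≤ δ := by linarith
  have hδc : δ ≤ c₁ := by
    have h1 := (mul_le_mul_of_nonneg_right hCc h0.le).trans e1
    rw [one_div, inv_mul_le_iff₀ hc₁] at h1
    linarith
  have hd3 : δ * (32 * M ^ 3) ≤ V ^ 2 := by
    have h1 := (mul_le_mul_of_nonneg_right hCM h0.le).trans e1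
    rw [div_mul_eq_mul_div, div_le_iff₀ (by positivity)] at h1
    linarith
  have hlb : 0 < Real.log b := Real.log_pos (by linarith)
  obtain ⟨⟨θ, hθ0, hθA, hθ⟩, hrate⟩ := rate_attained hφ hb hM hmean hV0 hVM hVdef.le (A := A) (by linarith)
    hA0.le h0 hd3
  -- the degree of the Taylor polynomial
  obtain ⟨n, hn⟩ : ∃ n : ℕ, n = ⌈L⌉₊ := ⟨_, rfl⟩
  have hn1 : L ≤ n := by rw [hn]; exact Nat.le_ceil L
  have hn2 : (n : ℝ) ≤ L + 1 := by rw [hn]; exact (Nat.ceil_lt_add_one (by linarith)).le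
  have hnpos : 1 ≤ n := by
    have : (0 : ℝ) < n := by linarith
    exact_mod_cast this
  have hLL : Real.exp (c₁ / δ) = L ^ 2 := by
    rw [hL, ← Real.exp_nat_mul]
    congr 1
    rw [hk]
    push_cast
    ring
  have hD1 : (1 : ℝ) ≤ ((n * (H + 1) + 1 : ℕ) : ℝ) := by
    push_cast
    have : (0 : ℝ) ≤ (n : ℝ) * (H + 1) := by positivity
    linarith
  have hL2 := mul_le_mul_of_nonneg_right hLH (show 0 ≤ L by linarith)
  have hD2 : ((n * (H + 1) + 1 : ℕ) : ℝ) ≤ Real.exp (c₁ / δ) := by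
    rw [hLL]
    push_cast
    have h1 : (n : ℝ) * (H + 1) ≤ (L + 1) * (H + 1) := mul_le_mul_of_nonneg_right hn2 (by positivity)
    have h2 : (1 : ℝ) * (H + 1) ≤ L * (H + 1) := mul_le_mul_of_nonneg_right (by linarith) (by positivity)
    linarith
  have hX1 : (1 : ℝ) ≤ max ((n * H : ℕ) : ℝ) 1 := le_max_right _ _
  have hX2 : max ((n * H : ℕ) : ℝ) 1 ≤ Real.exp (c₁ / δ) := by
    refine le_trans ?_ hD2
    refine max_le ?_ hD1
    have : n * H ≤ n * (H + 1) + 1 := (Nat.mul_le_mul_left n (Nat.le_succ H)).trans (Nat.le_succ _)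
    exact_mod_cast this
  have hkU := hkap c₁ δ hc₁ le_rfl h0 hδc _ hD1 hD2
  have hkL := hkap c₁ δ hc₁ le_rfl h0 hδc _ hX1 hX2
  -- the size of the error
  obtain ⟨y, hy⟩ : ∃ y : ℝ, y = 2 * A ^ 2 * δ := ⟨_, rfl⟩
  have hy0 : 0 < y := by rw [hy]; positivity
  have hy100 : y ≤ 1 / 100 := by
    rw [hy]
    have := mul_le_mul_of_nonneg_right hA25 h0.le
    linarith
  have hy1 : y ≤ 1 := by linarith
  have hsq : Real.exp (-2) ≥ 1 / 10 := by
    have h4 := Real.exp_one_lt_d9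
    have h5 : Real.exp (-2) = ((Real.exp 1) ^ 2)⁻¹ := by
      rw [← Real.exp_nat_mul, ← Real.exp_neg]
      norm_num
    rw [h5, ge_iff_le, ← one_div]
    refine one_div_le_one_div_of_le (by positivity) ?_
    have h6 : Real.exp 1 ≤ 3 := by linarith
    have h7 := pow_le_pow_left₀ (Real.exp_pos 1).le h6 2
    linarith
  have hyn : y ^ (n + 1) ≤ η ^ 2 / 100 := by
    have h1 : y ^ (n + 1) ≤ (Real.exp (-2) / 10) ^ (n + 1) := pow_le_pow_left₀ hy0.le (by linarith) _
    have h2 : (Real.exp (-2) / 10) ^ (n + 1) ≤ η ^ 2 / 100 := by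
      rw [div_pow, ← Real.exp_nat_mul]
      have h4 : Real.exp (((n + 1 : ℕ) : ℝ) * -2) ≤ η ^ 2 := by
        rw [hη, ← Real.exp_nat_mul]
        refine Real.exp_le_exp.2 ?_
        push_cast
        linarith
      have h5 : (100 : ℝ) ≤ 10 ^ (n + 1) := by
        have h6 : (10 : ℝ) ^ 2 ≤ 10 ^ (n + 1) := pow_le_pow_right₀ (by norm_num) (by omega)
        norm_num at h6
        exact h6
      exact div_le_div₀ (by positivity) h4 (by norm_num) h5
    exact h1.trans h2
  have hyn0 : 0 < y ^ (n + 1) := by positivity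
  have hη1 : η ≤ 1 := by linarith
  have hη2 : η ^ 2 ≤ η := by
    have := mul_le_mul_of_nonneg_right hη1 hη0.le
    linarith
  have hyn8 : y ^ (n + 1) ≤ 1 / 8 := by linarith
  have hyδ : 4 * y ^ (n + 1) ≤ δ := by linarith
  have hfb : ∀ x : ℝ, ∀ N : ℕ, |(∑ n ∈ Finset.range N, φ (x ^ (n + 1) + s n)) / (N : ℝ)| ≤ M := by
    intro x N
    rcases Nat.eq_zero_or_pos N with h | h
    · subst h
      simp
      linarith
    · have hN : (0:ℝ) < N := by exact_mod_cast h
      rw [abs_div, abs_of_pos hN, div_le_iff₀ hN]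
      refine (Finset.abs_sum_le_sum_abs _ _).trans ((Finset.sum_le_sum fun n _ => hb _).trans (le_of_eq ?_))
      rw [Finset.sum_const, Finset.card_range, nsmul_eq_mul]
      ring
  have he : (k / 2) / δ = (k / 2) / δ := rfl
  have h4η : 4 * η ≤ Real.exp (-Real.exp ((k / 2) / δ)) := by
    have h1 := mul_le_mul_of_nonneg_right hC3 hη0.le
    have h2 := mul_le_mul_of_nonneg_right hCA hη0.le
    linarith
  have haexp : ∀ X : ℝ, a₀ ^ (kap a₀ X) = Real.exp (Real.log a₀ * kap a₀ X) := fun X =>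
    Real.rpow_def_of_pos (by linarith) _
  refine DimNear.mono (ε := 4 * η) ⟨?_, ?_⟩ (by linarith) h4η
  · -- lower bound
    have hW : Real.exp (2 * A * δ * nm H c) + y ^ (n + 1) < (1 - 2 * y ^ (n + 1)) * a₀ ^ (kap a₀ (max ((n * H : ℕ) : ℝ) 1)) := by
      have h2 : Real.exp (2 * A * δ * nm H c) + y ^ (n + 1) ≤ Real.exp (2 * A * δ * nm H c + δ) := by
        rw [Real.exp_add]
        have h5 := Real.add_one_le_exp δ
        have h6 : 1 ≤ Real.exp (2 * A * δ * nm H c) := Real.one_le_exp (by positivity)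
        have h7 := mul_le_mul h6 (le_refl (Real.exp δ - 1)) (by linarith) (by linarith)
        linarith
      have h3 : Real.exp (-δ) ≤ 1 - 2 * y ^ (n + 1) := by
        have h4 : Real.exp (-δ) ≤ 1 / (1 + δ) := by
          rw [Real.exp_neg, ← one_div]
          exact one_div_le_one_div_of_le (by linarith) (by linarith [Real.add_one_le_exp δ])
        refine h4.trans ?_
        rw [div_le_iff₀ (by linarith)]
        have h5 : y ^ (n + 1) * δ ≤ y ^ (n + 1) * 1 := mul_le_mul_of_nonneg_left (by linarith) hyn0.le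
        linarith
      have h6 : Real.exp (2 * A * δ * nm H c + δ) < Real.exp (-δ) * a₀ ^ (kap a₀ (max ((n * H : ℕ) : ℝ) 1)) := by
        rw [haexp, ← Real.exp_add]
        refine Real.exp_lt_exp.2 ?_
        rw [hC'] at hkL
        linarith
      refine lt_of_le_of_lt h2 (lt_of_lt_of_le h6 ?_)
      exact mul_le_mul_of_nonneg_right h3 (Real.rpow_pos_of_pos (by linarith) _).le
    have hE : 4 * (2 * y ^ (n + 1)) ≤ A ^ 2 * η ^ 2 := by
      have h1 : (1 : ℝ) * η ^ 2 ≤ A ^ 2 * η ^ 2 := mul_le_mul_of_nonneg_right hA2 (sq_nonneg η)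
      linarith [sq_nonneg η]
    have hηA2 : 20 * A ^ 2 * η ≤ δ := by
      have := mul_le_mul_of_nonneg_right hA25 hη0.le
      linarith
    have hmain := lower_core (lt_of_lt_of_le ha haa) hab' hK hlip hA1 hbA hmean hV16 (h := δ) (σ := η)
      (E := 2 * y ^ (n + 1)) h0 (by linarith [mul_pos (lt_of_lt_of_le one_pos hA5) h0]) hη0
      hηA2 le_rfl (by linarith) (by positivity) hE
      (fun θ' hθ' hθΘ => by
        obtain ⟨gl, gu, ml, mu, q1, q2, q3, q4, q5, q6, q7, q8, q9, q10, q11, q12⟩ :=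
          approx ha hab.le hp hc0 hA0.le hbA (n := n) hnpos (Θ := 2 * A * δ) (y := y) (by rw [hy]; exact le_of_eq (by ring))
            hy0.le hy1 hyn8 hW hθ' hθΘ
        exact ⟨gl, gu, ml, mu, q1, q2, q3, q4, q5, q6, q7, q8, q9, q10, near_mono q11 haa hbb, near_mono q12 haa hbb⟩)
      (R := rateL φ δ) (fun θ' _ _ => hrate θ') s
    refine (ENNReal.ofReal_le_ofReal ?_).trans (hmain.trans (dimH_mono ?_))
    · have h1 : rateL φ δ + 6 * A ^ 3 * δ * η + 2 * (2 * y ^ (n + 1)) ≤ rateL φ δ + 4 * η := by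
        have h2 : 6 * A ^ 3 * δ ≤ 1 := by
          have := mul_le_mul_of_nonneg_right hA35 h0.le
          linarith
        have h3 : 6 * A ^ 3 * δ * η ≤ 1 * η := mul_le_mul_of_nonneg_right h2 hη0.le
        linarith
      have h2 := div_le_div_of_nonneg_right h1 hlb.le
      linarith
    · rintro x ⟨hx, hN⟩
      refine ⟨hx, liminf_of_event (hfb x) ?_⟩
      filter_upwards [hN, eventually_ge_atTop 1] with N h2 h3
      have hNr : (0:ℝ) < N := by
        have : 0 < N := by omega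
        exact_mod_cast this
      rwa [le_div_iff₀ hNr]
  · -- upper bound
    have hθ2 : θ ≤ A * δ := hθA
    have hq : ∀ t, |θ * φ t| ≤ y := fun t => by
      rw [abs_mul, abs_of_nonneg hθ0]
      calc θ * |φ t| ≤ (A * δ) * A := mul_le_mul hθ2 (hbA t) (abs_nonneg _) (by positivity)
        _ ≤ y := by
          rw [hy]
          have : 0 ≤ A ^ 2 * δ := by positivity
          linarith
    have hW : Real.exp (θ * nm H c) + 2 * y ^ (n + 1) < a₀ ^ (kap a₀ ((n * (H + 1) + 1 : ℕ) : ℝ)) := by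
      have h1 : θ * nm H c ≤ 2 * A * δ * nm H c := by
        refine mul_le_mul_of_nonneg_right ?_ hnm0
        have : 0 ≤ A * δ := by positivity
        linarith
      have h2 : Real.exp (θ * nm H c) + 2 * y ^ (n + 1) ≤ Real.exp (2 * A * δ * nm H c + δ) := by
        rw [Real.exp_add]
        have h3 := Real.exp_le_exp.2 h1
        have h5 := Real.add_one_le_exp δ
        have h6 : 1 ≤ Real.exp (2 * A * δ * nm H c) := Real.one_le_exp (by positivity)
        have h7 := mul_le_mul h6 (le_refl (Real.exp δ - 1)) (by linarith) (by linarith)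
        linarith
      refine lt_of_le_of_lt h2 ?_
      rw [haexp]
      refine Real.exp_lt_exp.2 ?_
      rw [hC'] at hkU
      linarith
    have h1 := upper_tp ha haa hab' hp hc0 hθ0 hq hy0 hy1 n hW s (δ - η)
    refine (dimH_mono ?_).trans (h1.trans (ENNReal.ofReal_le_ofReal ?_))
    · rintro x ⟨hx, hls⟩
      refine ⟨⟨hx.1.le, hx.2.le⟩, ?_⟩
      have h2 := freq_of_limsup (δ' := δ - η) (hfb x) hls (by linarith)
      refine (h2.and_eventually (eventually_ge_atTop 1)).mono ?_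
      rintro N ⟨h3, h4⟩
      have hNr : (0:ℝ) < N := by
        have : 0 < N := by omega
        exact_mod_cast this
      rw [lt_div_iff₀ hNr] at h3
      exact h3.le
    · have h2 : (rateL φ δ - 4 * η) / Real.log b ≤
          (θ * (δ - η) - lam φ θ - 4 * y ^ (n + 1)) / Real.log b := by
        apply div_le_div_of_nonneg_right _ hlb.le
        have h3 : θ * η ≤ 1 * η := by
          refine mul_le_mul_of_nonneg_right (hθ2.trans ?_) hη0.le
          have := mul_le_mul_of_nonneg_right hA15 h0.le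
          linarith
        rw [hθ]
        linarith
      linarith

end Pool.Agent.Helper18.GP
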