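import Pool.Agent.Helper18.GP.ExpU

/-!
The upper bound for one trigonometric polynomial, and the exponents for heights `exp (c / δ)`.
-/

set_option autoImplicit false

namespace Pool.Agent.Helper18.GP

open Finset MeasureTheory Set Filter Topology Pool.Agent.Helper82.FK

theorem kap_inv {a : ℝ} (ha : 1 < a) {C' : ℝ} (hC' : 0 < C') : ∃ c₁ : ℝ, 0 < c₁ ∧ ∀ c δ : ℝ, 0 < c → c ≤ c₁ → 0 < δ →
    δ ≤ c₁ → ∀ X : ℝ, 1 ≤ X → X ≤ Real.exp (c / δ) → C' * δ < Real.log a * kap a X := by
  obtain ⟨M, hM, hkap⟩ := kap_ge ha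
  have hla : 0 < Real.log a := Real.log_pos ha
  have hM0 : 0 < M := by linarith
  refine ⟨Real.log a / (4 * C' * M), by positivity, fun c δ hc hc1 hδ hδ1 X hX hXA => ?_⟩
  have hlX : Real.log X ≤ c / δ := by
    have := Real.log_le_log (by linarith) hXA
    rwa [Real.log_exp] at this
  have hlX0 : 0 ≤ Real.log X := Real.log_nonneg hX
  have h1 := hkap X hX
  have h2 : C' * δ < Real.log a * (1 / (M * (1 + Real.log X))) := by
    rw [mul_one_div, lt_div_iff₀ (by positivity)]
    have h3 : δ * Real.log X ≤ c := by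
      have := mul_le_mul_of_nonneg_left hlX hδ.le
      rwa [mul_div_cancel₀ _ hδ.ne'] at this
    have h4 : C' * M * (δ + c) ≤ C' * M * (Real.log a / (4 * C' * M) + Real.log a / (4 * C' * M)) :=
      mul_le_mul_of_nonneg_left (by linarith) (by positivity)
    have h5 : C' * M * (Real.log a / (4 * C' * M) + Real.log a / (4 * C' * M)) = Real.log a / 2 := by
      field_simp
      ring
    have h6 : C' * M * (δ * Real.log X) ≤ C' * M * c := mul_le_mul_of_nonneg_left h3 (by positivity)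
    calc C' * δ * (M * (1 + Real.log X)) = C' * M * δ + C' * M * (δ * Real.log X) := by ring
      _ ≤ C' * M * δ + C' * M * c := by linarith
      _ = C' * M * (δ + c) := by ring
      _ ≤ Real.log a / 2 := h5 ▸ h4
      _ < Real.log a := by linarith
  exact h2.trans_le (mul_le_mul_of_nonneg_left h1 hla.le)

/-- **Upper bound for a trigonometric polynomial.** -/
theorem upper_tp {a₀ : ℝ} (ha : 1 < a₀) {a b : ℝ} (haa : a₀ ≤ a) (hab : a < b) {H : ℕ} {c : ℤ → ℂ} {p : ℝ → ℝ}
    (hp : ∀ t, gp H c t = p t) (hpc0 : c 0 = 0) {θ y : ℝ} (hθ0 : 0 ≤ θ) (hq : ∀ t, |θ * p t| ≤ y) (hy0 : 0 < y)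
    (hy1 : y ≤ 1) (n : ℕ)
    (hW : Real.exp (θ * nm H c) + 2 * y ^ (n + 1) < a₀ ^ (kap a₀ ((n * (H + 1) + 1 : ℕ) : ℝ))) (s : ℕ → ℝ) (h : ℝ) :
    dimH {x | x ∈ Icc a b ∧ ∃ᶠ N : ℕ in atTop, h * N ≤ Sp p s N x} ≤
      ENNReal.ofReal (1 - (θ * h - lam p θ - 4 * y ^ (n + 1)) / Real.log b) := by
  set E : ℝ := 2 * y ^ (n + 1) with hE
  have hE0 : 0 < E := by positivity
  have hpc : Continuous p := by
    have h4 : p = fun t => (gp H c t).re := by
      funext t
      rw [hp t, Complex.ofReal_re]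
    rw [h4]
    exact Complex.continuous_re.comp (gp_cont H c)
  have hpm : ∫ t in (0 : ℝ)..1, p t = 0 := by
    have := coeff_zero hp
    rw [hpc0] at this
    exact_mod_cast this.symm
  -- the majorant
  set T : ℝ → ℝ := fun t => ∑ i ∈ range (n + 1), (θ * p t) ^ i / (i.factorial : ℝ) with hT
  have hTc : Continuous T := by
    rw [hT]
    exact continuous_finsetSum _ fun i _ => ((continuous_const.mul hpc).pow i).div_const _
  have hrem : ∀ t, |Real.exp (θ * p t) - T t| ≤ E := fun t => exp_rem (hq t) hy1 n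
  set g : ℝ → ℝ := fun t => T t + E with hg
  have hexpg : ∀ t, Real.exp (θ * p t) ≤ g t := fun t => by
    have := (abs_le.1 (hrem t)).2
    show _ ≤ T t + E
    linarith
  set W : ℝ := θ * nm H c with hWd
  have hW0 : 0 ≤ W := mul_nonneg hθ0 (nm_nonneg _ _)
  have hTP : TP (n * (H + 1) + 1) (Real.exp W + E) (fun t => (g t : ℂ)) := by
    have h1 : TP H (nm H c) (fun t => (p t : ℂ)) := ⟨c, hp, le_rfl⟩
    have h2 := h1.smul (θ : ℂ)
    rw [Complex.norm_real, Real.norm_eq_abs, abs_of_nonneg hθ0] at h2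
    have h3 := (h2.exp hW0 n).mono_deg (H' := n * (H + 1) + 1) ((Nat.mul_le_mul_left n (Nat.le_succ H)).trans (Nat.le_succ _))
    have h4 := h3.add (TP.const (n * (H + 1) + 1) (E : ℂ))
    rw [Complex.norm_real, Real.norm_eq_abs, abs_of_pos hE0] at h4
    refine h4.congr fun t => ?_
    rw [hg, hT]
    push_cast
    rfl
  obtain ⟨d, hd1, hd2⟩ := hTP
  have hgc : Continuous g := hTc.add continuous_const
  set m : ℝ := ∫ t in (0 : ℝ)..1, g t with hm
  have hd0 : d 0 = m := coeff_zero hd1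
  have hmgf := one_le_mgf hpc hpm θ
  set X : ℝ := ∫ t in (0 : ℝ)..1, Real.exp (θ * p t) with hX
  have hec : Continuous fun t => Real.exp (θ * p t) := Real.continuous_exp.comp (continuous_const.mul hpc)
  have hm1 : X ≤ m := intervalIntegral.integral_mono_on (by norm_num) (hec.intervalIntegrable _ _) (hgc.intervalIntegrable _ _)
    fun t _ => hexpg t
  have hm2 : m ≤ X + 2 * E := by
    have h1 : X + 2 * E = ∫ t in (0 : ℝ)..1, (Real.exp (θ * p t) + 2 * E) := by
      rw [intervalIntegral.integral_add (hec.intervalIntegrable _ _) (by simp), ← hX]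
      simp
    rw [h1]
    refine intervalIntegral.integral_mono_on (by norm_num) (hgc.intervalIntegrable _ _)
      ((hec.add continuous_const).intervalIntegrable _ _) fun t _ => ?_
    have := (abs_le.1 (hrem t)).1
    show T t + E ≤ _
    linarith
  have hlogm : Real.log m ≤ lam p θ + 2 * E := by
    have h1 : Real.log m ≤ Real.log (X * (1 + 2 * E)) := Real.log_le_log (by linarith) (by
      have := mul_le_mul_of_nonneg_right hmgf hE0.le
      linarith)
    rw [Real.log_mul (by linarith) (by positivity)] at h1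
    have h2 : Real.log (1 + 2 * E) ≤ 2 * E := by
      have := Real.log_le_sub_one_of_pos (show 0 < 1 + 2 * E by positivity)
      linarith
    show Real.log m ≤ Real.log X + 2 * E
    linarith
  have hnm : nm (n * (H + 1) + 1) d < m * a₀ ^ (kap a₀ ((n * (H + 1) + 1 : ℕ) : ℝ)) := by
    have h7 : 0 < a₀ ^ (kap a₀ ((n * (H + 1) + 1 : ℕ) : ℝ)) := Real.rpow_pos_of_pos (by linarith) _
    calc nm (n * (H + 1) + 1) d ≤ Real.exp W + E := hd2
      _ < a₀ ^ (kap a₀ ((n * (H + 1) + 1 : ℕ) : ℝ)) := hW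
      _ ≤ m * a₀ ^ (kap a₀ ((n * (H + 1) + 1 : ℕ) : ℝ)) := le_mul_of_one_le_left h7.le (by linarith)
  have hlip : ∀ t u, |θ * p t - θ * p u| ≤ (θ * (2 * Real.pi * H * nm H c)) * |t - u| := fun t u => by
    rw [← mul_sub, abs_mul, abs_of_nonneg hθ0, mul_assoc]
    exact mul_le_mul_of_nonneg_left (gp_lip hp t u) hθ0
  have hch := chernoff ha (lt_of_le_of_lt haa hab) (n * (H + 1) + 1) (by omega) d m g (fun t => θ * p t) _ (by linarith) hd0
    hnm hd1 hexpg hlip s (θ * h)
  refine (dimH_mono ?_).trans (hch.trans (ENNReal.ofReal_le_ofReal ?_))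
  · rintro x ⟨hx, hfr⟩
    refine ⟨⟨haa.trans hx.1, hx.2⟩, hfr.mono fun N hN => ?_⟩
    have h1 : Sp (fun t => θ * p t) s N x = θ * Sp p s N x := by
      unfold Sp
      rw [mul_sum]
    rw [h1, mul_assoc]
    exact mul_le_mul_of_nonneg_left hN hθ0
  · have hlb : 0 < Real.log b := Real.log_pos (by linarith)
    have h2 : (θ * h - lam p θ - 4 * y ^ (n + 1)) / Real.log b ≤ (θ * h - Real.log m) / Real.log b := by
      refine div_le_div_of_nonneg_right ?_ hlb.le
      linarith
    linarith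

/-- small parameters -/
theorem dexp_small {c C : ℝ} (hc : 0 < c) (hC : 3 ≤ C) : ∃ δ₀ : ℝ, 0 < δ₀ ∧ ∀ δ, 0 < δ → δ ≤ δ₀ →
    C * δ ≤ 1 ∧ C ≤ Real.exp ((c / 2) / δ) ∧ C * Real.exp (-Real.exp (c / δ)) ≤ δ ∧
    C * Real.exp (-Real.exp (c / δ)) ≤ Real.exp (-Real.exp ((c / 2) / δ)) := by
  refine ⟨min (min (1 / C) (c / (2 * C))) (c ^ 2 / (4 * C)), by positivity, fun δ h0 hδ => ?_⟩
  have hC0 : 0 < C := by linarith
  have h1 : δ ≤ 1 / C := hδ.trans ((min_le_left _ _).trans (min_le_left _ _))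
  have h2 : δ ≤ c / (2 * C) := hδ.trans ((min_le_left _ _).trans (min_le_right _ _))
  have h3 : δ ≤ c ^ 2 / (4 * C) := hδ.trans (min_le_right _ _)
  obtain ⟨u, hu⟩ : ∃ u : ℝ, u = Real.exp ((c / 2) / δ) := ⟨_, rfl⟩
  have hu2 : Real.exp (c / δ) = u ^ 2 := by
    rw [hu, ← Real.exp_nat_mul]
    congr 1
    push_cast
    ring
  have hv : (c / 2) / δ ≤ u := by
    rw [hu]
    linarith [Real.add_one_le_exp ((c / 2) / δ)]
  have hCu : C ≤ u := by
    refine le_trans ?_ hv
    rw [le_div_iff₀ h0]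
    rw [le_div_iff₀ (by positivity)] at h2
    linarith
  have hu0 : 0 < u := by linarith
  rw [hu2, ← hu]
  refine ⟨?_, hCu, ?_, ?_⟩
  · rw [le_div_iff₀ hC0] at h1
    linarith
  · have h4 : Real.exp (-u ^ 2) ≤ 1 / u ^ 2 := by
      rw [Real.exp_neg, ← one_div]
      exact one_div_le_one_div_of_le (by positivity) (by linarith [Real.add_one_le_exp (u ^ 2)])
    have h5 : ((c / 2) / δ) ^ 2 ≤ u ^ 2 := pow_le_pow_left₀ (by positivity) hv 2
    have h6 : 1 / u ^ 2 ≤ 4 * δ ^ 2 / c ^ 2 := by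
      have h7 : 1 / u ^ 2 ≤ 1 / ((c / 2) / δ) ^ 2 := one_div_le_one_div_of_le (by positivity) h5
      have h8 : 1 / ((c / 2) / δ) ^ 2 = 4 * δ ^ 2 / c ^ 2 := by
        field_simp
        norm_num
      linarith
    have h7 : C * (4 * δ ^ 2 / c ^ 2) ≤ δ := by
      rw [mul_div_assoc', div_le_iff₀ (by positivity)]
      rw [le_div_iff₀ (by positivity)] at h3
      have h8 := mul_le_mul_of_nonneg_left h3 h0.le
      linarith
    have h8 : C * Real.exp (-u ^ 2) ≤ C * (4 * δ ^ 2 / c ^ 2) := mul_le_mul_of_nonneg_left (h4.trans h6) hC0.le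
    linarith
  · have h4 : C ≤ Real.exp (u ^ 2 - u) := by
      have h5 := Real.add_one_le_exp (u ^ 2 - u)
      have h6 : 3 * u ≤ u ^ 2 := by
        have := mul_le_mul_of_nonneg_right (hC.trans hCu) hu0.le
        linarith
      linarith
    calc C * Real.exp (-u ^ 2) ≤ Real.exp (u ^ 2 - u) * Real.exp (-u ^ 2) :=
          mul_le_mul_of_nonneg_right h4 (Real.exp_pos _).le
      _ = Real.exp (-u) := by
        rw [← Real.exp_add]
        congr 1
        ring

end Pool.Agent.Helper18.GP
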