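import Pool.Agent.Helper18.GP.Alg

/-!
The uniform upper bound.
-/

set_option autoImplicit false

namespace Pool.Agent.Helper18.GP

open Finset MeasureTheory Set Filter Topology Pool.Agent.Helper82.FK

theorem log_inv_le {δ : ℝ} (h0 : 0 < δ) (h1 : δ ≤ 1) : (1 + Real.log (1 / δ)) ^ 2 * δ ≤ 34 * √δ := by
  set u : ℝ := √(√δ) with hu
  have hs0 : 0 < √δ := Real.sqrt_pos.2 h0
  have hu0 : 0 < u := Real.sqrt_pos.2 hs0
  have hu2 : u ^ 2 = √δ := Real.sq_sqrt hs0.le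
  have hu4 : u ^ 4 = δ := by
    rw [show u ^ 4 = (u ^ 2) ^ 2 by ring, hu2, Real.sq_sqrt h0.le]
  have hu1 : u ≤ 1 := by
    by_contra hcon
    push Not at hcon
    have : 1 < u ^ 4 := one_lt_pow₀ hcon (by norm_num)
    linarith
  have hlog : Real.log (1 / δ) = 4 * Real.log (1 / u) := by
    rw [← hu4, one_div, one_div, Real.log_inv, Real.log_inv, Real.log_pow]
    push_cast
    ring
  have h2 : Real.log (1 / u) ≤ 1 / u - 1 := Real.log_le_sub_one_of_pos (by positivity)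
  have h3 : 0 ≤ Real.log (1 / u) := Real.log_nonneg (by rw [le_div_iff₀ hu0]; linarith)
  have h4 : 1 + Real.log (1 / δ) ≤ 4 / u := by
    rw [hlog]
    have : 4 * Real.log (1 / u) ≤ 4 * (1 / u - 1) := by linarith
    have h5 : 4 * (1 / u - 1) = 4 / u - 4 := by ring
    linarith
  have h5 : 0 ≤ 1 + Real.log (1 / δ) := by rw [hlog]; linarith
  have h6 : (1 + Real.log (1 / δ)) ^ 2 ≤ (4 / u) ^ 2 := pow_le_pow_left₀ h5 h4 2
  have h7 : (4 / u) ^ 2 * δ = 16 * √δ := by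
    have h8 : (4 / u) ^ 2 * u ^ 4 = 16 * u ^ 2 := by
      field_simp
      ring
    rwa [hu4, hu2] at h8
  calc (1 + Real.log (1 / δ)) ^ 2 * δ ≤ (4 / u) ^ 2 * δ := by gcongr
    _ = 16 * √δ := h7
    _ ≤ 34 * √δ := by linarith

/-- the exponent is larger than the norm -/
theorem kap_big {a : ℝ} (ha : 1 < a) (A : ℕ) {B C₁ : ℝ} (hB : 1 ≤ B) (hC₁ : 0 ≤ C₁) : ∃ δ₀ : ℝ, 0 < δ₀ ∧ δ₀ ≤ 1 ∧
    ∀ δ, 0 < δ → δ ≤ δ₀ → ∀ D : ℕ, 1 ≤ D → (D : ℝ) ≤ B * (1 / δ) ^ A →
      Real.exp (C₁ * δ * (1 + Real.log (1 / δ))) < a ^ (kap a D) := by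
  have ha0 : 0 < a := by linarith
  have hla : 0 < Real.log a := Real.log_pos ha
  have hs1 : 1 < √a := by
    rw [Real.lt_sqrt (by norm_num)]
    simpa using ha
  have hls : 0 < Real.log (√a) := Real.log_pos hs1
  have hR1 : (√a)⁻¹ < 1 := inv_lt_one_of_one_lt₀ hs1
  set G : ℝ := 1 - (√a)⁻¹ with hG
  have hG0 : 0 < G := by rw [hG]; linarith
  have hG1 : G ≤ 1 := by
    have : 0 < (√a)⁻¹ := by positivity
    rw [hG]; linarith
  have hlG : 0 ≤ Real.log (B / G) := Real.log_nonneg (by rw [le_div_iff₀ hG0]; linarith)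
  set C₂ : ℝ := (Real.log (B / G) + A) / Real.log (√a) + 1 with hC₂
  have hC₂1 : 1 ≤ C₂ := by
    have : 0 ≤ (Real.log (B / G) + A) / Real.log (√a) := by positivity
    rw [hC₂]; linarith
  have hC₂0 : 0 < C₂ := by linarith
  set Q : ℝ := Real.log a / (68 * (C₁ + 1) * C₂ + 1) / 2 with hQ
  have hQ0 : 0 < Q := by positivity
  refine ⟨min 1 (Q ^ 2), by positivity, min_le_left _ _, fun δ h0 hδ D hD hDB => ?_⟩
  have h1 : δ ≤ 1 := hδ.trans (min_le_left _ _)
  have hsq : √δ ≤ Q := by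
    rw [← Real.sqrt_sq hQ0.le]
    exact Real.sqrt_le_sqrt (hδ.trans (min_le_right _ _))
  set ℓ : ℝ := Real.log (1 / δ) with hℓ
  have hℓ0 : 0 ≤ ℓ := Real.log_nonneg (by rw [le_div_iff₀ h0]; linarith)
  have hD1 : (1 : ℝ) ≤ D := by exact_mod_cast hD
  -- the order
  have h2 : ((KK a D : ℕ) : ℝ) + 1 ≤ C₂ * (1 + ℓ) := by
    have h3 : Real.log ((D : ℝ) / G) ≤ Real.log (B / G) + A * ℓ := by
      have h4 : (D : ℝ) / G ≤ B / G * (1 / δ) ^ A := by
        rw [div_mul_eq_mul_div]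
        exact div_le_div_of_nonneg_right hDB hG0.le
      have h5 := Real.log_le_log (by positivity) h4
      rwa [Real.log_mul (by positivity) (by positivity), Real.log_pow] at h5
    have h6 : ((KK a D : ℕ) : ℝ) ≤ (Real.log (B / G) + A * ℓ) / Real.log (√a) := by
      have h7 : 0 ≤ Real.log ((D : ℝ) / G) / Real.log (√a) :=
        div_nonneg (Real.log_nonneg (by rw [le_div_iff₀ hG0]; linarith)) hls.le
      have h8 : ((KK a D : ℕ) : ℝ) ≤ Real.log ((D : ℝ) / G) / Real.log (√a) := Nat.floor_le h7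
      exact h8.trans (div_le_div_of_nonneg_right h3 hls.le)
    have h9 : (Real.log (B / G) + A * ℓ) / Real.log (√a) ≤ (Real.log (B / G) + A) / Real.log (√a) * (1 + ℓ) := by
      rw [div_mul_eq_mul_div]
      refine div_le_div_of_nonneg_right ?_ hls.le
      have hA0 : (0 : ℝ) ≤ A := Nat.cast_nonneg A
      nlinarith
    rw [hC₂, add_mul, one_mul]
    linarith
  have hK0 : 0 < ((KK a D : ℕ) : ℝ) + 1 := by positivity
  have h3 : C₁ * δ * (1 + ℓ) < Real.log a * kap a D := by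
    unfold kap
    rw [mul_one_div, lt_div_iff₀ (by positivity)]
    have h4 : (1 + ℓ) ^ 2 * δ ≤ 34 * √δ := log_inv_le h0 h1
    calc C₁ * δ * (1 + ℓ) * (2 * (((KK a D : ℕ) : ℝ) + 1)) ≤ C₁ * δ * (1 + ℓ) * (2 * (C₂ * (1 + ℓ))) := by gcongr
      _ = 2 * C₁ * C₂ * ((1 + ℓ) ^ 2 * δ) := by ring
      _ ≤ 2 * C₁ * C₂ * (34 * √δ) := by gcongr
      _ ≤ 2 * C₁ * C₂ * (34 * Q) := by gcongr
      _ ≤ (68 * (C₁ + 1) * C₂ + 1) * Q := by nlinarith
      _ = Real.log a / 2 := by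
        rw [hQ]
        field_simp
      _ < Real.log a := by linarith
  rw [Real.rpow_def_of_pos ha0]
  exact Real.exp_lt_exp.2 h3

/-- trigonometric polynomials are Lipschitz -/
theorem gp_lip {H : ℕ} {c : ℤ → ℂ} {p : ℝ → ℝ} (hp : ∀ t, gp H c t = p t) (t u : ℝ) :
    |p t - p u| ≤ (2 * Real.pi * H * nm H c) * |t - u| := by
  have h1 : ((p t - p u : ℝ) : ℂ) = ∑ h ∈ Finset.Icc (-(H : ℤ)) H, c h * (e (h * t) - e (h * u)) := by
    push_cast
    rw [← hp t, ← hp u]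
    unfold gp
    rw [← sum_sub_distrib]
    exact sum_congr rfl fun h _ => by ring
  rw [← Real.norm_eq_abs, ← Complex.norm_real, h1]
  refine (norm_sum_le _ _).trans ?_
  unfold nm
  rw [mul_sum, sum_mul]
  refine sum_le_sum fun h hh => ?_
  rw [norm_mul]
  have h2 := norm_e_sub (h * t) (h * u)
  have h3 : |(h : ℝ)| ≤ H := by
    have hh' := Finset.mem_Icc.1 hh
    have h9 : (-(H : ℝ)) ≤ (h : ℝ) := by exact_mod_cast hh'.1
    have h10 : (h : ℝ) ≤ H := by exact_mod_cast hh'.2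
    exact abs_le.2 ⟨h9, h10⟩
  have h4 : |(h : ℝ) * t - h * u| ≤ H * |t - u| := by
    rw [← mul_sub, abs_mul]
    exact mul_le_mul_of_nonneg_right h3 (abs_nonneg _)
  have hpi := Real.pi_pos
  calc ‖c h‖ * ‖e (h * t) - e (h * u)‖ ≤ ‖c h‖ * (2 * Real.pi * (H * |t - u|)) := by
        refine mul_le_mul_of_nonneg_left (h2.trans ?_) (norm_nonneg _)
        exact mul_le_mul_of_nonneg_left h4 (by positivity)
    _ = 2 * Real.pi * H * ‖c h‖ * |t - u| := by ring

theorem TC.cont {A : ℕ} {δ : ℝ} {H : ℕ} {c : ℤ → ℂ} {p : ℝ → ℝ} (h : TC A δ H c p) : Continuous p := by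
  have h4 : p = fun t => (gp H c t).re := by
    funext t
    rw [h.eq t, Complex.ofReal_re]
  rw [h4]
  exact Complex.continuous_re.comp (gp_cont H c)

theorem TC.mean {A : ℕ} {δ : ℝ} {H : ℕ} {c : ℤ → ℂ} {p : ℝ → ℝ} (h : TC A δ H c p) : ∫ t in (0 : ℝ)..1, p t = 0 := by
  have := coeff_zero h.eq
  rw [h.c0] at this
  exact_mod_cast this.symm

theorem one_le_mgf {p : ℝ → ℝ} (hp : Continuous p) (hm : ∫ t in (0 : ℝ)..1, p t = 0) (θ : ℝ) :
    1 ≤ ∫ t in (0 : ℝ)..1, Real.exp (θ * p t) := by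
  have hc1 : Continuous fun t : ℝ => θ * p t := continuous_const.mul hp
  have hc2 : Continuous fun _ : ℝ => (1 : ℝ) := continuous_const
  have hc3 : Continuous fun t : ℝ => Real.exp (θ * p t) := Real.continuous_exp.comp hc1
  have h1 : ∫ t in (0 : ℝ)..1, (1 + θ * p t) = 1 := by
    rw [intervalIntegral.integral_add (hc2.intervalIntegrable _ _) (hc1.intervalIntegrable _ _),
      intervalIntegral.integral_const_mul, hm]
    simp
  calc (1 : ℝ) = ∫ t in (0 : ℝ)..1, (1 + θ * p t) := h1.symm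
    _ ≤ _ := intervalIntegral.integral_mono_on (by norm_num) ((hc2.add hc1).intervalIntegrable _ _)
      (hc3.intervalIntegrable _ _) fun t _ => ?_
  have := Real.add_one_le_exp (θ * p t)
  linarith

/-- remainder of the exponential series -/
theorem exp_rem {x r : ℝ} (hx : |x| ≤ r) (hr : r ≤ 1) (n : ℕ) :
    |Real.exp x - ∑ i ∈ range (n + 1), x ^ i / (i.factorial : ℝ)| ≤ 2 * r ^ (n + 1) := by
  have h1 := Real.exp_bound (hx.trans hr) (Nat.succ_pos n)
  refine h1.trans ?_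
  have h2 : |x| ^ (n + 1) ≤ r ^ (n + 1) := pow_le_pow_left₀ (abs_nonneg _) hx _
  have h3 : (((n + 1).succ : ℕ) : ℝ) / (((n + 1).factorial : ℝ) * ((n + 1 : ℕ) : ℝ)) ≤ 2 := by
    rw [div_le_iff₀ (by positivity)]
    have h4 : (1 : ℝ) ≤ ((n + 1).factorial : ℝ) := by exact_mod_cast Nat.one_le_iff_ne_zero.2 (Nat.factorial_ne_zero _)
    have h5 : (1 : ℝ) ≤ ((n + 1 : ℕ) : ℝ) := by exact_mod_cast Nat.le_add_left 1 n
    have h6 : (((n + 1).succ : ℕ) : ℝ) = ((n + 1 : ℕ) : ℝ) + 1 := by push_cast; ring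
    rw [h6]
    nlinarith
  have h7 : 0 ≤ r := (abs_nonneg _).trans hx
  calc |x| ^ (n + 1) * ((((n + 1).succ : ℕ) : ℝ) / (((n + 1).factorial : ℝ) * ((n + 1 : ℕ) : ℝ)))
      ≤ r ^ (n + 1) * 2 := mul_le_mul h2 h3 (by positivity) (by positivity)
    _ = _ := by ring

/-- **Uniform upper bound.** -/
theorem upper_all {a₀ : ℝ} (ha : 1 < a₀) (A k : ℕ) (hA : 1 ≤ A) : ∃ C δ₀ : ℝ, 0 < C ∧ 0 < δ₀ ∧ δ₀ ≤ 1 ∧
    ∀ a b δ : ℝ, a₀ ≤ a → a < b → 0 < δ → δ ≤ δ₀ → ∀ (H : ℕ) (c : ℤ → ℂ) (p : ℝ → ℝ), TC A δ H c p →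
      ∀ θ, 0 ≤ θ → θ ≤ A * δ → ∀ (s : ℕ → ℝ) (h : ℝ),
      dimH {x | x ∈ Icc a b ∧ ∃ᶠ N : ℕ in atTop, h * N ≤ Sp p s N x} ≤
        ENNReal.ofReal (1 - (θ * h - lam p θ - C * δ ^ k) / Real.log b) := by
  have hAr : (1 : ℝ) ≤ A := by exact_mod_cast hA
  set M : ℝ := (A : ℝ) ^ 2 with hM
  have hM1 : 1 ≤ M := one_le_pow₀ hAr
  set C₁ : ℝ := M + 2 * M ^ (k + 1) with hC₁
  have hC₁0 : 0 < C₁ := by positivity
  obtain ⟨δ₁, hδ₁, hδ₁1, hkap⟩ := kap_big ha A (B := 2 * (k + 1)) (C₁ := C₁) (by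
    have : (0 : ℝ) ≤ k := Nat.cast_nonneg k
    linarith) hC₁0.le
  refine ⟨4 * M ^ (k + 1), min δ₁ (1 / M), by positivity, by positivity, (min_le_left _ _).trans hδ₁1, ?_⟩
  intro a b δ haa hab hδ0 hδ H c p hp θ hθ0 hθ s h
  have hδ1 : δ ≤ 1 := hδ.trans ((min_le_left _ _).trans hδ₁1)
  have hMδ : M * δ ≤ 1 := by
    have := hδ.trans (min_le_right _ _)
    rwa [le_div_iff₀ (by positivity), mul_comm] at this
  set n : ℕ := k with hn
  set E : ℝ := 2 * (M * δ) ^ (n + 1) with hE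
  have hE0 : 0 < E := by positivity
  have hq : ∀ t, |θ * p t| ≤ M * δ := fun t => by
    rw [abs_mul, abs_of_nonneg hθ0]
    calc θ * |p t| ≤ (A * δ) * A := mul_le_mul hθ (hp.bd t) (abs_nonneg _) (by positivity)
      _ = M * δ := by rw [hM]; ring
  have hpc := hp.cont
  have hpm := hp.mean
  -- the majorant
  set T : ℝ → ℝ := fun t => ∑ i ∈ range (n + 1), (θ * p t) ^ i / (i.factorial : ℝ) with hT
  have hTc : Continuous T := by
    rw [hT]
    exact continuous_finsetSum _ fun i _ => ((continuous_const.mul hpc).pow i).div_const _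
  have hrem : ∀ t, |Real.exp (θ * p t) - T t| ≤ E := fun t => exp_rem (hq t) hMδ n
  set g : ℝ → ℝ := fun t => T t + E with hg
  have hexpg : ∀ t, Real.exp (θ * p t) ≤ g t := fun t => by
    have := (abs_le.1 (hrem t)).2
    show _ ≤ T t + E
    linarith
  set W : ℝ := θ * nm H c with hW
  have hW0 : 0 ≤ W := mul_nonneg hθ0 (nm_nonneg _ _)
  have hTP : TP (n * (H + 1) + 1) (Real.exp W + E) (fun t => (g t : ℂ)) := by
    have h1 : TP H (nm H c) (fun t => (p t : ℂ)) := ⟨c, hp.eq, le_rfl⟩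
    have h2 := h1.smul (θ : ℂ)
    rw [Complex.norm_real, Real.norm_eq_abs, abs_of_nonneg hθ0] at h2
    have h3 := (h2.exp hW0 n).mono_deg (H' := n * (H + 1) + 1) ((Nat.mul_le_mul_left n (Nat.le_succ H)).trans (Nat.le_succ _))
    have h4 := h3.add (TP.const (n * (H + 1) + 1) (E : ℂ))
    rw [Complex.norm_real, Real.norm_eq_abs, abs_of_pos hE0] at h4
    refine h4.congr fun t => ?_
    rw [hg, hT]
    push_cast
    rfl
  obtain ⟨d, hd1, hd2⟩ := hTP
  have hgc : Continuous g := hTc.add continuous_const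
  set m : ℝ := ∫ t in (0 : ℝ)..1, g t with hm
  have hd0 : d 0 = m := coeff_zero hd1
  have hmgf := one_le_mgf hpc hpm θ
  set X : ℝ := ∫ t in (0 : ℝ)..1, Real.exp (θ * p t) with hX
  have hec : Continuous fun t => Real.exp (θ * p t) := Real.continuous_exp.comp (continuous_const.mul hpc)
  have hm1 : X ≤ m := intervalIntegral.integral_mono_on (by norm_num) (hec.intervalIntegrable _ _) (hgc.intervalIntegrable _ _)
    fun t _ => hexpg t
  have hm2 : m ≤ X + 2 * E := by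
    have h1 : X + 2 * E = ∫ t in (0 : ℝ)..1, (Real.exp (θ * p t) + 2 * E) := by
      rw [intervalIntegral.integral_add (hec.intervalIntegrable _ _) (by simp), ← hX]
      simp
    rw [h1]
    refine intervalIntegral.integral_mono_on (by norm_num) (hgc.intervalIntegrable _ _)
      ((hec.add continuous_const).intervalIntegrable _ _) fun t _ => ?_
    have := (abs_le.1 (hrem t)).1
    show T t + E ≤ _
    linarith
  have hlog : Real.log m ≤ lam p θ + 2 * E := by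
    have h1 : Real.log m ≤ Real.log (X * (1 + 2 * E)) := Real.log_le_log (by linarith) (by nlinarith)
    rw [Real.log_mul (by linarith) (by positivity)] at h1
    have h2 : Real.log (1 + 2 * E) ≤ 2 * E := by
      have := Real.log_le_sub_one_of_pos (show 0 < 1 + 2 * E by positivity)
      linarith
    show Real.log m ≤ Real.log X + 2 * E
    linarith
  -- the norm
  have hnm : nm (n * (H + 1) + 1) d < m * a₀ ^ (kap a₀ ((n * (H + 1) + 1 : ℕ) : ℝ)) := by
    have hℓ : 0 ≤ Real.log (1 / δ) := Real.log_nonneg (by rw [le_div_iff₀ hδ0]; linarith)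
    have h1 : W ≤ M * δ * (1 + Real.log (1 / δ)) := by
      calc W ≤ (A * δ) * (A * (1 + Real.log (1 / δ))) := mul_le_mul hθ hp.nm_le (nm_nonneg _ _) (by positivity)
        _ = _ := by rw [hM]; ring
    have h2 : E ≤ 2 * M ^ (k + 1) * δ * (1 + Real.log (1 / δ)) := by
      have h3 : E = 2 * M ^ (k + 1) * δ ^ (k + 1) := by rw [hE, mul_pow]; ring
      have h4 : δ ^ (k + 1) ≤ δ := pow_le_of_le_one hδ0.le hδ1 (by omega)
      rw [h3]
      calc 2 * M ^ (k + 1) * δ ^ (k + 1) ≤ 2 * M ^ (k + 1) * δ := by gcongr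
        _ ≤ 2 * M ^ (k + 1) * δ * (1 + Real.log (1 / δ)) := le_mul_of_one_le_right (by positivity) (by linarith)
    have h3 : Real.exp W + E ≤ Real.exp (C₁ * δ * (1 + Real.log (1 / δ))) := by
      have h4 : Real.exp W + E ≤ Real.exp (W + E) := by
        rw [Real.exp_add]
        have h5 := Real.add_one_le_exp E
        have h6 : 1 ≤ Real.exp W := Real.one_le_exp hW0
        nlinarith
      refine h4.trans (Real.exp_le_exp.2 ?_)
      rw [hC₁]
      nlinarith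
    have h5 := hkap δ hδ0 (hδ.trans (min_le_left _ _)) (n * (H + 1) + 1) (by omega) (by
      have h6 := hp.deg
      have h7 : (1 : ℝ) ≤ (1 / δ) ^ A := one_le_pow₀ (by rw [le_div_iff₀ hδ0]; linarith)
      push_cast
      have h8 : (0 : ℝ) ≤ n := Nat.cast_nonneg n
      nlinarith)
    have h6 : 0 < a₀ ^ (kap a₀ ((n * (H + 1) + 1 : ℕ) : ℝ)) := Real.rpow_pos_of_pos (by linarith) _
    calc nm (n * (H + 1) + 1) d ≤ Real.exp W + E := hd2
      _ ≤ Real.exp (C₁ * δ * (1 + Real.log (1 / δ))) := h3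
      _ < a₀ ^ (kap a₀ ((n * (H + 1) + 1 : ℕ) : ℝ)) := h5
      _ ≤ m * a₀ ^ (kap a₀ ((n * (H + 1) + 1 : ℕ) : ℝ)) := by nlinarith
  have hlip : ∀ t u, |θ * p t - θ * p u| ≤ (θ * (2 * Real.pi * H * nm H c)) * |t - u| := fun t u => by
    rw [← mul_sub, abs_mul, abs_of_nonneg hθ0, mul_assoc]
    exact mul_le_mul_of_nonneg_left (gp_lip hp.eq t u) hθ0
  have hch := chernoff ha (lt_of_le_of_lt haa hab) (n * (H + 1) + 1) (by omega) d m g (fun t => θ * p t) _ (by linarith) hd0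
    hnm hd1 hexpg hlip s (θ * h)
  refine (dimH_mono ?_).trans (hch.trans (ENNReal.ofReal_le_ofReal ?_))
  · rintro x ⟨hx, hfr⟩
    refine ⟨⟨haa.trans hx.1, hx.2⟩, hfr.mono fun N hN => ?_⟩
    have h1 : Sp (fun t => θ * p t) s N x = θ * Sp p s N x := by
      unfold Sp
      rw [mul_sum]
    rw [h1, mul_assoc]
    exact mul_le_mul_of_nonneg_left hN hθ0
  · have hlb : 0 < Real.log b := Real.log_pos (by linarith)
    have h1 : 2 * E ≤ 4 * M ^ (k + 1) * δ ^ k := by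
      have h3 : 2 * E = 4 * M ^ (k + 1) * δ ^ (k + 1) := by rw [hE, mul_pow]; ring
      rw [h3]
      have h4 : δ ^ (k + 1) ≤ δ ^ k := pow_le_pow_of_le_one hδ0.le hδ1 (by omega)
      gcongr
    have h2 : (θ * h - lam p θ - 4 * M ^ (k + 1) * δ ^ k) / Real.log b ≤ (θ * h - Real.log m) / Real.log b := by
      refine div_le_div_of_nonneg_right ?_ hlb.le
      linarith
    linarith

end Pool.Agent.Helper18.GP
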